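import Mathlib

set_option autoImplicit false
set_option linter.unusedSectionVars false
set_option linter.unusedVariables false

namespace Pool.Agent.H425

open Polynomial

variable {m A : Type} [Fintype m] [DecidableEq m] [CommRing A]

/-- Jacobi's formula -/
theorem derivative_det (M : Matrix m m A[X]) :
    derivative M.det = (M.adjugate * M.map derivative).trace := by
  have h1 : derivative M.det = ∑ i, (M.updateCol i (fun k => derivative (M k i))).det := by
    simp only [Matrix.det_apply]
    rw [map_sum, Finset.sum_comm]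
    refine Finset.sum_congr rfl fun σ _ => ?_
    have h2 : derivative (Equiv.Perm.sign σ • ∏ i, M (σ i) i) =
        Equiv.Perm.sign σ • derivative (∏ i, M (σ i) i) := by
      rw [Units.smul_def, Units.smul_def, map_zsmul]
    rw [h2, ← Finset.smul_sum]
    congr 1
    rw [Polynomial.derivative_prod_finset]
    refine Finset.sum_congr rfl fun i _ => ?_
    rw [← Finset.prod_erase_mul _ _ (Finset.mem_univ i), Matrix.updateCol_self]
    congr 1
    refine Finset.prod_congr rfl fun j hj => ?_
    rw [Matrix.updateCol_ne (Finset.ne_of_mem_erase hj)]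
  rw [h1, Matrix.trace]
  refine Finset.sum_congr rfl fun i _ => ?_
  rw [← Matrix.cramer_apply, Matrix.cramer_eq_adjugate_mulVec, Matrix.diag_apply, Matrix.mul_apply]
  rfl

/-- the characteristic series `det (1 - X β)` -/
noncomputable def cs (β : Matrix m m A) : A[X] := (1 - (X : A[X]) • β.map C).det

theorem newton (β : Matrix m m A) (r : ℕ) :
    ((r + 1 : ℕ) : A) * (cs β).coeff (r + 1) =
      -∑ j ∈ Finset.range (r + 1), (β ^ (j + 1)).trace * (cs β).coeff (r - j) := by
  set M : Matrix m m A[X] := 1 - (X : A[X]) • β.map C with hM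
  let Nk : ℕ → Matrix m m A := fun k i j => (M.adjugate i j).coeff k
  have hadj : M.adjugate * M = cs β • (1 : Matrix m m A[X]) := Matrix.adjugate_mul M
  have hMij : ∀ i j, M i j = (1 : Matrix m m A[X]) i j - X * C (β i j) := by
    intro i j
    rw [hM, Matrix.sub_apply, Matrix.smul_apply, Matrix.map_apply, smul_eq_mul]
  have hrow : ∀ i j, M.adjugate i j - X * ∑ l, M.adjugate i l * C (β l j) =
      cs β * (1 : Matrix m m A[X]) i j := by
    intro i j
    have h := congrFun (congrFun hadj i) j
    rw [Matrix.mul_apply, Matrix.smul_apply, smul_eq_mul] at h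
    rw [← h]
    simp only [hMij, mul_sub]
    rw [Finset.sum_sub_distrib]
    congr 1
    · simp [Matrix.one_apply]
    · rw [Finset.mul_sum]
      refine Finset.sum_congr rfl fun l _ => ?_
      ring
  have hN0 : Nk 0 = (cs β).coeff 0 • (1 : Matrix m m A) := by
    ext i j
    have h := congrArg (fun q => coeff q 0) (hrow i j)
    simp only [coeff_sub, mul_coeff_zero, coeff_X_zero, zero_mul, sub_zero] at h
    change (M.adjugate i j).coeff 0 = _
    rw [h, Matrix.smul_apply, smul_eq_mul]
    congr 1
    rw [Matrix.one_apply, Matrix.one_apply]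
    split_ifs <;> simp
  have hNs : ∀ k, Nk (k + 1) = Nk k * β + (cs β).coeff (k + 1) • (1 : Matrix m m A) := by
    intro k
    ext i j
    have h := congrArg (fun q => coeff q (k + 1)) (hrow i j)
    simp only [coeff_sub, coeff_X_mul, finsetSum_coeff, coeff_mul_C] at h
    change (M.adjugate i j).coeff (k + 1) = _
    rw [Matrix.add_apply, Matrix.mul_apply, Matrix.smul_apply, smul_eq_mul]
    have h2 : (cs β * (1 : Matrix m m A[X]) i j).coeff (k + 1) =
        (cs β).coeff (k + 1) * (1 : Matrix m m A) i j := by
      rw [Matrix.one_apply, Matrix.one_apply]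
      split_ifs <;> simp
    rw [h2] at h
    have h3 : ∑ l, Nk k i l * β l j = ∑ l, (M.adjugate i l).coeff k * β l j := rfl
    rw [h3]
    linear_combination h
  have hNform : ∀ k, Nk k = ∑ i ∈ Finset.range (k + 1), (cs β).coeff (k - i) • β ^ i := by
    intro k
    induction k with
    | zero => rw [hN0]; simp
    | succ k ih =>
      rw [hNs, ih, Finset.sum_range_succ' _ (k + 1), Finset.sum_mul]
      congr 1
      refine Finset.sum_congr rfl fun i _ => ?_
      rw [Matrix.smul_mul, pow_succ]
      congr 2
      omega
  have hder := derivative_det M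
  have h1 : M.map derivative = -(β.map C) := by
    ext1 i j
    rw [Matrix.map_apply, hMij, Matrix.neg_apply, Matrix.map_apply, map_sub, derivative_mul,
      derivative_X, derivative_C, Matrix.one_apply]
    split_ifs <;> simp
  have h2 := congrArg (fun q => coeff q r) hder
  simp only [coeff_derivative] at h2
  have h3 : M.det = cs β := rfl
  rw [h3, h1] at h2
  have h4 : ((M.adjugate * -(β.map C)).trace).coeff r = -(Nk r * β).trace := by
    rw [Matrix.mul_neg, Matrix.trace_neg, coeff_neg, Matrix.trace, Matrix.trace, finsetSum_coeff]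
    congr 1
    refine Finset.sum_congr rfl fun i _ => ?_
    rw [Matrix.diag_apply, Matrix.diag_apply, Matrix.mul_apply, Matrix.mul_apply, finsetSum_coeff]
    refine Finset.sum_congr rfl fun l _ => ?_
    rw [Matrix.map_apply, coeff_mul_C]
  rw [h4, hNform, Finset.sum_mul, Matrix.trace_sum] at h2
  push_cast
  rw [mul_comm, h2]
  congr 1
  refine Finset.sum_congr rfl fun j _ => ?_
  rw [Matrix.smul_mul, Matrix.trace_smul, ← pow_succ, smul_eq_mul, mul_comm]

theorem cs_zero (β : Matrix m m A) : (cs β).coeff 0 = 1 := by
  rw [cs, coeff_zero_eq_eval_zero, ← coe_evalRingHom, RingHom.map_det]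
  have : (evalRingHom (0 : A)).mapMatrix (1 - (X : A[X]) • β.map C) = 1 := by
    ext i j
    rw [RingHom.mapMatrix_apply, Matrix.map_apply, Matrix.sub_apply, Matrix.smul_apply,
      Matrix.map_apply, smul_eq_mul, map_sub, map_mul, coe_evalRingHom, eval_X, zero_mul, sub_zero,
      Matrix.one_apply, Matrix.one_apply]
    split_ifs <;> simp
  rw [this, Matrix.det_one]

/-- coefficients of the characteristic series are sums of principal minors -/
theorem cs_coeff (β : Matrix m m A) (r : ℕ) : (cs β).coeff r =
    (-1) ^ r * ∑ s ∈ Finset.univ.powersetCard r,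
      (β.submatrix (Subtype.val : {x // x ∈ s} → m) (Subtype.val : {x // x ∈ s} → m)).det := by
  have h := Matrix.coeff_det_one_add_X_smul_eq_sum_minors (-β) r
  have h1 : (1 : Matrix m m A[X]) + (X : A[X]) • (-β).map C = 1 - (X : A[X]) • β.map C := by
    ext1 i j
    simp only [Matrix.add_apply, Matrix.sub_apply, Matrix.smul_apply, Matrix.map_apply,
      Matrix.neg_apply, smul_eq_mul, map_neg]
    ring
  rw [h1] at h
  rw [cs, h, Finset.mul_sum]
  refine Finset.sum_congr rfl fun s hs => ?_
  rw [Finset.mem_powersetCard] at hs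
  have h2 : (-β).submatrix (Subtype.val : {x // x ∈ s} → m) (Subtype.val : {x // x ∈ s} → m) =
      -(β.submatrix (Subtype.val : {x // x ∈ s} → m) (Subtype.val : {x // x ∈ s} → m)) := rfl
  rw [h2, Matrix.det_neg, Fintype.card_coe, hs.2]

theorem det_mul_submatrix {n : Type} [Fintype n] [DecidableEq n] (M N : Matrix m m A)
    (α γ : n → m) : ((M * N).submatrix α γ).det =
      ∑ h : n → m, (∏ i, M (α i) (h i)) * (N.submatrix h γ).det := by
  rw [← Matrix.det_transpose, Matrix.det_apply']
  have h1 : ∀ σ : Equiv.Perm n, ∏ i, ((M * N).submatrix α γ).transpose (σ i) i =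
      ∑ h : n → m, (∏ i, M (α i) (h i)) * ∏ i, N (h i) (γ (σ i)) := by
    intro σ
    simp only [Matrix.transpose_apply, Matrix.submatrix_apply, Matrix.mul_apply]
    rw [Finset.prod_univ_sum, Fintype.piFinset_univ]
    refine Finset.sum_congr rfl fun h _ => ?_
    rw [Finset.prod_mul_distrib]
  simp only [h1, Finset.mul_sum]
  rw [Finset.sum_comm]
  refine Finset.sum_congr rfl fun h _ => ?_
  rw [← Matrix.det_transpose (N.submatrix h γ), Matrix.det_apply', Finset.mul_sum]
  refine Finset.sum_congr rfl fun σ _ => ?_
  simp only [Matrix.transpose_apply, Matrix.submatrix_apply]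
  ring

end Pool.Agent.H425
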