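import Pool.Agent.H425.Lead

set_option autoImplicit false
set_option linter.unusedSectionVars false
set_option linter.unusedVariables false

namespace Pool.Agent.H425

open Polynomial

/-- integer polynomial computing exponential sums -/
noncomputable def Epoly (p : ℕ) {K : Type} [Field K] {ι : Type} (f : MvPolynomial ι K) (a : ℕ) : ℤ[X] :=
  ∑ a0 ∈ Finset.range p, X ^ a0 * C ((Nat.card {x : ι → K // (∀ i, x i ^ (p ^ a) = x i) ∧
    ∑ t ∈ Finset.range a, (MvPolynomial.eval x f) ^ (p ^ t) = (a0 : K)} : ℕ) : ℤ)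

theorem aeval_Epoly (p : ℕ) {K : Type} [Field K] {ι : Type} (f : MvPolynomial ι K) (a : ℕ)
    {A : Type} [CommRing A] [Algebra ℤ A] (z : A) : aeval z (Epoly p f a) = expSum p f a z := by
  rw [Epoly, expSum, map_sum]
  refine Finset.sum_congr rfl fun a0 _ => ?_
  rw [map_mul, map_pow, aeval_X, aeval_C]
  simp

theorem exists_common (E : ℕ → ℤ[X]) (sg : ℤ) {A B : Type} [CommRing A] [CommRing B]
    [Algebra ℤ A] [Algebra ℤ B] (z : A) (w : B)
    (c : ℕ → A) (c' : ℕ → B) (h0 : c 0 = 1) (h0' : c' 0 = 1)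
    (h : ∀ r, ((r + 1 : ℕ) : A) * c (r + 1) =
      (sg : A) * ∑ j ∈ Finset.range (r + 1), aeval z (E (j + 1)) * c (r - j))
    (h' : ∀ r, ((r + 1 : ℕ) : B) * c' (r + 1) =
      (sg : B) * ∑ j ∈ Finset.range (r + 1), aeval w (E (j + 1)) * c' (r - j)) (r : ℕ) :
    ∃ P : ℤ[X], aeval z P = (r.factorial : A) * c r ∧ aeval w P = (r.factorial : B) * c' r := by
  induction r using Nat.strong_induction_on with
  | _ r ih =>
    cases r with
    | zero => exact ⟨1, by simp [h0], by simp [h0']⟩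
    | succ r =>
      choose P hP using fun (j : ℕ) (hj : j < r + 1) => ih j hj
      let PP : ℕ → ℤ[X] := fun j => if hj : r - j < r + 1 then P (r - j) hj else 0
      have hPP : ∀ j, PP j = P (r - j) (by omega) := fun j => dif_pos _
      have hfac : ∀ j ∈ Finset.range (r + 1), r.factorial = r.descFactorial j * (r - j).factorial := by
        intro j hj
        rw [Finset.mem_range] at hj
        rw [mul_comm, Nat.factorial_mul_descFactorial (by omega)]
      refine ⟨C sg * ∑ j ∈ Finset.range (r + 1), E (j + 1) * C (r.descFactorial j : ℤ) * PP j, ?_, ?_⟩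
      · rw [map_mul, aeval_C, map_sum, Nat.factorial_succ, mul_comm (r + 1), Nat.cast_mul, mul_assoc,
          h r, eq_intCast, mul_left_comm]
        congr 1
        rw [Finset.mul_sum]
        refine Finset.sum_congr rfl fun j hj => ?_
        rw [map_mul, map_mul, aeval_C, hPP, (hP _ _).1, eq_intCast, hfac j hj]
        push_cast
        ring
      · rw [map_mul, aeval_C, map_sum, Nat.factorial_succ, mul_comm (r + 1), Nat.cast_mul, mul_assoc,
          h' r, eq_intCast, mul_left_comm]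
        congr 1
        rw [Finset.mul_sum]
        refine Finset.sum_congr rfl fun j hj => ?_
        rw [map_mul, map_mul, aeval_C, hPP, (hP _ _).2, eq_intCast, hfac j hj]
        push_cast
        ring

section

variable {p : ℕ} [hp : Fact p.Prime] {F : Type} [Field F] [Algebra ℚ F] [IsCyclotomicExtension {p} ℚ F]

include hp in
theorem val_factorial_mul (r : ℕ) (hr : r < p) (x : F) (hx : x ≠ 0) :
    padicValRat p (Algebra.norm ℚ ((r.factorial : F) * x)) = padicValRat p (Algebra.norm ℚ x) := by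
  have hfd : FiniteDimensional ℚ F := IsCyclotomicExtension.finiteDimensional {p} ℚ F
  have h1 : Algebra.norm ℚ (r.factorial : F) = (r.factorial : ℚ) ^ Module.finrank ℚ F := by
    have := Algebra.norm_algebraMap (R := ℚ) (S := F) (r.factorial : ℚ)
    simpa using this
  have h2 : (r.factorial : ℚ) ≠ 0 := Nat.cast_ne_zero.2 (Nat.factorial_ne_zero r)
  rw [map_mul, h1, padicValRat.mul (pow_ne_zero _ h2) (Algebra.norm_ne_zero_iff.2 hx),
    padicValRat.pow]
  have h3 : padicValRat p (r.factorial : ℚ) = 0 := by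
    rw [padicValRat.of_nat]
    have : ¬ p ∣ r.factorial := by
      rw [hp.out.dvd_factorial]
      omega
    rw [padicValNat.eq_zero_of_not_dvd this]
    rfl
  rw [h3]
  ring

end

namespace Setup

variable {p d : ℕ} [hp : Fact p.Prime] {K R : Type} [Field K] [CommRing R] [IsDomain R]
  (S : Setup p d K R) {ι : Type} [Fintype ι] [DecidableEq ι]
  {F : Type} [Field F] [Algebra ℚ F] [IsCyclotomicExtension {p} ℚ F]

theorem exists_prim [CharP K p] [IsAlgClosed K] (a : ℕ) (ha : 1 ≤ a) :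
    ∃ ζ : K, IsPrimitiveRoot ζ (p ^ a - 1) := by
  have h1 : ((p ^ a - 1 : ℕ) : K) ≠ 0 := by
    rw [Nat.cast_sub (Nat.one_le_pow _ _ hp.out.pos)]
    push_cast
    rw [CharP.cast_eq_zero, zero_pow (by omega)]
    simp
  have : NeZero ((p ^ a - 1 : ℕ) : K) := ⟨h1⟩
  exact HasEnoughRootsOfUnity.exists_primitiveRoot K (p ^ a - 1)

variable {S}

theorem rec_cs [CharP K p] [IsAlgClosed K] {N : ℕ} {f : MvPolynomial ι K} {e : ℕ}
    {b : (ι → Fin e) → (ι →₀ ℕ)} (D : S.BD N f e b) (hι : 1 ≤ Fintype.card ι) (m : ℕ) (hm : 1 ≤ m)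
    (hfm : ∀ s, MvPolynomial.coeff s f ^ (p ^ m) = MvPolynomial.coeff s f) (r : ℕ) :
    ((r + 1 : ℕ) : S.Q N) * (cs (prodn (Bt D) m)).coeff (r + 1) =
      (((-1) ^ (Fintype.card ι - 1) : ℤ) : S.Q N) * ∑ j ∈ Finset.range (r + 1),
        aeval (S.zet N) (Epoly p f (m * (j + 1))) * (cs (prodn (Bt D) m)).coeff (r - j) := by
  have hnew := newton (prodn (Bt D) m) r
  rw [hnew, Finset.mul_sum, ← Finset.sum_neg_distrib]
  refine Finset.sum_congr rfl fun j _ => ?_
  have hfa : ∀ s, MvPolynomial.coeff s f ^ (p ^ (m * (j + 1))) = MvPolynomial.coeff s f := by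
    intro s
    generalize j + 1 = i
    induction i with
    | zero => simp
    | succ i ih => rw [mul_add, mul_one, pow_add, pow_mul, ih, hfm]
  have ha : 1 ≤ m * (j + 1) := Nat.mul_pos hm (Nat.succ_pos j)
  obtain ⟨ζ, hζ⟩ := exists_prim (K := K) (p := p) (m * (j + 1)) ha
  have e1 : aeval (S.zet N) (Epoly p f (m * (j + 1))) =
      (-1) ^ Fintype.card ι * (prodn (Bt D) m ^ (j + 1)).trace := by
    rw [aeval_Epoly, expSum_block D (m * (j + 1)) ha hfa ζ hζ,
      prodn_mul (Bt D) m (Bt_periodic D m hfm)]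
  rw [e1]
  generalize (prodn (Bt D) m ^ (j + 1)).trace = T
  generalize (cs (prodn (Bt D) m)).coeff (r - j) = C0
  obtain ⟨k, hk⟩ := Nat.exists_eq_add_of_le hι
  rw [hk, Nat.add_sub_cancel_left, pow_add, pow_one]
  push_cast
  have h1 : ((-1 : S.Q N) ^ k) * (-1) ^ k = 1 := by rw [← mul_pow]; simp
  linear_combination (T * C0) * h1

/-- **the lower bound** -/
theorem coreA [CharP K p] [IsAlgClosed K] (S : Setup p d K R) (hp5 : 5 ≤ p) (hd : 2 ≤ d)
    (f : MvPolynomial ι K)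
    (hf : f.totalDegree = d)
    (hsm : ∀ x : ι → K, (∀ i, x i * MvPolynomial.eval x (MvPolynomial.pderiv i
      (MvPolynomial.homogeneousComponent d f)) = 0) → x = 0)
    (hι : 1 ≤ Fintype.card ι) (m : ℕ) (hm : 1 ≤ m)
    (hfm : ∀ s, MvPolynomial.coeff s f ^ (p ^ m) = MvPolynomial.coeff s f)
    (ζ : F) (hζ : IsPrimitiveRoot ζ p) (c : ℕ → F) (hc0 : c 0 = 1)
    (hc : ∀ r, ((r + 1 : ℕ) : F) * c (r + 1) =
      (((-1) ^ (Fintype.card ι - 1) : ℤ) : F) * ∑ j ∈ Finset.range (r + 1),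
        expSum p f (m * (j + 1)) ζ * c (r - j))
    (r : ℕ) (hr : r < p) (hcr : c r ≠ 0) (E : ℕ)
    (hE : ∀ s : Finset (ι → Fin (d - 1)), s.card = r → E ≤ ∑ u ∈ s, (∑ i, (u i : ℕ) + Fintype.card ι)) :
    ∃ v : ℕ, padicValRat p (Algebra.norm ℚ (c r)) = v ∧ (p - 3) * E * m ≤ d * v := by
  obtain ⟨b, hb⟩ := S.exists_BD hp5 hd f hf hsm
  have hch : CharZero F := charZero_of_injective_algebraMap (algebraMap ℚ F).injective
  -- the common polynomial
  have hcom : ∀ N, 1 ≤ N → ∀ D : S.BD N f (d - 1) b, ∃ P : ℤ[X], aeval ζ P = (r.factorial : F) * c r ∧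
      aeval (S.zet N) P = (r.factorial : S.Q N) * (cs (prodn (Bt D) m)).coeff r := by
    intro N hN D
    refine exists_common (fun j => Epoly p f (m * j)) ((-1) ^ (Fintype.card ι - 1)) ζ (S.zet N) c
      (fun r => (cs (prodn (Bt D) m)).coeff r) hc0 (cs_zero _) ?_ ?_ r
    · intro r
      simp only [aeval_Epoly]
      exact hc r
    · intro r
      exact rec_cs D hι m hm hfm r
  have hfr : (r.factorial : F) * c r ≠ 0 :=
    mul_ne_zero (Nat.cast_ne_zero.2 (Nat.factorial_ne_zero r)) hcr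
  have hval : ∀ P : ℤ[X], aeval ζ P = (r.factorial : F) * c r → ∃ a : ℕ,
      padicValRat p (Algebra.norm ℚ (c r)) = a ∧
      ∃ U W : ℤ[X], P = (X - 1) ^ a * U + (∑ i ∈ Finset.range p, X ^ i) * W ∧
      ¬ (p : ℤ) ∣ U.eval 1 := by
    intro P hP
    obtain ⟨a, ha, U, W, h1, h2⟩ := factor p (by omega) hζ
      (padicValRat p (Algebra.norm ℚ (aeval ζ P))).toNat P (by rw [hP]; exact hfr)
      (Int.self_le_toNat _)
    rw [hP, val_factorial_mul r hr (c r) hcr] at ha
    exact ⟨a, ha, U, W, h1, h2⟩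
  obtain ⟨P1, hP1, -⟩ := hcom 1 le_rfl (hb 1 le_rfl)
  obtain ⟨v, hv, -⟩ := hval P1 hP1
  refine ⟨v, hv, ?_⟩
  by_contra hlt
  push Not at hlt
  set N := (p - 3) * E * m with hN
  have hN1 : 1 ≤ N := by omega
  set D := hb N hN1 with hD
  obtain ⟨P, hP, hP2⟩ := hcom N hN1 D
  obtain ⟨a, ha, U, W, hUW, hU⟩ := hval P hP
  have hav : a = v := by
    rw [hv] at ha
    exact_mod_cast ha.symm
  obtain ⟨u, hu, hu2⟩ := S.eval_zet hp5 (by omega) N hN1 P U W a hUW hU
  have hdiv := cs_coeff_dvd (S.rd N S.lam) (p - 3) (fun u => ∑ i, (u i : ℕ) + Fintype.card ι)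
    (Bt D) (fun t i j => Bt_dvd D t i j) r E hE m
  rw [← hN, S.lam_nil N, zero_dvd_iff] at hdiv
  rw [hP2, hdiv, mul_zero] at hu2
  have h3 := hu2.symm
  rw [rd_eq_zero, hav] at h3
  obtain ⟨k, hk⟩ := Nat.exists_eq_add_of_lt hlt
  rw [hk, add_assoc, pow_add] at h3
  have h4 := (mul_dvd_mul_iff_left (pow_ne_zero _ S.lam_ne)).1 h3
  have h5 : S.lam ∣ u := (dvd_pow_self _ (Nat.succ_ne_zero k)).trans h4
  obtain ⟨q, hq⟩ := h5
  apply hu
  rw [hq, map_mul, S.res_lam, zero_mul]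

end Setup

end Pool.Agent.H425
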