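import Pool.Agent.H425.YB

set_option autoImplicit false
set_option linter.unusedSectionVars false
set_option linter.unusedVariables false

namespace Pool.Agent.H425

open MvPolynomial

variable {ι : Type} [Fintype ι] [DecidableEq ι] {L K : Type} [CommRing L] [Field K]

theorem exists_lift (ρ : L →+* K) (hρ : Function.Surjective ρ) {M : ℕ} {P : MvPolynomial ι K}
    (hP : P ∈ VV ι K M) : ∃ P' ∈ VV ι L M, MvPolynomial.map ρ P' = P := by
  choose f hf using hρ
  refine ⟨∑ m ∈ DD ι M, monomial m (f (coeff m P)), ?_, ?_⟩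
  · exact Submodule.sum_mem _ fun m hm => monomial_mem_VV ((mem_DD M m).1 hm) _
  · rw [map_sum]
    conv_rhs => rw [eq_sum_DD hP]
    refine Finset.sum_congr rfl fun m _ => ?_
    rw [map_monomial, hf]

theorem exists_ker (ρ : L →+* K) (lam : L) (hker : ∀ x, ρ x = 0 → lam ∣ x) {M : ℕ}
    {P : MvPolynomial ι L} (hP : P ∈ VV ι L M) (h : MvPolynomial.map ρ P = 0) :
    ∃ Q ∈ VV ι L M, P = lam • Q := by
  have h1 : ∀ m, ∃ q, coeff m P = lam * q := by
    intro m
    apply hker
    rw [← coeff_map, h, coeff_zero]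
  choose f hf using h1
  refine ⟨∑ m ∈ DD ι M, monomial m (f m), ?_, ?_⟩
  · exact Submodule.sum_mem _ fun m hm => monomial_mem_VV ((mem_DD M m).1 hm) _
  · rw [Finset.smul_sum]
    conv_lhs => rw [eq_sum_DD hP]
    refine Finset.sum_congr rfl fun m _ => ?_
    rw [smul_monomial, smul_eq_mul, ← hf]

theorem homog_mem_VV {j : ℕ} {P : MvPolynomial ι L} (hP : P.IsHomogeneous j) : P ∈ VV ι L j := by
  intro m hm
  by_contra h
  have h1 := hP h
  have h2 : (Finsupp.weight (1 : ι → ℕ)) m = m.degree := by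
    rw [Finsupp.degree_eq_weight_one]
    rfl
  rw [h2] at h1
  omega

theorem map_mem_VV (ρ : L →+* K) {M : ℕ} {P : MvPolynomial ι L} (hP : P ∈ VV ι L M) :
    MvPolynomial.map ρ P ∈ VV ι K M := by
  intro m hm
  rw [coeff_map, hP m hm, map_zero]

/-- the hypotheses on the leading form -/
structure YData (ρ : L →+* K) (e : ℕ) (H : MvPolynomial ι L) (b : (ι → Fin e) → (ι →₀ ℕ)) : Prop where
  hH : H ∈ VV ι L (e + 1)
  hb : ∀ u, (b u).degree = ∑ i, (u i : ℕ)
  hg : ∀ i, (MvPolynomial.map ρ (pderiv i H)).IsHomogeneous e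
  hspan : ∀ (j : ℕ) (P : MvPolynomial ι K), P.IsHomogeneous j →
    ∃ (a : ι → MvPolynomial ι K) (c : (ι → Fin e) → K),
      (∀ i, e ≤ j → (a i).IsHomogeneous (j - e)) ∧ (∀ i, j < e → a i = 0) ∧
      P = ∑ i, a i * MvPolynomial.map ρ (pderiv i H) +
        ∑ u with ∑ i, (u i : ℕ) = j, monomial (b u) (c u)

theorem qt_small (e : ℕ) (he : 0 < e) (u : ι → Fin e) :
    qt e (Finsupp.equivFunOnFinite.symm (fun i => (u i : ℕ))) = 0 := by
  ext i
  simp only [qt, Finsupp.equivFunOnFinite_symm_apply_apply, Finsupp.coe_zero, Pi.zero_apply]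
  exact Nat.div_eq_of_lt (u i).2

theorem rm_small (e : ℕ) (he : 0 < e) (u : ι → Fin e) :
    rm e he (Finsupp.equivFunOnFinite.symm (fun i => (u i : ℕ))) = u := by
  ext i
  simp only [rm, Finsupp.equivFunOnFinite_symm_apply_apply]
  exact Nat.mod_eq_of_lt (u i).2

theorem Phi_small (H : MvPolynomial ι L) (e : ℕ) (he : 0 < e) (b : (ι → Fin e) → (ι →₀ ℕ))
    (u : ι → Fin e) (r : L) :
    Phi H e he b (monomial (Finsupp.equivFunOnFinite.symm (fun i => (u i : ℕ))) r) =
      monomial (b u) r := by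
  have : monomial (Finsupp.equivFunOnFinite.symm (fun i => (u i : ℕ))) r =
      r • monomial (Finsupp.equivFunOnFinite.symm (fun i => (u i : ℕ))) (1 : L) := by
    rw [smul_monomial, smul_eq_mul, mul_one]
  rw [this, map_smul, Phi_monomial, qt_small e he, rm_small, yp_zero, Module.End.one_apply,
    smul_monomial, smul_eq_mul, mul_one]

theorem degree_small (e : ℕ) (u : ι → Fin e) :
    (Finsupp.equivFunOnFinite.symm (fun i => (u i : ℕ)) : ι →₀ ℕ).degree = ∑ i, (u i : ℕ) := by
  rw [Finsupp.degree_eq_sum]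
  rfl

theorem span_step (ρ : L →+* K) (hρ : Function.Surjective ρ) (lam : L)
    (hker : ∀ x, ρ x = 0 → lam ∣ x) (e : ℕ) (he : 0 < e) (H : MvPolynomial ι L)
    (b : (ι → Fin e) → (ι →₀ ℕ)) (Y : YData ρ e H b) (M : ℕ)
    (ih : ∀ M' < M, VV ι L M' ≤ (VV ι L M').map (Phi H e he b)) :
    ∀ P ∈ VV ι L M, ∃ P₁ ∈ (VV ι L M).map (Phi H e he b), ∃ P₂ ∈ VV ι L M, P = P₁ + lam • P₂ := by
  intro P hP
  -- leading component
  obtain ⟨a, c, ha1, ha2, hac⟩ := Y.hspan M (homogeneousComponent M (MvPolynomial.map ρ P))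
    (homogeneousComponent_isHomogeneous _ _)
  -- lifts
  have hlift : ∀ i, ∃ A : MvPolynomial ι L, MvPolynomial.map ρ A = a i ∧
      (e ≤ M → A ∈ VV ι L (M - e)) ∧ (M < e → A = 0) := by
    intro i
    by_cases h : e ≤ M
    · obtain ⟨A, hA1, hA2⟩ := exists_lift ρ hρ (homog_mem_VV (ha1 i h))
      exact ⟨A, hA2, fun _ => hA1, fun h' => absurd h (by omega)⟩
    · exact ⟨0, by rw [map_zero, ha2 i (by omega)], fun h' => absurd h' h, fun _ => rfl⟩
  choose A hA1 hA2 hA3 using hlift
  choose cc hcc using fun u => hρ (c u)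
  -- the first approximation
  have hyA : ∀ i, yop H i (A i) ∈ (VV ι L M).map (Phi H e he b) := by
    intro i
    by_cases h : e ≤ M
    · have h1 := ih (M - e) (by omega) (hA2 i h)
      obtain ⟨q, hq, hq2⟩ := h1
      refine ⟨X i ^ e * q, ?_, ?_⟩
      · have h2 : (X i : MvPolynomial ι L) ^ e ∈ VV ι L e := by
          rw [X_pow_eq_monomial]
          exact monomial_mem_VV (by rw [Finsupp.degree_single]) _
        have := mul_mem_VV h2 hq
        rwa [Nat.add_sub_cancel' h] at this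
      · rw [Phi_X, hq2]
    · rw [hA3 i (by omega), map_zero]
      exact Submodule.zero_mem _
  have hyV : ∀ i, yop H i (A i) ∈ VV ι L M := by
    intro i
    obtain ⟨q, hq, hq2⟩ := hyA i
    rw [← hq2]
    exact Phi_mem_VV he Y.hH Y.hb hq
  set T₁ := ∑ i, yop H i (A i) with hT₁
  set T₂ := ∑ u with ∑ i, ((u : ι → Fin e) i : ℕ) = M, monomial (b u) (cc u) with hT₂
  have hT₁V : T₁ ∈ VV ι L M := Submodule.sum_mem _ fun i _ => hyV i
  have hT₂V : T₂ ∈ VV ι L M := by
    refine Submodule.sum_mem _ fun u hu => monomial_mem_VV ?_ _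
    rw [Finset.mem_filter] at hu
    rw [Y.hb, hu.2]
  have hT₁m : T₁ ∈ (VV ι L M).map (Phi H e he b) := Submodule.sum_mem _ fun i _ => hyA i
  have hT₂m : T₂ ∈ (VV ι L M).map (Phi H e he b) := by
    refine Submodule.sum_mem _ fun u hu => ?_
    rw [Finset.mem_filter] at hu
    refine ⟨monomial (Finsupp.equivFunOnFinite.symm (fun i => (u i : ℕ))) (cc u), ?_, ?_⟩
    · exact monomial_mem_VV (by rw [degree_small, hu.2]) _
    · exact Phi_small H e he b u (cc u)
  set P' := P - T₁ - T₂ with hP'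
  have hP'V : P' ∈ VV ι L M := Submodule.sub_mem _ (Submodule.sub_mem _ hP hT₁V) hT₂V
  -- the reduction of `P'` has no component of degree `M`
  have hred : ∀ m : ι →₀ ℕ, m.degree = M → coeff m (MvPolynomial.map ρ P') = 0 := by
    intro m hm
    have h1 : coeff m (MvPolynomial.map ρ P) =
        coeff m (homogeneousComponent M (MvPolynomial.map ρ P)) := by
      rw [coeff_homogeneousComponent, if_pos hm]
    have h2 : coeff m (MvPolynomial.map ρ T₁) =
        coeff m (∑ i, a i * MvPolynomial.map ρ (pderiv i H)) := by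
      rw [hT₁, map_sum, coeff_sum, coeff_sum]
      refine Finset.sum_congr rfl fun i _ => ?_
      rw [yop_apply, map_add, map_mul, hA1, coeff_add]
      have h3 : coeff m (MvPolynomial.map ρ (pderiv i (A i))) = 0 := by
        rw [coeff_map]
        by_cases h : e ≤ M
        · have h4 := pderiv_mem_VV (hA2 i h) i
          rw [h4 m (by omega), map_zero]
        · rw [hA3 i (by omega), map_zero, coeff_zero, map_zero]
      rw [h3, zero_add, mul_comm]
    have h3 : coeff m (MvPolynomial.map ρ T₂) =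
        coeff m (∑ u with ∑ i, ((u : ι → Fin e) i : ℕ) = M, monomial (b u) (c u)) := by
      rw [hT₂, map_sum]
      simp only [map_monomial, hcc]
    rw [hP', map_sub, map_sub, coeff_sub, coeff_sub, h1, h2, h3, hac, coeff_add]
    ring
  -- conclude
  have hfin : ∃ P₁ ∈ (VV ι L M).map (Phi H e he b), ∃ P₂ ∈ VV ι L M, P' = P₁ + lam • P₂ := by
    rcases Nat.eq_zero_or_pos M with hM0 | hM0
    · have h1 : MvPolynomial.map ρ P' = 0 := by
        ext m
        rw [coeff_zero]
        by_cases h : m.degree = M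
        · exact hred m h
        · exact map_mem_VV ρ hP'V m (by omega)
      obtain ⟨Q, hQ, hQ2⟩ := exists_ker ρ lam hker hP'V h1
      exact ⟨0, Submodule.zero_mem _, Q, hQ, by rw [hQ2, zero_add]⟩
    · have h1 : MvPolynomial.map ρ P' ∈ VV ι K (M - 1) := by
        intro m hm
        by_cases h : m.degree = M
        · exact hred m h
        · exact map_mem_VV ρ hP'V m (by omega)
      obtain ⟨B, hB1, hB2⟩ := exists_lift ρ hρ h1
      have h2 : MvPolynomial.map ρ (P' - B) = 0 := by rw [map_sub, hB2, sub_self]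
      have hBV : B ∈ VV ι L M := VV_mono (by omega) hB1
      obtain ⟨Q, hQ, hQ2⟩ := exists_ker ρ lam hker (Submodule.sub_mem _ hP'V hBV) h2
      refine ⟨B, ?_, Q, hQ, ?_⟩
      · exact Submodule.map_mono (VV_mono (by omega)) (ih (M - 1) (by omega) hB1)
      · rw [← hQ2]; ring
  obtain ⟨P₁, hP₁, P₂, hP₂, h12⟩ := hfin
  refine ⟨T₁ + T₂ + P₁, Submodule.add_mem _ (Submodule.add_mem _ hT₁m hT₂m) hP₁, P₂, hP₂, ?_⟩
  have : P = T₁ + T₂ + P' := by rw [hP']; ring
  rw [this, h12]
  ring

theorem span_all (ρ : L →+* K) (hρ : Function.Surjective ρ) (lam : L)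
    (hker : ∀ x, ρ x = 0 → lam ∣ x) (N : ℕ) (hN : lam ^ N = 0) (e : ℕ) (he : 0 < e)
    (H : MvPolynomial ι L) (b : (ι → Fin e) → (ι →₀ ℕ)) (Y : YData ρ e H b) (M : ℕ) :
    VV ι L M ≤ (VV ι L M).map (Phi H e he b) := by
  induction M using Nat.strong_induction_on with
  | _ M ih =>
    have hstep := span_step ρ hρ lam hker e he H b Y M ih
    have key : ∀ k : ℕ, ∀ P ∈ VV ι L M, ∃ P₁ ∈ (VV ι L M).map (Phi H e he b), ∃ P₂ ∈ VV ι L M,
        P = P₁ + lam ^ k • P₂ := by
      intro k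
      induction k with
      | zero =>
        intro P hP
        exact ⟨0, Submodule.zero_mem _, P, hP, by simp⟩
      | succ k ihk =>
        intro P hP
        obtain ⟨P₁, h1, P₂, h2, h3⟩ := ihk P hP
        obtain ⟨Q₁, g1, Q₂, g2, g3⟩ := hstep P₂ h2
        refine ⟨P₁ + lam ^ k • Q₁, Submodule.add_mem _ h1 (Submodule.smul_mem _ _ g1), Q₂, g2, ?_⟩
        rw [h3, g3, smul_add, smul_smul, pow_succ, add_assoc]
    intro P hP
    obtain ⟨P₁, h1, P₂, h2, h3⟩ := key N P hP
    rw [hN, zero_smul, add_zero] at h3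
    rw [h3]
    exact h1

/-- the adapted basis is a basis -/
theorem Phi_bijective (ρ : L →+* K) (hρ : Function.Surjective ρ) (lam : L)
    (hker : ∀ x, ρ x = 0 → lam ∣ x) (N : ℕ) (hN : lam ^ N = 0) (e : ℕ) (he : 0 < e)
    (H : MvPolynomial ι L) (b : (ι → Fin e) → (ι →₀ ℕ)) (Y : YData ρ e H b) :
    Function.Bijective (Phi H e he b) := by
  have hs := span_all ρ hρ lam hker N hN e he H b Y
  constructor
  · rw [injective_iff_map_eq_zero]
    intro P hP
    obtain ⟨M, hM⟩ := exists_VV P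
    let f : VV ι L M →ₗ[L] VV ι L M := (Phi H e he b).restrict (fun x hx => Phi_mem_VV he Y.hH Y.hb hx)
    have hf : Function.Surjective f := by
      rintro ⟨x, hx⟩
      obtain ⟨y, hy, hy2⟩ := hs M hx
      exact ⟨⟨y, hy⟩, Subtype.ext hy2⟩
    have hfin : Module.Finite L (VV ι L M) := Module.Finite.iff_fg.2 (VV_fg M)
    have hinj : Function.Injective f := OrzechProperty.injective_of_surjective_endomorphism f hf
    have h0 : f ⟨P, hM⟩ = 0 := Subtype.ext hP
    have h1 := hinj (h0.trans (map_zero f).symm)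
    exact congrArg Subtype.val h1
  · intro P
    obtain ⟨M, hM⟩ := exists_VV P
    obtain ⟨y, _, hy2⟩ := hs M hM
    exact ⟨y, hy2⟩

end Pool.Agent.H425
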