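import Mathlib

set_option autoImplicit false
set_option linter.unusedSectionVars false

/-!
# Growth of the coefficients of `exp (y + y ^ p / p)`
-/

namespace Pool.Agent.H425.AH

open PowerSeries

section gen

variable {A : Type*} [CommRing A]

/-- the Euler derivation -/
noncomputable def eu (F : A⟦X⟧) : A⟦X⟧ := X * PowerSeries.derivative A F

theorem coeff_eu (F : A⟦X⟧) (j : ℕ) : coeff j (eu F) = (j : A) * coeff j F := by
  rw [eu]
  cases j with
  | zero => simp
  | succ j =>
    rw [coeff_succ_X_mul, coeff_derivative]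
    push_cast
    ring

theorem eu_mul (F G : A⟦X⟧) : eu (F * G) = eu F * G + F * eu G := by
  rw [eu, eu, eu, Derivation.leibniz, smul_eq_mul, smul_eq_mul]
  ring

theorem eu_pow (F : A⟦X⟧) (n : ℕ) : eu (F ^ n) = n * F ^ (n - 1) * eu F := by
  rw [eu, eu, Derivation.leibniz_pow, smul_eq_mul, nsmul_eq_mul]
  ring

theorem eu_sub (F G : A⟦X⟧) : eu (F - G) = eu F - eu G := by
  rw [eu, eu, eu, map_sub]
  ring

theorem eu_one : eu (1 : A⟦X⟧) = 0 := by
  rw [eu, Derivation.map_one_eq_zero, mul_zero]

theorem eu_expand (q : ℕ) (hq : q ≠ 0) (F : A⟦X⟧) :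
    eu (expand q hq F) = (q : A⟦X⟧) * expand q hq (eu F) := by
  ext j
  have e : (q : A⟦X⟧) = C (q : A) := (map_natCast _ _).symm
  rw [coeff_eu, e, coeff_C_mul, coeff_expand, coeff_expand]
  split_ifs with h
  · rw [coeff_eu]
    obtain ⟨i, rfl⟩ := h
    rw [Nat.mul_div_cancel_left _ (Nat.pos_of_ne_zero hq)]
    push_cast
    ring
  · ring

theorem eu_unique [IsDomain A] [CharZero A] (a F G : A⟦X⟧) (h0 : coeff 0 a = 0)
    (hF : eu F = a * F) (hG : eu G = a * G) (h : coeff 0 F = coeff 0 G) : F = G := by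
  have key : ∀ j, coeff j (F - G) = 0 := by
    intro j
    induction j using Nat.strong_induction_on with
    | _ j ih =>
      cases j with
      | zero => rw [map_sub, h, sub_self]
      | succ j =>
        have h1 : eu (F - G) = a * (F - G) := by rw [eu_sub, hF, hG]; ring
        have h2 := congrArg (coeff (j + 1)) h1
        rw [coeff_eu, coeff_mul] at h2
        have h3 : ∑ x ∈ Finset.HasAntidiagonal.antidiagonal (j + 1), coeff x.1 a * coeff x.2 (F - G) = 0 := by
          refine Finset.sum_eq_zero fun x hx => ?_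
          rw [Finset.HasAntidiagonal.mem_antidiagonal] at hx
          rcases Nat.eq_zero_or_pos x.1 with h4 | h4
          · rw [h4, h0, zero_mul]
          · rw [ih x.2 (by omega), mul_zero]
        rw [h3] at h2
        rcases mul_eq_zero.1 h2 with h4 | h4
        · exact absurd h4 (Nat.cast_ne_zero.2 (Nat.succ_ne_zero j))
        · exact h4
  rw [← sub_eq_zero]
  ext j
  rw [key j, map_zero]

end gen

section ex

variable {k : Type*} [Field k] [CharZero k]

/-- `exp (c y ^ q)` -/
noncomputable def ex (c : k) (q : ℕ) (hq : q ≠ 0) : k⟦X⟧ :=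
  expand q hq (PowerSeries.mk fun j => c ^ j / (j.factorial : k))

theorem coeff_ex (c : k) (q : ℕ) (hq : q ≠ 0) (j : ℕ) : coeff j (ex c q hq) =
    if q ∣ j then c ^ (j / q) / ((j / q).factorial : k) else 0 := by
  rw [ex, coeff_expand]
  split_ifs <;> simp

theorem eu_ex (c : k) (q : ℕ) (hq : q ≠ 0) : eu (ex c q hq) = C (q * c) * X ^ q * ex c q hq := by
  have h1 : eu (PowerSeries.mk fun j => c ^ j / (j.factorial : k)) =
      C c * X * (PowerSeries.mk fun j => c ^ j / (j.factorial : k)) := by
    ext j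
    rw [coeff_eu, mul_assoc, coeff_C_mul]
    cases j with
    | zero => simp
    | succ j =>
      rw [coeff_succ_X_mul, coeff_mk, coeff_mk, Nat.factorial_succ]
      have h2 : ((j.factorial : ℕ) : k) ≠ 0 := Nat.cast_ne_zero.2 (Nat.factorial_ne_zero j)
      have h3 : ((j : k) + 1) ≠ 0 := by exact_mod_cast Nat.succ_ne_zero j
      push_cast
      field_simp
      ring
  rw [ex, eu_expand, h1, map_mul, map_mul, expand_C, expand_X, map_mul, map_natCast]
  ring

theorem coeff_zero_ex (c : k) (q : ℕ) (hq : q ≠ 0) : coeff 0 (ex c q hq) = 1 := by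
  rw [coeff_ex]; simp

end ex

end Pool.Agent.H425.AH
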