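import Pool.Agent.H425.AH

set_option autoImplicit false
set_option linter.unusedSectionVars false

namespace Pool.Agent.H425.AH

open PowerSeries

variable (p : ℕ) [hp : Fact p.Prime]

theorem ppow_ne (l : ℕ) : p ^ l ≠ 0 := pow_ne_zero _ hp.out.ne_zero

/-- truncated Artin-Hasse product -/
noncomputable def ahL (L : ℕ) : ℚ_[p]⟦X⟧ :=
  ∏ l ∈ Finset.range L, ex ((p : ℚ_[p]) ^ l)⁻¹ (p ^ l) (ppow_ne p l)

theorem eu_prod {k : Type*} [Field k] (s : Finset ℕ) (F a : ℕ → k⟦X⟧)
    (h : ∀ l ∈ s, eu (F l) = a l * F l) : eu (∏ l ∈ s, F l) = (∑ l ∈ s, a l) * ∏ l ∈ s, F l := by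
  classical
  induction s using Finset.induction_on with
  | empty => simp [eu_one]
  | insert i s hi ih =>
    rw [Finset.prod_insert hi, Finset.sum_insert hi, eu_mul, h i (by simp),
      ih (fun l hl => h l (by simp [hl]))]
    ring

theorem eu_exl (l : ℕ) : eu (ex ((p : ℚ_[p]) ^ l)⁻¹ (p ^ l) (ppow_ne p l)) =
    X ^ (p ^ l) * ex ((p : ℚ_[p]) ^ l)⁻¹ (p ^ l) (ppow_ne p l) := by
  rw [eu_ex]
  have h : ((p ^ l : ℕ) : ℚ_[p]) * ((p : ℚ_[p]) ^ l)⁻¹ = 1 := by
    rw [Nat.cast_pow, mul_inv_cancel₀]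
    exact pow_ne_zero _ (Nat.cast_ne_zero.2 hp.out.ne_zero)
  rw [h, map_one, one_mul]

theorem eu_exl' (l : ℕ) : eu (ex (-((p : ℚ_[p]) ^ l)⁻¹) (p ^ l) (ppow_ne p l)) =
    (-X ^ (p ^ l)) * ex (-((p : ℚ_[p]) ^ l)⁻¹) (p ^ l) (ppow_ne p l) := by
  rw [eu_ex]
  have h : ((p ^ l : ℕ) : ℚ_[p]) * (-((p : ℚ_[p]) ^ l)⁻¹) = -1 := by
    rw [Nat.cast_pow, mul_neg, mul_inv_cancel₀]
    exact pow_ne_zero _ (Nat.cast_ne_zero.2 hp.out.ne_zero)
  rw [h, map_neg, map_one]
  ring

theorem eu_ahL (L : ℕ) : eu (ahL p L) = (∑ l ∈ Finset.range L, X ^ (p ^ l)) * ahL p L :=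
  eu_prod _ _ _ fun l _ => eu_exl p l

theorem coeff_zero_prod {k : Type*} [Field k] (s : Finset ℕ) (F : ℕ → k⟦X⟧)
    (h : ∀ l ∈ s, coeff 0 (F l) = 1) : coeff 0 (∏ l ∈ s, F l) = 1 := by
  rw [coeff_zero_eq_constantCoeff_apply, map_prod]
  refine Finset.prod_eq_one fun l hl => ?_
  rw [← coeff_zero_eq_constantCoeff_apply]
  exact h l hl

theorem coeff_zero_ahL (L : ℕ) : coeff 0 (ahL p L) = 1 :=
  coeff_zero_prod _ _ fun _ _ => coeff_zero_ex _ _ _

theorem norm_inv_fact (j : ℕ) : ‖((j.factorial : ℕ) : ℚ_[p])⁻¹‖ =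
    (p : ℝ) ^ (padicValNat p j.factorial) := by
  have h : ((j.factorial : ℕ) : ℚ_[p]) ≠ 0 := Nat.cast_ne_zero.2 (Nat.factorial_ne_zero j)
  rw [norm_inv, Padic.norm_eq_zpow_neg_valuation h, Padic.valuation_natCast, zpow_neg, inv_inv,
    zpow_natCast]

theorem val_fact_le (j : ℕ) : (p - 1) * padicValNat p j.factorial ≤ j := by
  rw [sub_one_mul_padicValNat_factorial]
  exact Nat.sub_le _ _

theorem val_fact_lt (j : ℕ) (hj : 0 < j) : (p - 1) * padicValNat p j.factorial + 1 ≤ j := by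
  rw [sub_one_mul_padicValNat_factorial]
  have h1 : 0 < (p.digits j).sum := by
    by_contra h
    have h2 : (p.digits j).sum = 0 := by omega
    rw [List.sum_eq_zero_iff] at h2
    have h3 := Nat.ofDigits_digits p j
    have h4 : Nat.ofDigits p (p.digits j) = 0 := by
      have : ∀ (l : List ℕ), (∀ x ∈ l, x = 0) → Nat.ofDigits p l = 0 := by
        intro l
        induction l with
        | nil => intro _; rfl
        | cons a l ih =>
          intro h
          rw [Nat.ofDigits_cons, h a (by simp), ih (fun x hx => h x (by simp [hx]))]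
          simp
      exact this _ h2
    omega
  have h2 : (p.digits j).sum ≤ j := Nat.digit_sum_le p j
  omega

theorem p_pos_real : (0 : ℝ) < p := by exact_mod_cast hp.out.pos

theorem one_le_p_real : (1 : ℝ) ≤ p := by exact_mod_cast hp.out.one_lt.le

theorem norm_ep (j : ℕ) : ‖(p : ℚ_[p]) ^ j / ((j.factorial : ℕ) : ℚ_[p])‖ ≤ 1 := by
  rw [div_eq_mul_inv, norm_mul, norm_pow, Padic.norm_p, norm_inv_fact, inv_pow]
  have h1 : padicValNat p j.factorial ≤ j := by
    refine le_trans ?_ (val_fact_le p j)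
    have : 1 ≤ p - 1 := Nat.sub_pos_of_lt hp.out.one_lt
    calc padicValNat p j.factorial = 1 * padicValNat p j.factorial := (one_mul _).symm
      _ ≤ _ := Nat.mul_le_mul_right _ this
  rw [inv_mul_le_one₀ (pow_pos (p_pos_real p) _)]
  exact pow_le_pow_right₀ (one_le_p_real p) h1

theorem norm_ep' (j : ℕ) (hj : 0 < j) : ‖(-(p : ℚ_[p])) ^ j / ((j.factorial : ℕ) : ℚ_[p])‖ ≤ (p : ℝ)⁻¹ := by
  rw [div_eq_mul_inv, norm_mul, norm_pow, norm_neg, Padic.norm_p, norm_inv_fact, inv_pow]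
  have h1 : padicValNat p j.factorial + 1 ≤ j := by
    refine le_trans ?_ (val_fact_lt p j hj)
    have : 1 ≤ p - 1 := Nat.sub_pos_of_lt hp.out.one_lt
    have := Nat.mul_le_mul_right (padicValNat p j.factorial) this
    omega
  have hpos := pow_pos (p_pos_real p) j
  rw [inv_mul_le_iff₀ hpos]
  have h2 := pow_le_pow_right₀ (one_le_p_real p) h1
  rw [pow_succ] at h2
  rw [le_mul_inv_iff₀ (p_pos_real p)]
  exact h2

/-- Dwork's lemma -/
theorem dwork_lemma (M : ℕ) (F G : ℚ_[p]⟦X⟧) (h0 : coeff 0 F = 1) (hG0 : coeff 0 G = 1)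
    (hG : ∀ j, 0 < j → j < M → ‖coeff j G‖ ≤ (p : ℝ)⁻¹)
    (h : ∀ j < M, coeff j (F ^ p * G) = coeff j (expand p hp.out.ne_zero F)) :
    ∀ j < M, ‖coeff j F‖ ≤ 1 := by
  intro j
  induction j using Nat.strong_induction_on with
  | _ j ih =>
    intro hj
    rcases Nat.eq_zero_or_pos j with rfl | hj0
    · rw [h0, norm_one]
    let Fi : ℕ → ℤ_[p] := fun i => if h : ‖coeff i F‖ ≤ 1 then ⟨coeff i F, h⟩ else 0
    have hFi : ∀ i < j, ((Fi i : ℤ_[p]) : ℚ_[p]) = coeff i F := by
      intro i hi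
      simp only [Fi, dif_pos (ih i hi (by omega))]
    let P' : Polynomial ℤ_[p] := ∑ i ∈ Finset.range j, Polynomial.monomial i (Fi i)
    let P : ℚ_[p]⟦X⟧ := ((P'.map (algebraMap ℤ_[p] ℚ_[p]) : Polynomial ℚ_[p]) : ℚ_[p]⟦X⟧)
    have hP'c : ∀ i, P'.coeff i = if i < j then Fi i else 0 := by
      intro i
      simp only [P', Polynomial.finsetSum_coeff, Polynomial.coeff_monomial]
      rw [Finset.sum_ite_eq']
      simp
    have hPc : ∀ i < j, coeff i P = coeff i F := by
      intro i hi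
      simp only [P, Polynomial.coeff_coe, Polynomial.coeff_map, hP'c, if_pos hi]
      exact hFi i hi
    have hP0 : coeff 0 P = 1 := by rw [hPc 0 hj0, h0]
    -- F - P = X ^ j * H
    obtain ⟨H, hH⟩ : (X : ℚ_[p]⟦X⟧) ^ j ∣ F - P := by
      rw [X_pow_dvd_iff]
      intro i hi
      rw [map_sub, hPc i hi, sub_self]
    have hH0 : coeff 0 H = coeff j F - coeff j P := by
      have := congrArg (coeff j) hH
      rw [map_sub, coeff_X_pow_mul' ] at this
      simpa using this.symm
    have hPj : coeff j P = 0 := by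
      simp only [P, Polynomial.coeff_coe, Polynomial.coeff_map, hP'c, lt_irrefl, if_false, map_zero]
    rw [hPj, sub_zero] at hH0
    have hgeo := (Commute.all F P).mul_geom_sum₂ p
    set S := ∑ i ∈ Finset.range p, F ^ i * P ^ (p - 1 - i) with hS
    have hS0 : coeff 0 S = (p : ℚ_[p]) := by
      rw [hS, map_sum]
      rw [coeff_zero_eq_constantCoeff_apply] at h0 hP0
      simp [coeff_zero_eq_constantCoeff_apply, h0, hP0]
    have h1 : coeff j (F ^ p * G) = coeff j (P ^ p * G) + p * coeff j F := by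
      have h2 : F ^ p * G = P ^ p * G + X ^ j * (H * S * G) := by
        have : F ^ p = P ^ p + X ^ j * (H * S) := by
          rw [← mul_assoc, ← hH, hgeo]; ring
        rw [this]; ring
      rw [h2, map_add, coeff_X_pow_mul']
      simp only [le_refl, if_true, Nat.sub_self]
      have h7 : coeff 0 (H * S * G) = coeff j F * p * 1 := by
        rw [coeff_zero_eq_constantCoeff_apply] at hS0 hH0 hG0 ⊢
        rw [map_mul constantCoeff (H * S) G, map_mul constantCoeff H S, hS0, hH0, hG0]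
      rw [h7]
      ring
    have h2 : coeff j (expand p hp.out.ne_zero F) = coeff j (expand p hp.out.ne_zero P) := by
      rw [coeff_expand, coeff_expand]
      split_ifs with hd
      · rw [hPc]
        exact Nat.div_lt_self hj0 hp.out.one_lt
      · rfl
    have h3 : (p : ℚ_[p]) * coeff j F = coeff j (expand p hp.out.ne_zero P - P ^ p) -
        coeff j (P ^ p * (G - 1)) := by
      have := h j hj
      rw [h1, h2] at this
      rw [mul_sub, mul_one, map_sub, map_sub]
      linear_combination this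
    have hPn : ∀ i, ‖coeff i (P ^ p)‖ ≤ 1 := by
      intro i
      have : P ^ p = (((P' ^ p).map (algebraMap ℤ_[p] ℚ_[p]) : Polynomial ℚ_[p]) : ℚ_[p]⟦X⟧) := by
        simp only [P]
        rw [Polynomial.map_pow, Polynomial.coe_pow]
      rw [this, Polynomial.coeff_coe, Polynomial.coeff_map]
      exact PadicInt.norm_le_one _
    have h4 : ‖coeff j (P ^ p * (G - 1))‖ ≤ (p : ℝ)⁻¹ := by
      rw [coeff_mul]
      refine IsUltrametricDist.norm_sum_le_of_forall_le_of_nonneg (by positivity) fun x hx => ?_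
      rw [Finset.HasAntidiagonal.mem_antidiagonal] at hx
      rw [norm_mul]
      have h5 : ‖coeff x.2 (G - 1)‖ ≤ (p : ℝ)⁻¹ := by
        rcases Nat.eq_zero_or_pos x.2 with h6 | h6
        · rw [h6, map_sub, hG0]
          simp
        · rw [map_sub, coeff_one, if_neg (by omega), sub_zero]
          exact hG x.2 h6 (by omega)
      calc ‖coeff x.1 (P ^ p)‖ * ‖coeff x.2 (G - 1)‖ ≤ 1 * (p : ℝ)⁻¹ := by
            gcongr
            exact hPn _
        _ = _ := one_mul _
    have h5 : ‖coeff j (expand p hp.out.ne_zero P - P ^ p)‖ ≤ (p : ℝ)⁻¹ := by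
      have e1 : coeff j (expand p hp.out.ne_zero P - P ^ p) =
          algebraMap ℤ_[p] ℚ_[p] ((Polynomial.expand ℤ_[p] p P' - P' ^ p).coeff j) := by
        rw [map_sub, Polynomial.coeff_sub, map_sub]
        congr 1
        · rw [coeff_expand, Polynomial.coeff_expand hp.out.pos]
          split_ifs
          · simp only [P, Polynomial.coeff_coe, Polynomial.coeff_map]
          · rw [map_zero]
        · have : P ^ p = (((P' ^ p).map (algebraMap ℤ_[p] ℚ_[p]) : Polynomial ℚ_[p]) : ℚ_[p]⟦X⟧) := by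
            simp only [P]
            rw [Polynomial.map_pow, Polynomial.coe_pow]
          rw [this, Polynomial.coeff_coe, Polynomial.coeff_map]
      rw [e1]
      have e2 : PadicInt.toZMod ((Polynomial.expand ℤ_[p] p P' - P' ^ p).coeff j) = 0 := by
        rw [← Polynomial.coeff_map, Polynomial.map_sub, Polynomial.map_expand, Polynomial.map_pow,
          ZMod.expand_card, sub_self, Polynomial.coeff_zero]
      have e3 : ((Polynomial.expand ℤ_[p] p P' - P' ^ p).coeff j) ∈ Ideal.span {(p : ℤ_[p]) ^ 1} := by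
        rw [pow_one, ← PadicInt.maximalIdeal_eq_span_p, ← PadicInt.ker_toZMod]
        exact e2
      have e4 := (PadicInt.norm_le_pow_iff_mem_span_pow _ 1).2 e3
      have e5 : ‖algebraMap ℤ_[p] ℚ_[p] ((Polynomial.expand ℤ_[p] p P' - P' ^ p).coeff j)‖ =
          ‖((Polynomial.expand ℤ_[p] p P' - P' ^ p).coeff j)‖ := rfl
      rw [e5]
      refine e4.trans (le_of_eq ?_)
      simp
    have h6 : ‖(p : ℚ_[p]) * coeff j F‖ ≤ (p : ℝ)⁻¹ := by
      rw [h3]
      rw [sub_eq_add_neg]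
      refine (Padic.nonarchimedean _ _).trans (max_le h5 ?_)
      rw [norm_neg]
      exact h4
    rw [norm_mul, Padic.norm_p] at h6
    have h7 : (0 : ℝ) < (p : ℝ)⁻¹ := inv_pos.2 (p_pos_real p)
    nlinarith [h6, h7]

end Pool.Agent.H425.AH
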