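import Pool.Agent.H425.AH2

set_option autoImplicit false
set_option linter.unusedSectionVars false

namespace Pool.Agent.H425.AH

open PowerSeries

variable (p : ℕ) [hp : Fact p.Prime]

theorem p_ne_Qp : (p : ℚ_[p]) ≠ 0 := Nat.cast_ne_zero.2 hp.out.ne_zero

/-- integrality of the Artin-Hasse coefficients -/
theorem norm_ahL (L : ℕ) (j : ℕ) (hj : j < p ^ L) : ‖coeff j (ahL p L)‖ ≤ 1 := by
  cases L with
  | zero =>
    have : j = 0 := by simpa using hj
    rw [this, coeff_zero_ahL, norm_one]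
  | succ L =>
    set e1 : ℚ_[p]⟦X⟧ := ex (-(p : ℚ_[p])) 1 one_ne_zero with he1
    set e2 : ℚ_[p]⟦X⟧ := ex ((p : ℚ_[p]) ^ L)⁻¹ (p ^ (L + 1)) (ppow_ne p (L + 1)) with he2
    refine dwork_lemma p (p ^ (L + 1)) (ahL p (L + 1)) (e1 * e2) (coeff_zero_ahL p _) ?_ ?_ ?_ j hj
    · rw [coeff_mul]
      simp [he1, he2, coeff_ex]
    · intro i hi hi2
      have h1 : coeff i (e1 * e2) = coeff i e1 := by
        rw [coeff_mul, Finset.sum_eq_single (i, 0)]
        · rw [he2, coeff_zero_ex, mul_one]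
        · rintro ⟨a, b⟩ hab hne
          rw [Finset.HasAntidiagonal.mem_antidiagonal] at hab
          simp only at hab
          have hb : b ≠ 0 := by
            rintro rfl
            apply hne
            simp at hab
            rw [hab]
          have hnd : ¬ (p ^ (L + 1) ∣ b) := by
            intro hd
            have := Nat.le_of_dvd (Nat.pos_of_ne_zero hb) hd
            omega
          have h0 : coeff b e2 = 0 := by rw [he2, coeff_ex, if_neg hnd]
          change coeff a e1 * coeff b e2 = 0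
          rw [h0, mul_zero]
        · intro h
          exact absurd (by simp) h
      rw [h1, he1, coeff_ex, if_pos (one_dvd _), Nat.div_one]
      exact norm_ep' p i hi
    · intro i _
      congr 1
      have hc1 : coeff 0 (ahL p (L + 1)) = 1 := coeff_zero_ahL p _
      refine eu_unique ((p : ℚ_[p]⟦X⟧) * ∑ l ∈ Finset.range (L + 1), X ^ (p ^ (l + 1))) _ _ ?_ ?_ ?_ ?_
      · rw [coeff_zero_eq_constantCoeff_apply, map_mul, map_sum]
        rw [Finset.sum_eq_zero, mul_zero]
        intro l _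
        rw [map_pow, constantCoeff_X, zero_pow (ppow_ne p _)]
      · have h1 : eu (ahL p (L + 1) ^ p) = (p : ℚ_[p]⟦X⟧) * (∑ l ∈ Finset.range (L + 1), X ^ (p ^ l)) *
            (ahL p (L + 1)) ^ p := by
          rw [eu_pow, eu_ahL]
          have : ahL p (L + 1) ^ p = ahL p (L + 1) ^ (p - 1) * ahL p (L + 1) := by
            rw [← pow_succ, Nat.sub_add_cancel hp.out.one_lt.le]
          rw [this]
          ring
        have h2 : eu e1 = - (p : ℚ_[p]⟦X⟧) * X * e1 := by
          rw [he1, eu_ex, Nat.cast_one, one_mul, map_neg, map_natCast, pow_one]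
        have h3 : eu e2 = (p : ℚ_[p]⟦X⟧) * X ^ (p ^ (L + 1)) * e2 := by
          rw [he2, eu_ex]
          have : ((p ^ (L + 1) : ℕ) : ℚ_[p]) * ((p : ℚ_[p]) ^ L)⁻¹ = (p : ℚ_[p]) := by
            rw [Nat.cast_pow, pow_succ, mul_comm _ (p : ℚ_[p]), mul_assoc, mul_inv_cancel₀, mul_one]
            exact pow_ne_zero _ (p_ne_Qp p)
          rw [this, map_natCast]
        rw [eu_mul, eu_mul, h1, h2, h3]
        have h4 : ∑ l ∈ Finset.range (L + 1), (X : ℚ_[p]⟦X⟧) ^ (p ^ l) + X ^ (p ^ (L + 1)) =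
            X + ∑ l ∈ Finset.range (L + 1), X ^ (p ^ (l + 1)) := by
          rw [← Finset.sum_range_succ, Finset.sum_range_succ', pow_zero, pow_one, add_comm]
        linear_combination (p : ℚ_[p]⟦X⟧) * ahL p (L + 1) ^ p * (e1 * e2) * h4
      · rw [eu_expand, eu_ahL, map_mul, map_sum]
        have : ∑ l ∈ Finset.range (L + 1), (expand p hp.out.ne_zero) ((X : ℚ_[p]⟦X⟧) ^ (p ^ l)) =
            ∑ l ∈ Finset.range (L + 1), X ^ (p ^ (l + 1)) := by
          refine Finset.sum_congr rfl fun l _ => ?_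
          rw [map_pow, expand_X, ← pow_mul, ← pow_succ']
        rw [this]
        ring
      · rw [coeff_expand, if_pos (dvd_zero _), Nat.zero_div, hc1, coeff_zero_eq_constantCoeff_apply,
          map_mul, map_mul, map_pow]
        have h1 : constantCoeff e1 = 1 := by
          rw [← coeff_zero_eq_constantCoeff_apply]; exact coeff_zero_ex _ _ _
        have h2 : constantCoeff e2 = 1 := by
          rw [← coeff_zero_eq_constantCoeff_apply]; exact coeff_zero_ex _ _ _
        rw [coeff_zero_eq_constantCoeff_apply] at hc1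
        rw [h1, h2, hc1]
        simp

/-- the splitting series `exp (y + y ^ p / p)` -/
noncomputable def bb : ℚ_[p]⟦X⟧ := ex 1 1 one_ne_zero * ex (p : ℚ_[p])⁻¹ p hp.out.ne_zero

theorem coeff_zero_bb : coeff 0 (bb p) = 1 := by
  rw [bb, coeff_mul]
  simp [coeff_ex]

theorem eu_bb : eu (bb p) = (X + X ^ p) * bb p := by
  rw [bb, eu_mul, eu_ex, eu_ex, mul_inv_cancel₀ (p_ne_Qp p)]
  simp only [Nat.cast_one, one_mul, map_one, pow_one]
  ring

theorem bb_eq (L : ℕ) : bb p = ahL p (L + 2) *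
    ∏ l ∈ Finset.range L, ex (-((p : ℚ_[p]) ^ (l + 2))⁻¹) (p ^ (l + 2)) (ppow_ne p (l + 2)) := by
  refine eu_unique (X + X ^ p) _ _ ?_ (eu_bb p) ?_ ?_
  · rw [coeff_zero_eq_constantCoeff_apply, map_add, map_pow, constantCoeff_X,
      zero_pow hp.out.ne_zero, add_zero]
  · rw [eu_mul, eu_ahL, eu_prod (Finset.range L) _ (fun l => -X ^ (p ^ (l + 2)))
      (fun l _ => eu_exl' p (l + 2))]
    have h : ∑ l ∈ Finset.range (L + 2), (X : ℚ_[p]⟦X⟧) ^ (p ^ l) =
        X + X ^ p + ∑ l ∈ Finset.range L, X ^ (p ^ (l + 2)) := by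
      rw [Finset.sum_range_succ', Finset.sum_range_succ']
      simp only [pow_zero, pow_one, zero_add]
      ring
    rw [h, Finset.sum_neg_distrib]
    ring
  · rw [coeff_zero_bb, coeff_zero_eq_constantCoeff_apply, map_mul, map_prod]
    have h1 : constantCoeff (ahL p (L + 2)) = 1 := by
      rw [← coeff_zero_eq_constantCoeff_apply]; exact coeff_zero_ahL _ _
    rw [h1, Finset.prod_eq_one, mul_one]
    intro l _
    rw [← coeff_zero_eq_constantCoeff_apply]; exact coeff_zero_ex _ _ _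

/-- growth condition up to order `M` -/
def Gr (M : ℕ) (F : ℚ_[p]⟦X⟧) : Prop :=
  ∀ j < M, ‖coeff j F‖ ≤ (p : ℝ) ^ (2 * j / (p * (p - 1)))

theorem Gr_mul (M : ℕ) (F G : ℚ_[p]⟦X⟧) (hF : Gr p M F) (hG : Gr p M G) : Gr p M (F * G) := by
  intro j hj
  rw [coeff_mul]
  refine IsUltrametricDist.norm_sum_le_of_forall_le_of_nonneg
    (pow_nonneg (p_pos_real p).le _) fun x hx => ?_
  rw [Finset.HasAntidiagonal.mem_antidiagonal] at hx
  rw [norm_mul]
  calc ‖coeff x.1 F‖ * ‖coeff x.2 G‖ ≤ (p : ℝ) ^ (2 * x.1 / (p * (p - 1))) *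
        (p : ℝ) ^ (2 * x.2 / (p * (p - 1))) := by
        gcongr
        · exact hF _ (by omega)
        · exact hG _ (by omega)
    _ = (p : ℝ) ^ (2 * x.1 / (p * (p - 1)) + 2 * x.2 / (p * (p - 1))) := by rw [pow_add]
    _ ≤ _ := by
        refine pow_le_pow_right₀ (one_le_p_real p) ?_
        rw [← hx, mul_add]
        exact Nat.div_add_div_le_add_div

theorem Gr_one (M : ℕ) : Gr p M 1 := by
  intro j _
  rw [coeff_one]
  split_ifs
  · rw [norm_one]
    exact one_le_pow₀ (one_le_p_real p)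
  · rw [norm_zero]
    exact pow_nonneg (p_pos_real p).le _

theorem Gr_prod (M : ℕ) (s : Finset ℕ) (F : ℕ → ℚ_[p]⟦X⟧) (h : ∀ l ∈ s, Gr p M (F l)) :
    Gr p M (∏ l ∈ s, F l) := by
  classical
  induction s using Finset.induction_on with
  | empty => simpa using Gr_one p M
  | insert i s hi ih =>
    rw [Finset.prod_insert hi]
    exact Gr_mul p M _ _ (h i (by simp)) (ih fun l hl => h l (by simp [hl]))

theorem arith1 (l : ℕ) : (p - 1) * (l + 2) + 1 ≤ 2 * p ^ (l + 1) := by
  induction l with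
  | zero =>
    have := hp.out.one_lt
    simp only [zero_add, pow_one]
    omega
  | succ l ih =>
    have h1 := hp.out.one_lt
    obtain ⟨q, rfl⟩ : ∃ q, p = q + 2 := ⟨p - 2, by omega⟩
    have e : q + 2 - 1 = q + 1 := rfl
    rw [e] at ih ⊢
    have h2 : 2 * (q + 2) ^ (l + 1 + 1) = (q + 2) * (2 * (q + 2) ^ (l + 1)) := by ring
    rw [h2]
    have h3 := Nat.mul_le_mul_left (q + 2) ih
    have h4 : (q + 1) * (l + 1 + 2) ≤ (q + 1) * ((q + 2) * (l + 2)) :=
      Nat.mul_le_mul_left _ (by nlinarith)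
    nlinarith

theorem Gr_ex (M : ℕ) (l : ℕ) :
    Gr p M (ex (-((p : ℚ_[p]) ^ (l + 2))⁻¹) (p ^ (l + 2)) (ppow_ne p (l + 2))) := by
  intro j _
  rw [coeff_ex]
  split_ifs with hd
  · obtain ⟨i, rfl⟩ := hd
    rw [Nat.mul_div_cancel_left _ (Nat.pos_of_ne_zero (ppow_ne p _))]
    rw [div_eq_mul_inv, norm_mul, norm_inv_fact, norm_pow, norm_neg, norm_inv, norm_pow,
      Padic.norm_p, inv_pow, inv_pow, inv_pow, inv_inv, ← pow_mul, ← pow_add]
    refine pow_le_pow_right₀ (one_le_p_real p) ?_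
    have h1 := hp.out.one_lt
    have hpos : 0 < p * (p - 1) := Nat.mul_pos (by omega) (by omega)
    rw [Nat.le_div_iff_mul_le hpos]
    have h2 := val_fact_le p i
    have h3 := arith1 p l
    set v := padicValNat p i.factorial
    calc ((l + 2) * i + v) * (p * (p - 1)) = p * ((p - 1) * (l + 2) * i + (p - 1) * v) := by ring
      _ ≤ p * ((p - 1) * (l + 2) * i + i) := by gcongr
      _ = p * i * ((p - 1) * (l + 2) + 1) := by ring
      _ ≤ p * i * (2 * p ^ (l + 1)) := by gcongr
      _ = 2 * (p ^ (l + 2) * i) := by ring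
  · rw [norm_zero]
    exact pow_nonneg (p_pos_real p).le _

/-- growth of the coefficients of the splitting series -/
theorem norm_bb (j : ℕ) : ‖coeff j (bb p)‖ ≤ (p : ℝ) ^ (2 * j / (p * (p - 1))) := by
  have hj : j < p ^ (j + 2) := by
    calc j < p ^ j := Nat.lt_pow_self hp.out.one_lt
      _ ≤ p ^ (j + 2) := Nat.pow_le_pow_right hp.out.pos (by omega)
  have h : Gr p (p ^ (j + 2)) (bb p) := by
    rw [bb_eq p j]
    refine Gr_mul p _ _ _ ?_ (Gr_prod p _ _ _ fun l _ => Gr_ex p _ l)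
    intro i hi
    exact (norm_ahL p (j + 2) i hi).trans (one_le_pow₀ (one_le_p_real p))
  exact h j hj

theorem rec_bb (j : ℕ) : (j : ℚ_[p]) * coeff j (bb p) =
    (if 1 ≤ j then coeff (j - 1) (bb p) else 0) + (if p ≤ j then coeff (j - p) (bb p) else 0) := by
  rw [← coeff_eu, eu_bb, add_mul, map_add, coeff_X_pow_mul']
  congr 1
  conv_lhs => rw [← pow_one (X : ℚ_[p]⟦X⟧), coeff_X_pow_mul']

/-- for small indices the coefficients are those of the exponential -/
theorem bb_small (j : ℕ) (hj : j < p) : coeff j (bb p) * (j.factorial : ℚ_[p]) = 1 := by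
  induction j with
  | zero => rw [coeff_zero_bb]; simp
  | succ j ih =>
    have h := rec_bb p (j + 1)
    rw [if_pos (by omega), if_neg (by omega), add_zero, Nat.add_sub_cancel] at h
    rw [Nat.factorial_succ, Nat.cast_mul]
    have h2 := ih (by omega)
    linear_combination (j.factorial : ℚ_[p]) * h + h2

end Pool.Agent.H425.AH
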