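import Pool.Agent.H425.ESum

set_option autoImplicit false
set_option linter.unusedSectionVars false
set_option linter.unusedVariables false

namespace Pool.Agent.H425

open MvPolynomial

namespace Setup

variable {p d : ℕ} [hp : Fact p.Prime] {K R : Type} [Field K] [CommRing R] [IsDomain R]
  (S : Setup p d K R) {ι : Type} [Fintype ι] [DecidableEq ι]

/-- the residue map of the truncated ring -/
noncomputable def rho (N : ℕ) (hN : 1 ≤ N) : S.Q N →+* K :=
  Ideal.Quotient.lift _ S.res (by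
    intro a ha
    rw [Ideal.mem_span_singleton] at ha
    obtain ⟨c, rfl⟩ := ha
    rw [map_mul, map_pow, S.res_lam, zero_pow (by omega), zero_mul])

theorem rho_rd (N : ℕ) (hN : 1 ≤ N) (x : R) : S.rho N hN (S.rd N x) = S.res x := rfl

theorem rho_surj (N : ℕ) (hN : 1 ≤ N) : Function.Surjective (S.rho N hN) := by
  intro a
  exact ⟨S.rd N (S.tau a), by rw [rho_rd, S.res_tau]⟩

theorem rho_ker (N : ℕ) (hN : 1 ≤ N) (x : S.Q N) (h : S.rho N hN x = 0) : S.rd N S.lam ∣ x := by
  obtain ⟨y, rfl⟩ := Ideal.Quotient.mk_surjective x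
  obtain ⟨c, hc⟩ := S.dvd_of_res y h
  exact ⟨S.rd N c, by rw [← map_mul, ← hc]⟩

theorem lam_nil (N : ℕ) : (S.rd N S.lam) ^ N = 0 := by
  rw [← map_pow, rd_eq_zero]

/-- the data needed for the cohomological part -/
structure BD (N : ℕ) (f : MvPolynomial ι K) (e : ℕ) (b : (ι → Fin e) → (ι →₀ ℕ)) : Prop where
  hN : 1 ≤ N
  hp5 : 5 ≤ p
  he : 0 < e
  hde : d = e + 1
  hf : f.totalDegree ≤ d
  hY : ∀ t, YData (S.rho N hN) e (S.Hh N (su f) (S.tc f t)) b

variable {S} {N : ℕ} {f : MvPolynomial ι K} {e : ℕ} {b : (ι → Fin e) → (ι →₀ ℕ)}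

/-- the adapted basis as an equivalence -/
noncomputable def EE (D : S.BD N f e b) (t : ℕ) : MvPolynomial ι (S.Q N) ≃ₗ[S.Q N] MvPolynomial ι (S.Q N) :=
  LinearEquiv.ofBijective (Phi (S.Hh N (su f) (S.tc f t)) e D.he b)
    (Phi_bijective (S.rho N D.hN) (S.rho_surj N D.hN) (S.rd N S.lam) (S.rho_ker N D.hN) N
      (S.lam_nil N) e D.he _ b (D.hY t))

theorem EE_apply (D : S.BD N f e b) (t : ℕ) (P : MvPolynomial ι (S.Q N)) :
    EE D t P = Phi (S.Hh N (su f) (S.tc f t)) e D.he b P := rfl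

theorem EE_mem (D : S.BD N f e b) (t : ℕ) {M : ℕ} {P : MvPolynomial ι (S.Q N)}
    (hP : P ∈ VV ι (S.Q N) M) : EE D t P ∈ VV ι (S.Q N) M :=
  Phi_mem_VV D.he (D.hY t).hH (D.hY t).hb hP

theorem EE_symm_mem (D : S.BD N f e b) (t : ℕ) {M : ℕ} {P : MvPolynomial ι (S.Q N)}
    (hP : P ∈ VV ι (S.Q N) M) : (EE D t).symm P ∈ VV ι (S.Q N) M := by
  have h := span_all (S.rho N D.hN) (S.rho_surj N D.hN) (S.rd N S.lam) (S.rho_ker N D.hN) N
      (S.lam_nil N) e D.he _ b (D.hY t) M hP
  obtain ⟨y, hy, hy2⟩ := h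
  have : (EE D t).symm P = y := by
    rw [LinearEquiv.symm_apply_eq, ← hy2]
    rfl
  rw [this]
  exact hy

theorem EE_symm_yop (D : S.BD N f e b) (t : ℕ) (i : ι) (Z : MvPolynomial ι (S.Q N)) :
    (EE D t).symm (yop (S.Hh N (su f) (S.tc f t)) i Z) = X i ^ e * (EE D t).symm Z := by
  rw [LinearEquiv.symm_apply_eq, EE_apply, Phi_X, ← EE_apply D, LinearEquiv.apply_symm_apply]

/-- conjugated operators -/
noncomputable def gop (D : S.BD N f e b) (A : Finset ι) (t : ℕ) :
    MvPolynomial ι (S.Q N) →ₗ[S.Q N] MvPolynomial ι (S.Q N) :=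
  (EE D (t + 1)).symm.toLinearMap ∘ₗ (S.alt N f A t) ∘ₗ (EE D t).toLinearMap

theorem gop_apply (D : S.BD N f e b) (A : Finset ι) (t : ℕ) (P : MvPolynomial ι (S.Q N)) :
    gop D A t P = (EE D (t + 1)).symm (S.alt N f A t (EE D t P)) := rfl

theorem tc_succ (f : MvPolynomial ι K) (t : ℕ) : (fun s => S.tc f t s ^ p) = S.tc f (t + 1) := by
  funext s
  rw [tc, tc, ← pow_mul, ← pow_succ]

theorem gop_X (D : S.BD N f e b) (A : Finset ι) (i : ι) (hi : i ∉ A) (t : ℕ)
    (P : MvPolynomial ι (S.Q N)) :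
    gop D (insert i A) t (X i ^ e * P) = (p : S.Q N) • (X i ^ e * gop D A t P) := by
  have hp5 := D.hp5
  rw [gop_apply, gop_apply, EE_apply, Phi_X, ← EE_apply D, alt, oneA_insert A i hi]
  rw [S.al_comm (by omega) N (su f) (S.tc f t) (su_zero f) (su_degree f D.hf) (S.kap N f t) (oneA A)
    i (oneA_le A) (by rw [oneA_apply, if_neg hi]) (EE D t P)]
  rw [tc_succ, map_smul, EE_symm_yop]
  rfl

theorem gop_mem (D : S.BD N f e b) (A : Finset ι) (t : ℕ) (P : MvPolynomial ι (S.Q N)) :
    gop D A t P ∈ VV ι (S.Q N) N := by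
  have hp5 := D.hp5
  exact EE_symm_mem D _ (S.alt_mem (by omega) N f D.hf A t _)

theorem compn_gop (D : S.BD N f e b) (A : Finset ι) (a : ℕ) (P : MvPolynomial ι (S.Q N)) :
    compn (gop D A) a P = (EE D a).symm (compn (S.alt N f A) a (EE D 0 P)) := by
  induction a with
  | zero =>
    change P = (EE D 0).symm (EE D 0 P)
    rw [LinearEquiv.symm_apply_apply]
  | succ a ih =>
    rw [compn, compn, LinearMap.comp_apply, LinearMap.comp_apply, ih, gop_apply,
      LinearEquiv.apply_symm_apply]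

theorem compn_gop_X (D : S.BD N f e b) (A : Finset ι) (i : ι) (hi : i ∉ A) (a : ℕ)
    (P : MvPolynomial ι (S.Q N)) :
    compn (gop D (insert i A)) a (X i ^ e * P) =
      ((p ^ a : ℕ) : S.Q N) • (X i ^ e * compn (gop D A) a P) := by
  induction a with
  | zero => simp [compn]
  | succ a ih =>
    rw [compn, compn, LinearMap.comp_apply, LinearMap.comp_apply, ih, map_smul, gop_X D A i hi,
      smul_smul]
    congr 1
    push_cast
    rw [pow_succ]

theorem compn_gop_mem (D : S.BD N f e b) (A : Finset ι) (a : ℕ) (ha : 1 ≤ a)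
    (P : MvPolynomial ι (S.Q N)) : compn (gop D A) a P ∈ VV ι (S.Q N) N := by
  obtain ⟨a, rfl⟩ := Nat.exists_eq_add_of_le ha
  rw [add_comm, compn, LinearMap.comp_apply]
  exact gop_mem D A a _

theorem EE_congr (D : S.BD N f e b) {a a' : ℕ} (h : S.tc f a = S.tc f a') : EE D a = EE D a' := by
  apply LinearEquiv.ext
  intro P
  rw [EE_apply, EE_apply, h]

theorem trace_gop (D : S.BD N f e b) (A : Finset ι) (a M : ℕ) (hM : N ≤ M)
    (h : S.tc f a = S.tc f 0) :
    (mat M (compn (gop D A) a)).trace = (mat M (compn (S.alt N f A) a)).trace := by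
  have hp5 := D.hp5
  have h1 : compn (gop D A) a = (EE D 0).symm.toLinearMap ∘ₗ
      ((compn (S.alt N f A) a) ∘ₗ (EE D 0).toLinearMap) := by
    refine LinearMap.ext fun P => ?_
    rw [compn_gop, EE_congr D h]
    rfl
  have hE : ∀ P ∈ VV ι (S.Q N) M, (EE D 0).toLinearMap P ∈ VV ι (S.Q N) M := fun P hP => EE_mem D 0 hP
  have hT : ∀ P ∈ VV ι (S.Q N) M, compn (S.alt N f A) a P ∈ VV ι (S.Q N) M :=
    compn_mem _ (fun t P _ => VV_mono hM (S.alt_mem (by omega) N f D.hf A t P)) a
  rw [h1, mat_comp (M := M) (EE D 0).symm.toLinearMap ((compn (S.alt N f A) a) ∘ₗ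
    (EE D 0).toLinearMap) (fun P hP => hT _ (hE P hP)), mat_comp _ _ hE, Matrix.trace_mul_comm,
    Matrix.mul_assoc, ← mat_comp (M := M) (EE D 0).toLinearMap (EE D 0).symm.toLinearMap
      (fun P hP => EE_symm_mem D 0 hP)]
  have h2 : (EE D 0).toLinearMap ∘ₗ (EE D 0).symm.toLinearMap = LinearMap.id := by
    refine LinearMap.ext fun P => ?_
    exact (EE D 0).apply_symm_apply P
  rw [h2, mat_id, Matrix.mul_one]

/-- the matrices of Frobenius on cohomology -/
noncomputable def Bt (D : S.BD N f e b) (t : ℕ) : Matrix (ι → Fin e) (ι → Fin e) (S.Q N) :=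
  fun u' u => coeff (emb u') (gop D Finset.univ t (monomial (emb u) 1))

theorem gop_vanish (D : S.BD N f e b) (t : ℕ) (w : ι →₀ ℕ) (hw : ∀ u : ι → Fin e, emb u ≠ w)
    (u' : ι → Fin e) : coeff (emb u') (gop D Finset.univ t (monomial w 1)) = 0 := by
  obtain ⟨i, hi⟩ : ∃ i, e ≤ w i := by
    by_contra hcon
    push Not at hcon
    exact hw (fun i => ⟨w i, hcon i⟩) (by ext i; rfl)
  have h1 : (monomial w (1 : S.Q N)) = X i ^ e * monomial (w - Finsupp.single i e) 1 := by
    rw [X_pow_eq_monomial, monomial_mul, mul_one, add_tsub_cancel_of_le (Finsupp.single_le_iff.2 hi)]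
  have h2 : (Finset.univ : Finset ι) = insert i (Finset.univ.erase i) :=
    (Finset.insert_erase (Finset.mem_univ i)).symm
  rw [h1, h2, gop_X D _ i (Finset.notMem_erase i _), coeff_smul, X_pow_eq_monomial,
    coeff_monomial_mul', if_neg, smul_zero]
  intro h
  have h3 := h i
  rw [Finsupp.single_eq_same, emb_apply] at h3
  have := (u' i).2
  omega

theorem sum_DD_emb {A : Type} [AddCommMonoid A] (M : ℕ) (hM : Fintype.card ι * e ≤ M)
    (F : (ι →₀ ℕ) → A) (hF : ∀ w, (∀ u : ι → Fin e, emb u ≠ w) → F w = 0) :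
    ∑ w : DD ι M, F w.1 = ∑ u : ι → Fin e, F (emb u) := by
  rw [Finset.sum_coe_sort (DD ι M) F]
  have h1 : ∑ u : ι → Fin e, F (emb u) = ∑ w ∈ (Finset.univ : Finset (ι → Fin e)).image emb, F w := by
    rw [Finset.sum_image]
    intro u _ v _ h
    exact emb_injective h
  rw [h1]
  symm
  apply Finset.sum_subset
  · intro w hw
    rw [Finset.mem_image] at hw
    obtain ⟨u, _, rfl⟩ := hw
    rw [mem_DD, Finsupp.degree_eq_sum]
    refine le_trans ?_ hM
    rw [← smul_eq_mul]
    refine (Finset.sum_le_card_nsmul _ _ e fun i _ => ?_)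
    exact (u i).2.le
  · intro w _ hw
    apply hF
    intro u hu
    apply hw
    rw [Finset.mem_image]
    exact ⟨u, Finset.mem_univ u, hu⟩

theorem block_compn (D : S.BD N f e b) (a : ℕ) (u' u : ι → Fin e) :
    coeff (emb u') (compn (gop D Finset.univ) a (monomial (emb u) 1)) = prodn (Bt D) a u' u := by
  induction a generalizing u' with
  | zero =>
    rw [compn, LinearMap.id_apply, coeff_monomial, prodn, Matrix.one_apply]
    by_cases h : u' = u
    · rw [if_pos h, if_pos (by rw [h])]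
    · rw [if_neg h, if_neg (fun h' => h (emb_injective h'.symm))]
  | succ a ih =>
    obtain ⟨M, hM⟩ := exists_VV (compn (gop D Finset.univ) a (monomial (emb u) 1))
    have hM' := VV_mono (Nat.le_max_left M (Fintype.card ι * e)) hM
    rw [compn, LinearMap.comp_apply, map_monomial_expand _ _ hM', prodn, Matrix.mul_apply]
    rw [sum_DD_emb (e := e) _ (Nat.le_max_right M (Fintype.card ι * e))
      (fun w => coeff (emb u') (gop D Finset.univ a (monomial w 1)) *
        coeff w (compn (gop D Finset.univ) a (monomial (emb u) 1)))]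
    · refine Finset.sum_congr rfl fun u'' _ => ?_
      rw [ih]
      rfl
    · intro w hw
      rw [gop_vanish D a w hw, zero_mul]

theorem expSum_block [CharP K p] (D : S.BD N f e b) (a : ℕ) (ha : 1 ≤ a)
    (hfa : ∀ s, coeff s f ^ (p ^ a) = coeff s f) (ζ : K) (hζ : IsPrimitiveRoot ζ (p ^ a - 1)) :
    expSum p f a (S.zet N) = (-1) ^ Fintype.card ι * (prodn (Bt D) a).trace := by
  have hp5 := D.hp5
  have hd : 1 ≤ d := by rw [D.hde]; omega
  have htc : S.tc f a = S.tc f 0 := by
    funext s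
    rw [tc, tc, ← map_pow, hfa, pow_zero, pow_one]
  rw [expSum_eq p f a ha hfa (S.zet N) (S.zet_pow (by omega) hd N)
    (fun x => ∏ t ∈ Finset.range a, eval (fun i => S.rd N (S.tau (x i)) ^ (p ^ t))
        (S.Fpoly N (su f) (S.tc f t) (S.tc f t 0)))
    (fun x hx c hc => S.char_poly_identity hp5 hd N a f hfa x hx c hc)]
  rw [S.trace_formula hp5 hd N f D.hf a (3 * N) ha le_rfl ζ hζ]
  have hcube := cube_formula (3 * N) e D.he ((p ^ a : ℕ) : S.Q N)
    (fun A w => coeff w (compn (gop D A) a (monomial w 1))) (by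
      intro A w hw
      exact compn_gop_mem D A a ha _ w (by omega)) (by
      intro A i hi w
      have h1 : (monomial (Finsupp.single i e + w) (1 : S.Q N)) = X i ^ e * monomial w 1 := by
        rw [X_pow_eq_monomial, monomial_mul, mul_one]
      beta_reduce
      rw [h1, compn_gop_X D A i hi, coeff_smul, X_pow_eq_monomial, coeff_monomial_mul, one_mul,
        smul_eq_mul])
  have h2 : (prodn (Bt D) a).trace = ∑ u : ι → Fin e,
      coeff (emb u) (compn (gop D Finset.univ) a (monomial (emb u) 1)) := by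
    rw [Matrix.trace]
    refine Finset.sum_congr rfl fun u _ => ?_
    rw [Matrix.diag_apply, block_compn]
  rw [h2, hcube, Finset.mul_sum]
  have h3 : ∀ A : Finset ι, ∑ w ∈ DD ι (3 * N), coeff w (compn (gop D A) a (monomial w 1)) =
      (mat (3 * N) (compn (S.alt N f A) a)).trace := by
    intro A
    rw [← trace_gop D A a (3 * N) (by omega) htc, Matrix.trace, ← Finset.sum_coe_sort (DD ι (3 * N))]
    rfl
  simp only [h3]
  -- reindex by complements
  refine Fintype.sum_bijective (fun A : Finset ι => Aᶜ) compl_bijective _ _ fun A => ?_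
  rw [← Finset.compl_eq_univ_sdiff, compl_compl, neg_pow ((p ^ a : ℕ) : S.Q N)]
  have h5 : A.card + (Aᶜ).card = Fintype.card ι := Finset.card_add_card_compl A
  have h6 : (-1 : S.Q N) ^ Fintype.card ι * (-1) ^ (Aᶜ).card = (-1) ^ A.card := by
    rw [← h5, pow_add, mul_assoc, ← mul_pow]
    simp
  rw [← h6]
  ring

theorem prodn_mul {m A : Type} [Fintype m] [DecidableEq m] [CommRing A] (T : ℕ → Matrix m m A)
    (r : ℕ) (h : ∀ t, T (t + r) = T t) (j : ℕ) : prodn T (r * j) = (prodn T r) ^ j := by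
  have h1 : ∀ t j, T (t + r * j) = T t := by
    intro t j
    induction j with
    | zero => rw [mul_zero, add_zero]
    | succ j ih => rw [mul_add, mul_one, ← add_assoc, h, ih]
  have h2 : ∀ a j, prodn T (r * j + a) = prodn T a * prodn T (r * j) := by
    intro a j
    induction a with
    | zero => rw [add_zero]; simp [prodn]
    | succ a ih =>
      rw [← add_assoc, prodn, ih, prodn, Matrix.mul_assoc]
      congr 1
      rw [add_comm, h1]
  induction j with
  | zero => rw [mul_zero, pow_zero]; rfl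
  | succ j ih => rw [mul_add, mul_one, h2, ih, pow_succ']

theorem Bt_periodic (D : S.BD N f e b) (m : ℕ) (hm : ∀ s, coeff s f ^ (p ^ m) = coeff s f) (t : ℕ) :
    Bt D (t + m) = Bt D t := by
  have htc : ∀ t, S.tc f (t + m) = S.tc f t := by
    intro t
    funext s
    rw [tc, tc, pow_add, mul_comm, pow_mul, ← map_pow, hm]
  have h1 : EE D (t + m) = EE D t := EE_congr D (htc t)
  have h2 : EE D (t + m + 1) = EE D (t + 1) := by
    have : t + m + 1 = (t + 1) + m := by omega
    rw [this]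
    exact EE_congr D (htc (t + 1))
  ext u' u
  rw [Bt, Bt, gop_apply, gop_apply, h1, h2, alt, alt, kap, kap, htc]

/-- divisibility of coefficients by growing powers of `λ` -/
def Dv (S : Setup p d K R) (N c : ℕ) (P : MvPolynomial ι (S.Q N)) : Prop :=
  ∀ v : ι →₀ ℕ, (S.rd N S.lam) ^ ((p - 3) * (v.degree + c)) ∣ coeff v P

theorem Dv_alt (D : S.BD N f e b) (A : Finset ι) (t : ℕ) (P : MvPolynomial ι (S.Q N)) :
    Dv S N A.card (S.alt N f A t P) := by
  have hp5 := D.hp5
  intro v
  obtain ⟨M, hM⟩ := exists_VV P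
  rw [eq_sum_DD hM, map_sum, coeff_sum]
  refine Finset.dvd_sum fun u _ => ?_
  rw [S.coeff_alt (by omega) N f D.hf]
  refine Dvd.dvd.mul_right (Dvd.dvd.mul_left ?_ _) _
  have h1 := (S.ker_spec (by omega) (su f) (S.tc f t) (su_zero f) (su_degree f D.hf)
    (v + oneA A) (u + oneA A)).1
  rw [map_add, degree_oneA] at h1
  rw [kb, ← map_pow]
  exact map_dvd (S.rd N) h1

theorem Dv_symm (D : S.BD N f e b) (c t : ℕ) (Z : MvPolynomial ι (S.Q N)) (hZ : Dv S N c Z) :
    Dv S N c ((EE D t).symm Z) := by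
  intro w
  obtain ⟨M, hM⟩ := exists_VV Z
  rw [eq_sum_DD hM, map_sum, coeff_sum]
  refine Finset.dvd_sum fun v _ => ?_
  have : monomial v (coeff v Z) = coeff v Z • monomial v (1 : S.Q N) := by
    rw [smul_monomial, smul_eq_mul, mul_one]
  rw [this, map_smul, coeff_smul, smul_eq_mul]
  by_cases h : v.degree < w.degree
  · have h1 := EE_symm_mem D t (monomial_mem_VV (le_refl v.degree) (1 : S.Q N))
    rw [h1 w h, mul_zero]
    exact dvd_zero _
  · refine Dvd.dvd.mul_right ((pow_dvd_pow _ ?_).trans (hZ v)) _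
    exact Nat.mul_le_mul_left _ (by omega)

theorem Bt_dvd (D : S.BD N f e b) (t : ℕ) (u' u : ι → Fin e) :
    (S.rd N S.lam) ^ ((p - 3) * (∑ i, (u' i : ℕ) + Fintype.card ι)) ∣ Bt D t u' u := by
  have h := Dv_symm D _ (t + 1) _ (Dv_alt D Finset.univ t (EE D t (monomial (emb u) 1))) (emb u')
  rw [Finset.card_univ] at h
  have h2 : (emb u').degree = ∑ i, (u' i : ℕ) := by
    rw [Finsupp.degree_eq_sum]
    rfl
  rw [h2] at h
  exact h

end Setup

end Pool.Agent.H425
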