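import Mathlib

set_option autoImplicit false

/-!
# Complete intersections: local rings at the origin and Hilbert series

Adapted from the library modules of an earlier run.
-/

namespace Pool.Agent.H425.CI

section localpart


open RingTheory.Sequence IsLocalRing Pointwise

universe u

variable {A : Type u} [CommRing A] [IsLocalRing A] [IsNoetherianRing A]

/-- an element of a finite module over a Noetherian local ring that is divisible by all powers of
an element of the maximal ideal is zero -/
theorem exists_not_mem_smul_top {M : Type*} [AddCommGroup M] [Module A M] [Module.Finite A M]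
    {r : A} (hr : r ∈ maximalIdeal A) (x : M) (hx : x ≠ 0) :
    ∃ (n : ℕ) (y : M), x = r ^ n • y ∧ y ∉ (r • (⊤ : Submodule A M)) := by
  by_contra hcon
  push Not at hcon
  have key : ∀ n : ℕ, ∃ y : M, x = r ^ n • y := by
    intro n
    induction n with
    | zero => exact ⟨x, by simp⟩
    | succ n ih =>
      obtain ⟨y, hy⟩ := ih
      have h := hcon n y hy
      rw [Submodule.mem_smul_pointwise_iff_exists] at h
      obtain ⟨z, -, hz⟩ := h
      exact ⟨z, by rw [hy, ← hz, smul_smul, pow_succ]⟩
  have hne : Ideal.span {r} ≠ ⊤ := by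
    intro h
    have h1 : Ideal.span {r} ≤ maximalIdeal A := by
      rw [Ideal.span_le]
      simpa using hr
    rw [h] at h1
    exact (maximalIdeal.isMaximal A).ne_top (top_le_iff.1 h1)
  have h0 := Ideal.iInf_pow_smul_eq_bot_of_isLocalRing (M := M) (Ideal.span {r}) hne
  apply hx
  have hmem : x ∈ (⨅ i : ℕ, (Ideal.span {r}) ^ i • (⊤ : Submodule A M)) := by
    rw [Submodule.mem_iInf]
    intro n
    obtain ⟨y, hy⟩ := key n
    rw [hy, Ideal.span_singleton_pow]
    exact Submodule.smul_mem_smul (Ideal.mem_span_singleton_self _) trivial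
  rw [h0] at hmem
  simpa using hmem

/-- the depth is at most the dimension at an associated prime -/
theorem ass_dim (rs : List A) (hrs : ∀ r ∈ rs, r ∈ maximalIdeal A) :
    ∀ (M : Type u) [AddCommGroup M] [Module A M] [Module.Finite A M],
      IsWeaklyRegular M rs → ∀ P : Ideal A, P ∈ associatedPrimes A M →
        (rs.length : WithBot ℕ∞) ≤ ringKrullDim (A ⧸ P) := by
  induction rs with
  | nil =>
    intro M _ _ _ _ P hP
    have hp : P.IsPrime := hP.isPrime
    have : Nontrivial (A ⧸ P) := Ideal.Quotient.nontrivial_iff.2 hp.ne_top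
    simpa using ringKrullDim_nonneg_of_nontrivial (R := A ⧸ P)
  | cons r rs ih =>
    intro M _ _ _ hreg P hP
    rw [isWeaklyRegular_cons_iff] at hreg
    obtain ⟨hr, hreg'⟩ := hreg
    have hrm : r ∈ maximalIdeal A := hrs r (by simp)
    rw [AssociatedPrimes.mem_iff, isAssociatedPrime_iff] at hP
    obtain ⟨hPp, x, hx⟩ := hP
    have hx0 : x ≠ 0 := by
      rintro rfl
      apply hPp.ne_top
      rw [hx, Ideal.eq_top_iff_one, Submodule.mem_colon_singleton]
      simp
    obtain ⟨n, y, hxy, hy⟩ := exists_not_mem_smul_top hrm x hx0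
    have hrn : IsSMulRegular M (r ^ n) := hr.pow n
    have hPy : ∀ a ∈ P, a • y = 0 := by
      intro a ha
      rw [hx, Submodule.mem_colon_singleton] at ha
      apply hrn
      change r ^ n • a • y = r ^ n • (0 : M)
      rw [smul_zero, smul_comm, ← hxy]
      simpa using ha
    have hry : r ∉ P := by
      intro h
      have := hPy r h
      have hy0 : y = 0 := hr (by simpa using this)
      exact hx0 (by rw [hxy, hy0, smul_zero])
    set y' : QuotSMulTop r M := Submodule.Quotient.mk y with hy'
    have hy'0 : y' ≠ 0 := by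
      intro h
      rw [hy', Submodule.Quotient.mk_eq_zero] at h
      exact hy h
    obtain ⟨Q, hQ, hQle⟩ := exists_le_isAssociatedPrime_of_isNoetherianRing A y' hy'0
    have hQp : Q.IsPrime := hQ.isPrime
    have hPQ : P ≤ Q := by
      intro a ha
      apply hQle
      rw [Submodule.mem_colon_singleton, hy', ← Submodule.Quotient.mk_smul, hPy a ha]
      simp
    have hrQ : r ∈ Q := by
      apply hQle
      rw [Submodule.mem_colon_singleton, hy', ← Submodule.Quotient.mk_smul]
      have : r • y ∈ r • (⊤ : Submodule A M) := Submodule.smul_mem_pointwise_smul y r ⊤ trivial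
      rw [Submodule.mem_bot, Submodule.Quotient.mk_eq_zero]
      exact this
    have h1 := ih (fun s hs => hrs s (by simp [hs])) (QuotSMulTop r M) hreg' Q hQ
    have h2 : ringKrullDim (A ⧸ Q) + 1 ≤ ringKrullDim (A ⧸ P) := by
      apply ringKrullDim_succ_le_of_surjective (Ideal.Quotient.factor hPQ)
        (Ideal.Quotient.factor_surjective hPQ) (r := Ideal.Quotient.mk P r)
      · rw [mem_nonZeroDivisors_iff_ne_zero]
        intro h
        exact hry (Ideal.Quotient.eq_zero_iff_mem.1 h)
      · rw [Ideal.Quotient.factor_mk]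
        exact Ideal.Quotient.eq_zero_iff_mem.2 hrQ
    calc ((r :: rs).length : WithBot ℕ∞) = (rs.length : WithBot ℕ∞) + 1 := by
          simp
      _ ≤ ringKrullDim (A ⧸ Q) + 1 := by gcongr
      _ ≤ _ := h2

open CategoryTheory Abelian Limits in
/-- exchange: if there is a regular sequence of length `n + 1` in the maximal ideal on `M` and `f`
in the maximal ideal is `M`-regular, then there is one of length `n` on `M / f M` -/
theorem exchange (M : Type u) [AddCommGroup M] [Module A M] [Module.Finite A M] [Nontrivial M]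
    (n : ℕ) (rs : List A) (hlen : rs.length = n + 1) (hrs : ∀ r ∈ rs, r ∈ maximalIdeal A)
    (hreg : IsWeaklyRegular M rs) (f : A) (hf : f ∈ maximalIdeal A) (hfr : IsSMulRegular M f) :
    ∃ ts : List A, ts.length = n ∧ (∀ r ∈ ts, r ∈ maximalIdeal A) ∧
      IsWeaklyRegular (QuotSMulTop f M) ts := by
  have hlt : ∀ (M' : Type u) [AddCommGroup M'] [Module A M'] [Module.Finite A M'] [Nontrivial M'],
      (maximalIdeal A) • (⊤ : Submodule A M') < ⊤ := by
    intro M' _ _ _ _
    rw [lt_top_iff_ne_top]
    intro h
    have h2 := Submodule.eq_bot_of_le_smul_of_le_jacobson_bot (maximalIdeal A)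
      (⊤ : Submodule A M') Module.Finite.fg_top h.ge (IsLocalRing.maximalIdeal_le_jacobson _)
    exact top_ne_bot h2
  let N : ModuleCat.{u} A := ModuleCat.of A (A ⧸ maximalIdeal A)
  have hsupp : Module.support A N = PrimeSpectrum.zeroLocus (maximalIdeal A) := by
    change Module.support A (A ⧸ maximalIdeal A) = _
    rw [Module.support_eq_zeroLocus, Ideal.annihilator_quotient]
  have hR : IsRegular M rs :=
    RingTheory.Sequence.IsRegular.of_isWeaklyRegular_of_mem_maximalIdeal M hrs hreg
  have hext : ∀ i < n + 1, Subsingleton (Ext N (ModuleCat.of A M) i) := by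
    intro i hi
    have := ModuleCat.subsingleton_ext_of_exists_isRegular (maximalIdeal A) N hsupp.subset
      (ModuleCat.of A M) (hlt M) rs hrs hR i (by omega)
    exact this
  have hext' : ∀ i < n, Subsingleton (Ext N (ModuleCat.of A (QuotSMulTop f M)) i) := by
    intro i hi
    have zero1 := AddCommGrpCat.isZero_of_iff_subsingleton.mpr (hext i (by omega))
    have zero2 := AddCommGrpCat.isZero_of_iff_subsingleton.mpr (hext (i + 1) (by omega))
    exact AddCommGrpCat.subsingleton_of_isZero <| ShortComplex.Exact.isZero_of_both_zeros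
      ((Ext.covariant_sequence_exact₃' N
        (IsSMulRegular.smulShortComplex_shortExact (M := ModuleCat.of A M) hfr)) i (i + 1) rfl)
      (zero1.eq_zero_of_src _) (zero2.eq_zero_of_tgt _)
  have : Nontrivial (QuotSMulTop f M) := nontrivial_quotSMulTop_of_mem_maximalIdeal M hf
  obtain ⟨ts, h1, h2, h3⟩ := ModuleCat.exists_isRegular_of_exists_subsingleton_ext (maximalIdeal A) n
    (ModuleCat.of A (QuotSMulTop f M)) (hlt _) N hsupp hext'
  exact ⟨ts, h1, h2, h3.toIsWeaklyRegular⟩

/-- If `M` has a regular sequence of length `n + fs.length` in the maximal ideal and `fs` is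
`M`-regular, then `dim A / P ≥ n` for all associated primes `P` of `M / fs M`. -/
theorem ass_dim_after (fs : List A) (hfs : ∀ f ∈ fs, f ∈ maximalIdeal A) :
    ∀ (M : Type u) [AddCommGroup M] [Module A M] [Module.Finite A M] (n : ℕ),
      (∃ rs : List A, rs.length = n + fs.length ∧ (∀ r ∈ rs, r ∈ maximalIdeal A) ∧
        IsWeaklyRegular M rs) →
      IsWeaklyRegular M fs →
      ∀ P : Ideal A, P ∈ associatedPrimes A (M ⧸ (Ideal.ofList fs • (⊤ : Submodule A M))) →
        (n : WithBot ℕ∞) ≤ ringKrullDim (A ⧸ P) := by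
  induction fs with
  | nil =>
    rintro M _ _ _ n ⟨rs, hlen, hrs, hreg⟩ _ P hP
    have e : (M ⧸ (Ideal.ofList ([] : List A) • (⊤ : Submodule A M))) ≃ₗ[A] M :=
      Submodule.quotEquivOfEqBot _ (by simp)
    rw [_root_.LinearEquiv.AssociatedPrimes.eq e] at hP
    have := ass_dim rs hrs M hreg P hP
    rw [hlen] at this
    simpa using this
  | cons f fs ih =>
    rintro M _ _ _ n ⟨rs, hlen, hrs, hreg⟩ hfreg P hP
    rw [isWeaklyRegular_cons_iff] at hfreg
    rw [_root_.LinearEquiv.AssociatedPrimes.eq (Submodule.quotOfListConsSMulTopEquivQuotSMulTopInner M f fs)] at hP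
    by_cases hM : Nontrivial M
    · obtain ⟨ts, h1, h2, h3⟩ := exchange M (n + fs.length) rs (by simpa [add_assoc] using hlen) hrs
        hreg f (hfs f (by simp)) hfreg.1
      exact ih (fun g hg => hfs g (by simp [hg])) (QuotSMulTop f M) n ⟨ts, h1, h2, h3⟩ hfreg.2 P hP
    · rw [not_nontrivial_iff_subsingleton] at hM
      have : Subsingleton (QuotSMulTop f M) := by
        unfold QuotSMulTop
        infer_instance
      exact absurd hP (not_isAssociatedPrime_of_subsingleton)


end localpart

section setuppart


open RingTheory.Sequence IsLocalRing Pointwise MvPolynomial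

variable {ι : Type} {k : Type} [Field k]

/-- distinct variables form a weakly regular sequence in a polynomial ring -/
theorem isWeaklyRegular_X (l : List ι) (hl : l.Nodup) :
    IsWeaklyRegular (MvPolynomial ι k) (l.map (X : ι → MvPolynomial ι k)) := by
  classical
  rw [isWeaklyRegular_iff]
  intro i hi
  rw [isSMulRegular_quotient_iff_mem_of_smul_mem]
  intro x hx
  have hi' : i < l.length := by simpa using hi
  have e : Ideal.ofList (List.take i (l.map (X : ι → MvPolynomial ι k))) •
      (⊤ : Submodule (MvPolynomial ι k) (MvPolynomial ι k)) =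
      Ideal.span (X '' {j : ι | j ∈ l.take i}) := by
    rw [smul_eq_mul, Ideal.mul_top, Ideal.ofList, ← List.map_take]
    congr 1
    ext y
    simp only [Set.mem_ofPred_eq, Set.mem_image, ← List.mem_map]
  rw [e] at hx ⊢
  rw [mem_ideal_span_X_image] at hx ⊢
  intro m hm
  have h1 : m + Finsupp.single l[i] 1 ∈ ((X l[i] : MvPolynomial ι k) * x).support := by
    simp only [mem_support_iff]
    rw [coeff_X_mul' ]
    simp
    exact (mem_support_iff.1 hm)
  have h2 := hx (m + Finsupp.single l[i] 1) (by simpa using h1)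
  obtain ⟨j, hj, hjm⟩ := h2
  refine ⟨j, hj, ?_⟩
  intro h0
  apply hjm
  have hne : l[i] ≠ j := by
    rintro rfl
    rw [Set.mem_ofPred_eq, List.mem_take_iff_getElem] at hj
    obtain ⟨j', hj', hjj⟩ := hj
    have := (List.Nodup.getElem_inj_iff hl).1 hjj
    omega
  simp [h0, hne]

variable (ι k) in
/-- the maximal ideal of the origin -/
noncomputable abbrev orig : Ideal (MvPolynomial ι k) := RingHom.ker (constantCoeff (σ := ι) (R := k))

instance : (orig ι k).IsPrime := RingHom.ker_isPrime _

variable (ι k) in
/-- the local ring at the origin -/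
abbrev Loc : Type := Localization.AtPrime (orig ι k)

instance [Finite ι] : IsNoetherianRing (Loc ι k) :=
  IsLocalization.isNoetherianRing (orig ι k).primeCompl _ inferInstance

/-- the localization map -/
noncomputable abbrev toLoc : MvPolynomial ι k →+* Loc ι k := algebraMap _ _

theorem toLoc_mem {f : MvPolynomial ι k} : toLoc f ∈ maximalIdeal (Loc ι k) ↔ constantCoeff f = 0 := by
  rw [IsLocalization.AtPrime.to_map_mem_maximal_iff (Loc ι k) (orig ι k), RingHom.mem_ker]

theorem orig_eq : orig ι k = Ideal.span (Set.range (X : ι → MvPolynomial ι k)) := by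
  ext f
  rw [RingHom.mem_ker, ← Set.image_univ, mem_ideal_span_X_image]
  constructor
  · intro h m hm
    by_contra hcon
    push Not at hcon
    have : m = 0 := by
      ext i
      simpa using hcon i
    rw [this, mem_support_iff] at hm
    exact hm h
  · intro h
    by_contra hcon
    obtain ⟨i, -, hi⟩ := h 0 (by rwa [mem_support_iff])
    simp at hi


theorem maximalIdeal_eq : maximalIdeal (Loc ι k) =
    Ideal.span (Set.range (fun i => toLoc (X i : MvPolynomial ι k))) := by
  rw [← Localization.AtPrime.map_eq_maximalIdeal]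
  have h := congrArg (Ideal.map (toLoc (ι := ι) (k := k))) (orig_eq (ι := ι) (k := k))
  rw [Ideal.map_span, ← Set.range_comp] at h
  exact h


end setuppart

section choicepart

open RingTheory.Sequence IsLocalRing Pointwise MvPolynomial

variable {ι : Type} {k : Type} [Field k]

theorem quot_drop {A : Type*} [CommRing A] (P Q : Ideal A) [Q.IsPrime] (hQP : Q ≤ P) (f : A)
    (hf : f ∈ P) (hf' : f ∉ Q) : ringKrullDim (A ⧸ P) + 1 ≤ ringKrullDim (A ⧸ Q) := by
  apply ringKrullDim_succ_le_of_surjective (Ideal.Quotient.factor hQP)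
    (Ideal.Quotient.factor_surjective hQP) (r := Ideal.Quotient.mk Q f)
  · rw [mem_nonZeroDivisors_iff_ne_zero]
    intro h0
    exact hf' (Ideal.Quotient.eq_zero_iff_mem.1 h0)
  · rw [Ideal.Quotient.factor_mk]
    exact Ideal.Quotient.eq_zero_iff_mem.2 hf

theorem ofList_le_of_ass {A : Type*} [CommRing A] [IsNoetherianRing A] (fs : List A) (Q : Ideal A)
    (hQ : Q ∈ associatedPrimes A (A ⧸ (Ideal.ofList fs • (⊤ : Submodule A A)))) (g : A)
    (hg : g ∈ fs) : g ∈ Q := by
  rw [AssociatedPrimes.mem_iff, isAssociatedPrime_iff] at hQ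
  obtain ⟨hQp, x, hx⟩ := hQ
  rw [hx, Submodule.mem_colon_singleton]
  obtain ⟨y, rfl⟩ := Submodule.Quotient.mk_surjective _ x
  rw [← Submodule.Quotient.mk_smul, Submodule.mem_bot, Submodule.Quotient.mk_eq_zero]
  exact Submodule.smul_mem_smul (Ideal.subset_span (by exact hg)) Submodule.mem_top

theorem exists_rs [Fintype ι] : ∃ rs : List (Loc ι k), rs.length = Fintype.card ι ∧
    (∀ r ∈ rs, r ∈ maximalIdeal (Loc ι k)) ∧ IsWeaklyRegular (Loc ι k) rs := by
  classical
  refine ⟨((Finset.univ : Finset ι).toList.map (X : ι → MvPolynomial ι k)).map toLoc, ?_, ?_, ?_⟩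
  · simp
  · intro r hr
    simp only [List.mem_map] at hr
    obtain ⟨_, ⟨i, _, rfl⟩, rfl⟩ := hr
    rw [toLoc_mem]
    simp
  · exact (isWeaklyRegular_X _ (Finset.nodup_toList _)).of_isLocalization (Loc ι k)
      (orig ι k).primeCompl


end choicepart

section gradedpart


open RingTheory.Sequence IsLocalRing Pointwise MvPolynomial Module

variable {ι : Type} {k : Type} [Field k]

theorem whc_mul {w : ι → ℕ} {b : ℕ} {g : MvPolynomial ι k} (hg : IsWeightedHomogeneous w g b)
    (s : MvPolynomial ι k) (e : ℕ) :
    weightedHomogeneousComponent w e (s * g) =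
      if b ≤ e then weightedHomogeneousComponent w (e - b) s * g else 0 := by
  classical
  split_ifs with hbe
  · ext d
    rw [coeff_weightedHomogeneousComponent, coeff_mul, coeff_mul]
    by_cases hd : Finsupp.weight w d = e
    · rw [if_pos hd]
      refine Finset.sum_congr rfl fun x hx => ?_
      rw [Finset.HasAntidiagonal.mem_antidiagonal] at hx
      rw [coeff_weightedHomogeneousComponent]
      by_cases h0 : coeff x.2 g = 0
      · rw [h0, mul_zero, mul_zero]
      · have h1 := hg h0
        have h2 : Finsupp.weight w x.1 + Finsupp.weight w x.2 = e := by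
          rw [← map_add, hx, hd]
        rw [if_pos (by omega)]
    · rw [if_neg hd]
      symm
      refine Finset.sum_eq_zero fun x hx => ?_
      rw [Finset.HasAntidiagonal.mem_antidiagonal] at hx
      rw [coeff_weightedHomogeneousComponent]
      by_cases h0 : coeff x.2 g = 0
      · rw [h0, mul_zero]
      · have h1 := hg h0
        have h2 : Finsupp.weight w x.1 + Finsupp.weight w x.2 ≠ e := by
          rwa [← map_add, hx]
        rw [if_neg (by omega), zero_mul]
  · ext d
    rw [coeff_weightedHomogeneousComponent, coeff_zero]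
    split_ifs with hd
    · rw [coeff_mul]
      refine Finset.sum_eq_zero fun x hx => ?_
      rw [Finset.HasAntidiagonal.mem_antidiagonal] at hx
      by_cases h0 : coeff x.2 g = 0
      · rw [h0, mul_zero]
      · have h1 := hg h0
        have h2 : Finsupp.weight w x.1 + Finsupp.weight w x.2 = e := by
          rw [← map_add, hx, hd]
        omega
    · rfl

/-- homogeneous ideals -/
def Hom (w : ι → ℕ) (J : Ideal (MvPolynomial ι k)) : Prop :=
  ∀ g ∈ J, ∀ e, weightedHomogeneousComponent w e g ∈ J

theorem hom_span (w : ι → ℕ) (S : Set (MvPolynomial ι k))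
    (hS : ∀ f ∈ S, ∃ b, IsWeightedHomogeneous w f b) : Hom w (Ideal.span S) := by
  have key : ∀ g ∈ Ideal.span S, ∀ a : MvPolynomial ι k, ∀ e,
      weightedHomogeneousComponent w e (a * g) ∈ Ideal.span S := by
    intro g hg
    induction hg using Submodule.span_induction with
    | mem f hf =>
      intro a e
      obtain ⟨b, hb⟩ := hS f hf
      rw [whc_mul hb]
      split_ifs
      · exact Ideal.mul_mem_left _ _ (Ideal.subset_span hf)
      · exact Ideal.zero_mem _
    | zero => simp
    | add x y _ _ hx hy =>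
      intro a e
      rw [mul_add, map_add]
      exact Ideal.add_mem _ (hx a e) (hy a e)
    | smul c x _ hx =>
      intro a e
      rw [smul_eq_mul, ← mul_assoc]
      exact hx _ e
  intro g hg e
  simpa using key g hg 1 e

/-- transfer of regularity from the local ring -/
theorem transfer {w : ι → ℕ} (hw : ∀ i, 0 < w i) (fs : List (MvPolynomial ι k))
    (hfs : ∀ f ∈ fs, ∃ b, IsWeightedHomogeneous w f b) (f : MvPolynomial ι k)
    (hreg : IsWeaklyRegular (Loc ι k) ((fs ++ [f]).map toLoc)) (e : ℕ) (g : MvPolynomial ι k)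
    (hg : IsWeightedHomogeneous w g e) (hfg : f * g ∈ Ideal.ofList fs) : g ∈ Ideal.ofList fs := by
  rw [List.map_append, isWeaklyRegular_append_iff, List.map_cons, List.map_nil,
    isWeaklyRegular_cons_iff] at hreg
  have h1 := hreg.2.1
  rw [isSMulRegular_quotient_iff_mem_of_smul_mem] at h1
  have hmap : (Ideal.ofList (fs.map toLoc) • (⊤ : Submodule (Loc ι k) (Loc ι k)) :
      Submodule (Loc ι k) (Loc ι k)) = (Ideal.ofList fs).map (toLoc (ι := ι) (k := k)) := by
    rw [smul_eq_mul, Ideal.mul_top, Ideal.map_ofList]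
  have h2 := h1 (toLoc g) (by
    rw [hmap, smul_eq_mul, ← map_mul]
    exact Ideal.mem_map_of_mem _ hfg)
  rw [hmap] at h2
  rw [IsLocalization.algebraMap_mem_map_algebraMap_iff (orig ι k).primeCompl] at h2
  obtain ⟨s, hs, hsg⟩ := h2
  have h3 := hom_span w {x | x ∈ fs} hfs (s * g) hsg e
  rw [whc_mul hg, if_pos le_rfl, Nat.sub_self,
    weightedHomogeneousComponent_zero _ (fun i => (hw i).ne')] at h3
  have hs0 : coeff 0 s ≠ 0 := hs
  have h4 := Ideal.mul_mem_left (Ideal.span {x | x ∈ fs}) (C (coeff 0 s)⁻¹) h3
  rw [← mul_assoc, ← C_mul, inv_mul_cancel₀ hs0, C_1, one_mul] at h4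
  exact h4

/-- graded pieces of an ideal -/
noncomputable def Jd (w : ι → ℕ) (J : Ideal (MvPolynomial ι k)) (e : ℕ) :
    Submodule k (MvPolynomial ι k) :=
  J.restrictScalars k ⊓ weightedHomogeneousSubmodule k w e

/-- the Hilbert function of the quotient by a homogeneous ideal -/
noncomputable def hJ (w : ι → ℕ) (J : Ideal (MvPolynomial ι k)) (e : ℕ) : ℤ :=
  (finrank k (weightedHomogeneousSubmodule k w e) : ℤ) - finrank k (Jd w J e)

theorem fin_whs [Finite ι] {w : ι → ℕ} (hw : ∀ i, 0 < w i) (e : ℕ) :
    FiniteDimensional k (weightedHomogeneousSubmodule k w e) := by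
  rw [FiniteDimensional, Module.Finite.iff_fg]
  exact weightedHomogeneousSubmodule_fg _ w (fun i => (hw i).ne') e

theorem fin_Jd [Finite ι] {w : ι → ℕ} (hw : ∀ i, 0 < w i) (J : Ideal (MvPolynomial ι k)) (e : ℕ) :
    FiniteDimensional k (Jd w J e) := by
  have := fin_whs (k := k) hw e
  exact Submodule.finiteDimensional_of_le inf_le_right

theorem hJ_nonneg [Finite ι] {w : ι → ℕ} (hw : ∀ i, 0 < w i) (J : Ideal (MvPolynomial ι k))
    (e : ℕ) : 0 ≤ hJ w J e := by
  have := fin_whs (k := k) hw e
  have h : finrank k (Jd w J e) ≤ finrank k (weightedHomogeneousSubmodule k w e) :=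
    Submodule.finrank_mono inf_le_right
  unfold hJ
  omega

theorem Jd_step [Finite ι] {w : ι → ℕ} (hw : ∀ i, 0 < w i) (J : Ideal (MvPolynomial ι k))
    (hJ' : Hom w J) (f : MvPolynomial ι k) (hf0 : f ≠ 0) (b : ℕ) (hf : IsWeightedHomogeneous w f b)
    (hreg : ∀ e g, IsWeightedHomogeneous w g e → f * g ∈ J → g ∈ J) (e : ℕ) :
    hJ w (J ⊔ Ideal.span {f}) e = hJ w J e - (if b ≤ e then hJ w J (e - b) else 0) := by
  unfold hJ
  have hdec : ∀ x, x ∈ J ⊔ Ideal.span {f} → IsWeightedHomogeneous w x e →
      ∃ j ∈ J, ∃ r, x = weightedHomogeneousComponent w e j +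
        (if b ≤ e then f * weightedHomogeneousComponent w (e - b) r else 0) := by
    intro x hx hxe
    obtain ⟨j, hj, y, hy, rfl⟩ := Submodule.mem_sup.1 hx
    obtain ⟨r, rfl⟩ := Ideal.mem_span_singleton'.1 hy
    refine ⟨j, hj, r, ?_⟩
    have h1 := hxe.weightedHomogeneousComponent_same
    rw [map_add, whc_mul hf] at h1
    rw [← h1]
    congr 1
    split_ifs
    · ring
    · rfl
  split_ifs with hbe
  · set V := weightedHomogeneousSubmodule k w (e - b) with hV
    set L : MvPolynomial ι k →ₗ[k] MvPolynomial ι k := LinearMap.mulLeft k f with hL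
    have hLinj : Function.Injective L := by
      intro x y hxy
      simp only [hL, LinearMap.mulLeft_apply] at hxy
      exact mul_left_cancel₀ hf0 hxy
    have hfV : ∀ g, IsWeightedHomogeneous w g (e - b) → IsWeightedHomogeneous w (f * g) e := by
      intro g hg
      have := hf.mul hg
      rwa [Nat.add_sub_cancel' hbe] at this
    have h1 : Jd w (J ⊔ Ideal.span {f}) e = Jd w J e ⊔ V.map L := by
      apply le_antisymm
      · rintro x ⟨hx1, hx2⟩
        obtain ⟨j, hj, r, hr⟩ := hdec x hx1 hx2
        rw [if_pos hbe] at hr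
        rw [hr]
        apply Submodule.add_mem_sup
        · exact ⟨hJ' j hj e, weightedHomogeneousComponent_mem _ _ _⟩
        · exact ⟨_, weightedHomogeneousComponent_mem _ _ _, rfl⟩
      · refine sup_le ?_ ?_
        · rintro x ⟨hx1, hx2⟩
          exact ⟨Ideal.mem_sup_left hx1, hx2⟩
        · rintro _ ⟨g, hg, rfl⟩
          refine ⟨Ideal.mem_sup_right ?_, hfV g hg⟩
          exact Ideal.mul_mem_right _ _ (Ideal.mem_span_singleton_self f)
    have h2 : Jd w J e ⊓ V.map L = (Jd w J (e - b)).map L := by
      apply le_antisymm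
      · rintro _ ⟨⟨hx1, hx2⟩, ⟨g, hg, rfl⟩⟩
        exact ⟨g, ⟨hreg _ g hg hx1, hg⟩, rfl⟩
      · rintro _ ⟨g, ⟨hg1, hg2⟩, rfl⟩
        refine ⟨⟨Ideal.mul_mem_left _ _ hg1, hfV g hg2⟩, ⟨g, hg2, rfl⟩⟩
    have := fin_Jd (k := k) hw J e
    have := fin_Jd (k := k) hw J (e - b)
    have := fin_whs (k := k) hw (e - b)
    have h3 := Submodule.finrank_sup_add_finrank_inf_eq (Jd w J e) (V.map L)
    rw [← h1, h2, ← (Submodule.equivMapOfInjective L hLinj V).finrank_eq,
      ← (Submodule.equivMapOfInjective L hLinj (Jd w J (e - b))).finrank_eq] at h3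
    have h4 : finrank k (Jd w J (e - b)) ≤ finrank k V := Submodule.finrank_mono inf_le_right
    omega
  · have h1 : Jd w (J ⊔ Ideal.span {f}) e = Jd w J e := by
      apply le_antisymm
      · rintro x ⟨hx1, hx2⟩
        obtain ⟨j, hj, r, hr⟩ := hdec x hx1 hx2
        rw [if_neg hbe, add_zero] at hr
        rw [hr]
        exact ⟨hJ' j hj e, weightedHomogeneousComponent_mem _ _ _⟩
      · rintro x ⟨hx1, hx2⟩
        exact ⟨Ideal.mem_sup_left hx1, hx2⟩
    rw [h1]
    ring

/-- graded regular sequences -/
inductive GReg (w : ι → ℕ) : List ℕ → List (MvPolynomial ι k) → Prop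
  | nil : GReg w [] []
  | snoc (bs : List ℕ) (fs : List (MvPolynomial ι k)) (b : ℕ) (f : MvPolynomial ι k)
    (h : GReg w bs fs) (hhom : ∀ g ∈ fs, ∃ c, IsWeightedHomogeneous w g c) (hf0 : f ≠ 0)
    (hf : IsWeightedHomogeneous w f b)
    (hreg : ∀ e g, IsWeightedHomogeneous w g e → f * g ∈ Ideal.ofList fs → g ∈ Ideal.ofList fs) :
    GReg w (bs ++ [b]) (fs ++ [f])

theorem greg_of {w : ι → ℕ} (hw : ∀ i, 0 < w i) (fs : List (MvPolynomial ι k)) :
    ∀ bs : List ℕ, List.Forall₂ (fun f b => IsWeightedHomogeneous w f b) fs bs →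
    IsWeaklyRegular (Loc ι k) (fs.map toLoc) → (∀ f ∈ fs, constantCoeff f = 0) → GReg w bs fs := by
  induction fs using List.reverseRecOn with
  | nil =>
    intro bs hbs _ _
    rw [List.forall₂_nil_left_iff] at hbs
    rw [hbs]
    exact GReg.nil
  | append_singleton fs f ih =>
    intro bs hbs hreg hmem
    rcases List.eq_nil_or_concat' bs with rfl | ⟨bs', b, rfl⟩
    · simpa using hbs.length_eq
    · have hlen : fs.length = bs'.length := by simpa using hbs.length_eq
      have h1 : List.Forall₂ (fun f b => IsWeightedHomogeneous w f b) fs bs' := by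
        have := List.forall₂_take fs.length hbs
        rwa [List.take_left, hlen, List.take_left] at this
      have h2 : IsWeightedHomogeneous w f b := by
        have := List.forall₂_drop fs.length hbs
        rw [List.drop_left, hlen, List.drop_left] at this
        simpa using this
      have hhom : ∀ g ∈ fs, ∃ c, IsWeightedHomogeneous w g c := by
        intro g hg
        obtain ⟨n, hn, rfl⟩ := List.mem_iff_getElem.1 hg
        exact ⟨bs'[n]'(by omega), (List.forall₂_iff_get.1 h1).2 n hn (by omega)⟩
      have hr : IsWeaklyRegular (Loc ι k) (fs.map toLoc) := by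
        rw [List.map_append, isWeaklyRegular_append_iff] at hreg
        exact hreg.1
      have htr := transfer hw fs hhom f hreg
      refine GReg.snoc bs' fs b f (ih bs' h1 hr (fun g hg => hmem g (by simp [hg]))) hhom ?_ h2 htr
      rintro rfl
      have h1 := htr 0 1 (isWeightedHomogeneous_one k w) (by simp)
      have hle : Ideal.ofList fs ≤ orig ι k := by
        rw [Ideal.ofList, Ideal.span_le]
        intro g hg
        exact hmem g (List.mem_append_left _ hg)
      have h3 : (1 : MvPolynomial ι k) ∈ orig ι k := hle h1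
      rw [RingHom.mem_ker, map_one] at h3
      exact one_ne_zero h3

/-- Hilbert series -/
noncomputable def Hs (w : ι → ℕ) (J : Ideal (MvPolynomial ι k)) : PowerSeries ℤ :=
  PowerSeries.mk (hJ w J)

theorem Hs_of_GReg [Finite ι] {w : ι → ℕ} (hw : ∀ i, 0 < w i) (bs : List ℕ)
    (fs : List (MvPolynomial ι k)) (h : GReg w bs fs) :
    Hs w (Ideal.ofList fs) = (bs.map (fun b => (1 : PowerSeries ℤ) - PowerSeries.X ^ b)).prod *
      Hs w (⊥ : Ideal (MvPolynomial ι k)) := by
  induction h with
  | nil => simp
  | snoc bs fs b f h hhom hf0 hf hreg ih =>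
    rw [Ideal.ofList_append, Ideal.ofList_singleton, List.map_append, List.prod_append,
      mul_comm (List.prod _), mul_assoc, ← ih, List.map_singleton, List.prod_singleton]
    ext e
    rw [sub_mul, one_mul, map_sub, PowerSeries.coeff_X_pow_mul', Hs, Hs, PowerSeries.coeff_mk,
      PowerSeries.coeff_mk, PowerSeries.coeff_mk]
    exact Jd_step hw (Ideal.ofList fs) (hom_span w _ hhom) f hf0 b hf hreg e

theorem Hs_orig [Finite ι] {w : ι → ℕ} (hw : ∀ i, 0 < w i) : Hs w (orig ι k) = 1 := by
  classical
  ext e
  rw [Hs, PowerSeries.coeff_mk, PowerSeries.coeff_one, hJ]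
  split_ifs with he
  · subst he
    have h1 : weightedHomogeneousSubmodule k w 0 = k ∙ (1 : MvPolynomial ι k) := by
      apply le_antisymm
      · intro x hx
        have h2 := IsWeightedHomogeneous.weightedHomogeneousComponent_same (w := w) hx
        rw [weightedHomogeneousComponent_zero _ (fun i => (hw i).ne')] at h2
        rw [← h2, Submodule.mem_span_singleton]
        exact ⟨coeff 0 x, by rw [smul_eq_C_mul, mul_one]⟩
      · rw [Submodule.span_le, Set.singleton_subset_iff]
        exact isWeightedHomogeneous_one k w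
    have h2 : Jd w (orig ι k) 0 = ⊥ := by
      rw [eq_bot_iff]
      rintro x ⟨hx1, hx2⟩
      have h2 := IsWeightedHomogeneous.weightedHomogeneousComponent_same (w := w) hx2
      rw [weightedHomogeneousComponent_zero _ (fun i => (hw i).ne')] at h2
      have hx1' : constantCoeff x = 0 := hx1
      rw [constantCoeff_eq] at hx1'
      rw [Submodule.mem_bot, ← h2, hx1', C_0]
    rw [h1, h2, finrank_span_singleton one_ne_zero, finrank_bot]
    norm_num
  · have h1 : Jd w (orig ι k) e = weightedHomogeneousSubmodule k w e := by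
      apply le_antisymm
      · exact inf_le_right
      · intro x hx
        refine ⟨?_, hx⟩
        change constantCoeff x = 0
        by_contra hne
        have := hx hne
        simp at this
        exact he this.symm
    rw [h1, sub_self]


end gradedpart

end Pool.Agent.H425.CI
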