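import Pool.Agent.H425.DD

set_option autoImplicit false
set_option linter.unusedSectionVars false
set_option linter.unusedVariables false

namespace Pool.Agent.H425

open MvPolynomial

variable {ι : Type} [Fintype ι] [DecidableEq ι] {L : Type} [CommRing L]

/-- the indicator exponent of a subset -/
noncomputable def oneA (A : Finset ι) : ι →₀ ℕ :=
  Finsupp.equivFunOnFinite.symm (fun i => if i ∈ A then 1 else 0)

theorem oneA_apply (A : Finset ι) (i : ι) : oneA A i = if i ∈ A then 1 else 0 := rfl

theorem oneA_le (A : Finset ι) (i : ι) : oneA A i ≤ 1 := by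
  rw [oneA_apply]; split_ifs <;> omega

theorem oneA_insert (A : Finset ι) (i : ι) (h : i ∉ A) :
    oneA (insert i A) = oneA A + Finsupp.single i 1 := by
  ext j
  rw [Finsupp.add_apply, oneA_apply, oneA_apply]
  by_cases hj : j = i
  · subst hj
    simp [h]
  · rw [Finsupp.single_eq_of_ne hj]
    simp [hj]

theorem degree_oneA (A : Finset ι) : (oneA A).degree = A.card := by
  rw [Finsupp.degree_eq_sum]
  simp only [oneA_apply]
  simp

/-- the index map of `ψ_q` -/
noncomputable def ix (A : Finset ι) (q : ℕ) (v : ι →₀ ℕ) : ι →₀ ℕ := q • (v + oneA A) - oneA A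

theorem ix_apply (A : Finset ι) (q : ℕ) (v : ι →₀ ℕ) (i : ι) :
    ix A q v i = q * (v i + oneA A i) - oneA A i := rfl

theorem ix_injective (A : Finset ι) {q : ℕ} (hq : 0 < q) : Function.Injective (ix A q) := by
  intro v w h
  ext i
  have h1 := DFunLike.congr_fun h i
  rw [ix_apply, ix_apply] at h1
  have h2 : oneA A i ≤ q * (v i + oneA A i) := by nlinarith [Nat.zero_le (v i)]
  have h3 : oneA A i ≤ q * (w i + oneA A i) := by nlinarith [Nat.zero_le (w i)]
  have h4 : q * (v i + oneA A i) = q * (w i + oneA A i) := by omega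
  have h5 := Nat.eq_of_mul_eq_mul_left hq h4
  omega

/-- the operator `ψ_q` on forms with differentials in the directions of `A` -/
noncomputable def psi (A : Finset ι) (q : ℕ) : MvPolynomial ι L →ₗ[L] MvPolynomial ι L :=
  (basisMonomials ι L).constr L
    (fun u => ∑ v ∈ DD ι u.degree, if ix A q v = u then monomial v 1 else 0)

theorem degree_le_ix (A : Finset ι) {q : ℕ} (hq : 0 < q) (v : ι →₀ ℕ) : v.degree ≤ (ix A q v).degree := by
  rw [Finsupp.degree_eq_sum, Finsupp.degree_eq_sum]
  refine Finset.sum_le_sum fun i _ => ?_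
  rw [ix_apply]
  have : v i + oneA A i ≤ q * (v i + oneA A i) := Nat.le_mul_of_pos_left _ hq
  omega

theorem coeff_psi (A : Finset ι) {q : ℕ} (hq : 0 < q) (P : MvPolynomial ι L) (v : ι →₀ ℕ) :
    coeff v (psi A q P) = coeff (ix A q v) P := by
  have h : (lcoeff L v) ∘ₗ (psi A q) = lcoeff L (ix A q v) := by
    refine linmap_ext fun u => ?_
    have h1 : psi A q (monomial u (1 : L)) =
        ∑ v ∈ DD ι u.degree, if ix A q v = u then monomial v 1 else 0 := by
      have := (basisMonomials ι L).constr_basis L
        (fun u => ∑ v ∈ DD ι u.degree, if ix A q v = u then monomial v (1 : L) else 0) u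
      rw [coe_basisMonomials] at this
      exact this
    rw [LinearMap.comp_apply, h1, lcoeff_apply, lcoeff_apply, coeff_sum, coeff_monomial]
    by_cases hv : u = ix A q v
    · rw [if_pos hv, Finset.sum_eq_single v]
      · rw [if_pos hv.symm, coeff_monomial, if_pos rfl]
      · intro w _ hw
        rw [if_neg, coeff_zero]
        intro h
        exact hw (ix_injective A hq (h.trans hv))
      · intro hn
        exfalso
        apply hn
        rw [mem_DD, hv]
        exact degree_le_ix A hq v
    · rw [if_neg hv]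
      refine Finset.sum_eq_zero fun w _ => ?_
      split_ifs with hw
      · rw [coeff_monomial, if_neg]
        rintro rfl
        exact hv hw.symm
      · exact coeff_zero _
  exact LinearMap.congr_fun h P

theorem psi_one (A : Finset ι) (P : MvPolynomial ι L) : psi A 1 P = P := by
  ext v
  rw [coeff_psi A one_pos]
  congr 1
  ext i
  rw [ix_apply]
  omega

theorem psi_comp (A : Finset ι) {p q : ℕ} (hp : 0 < p) (hq : 0 < q) (F h : MvPolynomial ι L) :
    psi A p (F * psi A q h) = psi A (p * q) (expand q F * h) := by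
  ext v
  rw [coeff_psi A hp, coeff_psi A (Nat.mul_pos hp hq)]
  -- linear in `F`
  induction F using MvPolynomial.induction_on' with
  | add F G hF hG => rw [add_mul, coeff_add, hF, hG, map_add, add_mul, coeff_add]
  | monomial w r =>
    rw [expand_monomial, coeff_monomial_mul', coeff_monomial_mul', coeff_psi A hq]
    have h1 : w ≤ ix A p v ↔ q • w ≤ ix A (p * q) v := by
      refine forall_congr' fun i => ?_
      rw [Finsupp.smul_apply, ix_apply, ix_apply, smul_eq_mul]
      have ha := oneA_le A i
      have e1 : p * q * (v i + oneA A i) = q * (p * (v i + oneA A i)) := by ring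
      rw [e1]
      have hpos : oneA A i ≤ p * (v i + oneA A i) := by nlinarith [Nat.zero_le (v i)]
      set B := p * (v i + oneA A i)
      set a := oneA A i
      interval_cases a
      · simp only [Nat.sub_zero]
        exact (Nat.mul_le_mul_left_iff hq).symm
      · constructor
        · intro h
          have : w i + 1 ≤ B := by omega
          have h2 := Nat.mul_le_mul_left q this
          rw [mul_add, mul_one] at h2
          omega
        · intro h
          have h2 : 1 ≤ q * B := Nat.mul_pos hq (by omega)
          have h3 : q * w i < q * B := by omega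
          have := Nat.lt_of_mul_lt_mul_left h3
          omega
    by_cases hw : w ≤ ix A p v
    · rw [if_pos hw, if_pos (h1.1 hw)]
      congr 2
      ext i
      have h2 := hw i
      rw [ix_apply, Finsupp.tsub_apply, Finsupp.tsub_apply, ix_apply, ix_apply, Finsupp.smul_apply,
        smul_eq_mul]
      rw [ix_apply] at h2
      have e1 : p * q * (v i + oneA A i) = q * (p * (v i + oneA A i)) := by ring
      rw [e1]
      have hpos : oneA A i ≤ p * (v i + oneA A i) := by nlinarith [Nat.zero_le (v i)]
      set B := p * (v i + oneA A i)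
      set a := oneA A i
      have e2 : B - a - w i + a = B - w i := by omega
      rw [e2, Nat.mul_sub]
      omega
    · rw [if_neg hw, if_neg (fun h => hw (h1.2 h))]

/-- iterated composition -/
noncomputable def compn (T : ℕ → (MvPolynomial ι L →ₗ[L] MvPolynomial ι L)) :
    ℕ → (MvPolynomial ι L →ₗ[L] MvPolynomial ι L)
  | 0 => LinearMap.id
  | a + 1 => (T a) ∘ₗ (compn T a)

/-- iterated products of matrices -/
noncomputable def prodn {m : Type} [Fintype m] [DecidableEq m] {A : Type} [CommRing A]
    (T : ℕ → Matrix m m A) : ℕ → Matrix m m A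
  | 0 => 1
  | a + 1 => T a * prodn T a

theorem compn_mem {M : ℕ} (T : ℕ → (MvPolynomial ι L →ₗ[L] MvPolynomial ι L))
    (h : ∀ t, ∀ P ∈ VV ι L M, T t P ∈ VV ι L M) (a : ℕ) : ∀ P ∈ VV ι L M, compn T a P ∈ VV ι L M := by
  induction a with
  | zero => intro P hP; exact hP
  | succ a ih => intro P hP; exact h a _ (ih P hP)

theorem mat_compn {M : ℕ} (T : ℕ → (MvPolynomial ι L →ₗ[L] MvPolynomial ι L))
    (h : ∀ t, ∀ P ∈ VV ι L M, T t P ∈ VV ι L M) (a : ℕ) :
    mat M (compn T a) = prodn (fun t => mat M (T t)) a := by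
  induction a with
  | zero => exact mat_id M
  | succ a ih =>
    rw [compn, mat_comp _ _ (compn_mem T h a), ih]
    rfl

theorem compn_psi (A : Finset ι) {p : ℕ} (hp : 0 < p) (F : ℕ → MvPolynomial ι L) (a : ℕ)
    (P : MvPolynomial ι L) :
    compn (fun t => (psi A p) ∘ₗ (LinearMap.mulLeft L (F t))) a P =
      psi A (p ^ a) ((∏ t ∈ Finset.range a, expand (p ^ t) (F t)) * P) := by
  induction a generalizing P with
  | zero => rw [Finset.prod_range_zero, one_mul, pow_zero, psi_one]; rfl
  | succ a ih =>
    rw [compn, LinearMap.comp_apply, LinearMap.comp_apply, LinearMap.mulLeft_apply, ih,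
      psi_comp A hp (pow_pos hp a), Finset.prod_range_succ, pow_succ', ← mul_assoc]
    congr 2
    ring

theorem psi_mem_VV (A : Finset ι) {p : ℕ} (hp : 0 < p) {M : ℕ} {F P : MvPolynomial ι L}
    (hF : F ∈ VV ι L ((p - 1) * M)) (hP : P ∈ VV ι L M) : psi A p (F * P) ∈ VV ι L M := by
  intro v hv
  rw [coeff_psi A hp]
  have h := mul_mem_VV hF hP
  apply h
  have h1 : (ix A p v).degree + A.card = p * (v.degree + A.card) := by
    have h2 : ix A p v + oneA A = p • (v + oneA A) := by
      rw [ix, tsub_add_cancel_of_le]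
      intro i
      rw [Finsupp.smul_apply, Finsupp.add_apply, smul_eq_mul]
      nlinarith [Nat.zero_le (v i)]
    have h3 := congrArg Finsupp.degree h2
    rwa [map_add, map_nsmul, map_add, degree_oneA, smul_eq_mul] at h3
  have h2 : (p - 1) * M + M = p * M := by
    calc (p - 1) * M + M = (p - 1 + 1) * M := by ring
      _ = _ := by rw [Nat.sub_add_cancel hp]
  rw [h2]
  have h3 : p * (M + 1) ≤ p * v.degree := Nat.mul_le_mul_left _ hv
  have h4 : A.card ≤ p * A.card := Nat.le_mul_of_pos_left _ hp
  rw [mul_add] at h1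
  nlinarith

theorem trace_mat_psi (A : Finset ι) {Q : ℕ} (hQ : 1 ≤ Q) (G : MvPolynomial ι L) (M : ℕ) :
    (mat M ((psi A Q) ∘ₗ (LinearMap.mulLeft L G))).trace =
      ∑ v ∈ DD ι M, coeff ((Q - 1) • (v + oneA A)) G := by
  rw [Matrix.trace, ← Finset.sum_coe_sort (DD ι M)]
  refine Finset.sum_congr rfl fun v _ => ?_
  rw [Matrix.diag_apply, mat, LinearMap.comp_apply, LinearMap.mulLeft_apply, coeff_psi A (by omega),
    coeff_mul_monomial', mul_one]
  have h1 : v.1 ≤ ix A Q v.1 := by
    intro i
    rw [ix_apply]
    have : v.1 i + oneA A i ≤ Q * (v.1 i + oneA A i) := Nat.le_mul_of_pos_left _ hQ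
    omega
  rw [if_pos h1]
  congr 1
  ext i
  rw [Finsupp.tsub_apply, ix_apply, Finsupp.smul_apply, Finsupp.add_apply, smul_eq_mul, Nat.sub_mul,
    one_mul]
  omega

end Pool.Agent.H425
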