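import Pool.Agent.H425.Chr2
import Pool.Agent.H425.Psi

set_option autoImplicit false
set_option linter.unusedSectionVars false
set_option linter.unusedVariables false

namespace Pool.Agent.H425

open MvPolynomial

/-- the field with `Q` elements inside `K` -/
noncomputable def FQ (K : Type) [Field K] (Q : ℕ) : Finset K :=
  open Classical in insert 0 (Polynomial.nthRootsFinset (Q - 1) (1 : K))

theorem mem_FQ {K : Type} [Field K] {Q : ℕ} (hQ : 2 ≤ Q) (x : K) : x ∈ FQ K Q ↔ x ^ Q = x := by
  classical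
  rw [FQ, Finset.mem_insert, Polynomial.mem_nthRootsFinset (by omega)]
  constructor
  · rintro (rfl | h)
    · exact zero_pow (by omega)
    · calc x ^ Q = x ^ (Q - 1) * x := by rw [← pow_succ]; congr 1; omega
        _ = x := by rw [h, one_mul]
  · intro h
    by_cases hx : x = 0
    · exact Or.inl hx
    · right
      apply mul_right_cancel₀ hx
      rw [one_mul, ← pow_succ]
      rw [show Q - 1 + 1 = Q by omega]
      exact h

namespace Setup

variable {p d : ℕ} [hp : Fact p.Prime] {K R : Type} [Field K] [CommRing R] [IsDomain R]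
  (S : Setup p d K R) {ι : Type} [Fintype ι] [DecidableEq ι]

theorem sum_tau (Q : ℕ) (hQ : 2 ≤ Q) (ζ : K) (hζ : IsPrimitiveRoot ζ (Q - 1)) (w : ℕ) :
    ∑ x ∈ FQ K Q, S.tau x ^ w = (if (Q - 1) ∣ w then (Q : R) else 0) +
      -(if (Q - 1) ∣ w ∧ w ≠ 0 then (1 : R) else 0) := by
  classical
  rw [FQ, Finset.sum_insert (by
    rw [Polynomial.mem_nthRootsFinset (by omega), zero_pow (by omega)]
    exact zero_ne_one), S.tau_zero]
  have h1 : ∑ x ∈ Polynomial.nthRootsFinset (Q - 1) (1 : K), S.tau x ^ w =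
      ∑ i ∈ Finset.range (Q - 1), (S.tau ζ ^ w) ^ i := by
    symm
    refine Finset.sum_bij (fun i _ => ζ ^ i) ?_ ?_ ?_ ?_
    · intro i _
      rw [Polynomial.mem_nthRootsFinset (by omega), ← pow_mul, mul_comm, pow_mul, hζ.pow_eq_one,
        one_pow]
    · intro i hi j hj h
      rw [Finset.mem_range] at hi hj
      exact hζ.pow_inj hi hj h
    · intro x hx
      rw [Polynomial.mem_nthRootsFinset (by omega)] at hx
      have : NeZero (Q - 1) := ⟨by omega⟩
      obtain ⟨i, hi, hi2⟩ := hζ.eq_pow_of_pow_eq_one hx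
      exact ⟨i, Finset.mem_range.2 hi, hi2⟩
    · intro i _
      rw [map_pow, ← pow_mul, ← pow_mul, mul_comm]
  rw [h1]
  by_cases hd : (Q - 1) ∣ w
  · obtain ⟨k, rfl⟩ := hd
    have h2 : S.tau ζ ^ ((Q - 1) * k) = 1 := by
      rw [pow_mul, ← map_pow, hζ.pow_eq_one, map_one, one_pow]
    rw [h2]
    simp only [one_pow, Finset.sum_const, Finset.card_range, nsmul_eq_mul, mul_one,
      dvd_mul_right, if_true, true_and]
    have h3 : ((Q - 1 : ℕ) : R) = (Q : R) - 1 := by
      rw [Nat.cast_sub (by omega), Nat.cast_one]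
    by_cases h4 : (Q - 1) * k = 0
    · rw [h4, pow_zero, h3, if_neg (by simp)]
      ring
    · rw [zero_pow h4, h3, if_pos h4]
      ring
  · rw [if_neg hd, if_neg (fun h => hd h.1)]
    have hw0 : w ≠ 0 := by rintro rfl; exact hd (dvd_zero _)
    rw [zero_pow hw0]
    have hne : S.tau ζ ^ w ≠ 1 := by
      intro h
      apply hd
      have := congrArg S.res h
      rw [map_pow, S.res_tau, map_one] at this
      exact hζ.dvd_of_pow_eq_one _ this
    have h2 := (Commute.all (S.tau ζ ^ w) 1).mul_geom_sum₂ (Q - 1)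
    simp only [one_pow, mul_one] at h2
    have h5 : (S.tau ζ ^ w) ^ (Q - 1) = (S.tau (ζ ^ (Q - 1))) ^ w := by
      rw [map_pow, ← pow_mul, ← pow_mul, mul_comm]
    rw [h5, hζ.pow_eq_one, map_one, one_pow, sub_self] at h2
    rcases mul_eq_zero.1 h2 with h3 | h3
    · exact absurd (sub_eq_zero.1 h3) hne
    · rw [h3]; ring

/-- the trace formula for polynomials -/
theorem sum_eval (N : ℕ) (Q : ℕ) (hQ : 2 ≤ Q) (ζ : K) (hζ : IsPrimitiveRoot ζ (Q - 1)) (M : ℕ)
    (G : MvPolynomial ι (S.Q N)) (hG : G ∈ VV ι (S.Q N) ((Q - 1) * M)) :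
    ∑ x ∈ Fintype.piFinset (fun _ : ι => FQ K Q), eval (fun i => S.rd N (S.tau (x i))) G =
      ∑ A : Finset ι, (-1) ^ A.card * (Q : S.Q N) ^ (Aᶜ).card *
        ∑ v ∈ DD ι M, coeff ((Q - 1) • (v + oneA A)) G := by
  classical
  have h1 : ∑ x ∈ Fintype.piFinset (fun _ : ι => FQ K Q), eval (fun i => S.rd N (S.tau (x i))) G =
      ∑ w ∈ DD ι ((Q - 1) * M), coeff w G * ∏ i, S.rd N (∑ x ∈ FQ K Q, S.tau x ^ (w i)) := by
    have e1 : ∀ x : ι → K, eval (fun i => S.rd N (S.tau (x i))) G =
        ∑ w ∈ DD ι ((Q - 1) * M), coeff w G * ∏ i, S.rd N (S.tau (x i)) ^ (w i) := by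
      intro x
      conv_lhs => rw [eq_sum_DD hG]
      rw [map_sum]
      refine Finset.sum_congr rfl fun w _ => ?_
      rw [eval_monomial, Finsupp.prod_fintype _ _ (fun _ => pow_zero _)]
    simp only [e1]
    rw [Finset.sum_comm]
    refine Finset.sum_congr rfl fun w _ => ?_
    rw [← Finset.mul_sum]
    congr 1
    have := Finset.prod_univ_sum (fun _ : ι => FQ K Q) (fun i x => S.rd N (S.tau x) ^ (w i))
    rw [← this]
    refine Finset.prod_congr rfl fun i _ => ?_
    rw [map_sum]
    refine Finset.sum_congr rfl fun x _ => ?_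
    rw [map_pow]
  rw [h1]
  have h2 : ∀ w : ι →₀ ℕ, ∏ i, S.rd N (∑ x ∈ FQ K Q, S.tau x ^ (w i)) =
      ∑ A : Finset ι, ((-1) ^ A.card * (Q : S.Q N) ^ (Aᶜ).card) *
        (if (∀ i, (Q - 1) ∣ w i) ∧ (∀ i ∈ A, w i ≠ 0) then 1 else 0) := by
    intro w
    have e2 : ∀ i, S.rd N (∑ x ∈ FQ K Q, S.tau x ^ (w i)) =
        -(if (Q - 1) ∣ w i ∧ w i ≠ 0 then (1 : S.Q N) else 0) +
        (if (Q - 1) ∣ w i then (Q : S.Q N) else 0) := by
      intro i
      rw [S.sum_tau Q hQ ζ hζ, map_add, map_neg, apply_ite (S.rd N), apply_ite (S.rd N), map_zero,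
        map_one, map_natCast, add_comm]
    simp only [e2]
    rw [Fintype.prod_add]
    refine Finset.sum_congr rfl fun A _ => ?_
    by_cases hA : (∀ i, (Q - 1) ∣ w i) ∧ (∀ i ∈ A, w i ≠ 0)
    · rw [if_pos hA, mul_one]
      congr 1
      · rw [← Finset.prod_const]
        refine Finset.prod_congr rfl fun i hi => ?_
        rw [if_pos ⟨hA.1 i, hA.2 i hi⟩]
      · rw [← Finset.prod_const]
        refine Finset.prod_congr rfl fun i hi => ?_
        rw [if_pos (hA.1 i)]
    · rw [if_neg hA, mul_zero]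
      by_cases hdv : ∀ i, (Q - 1) ∣ w i
      · have : ∃ i ∈ A, w i = 0 := by
          by_contra hcon
          push Not at hcon
          exact hA ⟨hdv, hcon⟩
        obtain ⟨i, hi, hi2⟩ := this
        rw [Finset.prod_eq_zero hi, zero_mul]
        rw [if_neg (fun h => h.2 hi2), neg_zero]
      · push Not at hdv
        obtain ⟨i, hi⟩ := hdv
        by_cases hiA : i ∈ A
        · rw [Finset.prod_eq_zero hiA, zero_mul]
          rw [if_neg (fun h => hi h.1), neg_zero]
        · rw [Finset.prod_eq_zero (s := Aᶜ) (Finset.mem_compl.2 hiA), mul_zero]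
          rw [if_neg hi]
  simp only [h2, Finset.mul_sum]
  rw [Finset.sum_comm]
  refine Finset.sum_congr rfl fun A _ => ?_
  set cst := (-1) ^ A.card * (Q : S.Q N) ^ (Aᶜ).card with hcst
  have h3 : ∑ w ∈ DD ι ((Q - 1) * M), coeff w G * (cst *
      (if (∀ i, (Q - 1) ∣ w i) ∧ (∀ i ∈ A, w i ≠ 0) then 1 else 0)) =
      ∑ w ∈ (DD ι ((Q - 1) * M)).filter (fun w => (∀ i, (Q - 1) ∣ w i) ∧ (∀ i ∈ A, w i ≠ 0)),
        cst * coeff w G := by
    rw [Finset.sum_filter]
    refine Finset.sum_congr rfl fun w _ => ?_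
    split_ifs
    · ring
    · ring
  rw [h3]
  symm
  rw [← Finset.sum_filter_of_ne (s := DD ι M) (p := fun v => v.degree + A.card ≤ M)]
  · refine Finset.sum_bij (fun v _ => (Q - 1) • (v + oneA A)) ?_ ?_ ?_ ?_
    · intro v hv
      simp only [Finset.mem_filter, mem_DD] at hv ⊢
      refine ⟨?_, ?_, ?_⟩
      · rw [map_nsmul, map_add, degree_oneA, smul_eq_mul]
        exact Nat.mul_le_mul_left _ hv.2
      · intro i
        rw [Finsupp.smul_apply, smul_eq_mul]
        exact dvd_mul_right _ _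
      · intro i hi
        rw [Finsupp.smul_apply, smul_eq_mul, Finsupp.add_apply, oneA_apply, if_pos hi]
        have : 0 < (Q - 1) * (v i + 1) := Nat.mul_pos (by omega) (Nat.succ_pos _)
        omega
    · intro v _ v' _ h
      ext i
      have h4 := DFunLike.congr_fun h i
      simp only [Finsupp.smul_apply, smul_eq_mul, Finsupp.add_apply] at h4
      have := Nat.eq_of_mul_eq_mul_left (by omega) h4
      omega
    · intro w hw
      simp only [Finset.mem_filter, mem_DD] at hw
      obtain ⟨hw1, hw2, hw3⟩ := hw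
      let v : ι →₀ ℕ := Finsupp.equivFunOnFinite.symm (fun i => w i / (Q - 1) - oneA A i)
      have hv : (Q - 1) • (v + oneA A) = w := by
        ext i
        rw [Finsupp.smul_apply, smul_eq_mul, Finsupp.add_apply]
        have e3 : v i = w i / (Q - 1) - oneA A i := rfl
        obtain ⟨k, hk⟩ := hw2 i
        have e4 : w i / (Q - 1) = k := by rw [hk, Nat.mul_div_cancel_left _ (by omega)]
        rw [e3, e4, hk]
        congr 1
        rw [oneA_apply]
        split_ifs with hi
        · have := hw3 i hi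
          have : k ≠ 0 := by rintro rfl; rw [mul_zero] at hk; exact this hk
          omega
        · omega
      refine ⟨v, ?_, hv⟩
      simp only [Finset.mem_filter, mem_DD]
      have h5 : (Q - 1) * (v.degree + A.card) ≤ (Q - 1) * M := by
        have := congrArg Finsupp.degree hv
        rw [map_nsmul, map_add, degree_oneA, smul_eq_mul] at this
        rw [this]
        exact hw1
      have h6 := Nat.le_of_mul_le_mul_left h5 (by omega)
      exact ⟨by omega, h6⟩
    · intro v _
      rfl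
  · intro v _ hne
    by_contra h
    apply hne
    rw [hG, mul_zero]
    rw [map_nsmul, map_add, degree_oneA, smul_eq_mul]
    exact Nat.mul_lt_mul_of_pos_left (by omega) (by omega)

end Setup

end Pool.Agent.H425
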