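import Pool.Agent.H425.Theta

set_option autoImplicit false
set_option linter.unusedSectionVars false

namespace Pool.Agent.H425

open AH

theorem prime_pow_expand {A : Type*} [CommRing A] (p : ℕ) (hp : p.Prime) (u : A) :
    ∃ s, (1 + u) ^ p = 1 + u ^ p + p * u * (1 + u * s) := by
  have h1 := (Commute.all (1 : A) u).add_pow_prime_eq' hp
  have h2 : u * u ∣ ∑ k ∈ (Finset.Ioo 0 p).erase (p - 1), 1 ^ k * u ^ (p - k) * ((p.choose k / p : ℕ) : A) := by
    refine Finset.dvd_sum fun k hk => ?_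
    rw [Finset.mem_erase, Finset.mem_Ioo] at hk
    refine Dvd.dvd.mul_right (Dvd.dvd.mul_left ?_ _) _
    rw [← pow_two]
    exact pow_dvd_pow _ (by omega)
  obtain ⟨s, hs⟩ := h2
  refine ⟨s, ?_⟩
  have hmem : p - 1 ∈ Finset.Ioo 0 p := by
    rw [Finset.mem_Ioo]
    have := hp.one_lt
    omega
  rw [h1, ← Finset.add_sum_erase _ _ hmem, hs]
  have h3 : p.choose (p - 1) / p = 1 := by
    have : p.choose (p - 1) = p := by
      rw [Nat.choose_symm_of_eq_add (a := p - 1) (b := 1)]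
      · exact Nat.choose_one_right p
      · have := hp.one_lt; omega
    rw [this, Nat.div_self hp.pos]
  have h4 : p - (p - 1) = 1 := by have := hp.one_lt; omega
  rw [h3, h4]
  simp only [one_pow, one_mul, pow_one, Nat.cast_one, mul_one]
  ring

namespace Setup

variable {p d : ℕ} [hp : Fact p.Prime] {K R : Type} [Field K] [CommRing R] [IsDomain R]
  (S : Setup p d K R)

/-- the truncated ring -/
abbrev Q (N : ℕ) : Type := R ⧸ Ideal.span {S.lam ^ N}

/-- reduction -/
abbrev rd (N : ℕ) : R →+* S.Q N := Ideal.Quotient.mk _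

theorem rd_eq_zero (N : ℕ) (x : R) : S.rd N x = 0 ↔ S.lam ^ N ∣ x := by
  rw [Ideal.Quotient.eq_zero_iff_mem, Ideal.mem_span_singleton]

theorem rd_eq (N : ℕ) (x y : R) : S.rd N x = S.rd N y ↔ S.lam ^ N ∣ x - y := by
  rw [← sub_eq_zero, ← map_sub, rd_eq_zero]

theorem isUnit_rd (N : ℕ) (x : R) (h : S.res x ≠ 0) : IsUnit (S.rd N x) := by
  set y := S.tau (S.res x)⁻¹
  have h1 : S.res (1 - x * y) = 0 := by
    rw [map_sub, map_one, map_mul, S.res_tau, mul_inv_cancel₀ h, sub_self]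
  have h2 := S.dvd_of_res _ h1
  have h3 : IsNilpotent (S.rd N (1 - x * y)) := by
    refine ⟨N, ?_⟩
    rw [← map_pow, rd_eq_zero]
    exact pow_dvd_pow_of_dvd h2 N
  have h4 := h3.isUnit_one_sub
  have h5 : 1 - S.rd N (1 - x * y) = S.rd N x * S.rd N y := by
    rw [map_sub, map_one, map_mul]; ring
  rw [h5] at h4
  exact isUnit_of_mul_isUnit_left h4

theorem isUnit_one_add (N : ℕ) (x : S.Q N) : IsUnit (1 + S.rd N S.lam * x) := by
  obtain ⟨y, rfl⟩ := Ideal.Quotient.mk_surjective x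
  have := S.isUnit_rd N (1 + S.lam * y) (by
    rw [map_add, map_one, map_mul, S.res_lam, zero_mul, add_zero]
    exact one_ne_zero)
  rwa [map_add, map_one, map_mul] at this

/-- truncated sums of the splitting function -/
noncomputable def thR (B : ℕ) (z : R) : R := ∑ j ∈ Finset.range B, S.th j * z ^ j

/-- truncated sums of the exponential -/
noncomputable def epR (B : ℕ) (z : R) : R := ∑ j ∈ Finset.range B, S.ep j * z ^ j

theorem ce_ge (hp3 : 3 ≤ p) (j : ℕ) : j ≤ 3 * ce p j := by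
  unfold ce
  have h1 : 2 * j / p ≤ 2 * j / 3 := Nat.div_le_div_left hp3 (by norm_num)
  omega

theorem th_vanish (hp3 : 3 ≤ p) (hd : 1 ≤ d) (N j : ℕ) (hj : 3 * N ≤ j) : S.rd N (S.th j) = 0 := by
  rw [rd_eq_zero]
  refine (pow_dvd_pow _ ?_).trans (S.th_dvd j)
  have := ce_ge hp3 j
  calc N ≤ ce p j := by omega
    _ = 1 * ce p j := (one_mul _).symm
    _ ≤ d * ce p j := Nat.mul_le_mul_right _ hd

theorem ep_vanish (hd : 1 ≤ d) (N j : ℕ) (hj : N ≤ j) : S.rd N (S.ep j) = 0 := by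
  rw [rd_eq_zero]
  refine (pow_dvd_pow _ ?_).trans (S.ep_dvd j)
  calc N ≤ 1 * j := by omega
    _ ≤ d * j := Nat.mul_le_mul_right _ hd

/-- the truncated splitting polynomial -/
noncomputable def thp (N : ℕ) : Polynomial (S.Q N) :=
  ∑ j ∈ Finset.range (3 * N + 3), Polynomial.monomial j (S.rd N (S.th j))

/-- the truncated exponential polynomial -/
noncomputable def epp (N : ℕ) : Polynomial (S.Q N) :=
  ∑ j ∈ Finset.range (3 * N + 3), Polynomial.monomial j (S.rd N (S.ep j))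

theorem coeff_thp (hp3 : 3 ≤ p) (hd : 1 ≤ d) (N j : ℕ) : (S.thp N).coeff j = S.rd N (S.th j) := by
  rw [thp, Polynomial.finsetSum_coeff]
  simp only [Polynomial.coeff_monomial]
  rw [Finset.sum_ite_eq']
  split_ifs with h
  · rfl
  · rw [Finset.mem_range, not_lt] at h
    rw [S.th_vanish hp3 hd N j (by omega)]

theorem coeff_epp (hd : 1 ≤ d) (N j : ℕ) : (S.epp N).coeff j = S.rd N (S.ep j) := by
  rw [epp, Polynomial.finsetSum_coeff]
  simp only [Polynomial.coeff_monomial]
  rw [Finset.sum_ite_eq']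
  split_ifs with h
  · rfl
  · rw [Finset.mem_range, not_lt] at h
    rw [S.ep_vanish hd N j (by omega)]

theorem coe_thp (hp3 : 3 ≤ p) (hd : 1 ≤ d) (N : ℕ) :
    ((S.thp N : Polynomial (S.Q N)) : PowerSeries (S.Q N)) = PowerSeries.map (S.rd N) S.Th := by
  ext j
  rw [Polynomial.coeff_coe, S.coeff_thp hp3 hd, PowerSeries.coeff_map, Th, PowerSeries.coeff_mk]

theorem coe_epp (hd : 1 ≤ d) (N : ℕ) :
    ((S.epp N : Polynomial (S.Q N)) : PowerSeries (S.Q N)) = PowerSeries.map (S.rd N) S.Ep := by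
  ext j
  rw [Polynomial.coeff_coe, S.coeff_epp hd, PowerSeries.coeff_map, Ep, PowerSeries.coeff_mk]

theorem thp_identity (hp3 : 3 ≤ p) (hd : 1 ≤ d) (N : ℕ) :
    S.thp N ^ p * Polynomial.expand _ p (S.epp N) = S.epp N := by
  apply Polynomial.coe_injective
  rw [Polynomial.coe_mul, Polynomial.coe_pow, S.coe_thp hp3 hd]
  have h1 : ((Polynomial.expand _ p (S.epp N) : Polynomial (S.Q N)) : PowerSeries (S.Q N)) =
      PowerSeries.map (S.rd N) (PowerSeries.expand p hp.out.ne_zero S.Ep) := by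
    ext j
    rw [Polynomial.coeff_coe, Polynomial.coeff_expand hp.out.pos, PowerSeries.coeff_map,
      PowerSeries.coeff_expand, S.coeff_epp hd, apply_ite (S.rd N), map_zero, Ep,
      PowerSeries.coeff_mk]
  rw [h1, S.coe_epp hd, ← map_pow, ← map_mul, S.Th_identity]

theorem thp_eval (hp3 : 3 ≤ p) (hd : 1 ≤ d) (N : ℕ) (z : S.Q N) :
    (S.thp N).eval z ^ p * (S.epp N).eval (z ^ p) = (S.epp N).eval z := by
  have := congrArg (Polynomial.eval z) (S.thp_identity hp3 hd N)
  rwa [Polynomial.eval_mul, Polynomial.eval_pow, Polynomial.expand_eval] at this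

theorem eval_thp (hp3 : 3 ≤ p) (hd : 1 ≤ d) (N B : ℕ) (hB : 3 * N ≤ B) (z : R) :
    (S.thp N).eval (S.rd N z) = S.rd N (S.thR B z) := by
  have h1 : S.thp N = ∑ j ∈ Finset.range B, Polynomial.monomial j (S.rd N (S.th j)) := by
    ext j
    rw [S.coeff_thp hp3 hd, Polynomial.finsetSum_coeff]
    simp only [Polynomial.coeff_monomial]
    rw [Finset.sum_ite_eq']
    split_ifs with h
    · rfl
    · rw [Finset.mem_range, not_lt] at h
      rw [S.th_vanish hp3 hd N j (by omega)]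
  rw [h1, Polynomial.eval_finsetSum, thR, map_sum]
  refine Finset.sum_congr rfl fun j _ => ?_
  rw [Polynomial.eval_monomial, map_mul, map_pow]

theorem epp_unit (hd : 1 ≤ d) (N : ℕ) (z : S.Q N) : IsUnit ((S.epp N).eval z) := by
  obtain ⟨y, rfl⟩ := Ideal.Quotient.mk_surjective z
  have h1 : (S.epp N).eval (S.rd N y) = S.rd N (S.epR (3 * N + 3) y) := by
    rw [epp, Polynomial.eval_finsetSum, epR, map_sum]
    refine Finset.sum_congr rfl fun j _ => ?_
    rw [Polynomial.eval_monomial, map_mul, map_pow]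
  rw [h1]
  refine S.isUnit_rd N _ ?_
  rw [epR, map_sum, Finset.sum_range_succ', Finset.sum_eq_zero]
  · rw [ep_zero]; simp
  · intro j _
    have h2 : S.lam ∣ S.ep (j + 1) := by
      refine (dvd_pow_self _ ?_).trans (S.ep_dvd (j + 1))
      exact (Nat.mul_pos hd (Nat.succ_pos j)).ne'
    obtain ⟨c, hc⟩ := h2
    rw [hc]
    simp [S.res_lam]

end Setup

end Pool.Agent.H425
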