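import Pool.Agent.H425.Chr

set_option autoImplicit false
set_option linter.unusedSectionVars false
set_option linter.unusedVariables false

namespace Pool.Agent.H425

open AH

namespace Setup

variable {p d : ℕ} [hp : Fact p.Prime] {K R : Type} [Field K] [CommRing R] [IsDomain R]
  (S : Setup p d K R)

/-- first order expansion -/
theorem thR_first (hp5 : 5 ≤ p) (hd : 1 ≤ d) (B : ℕ) (hB : 2 ≤ B) (z : R) :
    S.lam ^ (2 * d) ∣ S.thR B z - (1 + S.pi * z) := by
  obtain ⟨B, rfl⟩ := Nat.exists_eq_add_of_le hB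
  rw [thR, add_comm 2 B, Finset.sum_range_succ', Finset.sum_range_succ']
  have h1 : S.th (0 + 1) = S.pi := by
    have := S.th_small 1 (by omega)
    simpa using this
  rw [h1, th_zero]
  have h2 : ∀ a : R, a + S.pi * z ^ (0 + 1) + 1 * z ^ 0 - (1 + S.pi * z) = a := by
    intro a; ring
  rw [h2]
  refine Finset.dvd_sum fun j _ => Dvd.dvd.mul_right ?_ _
  refine (pow_dvd_pow _ ?_).trans (S.th_dvd _)
  rw [mul_comm]
  refine Nat.mul_le_mul_left _ ?_
  unfold ce
  have h3 : 2 * (j + 1 + 1) / p ≤ 2 * (j + 1 + 1) / 5 := Nat.div_le_div_left hp5 (by norm_num)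
  omega

theorem prod_first (hd : 1 ≤ d) (s : Finset ℕ) (x y : ℕ → R)
    (h : ∀ t ∈ s, S.lam ^ (d + 1) ∣ x t - (1 + S.pi * y t)) :
    S.lam ^ (d + 1) ∣ ∏ t ∈ s, x t - (1 + S.pi * ∑ t ∈ s, y t) := by
  classical
  induction s using Finset.induction_on with
  | empty => simp
  | insert i s hi ih =>
    rw [Finset.prod_insert hi, Finset.sum_insert hi]
    obtain ⟨a, ha⟩ := h i (by simp)
    obtain ⟨b, hb⟩ := ih (fun t ht => h t (by simp [ht]))
    have h2 : S.lam ^ (d + 1) ∣ S.pi * S.pi := by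
      rw [pi, ← pow_add]
      exact pow_dvd_pow _ (by omega)
    obtain ⟨c, hc⟩ := h2
    refine ⟨a * ∏ t ∈ s, x t + (1 + S.pi * y i) * b + c * (y i * ∑ t ∈ s, y t), ?_⟩
    linear_combination (∏ t ∈ s, x t) * ha + (1 + S.pi * y i) * hb + (y i * ∑ t ∈ s, y t) * hc

theorem root_lemma (hp3 : 3 ≤ p) (hd : 1 ≤ d) (N : ℕ) (w : R)
    (h : S.rd (N + d * (p - 1)) ((1 + S.lam ^ (d + 1) * w) ^ p) = 1) :
    S.rd N (S.lam ^ (d + 1) * w) = 0 := by
  set M := N + d * (p - 1) with hM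
  set u := S.lam ^ (d + 1) * w with hu
  obtain ⟨s, hs⟩ := prime_pow_expand p hp.out u
  have hup : u ^ p = (p : R) * u * (-(S.lam ^ (p - 1) * w ^ (p - 1))) := by
    have h1 : u ^ p = u * u ^ (p - 1) := by
      rw [← pow_succ', Nat.sub_add_cancel hp.out.one_lt.le]
    have h2 : u ^ (p - 1) = S.lam ^ (d * (p - 1)) * (S.lam ^ (p - 1) * w ^ (p - 1)) := by
      rw [hu, mul_pow, ← pow_mul, ← mul_assoc, ← pow_add]
      congr 2
      ring
    rw [h1, h2, S.lam_pow]
    ring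
  have h3 : (1 + u) ^ p - 1 = (p : R) * u * (1 + S.lam * (S.lam ^ d * w * s -
      S.lam ^ (p - 2) * w ^ (p - 1))) := by
    have e1 : S.lam ^ (p - 1) = S.lam * S.lam ^ (p - 2) := by
      rw [← pow_succ']
      congr 1
      omega
    have e2 : u * s = S.lam * (S.lam ^ d * w * s) := by rw [hu, pow_succ]; ring
    rw [hs, hup, e2, e1]
    ring
  have h4 : S.rd M ((1 + u) ^ p - 1) = 0 := by rw [map_sub, h, map_one, sub_self]
  rw [h3, map_mul] at h4
  have h5 := S.isUnit_one_add M (S.rd M (S.lam ^ d * w * s - S.lam ^ (p - 2) * w ^ (p - 1)))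
  rw [← map_mul, ← map_one (S.rd M), ← map_add] at h5
  have h6 := (h5.mul_left_eq_zero).1 h4
  rw [rd_eq_zero] at h6
  rw [rd_eq_zero]
  have h7 : (p : R) * u = S.lam ^ (d * (p - 1)) * (-u) := by rw [S.lam_pow]; ring
  rw [h7, hM, add_comm N, pow_add] at h6
  have h8 := (mul_dvd_mul_iff_left (pow_ne_zero _ S.lam_ne)).1 h6
  rwa [dvd_neg] at h8

/-- the product over the Frobenius orbit is a root of unity -/
theorem prod_pow_one (hp3 : 3 ≤ p) (hd : 1 ≤ d) (N a : ℕ) (z : S.Q N) (hz : z ^ (p ^ a) = z) :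
    (∏ t ∈ Finset.range a, (S.thp N).eval (z ^ (p ^ t))) ^ p = 1 := by
  have h1 : (∏ t ∈ Finset.range a, (S.thp N).eval (z ^ (p ^ t))) ^ p *
      ∏ t ∈ Finset.range a, (S.epp N).eval (z ^ (p ^ (t + 1))) =
      ∏ t ∈ Finset.range a, (S.epp N).eval (z ^ (p ^ t)) := by
    rw [← Finset.prod_pow, ← Finset.prod_mul_distrib]
    refine Finset.prod_congr rfl fun t _ => ?_
    rw [pow_succ, pow_mul]
    exact S.thp_eval hp3 hd N (z ^ (p ^ t))
  have h2 : ∏ t ∈ Finset.range a, (S.epp N).eval (z ^ (p ^ (t + 1))) =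
      ∏ t ∈ Finset.range a, (S.epp N).eval (z ^ (p ^ t)) := by
    have h3 := Finset.prod_range_succ (fun t => (S.epp N).eval (z ^ (p ^ t))) a
    rw [Finset.prod_range_succ', hz, pow_zero, pow_one] at h3
    exact (S.epp_unit hd N z).mul_right_cancel h3
  rw [h2] at h1
  have hu : IsUnit (∏ t ∈ Finset.range a, (S.epp N).eval (z ^ (p ^ t))) := by
    rw [IsUnit.prod_iff]
    exact fun t _ => S.epp_unit hd N _
  exact hu.mul_right_cancel (by rw [h1, one_mul])

/-- the `p`-th root of unity -/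
noncomputable def zet (N : ℕ) : S.Q N := (S.thp N).eval 1

theorem zet_pow (hp3 : 3 ≤ p) (hd : 1 ≤ d) (N : ℕ) : S.zet N ^ p = 1 := by
  have := S.prod_pow_one hp3 hd N 1 1 (one_pow _)
  simpa [zet] using this

theorem zet_eq (hp3 : 3 ≤ p) (hd : 1 ≤ d) (N B : ℕ) (hB : 3 * N ≤ B) : S.zet N = S.rd N (S.thR B 1) := by
  rw [zet, ← S.eval_thp hp3 hd N B hB 1, map_one]

/-- **Dwork's splitting function** -/
theorem char_identity (hp5 : 5 ≤ p) (hd : 1 ≤ d) (N a : ℕ) (y : K) (hy : y ^ (p ^ a) = y)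
    (c : ℕ) (hc : ∑ t ∈ Finset.range a, y ^ (p ^ t) = (c : K)) :
    ∏ t ∈ Finset.range a, (S.thp N).eval (S.rd N (S.tau y) ^ (p ^ t)) = S.zet N ^ c := by
  have hp3 : 3 ≤ p := by omega
  set M := N + d * (p - 1) with hM
  set B := 3 * M + 3 with hB
  set z := S.tau y with hz
  have hzz : z ^ (p ^ a) = z := by rw [hz, ← map_pow, hy]
  set X := ∏ t ∈ Finset.range a, S.thR B (z ^ (p ^ t)) with hX
  set Y := (S.thR B 1) ^ c with hY
  have hXM : S.rd M X ^ p = 1 := by
    have h1 := S.prod_pow_one hp3 hd M a (S.rd M z) (by rw [← map_pow, hzz])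
    rw [hX, map_prod]
    convert h1 using 3 with t
    rw [← map_pow (S.rd M), S.eval_thp hp3 hd M B (by omega)]
  have hYM : S.rd M Y ^ p = 1 := by
    have h1 := S.zet_pow hp3 hd M
    rw [S.zet_eq hp3 hd M B (by omega)] at h1
    rw [hY, map_pow, ← pow_mul, mul_comm, pow_mul, h1, one_pow]
  -- both are congruent modulo `λ ^ (d + 1)`
  have hdd : ∀ x : R, S.lam ^ (2 * d) ∣ x → S.lam ^ (d + 1) ∣ x := fun x hx =>
    (pow_dvd_pow _ (by omega)).trans hx
  have hX1 := S.prod_first hd (Finset.range a) (fun t => S.thR B (z ^ (p ^ t)))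
    (fun t => z ^ (p ^ t)) (fun t _ => hdd _ (S.thR_first hp5 hd B (by omega) _))
  have hY1 := S.prod_first hd (Finset.range c) (fun _ => S.thR B 1)
    (fun _ => 1) (fun t _ => hdd _ (S.thR_first hp5 hd B (by omega) 1))
  have hsum : S.lam ∣ ∑ t ∈ Finset.range a, z ^ (p ^ t) - (c : R) := by
    apply S.dvd_of_res
    rw [map_sub, map_sum, map_natCast, ← hc, sub_eq_zero]
    refine Finset.sum_congr rfl fun t _ => ?_
    rw [map_pow, hz, S.res_tau]
  have hXY : S.lam ^ (d + 1) ∣ X - Y := by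
    obtain ⟨x1, hx1⟩ := hX1
    obtain ⟨y1, hy1⟩ := hY1
    obtain ⟨s1, hs1⟩ := hsum
    simp only [Finset.prod_const, Finset.card_range, Finset.sum_const, nsmul_eq_mul, mul_one] at hy1
    refine ⟨x1 - y1 + s1, ?_⟩
    have e : S.lam ^ (d + 1) = S.pi * S.lam := by rw [pow_succ, pi]
    rw [e] at hx1 hy1 ⊢
    linear_combination hx1 - hy1 + S.pi * hs1
  obtain ⟨w, hw⟩ := hXY
  -- inverse of `Y`
  have hYres : S.res Y ≠ 0 := by
    have h1 : S.res (S.thR B 1) = 1 := by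
      have h2 := S.thR_first hp5 hd B (by omega) 1
      have h3 : S.lam ∣ S.thR B 1 - (1 + S.pi * 1) := (dvd_pow_self _ (by omega)).trans h2
      obtain ⟨v, hv⟩ := h3
      have h4 : S.thR B 1 = 1 + S.pi * 1 + S.lam * v := by linear_combination hv
      have h5 : S.res S.pi = 0 := by rw [pi, map_pow, S.res_lam, zero_pow (by omega)]
      rw [h4, map_add, map_add, map_mul, map_mul, S.res_lam, h5]
      simp
    rw [hY, map_pow, h1, one_pow]
    exact one_ne_zero
  obtain ⟨Y', hY'⟩ := (S.isUnit_rd M Y hYres).exists_right_inv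
  obtain ⟨Z, rfl⟩ := Ideal.Quotient.mk_surjective Y'
  have hW : S.rd M ((1 + S.lam ^ (d + 1) * (w * Z)) ^ p) = 1 := by
    have h1 : S.rd M (1 + S.lam ^ (d + 1) * (w * Z)) = S.rd M X * S.rd M Z := by
      have h2 : (1 : R) + S.lam ^ (d + 1) * (w * Z) = X * Z + (1 - Y * Z) := by
        linear_combination (-Z) * hw
      rw [h2, map_add, map_sub, map_one, map_mul, map_mul, hY']
      ring
    rw [map_pow, h1, mul_pow, hXM, one_mul]
    have h3 : (S.rd M Y * S.rd M Z) ^ p = 1 := by rw [hY', one_pow]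
    rw [mul_pow, hYM, one_mul] at h3
    exact h3
  have hfin := S.root_lemma hp3 hd N (w * Z) hW
  have hMN : ∀ x : R, S.rd M x = 0 → S.rd N x = 0 := by
    intro x hx
    rw [rd_eq_zero] at hx ⊢
    exact (pow_dvd_pow _ (by omega)).trans hx
  have hYZ : S.rd N (Y * Z) = 1 := by
    have h1 : S.rd M (Y * Z - 1) = 0 := by rw [map_sub, map_mul, hY', map_one, sub_self]
    have h2 := hMN _ h1
    rw [map_sub, map_one, sub_eq_zero] at h2
    exact h2
  have hXYN : S.rd N X = S.rd N Y := by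
    have h1 : X - Y = Y * (S.lam ^ (d + 1) * (w * Z)) + (X - Y) * (1 - Y * Z) := by
      rw [hw]; ring
    have h2 : S.rd N (1 - Y * Z) = 0 := by rw [map_sub, hYZ, map_one, sub_self]
    rw [← sub_eq_zero, ← map_sub, h1, map_add, map_mul, hfin, mul_zero, map_mul, h2, mul_zero,
      add_zero]
  rw [S.zet_eq hp3 hd N B (by omega), ← map_pow, ← hXYN, hX, map_prod]
  refine Finset.prod_congr rfl fun t _ => ?_
  rw [← map_pow, S.eval_thp hp3 hd N B (by omega)]

/-- `ζ - 1` is a unit times `π` -/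
theorem zet_sub_one (hp5 : 5 ≤ p) (hd : 1 ≤ d) (N : ℕ) :
    ∃ u : R, S.res u = 1 ∧ S.zet N - 1 = S.rd N (S.lam ^ d * u) := by
  have hp3 : 3 ≤ p := by omega
  obtain ⟨v, hv⟩ := S.thR_first hp5 hd (3 * N + 3) (by omega) 1
  refine ⟨1 + S.lam ^ d * v, ?_, ?_⟩
  · rw [map_add, map_one, map_mul, map_pow, S.res_lam, zero_pow (by omega), zero_mul, add_zero]
  · rw [S.zet_eq hp3 hd N (3 * N + 3) (by omega), ← map_one (S.rd N), ← map_sub]
    congr 1
    have h1 : S.lam ^ (2 * d) = S.lam ^ d * S.lam ^ d := by rw [two_mul, pow_add]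
    rw [pi, h1] at hv
    linear_combination hv

/-- the cyclotomic relation -/
theorem zet_cyclo (hp5 : 5 ≤ p) (hd : 1 ≤ d) (N : ℕ) :
    ∑ i ∈ Finset.range p, S.zet N ^ i = 0 := by
  have hp3 : 3 ≤ p := by omega
  set M := N + d with hM
  obtain ⟨u, hu, hu2⟩ := S.zet_sub_one hp5 hd M
  have h1 := (Commute.all (S.zet M) 1).mul_geom_sum₂ p
  simp only [one_pow, mul_one] at h1
  rw [S.zet_pow hp3 hd, sub_self, hu2, map_mul] at h1
  have hun : IsUnit (S.rd M u) := S.isUnit_rd M u (by rw [hu]; exact one_ne_zero)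
  set B := 3 * M + 3 with hB
  rw [S.zet_eq hp3 hd M B (by omega)] at h1
  have h2 : S.rd M u * S.rd M (S.lam ^ d * ∑ i ∈ Finset.range p, (S.thR B 1) ^ i) = 0 := by
    rw [map_mul, map_sum]
    simp only [map_pow] at h1 ⊢
    linear_combination h1
  have h3 := (hun.mul_right_eq_zero).1 h2
  rw [rd_eq_zero, hM, add_comm, pow_add] at h3
  have h4 := (mul_dvd_mul_iff_left (pow_ne_zero _ S.lam_ne)).1 h3
  rw [S.zet_eq hp3 hd N B (by omega)]
  rw [← rd_eq_zero, map_sum] at h4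
  simpa only [map_pow] using h4

end Setup

end Pool.Agent.H425
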