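import Pool.Agent.H425.FinA

set_option autoImplicit false
set_option linter.unusedSectionVars false
set_option linter.unusedVariables false

namespace Pool.Agent.H425

/-- the weight of an index -/
def wt {n e : ℕ} (u : Fin n → Fin e) : ℕ := ∑ i, ((u i : ℕ) + 1)

theorem wt_eq {n e : ℕ} (u : Fin n → Fin e) : wt u = ∑ i, (u i : ℕ) + Fintype.card (Fin n) := by
  rw [wt, Finset.sum_add_distrib, Finset.sum_const, Finset.card_univ, smul_eq_mul, mul_one]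

theorem wt_le {n d : ℕ} (hd : 2 ≤ d) (u : Fin n → Fin (d - 1)) : wt u ≤ n * d := by
  have h : ∀ i ∈ (Finset.univ : Finset (Fin n)), ((u i : ℕ) + 1) ≤ d := by
    intro i _
    have := (u i).2
    omega
  have := Finset.sum_le_card_nsmul _ _ _ h
  rw [Finset.card_univ, Fintype.card_fin, smul_eq_mul] at this
  exact this

theorem sum_wt_le {n d : ℕ} (hd : 2 ≤ d) (T : Finset (Fin n → Fin (d - 1))) :
    ∑ u ∈ T, wt u ≤ (d - 1) ^ n * (n * d) := by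
  have h1 : ∑ u ∈ T, wt u ≤ T.card * (n * d) := by
    have := Finset.sum_le_card_nsmul T wt (n * d) (fun u _ => wt_le hd u)
    rwa [smul_eq_mul] at this
  refine h1.trans (Nat.mul_le_mul_right _ ?_)
  have := Finset.card_le_univ T
  simpa using this

theorem sum_div {n d : ℕ} (T : Finset (Fin n → Fin (d - 1))) :
    ∑ u ∈ T, ((∑ i, ((u i : ℕ) + 1) : ℕ) : ℝ) / (d : ℝ) = ((∑ u ∈ T, wt u : ℕ) : ℝ) / d := by
  rw [← Finset.sum_div, Nat.cast_sum]
  rfl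

theorem min_nat {n d k : ℕ} (hd : 2 ≤ d) (T : Finset (Fin n → Fin (d - 1))) (hT : T.card = k)
    (hmin : ∀ T' : Finset (Fin n → Fin (d - 1)), T'.card = k →
       ∑ u ∈ T, ((∑ i, ((u i : ℕ) + 1) : ℕ) : ℝ) / (d : ℝ) ≤
         ∑ u ∈ T', ((∑ i, ((u i : ℕ) + 1) : ℕ) : ℝ) / (d : ℝ)) (T' : Finset (Fin n → Fin (d - 1)))
    (hT' : T'.card = T.card) : ∑ u ∈ T, wt u ≤ ∑ u ∈ T', wt u := by
  have h1 := hmin T' (hT'.trans hT)
  rw [sum_div, sum_div] at h1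
  have hd' : (0 : ℝ) < d := by
    have : 0 < d := by omega
    exact_mod_cast this
  rw [div_le_div_iff_of_pos_right hd'] at h1
  exact_mod_cast h1

/-- **the lower bound half** -/
theorem partA (n d : ℕ) (hn : 1 ≤ n) (hd : 2 ≤ d) (ε : ℝ) (hε : 0 < ε) (p : ℕ) [hp : Fact p.Prime]
    (hp5 : 5 ≤ p) (hpd : (d - 1) ^ n < p)
    (hP : 2 * (((d - 1) ^ n * (n * d) : ℕ) : ℝ) < ε * ((p : ℝ) - 1) * d)
    (F : Type) [Field F] [Algebra ℚ F] [IsCyclotomicExtension {p} ℚ F]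
    (ζ : F) (hζ : IsPrimitiveRoot ζ p) (k : ℕ)
    (T : Finset (Fin n → Fin (d - 1))) (hT : T.card = k)
    (hmin : ∀ T' : Finset (Fin n → Fin (d - 1)), T'.card = k →
       ∑ u ∈ T, ((∑ i, ((u i : ℕ) + 1) : ℕ) : ℝ) / (d : ℝ) ≤
         ∑ u ∈ T', ((∑ i, ((u i : ℕ) + 1) : ℕ) : ℝ) / (d : ℝ))
    (m : ℕ) (f : MvPolynomial (Fin n) (AlgebraicClosure (ZMod p))) (hm : 1 ≤ m)
    (hfm : ∀ s, MvPolynomial.coeff s f ^ (p ^ m) = MvPolynomial.coeff s f)
    (hf : f.totalDegree = d)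
    (hsm : ∀ x : Fin n → AlgebraicClosure (ZMod p),
          (∀ i, x i * MvPolynomial.eval x
              (MvPolynomial.pderiv i (MvPolynomial.homogeneousComponent d f)) = 0) → x = 0)
    (c : ℕ → F) (hc0 : c 0 = 1)
    (hc : ∀ r : ℕ, 1 ≤ r → (r : F) * c r =
           (-1) ^ (n - 1) * ∑ j ∈ Finset.Icc 1 r, expSum p f (m * j) ζ * c (r - j))
    (i j : ℕ) (hik : i ≤ k) (hkj : k ≤ j) (hjd : j ≤ (d - 1) ^ n) (hci : c i ≠ 0) (hcj : c j ≠ 0) :
    (((j : ℝ) - i) * (∑ u ∈ T, ((∑ i, ((u i : ℕ) + 1) : ℕ) : ℝ) / (d : ℝ) - ε) <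
        ((j : ℝ) - k) * ((padicValRat p (Algebra.norm ℚ (c i)) : ℝ) / (((p : ℝ) - 1) * m))
        + ((k : ℝ) - i) * ((padicValRat p (Algebra.norm ℚ (c j)) : ℝ) / (((p : ℝ) - 1) * m))
      ∨ (i = j ∧ ∑ u ∈ T, ((∑ i, ((u i : ℕ) + 1) : ℕ) : ℝ) / (d : ℝ) - ε <
           (padicValRat p (Algebra.norm ℚ (c i)) : ℝ) / (((p : ℝ) - 1) * m))) := by
  set K := AlgebraicClosure (ZMod p) with hK
  have hcharK : CharP K p := charP_of_injective_algebraMap (algebraMap (ZMod p) K).injective p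
  have hdom := Constr.RR_domain p (d * (p - 1)) K (Nat.mul_pos (by omega) (by omega))
  let S := Constr.setup p K d (by omega) hdom
  have hmin' := min_nat hd T hT hmin
  obtain ⟨j0, h1, h2⟩ := exists_threshold wt T hmin'
  have hE : ∀ r, ∀ s : Finset (Fin n → Fin (d - 1)), s.card = r →
      ((∑ u ∈ T, wt u) + r * j0) - k * j0 ≤ ∑ u ∈ s, (∑ i, (u i : ℕ) + Fintype.card (Fin n)) := by
    intro r s hs
    have h3 := support_line wt T j0 h1 h2 s
    rw [hs, hT] at h3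
    have h4 : ∑ u ∈ s, (∑ i, (u i : ℕ) + Fintype.card (Fin n)) = ∑ u ∈ s, wt u :=
      Finset.sum_congr rfl fun u _ => (wt_eq u).symm
    rw [h4]
    omega
  have hcore : ∀ r, r < p → c r ≠ 0 → _ := fun r hr hcr =>
    S.coreA (F := F) hp5 hd f hf hsm (by rw [Fintype.card_fin]; exact hn) m hm hfm ζ hζ c hc0
      (by
        rw [Fintype.card_fin]
        exact rec_conv (fun a => expSum p f a ζ) c m n hc) r hr hcr _ (hE r)
  obtain ⟨vi, hvi, hvi2⟩ := hcore i (by omega) hci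
  obtain ⟨vj, hvj, hvj2⟩ := hcore j (by omega) hcj
  rw [sum_div, hvi, hvj]
  have hW : 2 * ((∑ u ∈ T, wt u : ℕ) : ℝ) < ε * ((p : ℝ) - 1) * d := by
    refine lt_of_le_of_lt ?_ hP
    have : ((∑ u ∈ T, wt u : ℕ) : ℝ) ≤ (((d - 1) ^ n * (n * d) : ℕ) : ℝ) := by
      exact_mod_cast sum_wt_le hd T
    linarith
  have := chord_low (∑ u ∈ T, wt u) k i j j0 d m p vi vj hik hkj (by omega) (by omega) (by omega)
    hvi2 hvj2 ε hε hW
  simpa using this

end Pool.Agent.H425
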