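import Pool.Agent.H425.Dom
import Pool.Agent.H425.FinA2

set_option autoImplicit false
set_option linter.unusedSectionVars false
set_option linter.unusedVariables false

namespace Pool.Agent.H425

open Polynomial

/-- index set below a level -/
def below (n e j : ℕ) : Finset (Fin n → Fin e) := Finset.univ.filter (fun u => wt u < j)

theorem mem_below {n e j : ℕ} (u : Fin n → Fin e) : u ∈ below n e j ↔ wt u < j := by
  rw [below, Finset.mem_filter]
  exact ⟨fun h => h.2, fun h => ⟨Finset.mem_univ _, h⟩⟩

theorem below_lower (n e j : ℕ) : ∀ v ∈ below n e j, ∀ s, s ≤ v → s ∈ below n e j := by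
  intro v hv s hs
  rw [mem_below] at hv ⊢
  refine lt_of_le_of_lt ?_ hv
  rw [wt, wt]
  refine Finset.sum_le_sum fun i _ => ?_
  have := hs i
  have h2 : (s i : ℕ) ≤ (v i : ℕ) := this
  omega

theorem below_strict (n e j : ℕ) (s : Finset (Fin n → Fin e)) (hs : s.card = (below n e j).card)
    (hne : s ≠ below n e j) : ∑ u ∈ below n e j, wt u + 1 ≤ ∑ u ∈ s, wt u := by
  set T := below n e j with hT
  have e1 : ∑ u ∈ T, wt u = ∑ u ∈ T ∩ s, wt u + ∑ u ∈ T \ s, wt u := by
    rw [Finset.sum_inter_add_sum_sdiff]
  have e2 : ∑ u ∈ s, wt u = ∑ u ∈ T ∩ s, wt u + ∑ u ∈ s \ T, wt u := by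
    rw [Finset.inter_comm, Finset.sum_inter_add_sum_sdiff]
  have e3 : ∑ u ∈ T \ s, (wt u + 1) ≤ (T \ s).card * j := by
    rw [← smul_eq_mul]
    refine Finset.sum_le_card_nsmul _ _ _ fun u hu => ?_
    have := (mem_below u).1 (Finset.mem_sdiff.1 hu).1
    omega
  have e4 : (s \ T).card * j ≤ ∑ u ∈ s \ T, wt u := by
    rw [← smul_eq_mul]
    refine Finset.card_nsmul_le_sum _ _ _ fun u hu => ?_
    have h1 := (Finset.mem_sdiff.1 hu).2
    rw [hT, mem_below] at h1
    omega
  have e5 : T.card = (T ∩ s).card + (T \ s).card := (Finset.card_inter_add_card_sdiff T s).symm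
  have e6 : s.card = (T ∩ s).card + (s \ T).card := by
    rw [Finset.inter_comm, Finset.card_inter_add_card_sdiff]
  have e7 : (T \ s).card = (s \ T).card := by omega
  have e8 : 1 ≤ (s \ T).card := by
    rw [Nat.one_le_iff_ne_zero, ne_eq, Finset.card_eq_zero]
    intro h
    apply hne
    have h1 : s ⊆ T := Finset.sdiff_eq_empty_iff_subset.1 h
    exact Finset.eq_of_subset_of_card_le h1 hs.ge
  rw [Finset.sum_add_distrib, Finset.sum_const, smul_eq_mul, mul_one, e7] at e3
  omega

theorem zet_of_zeta {p : ℕ} [hp : Fact p.Prime] {F : Type} [Field F] [CharZero F] {ζ : F}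
    (hζ : IsPrimitiveRoot ζ p) {A : Type} [CommRing A] [Algebra ℤ A] (z : A)
    (hz : ∑ i ∈ Finset.range p, z ^ i = 0) (P : ℤ[X]) (hP : aeval ζ P = 0) : aeval z P = 0 := by
  have h1 : cyclotomic p ℤ = minpoly ℤ ζ := cyclotomic_eq_minpoly hζ hp.out.pos
  have h2 : minpoly ℤ ζ ∣ P := minpoly.isIntegrallyClosed_dvd (hζ.isIntegral hp.out.pos) hP
  rw [← h1, cyclotomic_prime] at h2
  obtain ⟨W, hW⟩ := h2
  rw [hW, map_mul, map_sum]
  simp only [map_pow, aeval_X]
  rw [hz, zero_mul]

namespace Setup

variable {p d : ℕ} [hp : Fact p.Prime] {K R : Type} [Field K] [CommRing R] [IsDomain R]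
  (S : Setup p d K R)
  {F : Type} [Field F] [Algebra ℚ F] [IsCyclotomicExtension {p} ℚ F]

theorem natK_ne [CharP K p] {m : ℕ} (h0 : m ≠ 0) (h : m < p) : (m : K) ≠ 0 := by
  intro h1
  have := (CharP.cast_eq_zero_iff K p m).1 h1
  exact h0 (Nat.eq_zero_of_dvd_of_lt this h)

/-- smoothness in one variable -/
theorem smooth_fd (ι : Type) [Fintype ι] [DecidableEq ι] [CharP K p] (hd : 2 ≤ d) (hdp : ¬ p ∣ d)
    (x : ι → K) (hx : ∀ i, x i * MvPolynomial.eval x (MvPolynomial.pderiv i
      (MvPolynomial.homogeneousComponent d (fd ι K d))) = 0) : x = 0 := by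
  have hhom : MvPolynomial.homogeneousComponent d (fd ι K d) = ∑ i : ι, MvPolynomial.X i ^ d := by
    rw [fd, map_sum]
    refine Finset.sum_congr rfl fun i _ => ?_
    rw [map_add]
    have h1 : MvPolynomial.homogeneousComponent d (MvPolynomial.X i ^ d : MvPolynomial ι K) =
        MvPolynomial.X i ^ d := by
      have h2 : (MvPolynomial.X i ^ d : MvPolynomial ι K).IsHomogeneous d := by
        have := (MvPolynomial.isHomogeneous_X K i).pow d
        rwa [one_mul] at this
      have := MvPolynomial.homogeneousComponent_of_mem (m := d) (n := d)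
        ((MvPolynomial.mem_homogeneousSubmodule _ _).2 h2)
      rwa [if_pos rfl] at this
    have h3 : MvPolynomial.homogeneousComponent d (MvPolynomial.X i : MvPolynomial ι K) = 0 := by
      have := MvPolynomial.homogeneousComponent_of_mem (m := d) (n := 1)
        ((MvPolynomial.mem_homogeneousSubmodule _ _).2 (MvPolynomial.isHomogeneous_X K i))
      rwa [if_neg (by omega)] at this
    rw [h1, h3, add_zero]
  funext i
  have h := hx i
  rw [hhom, map_sum] at h
  rw [Finset.sum_eq_single i] at h
  · rw [Derivation.leibniz_pow, MvPolynomial.pderiv_X_self] at h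
    simp only [smul_eq_mul, mul_one, nsmul_eq_mul, map_mul, map_pow, MvPolynomial.eval_X,
      map_natCast] at h
    rcases mul_eq_zero.1 h with h1 | h1
    · exact h1
    · rcases mul_eq_zero.1 h1 with h2 | h2
      · exfalso
        exact hdp ((CharP.cast_eq_zero_iff K p d).1 h2)
      · exact pow_eq_zero_iff (by omega : d - 1 ≠ 0) |>.1 h2
  · intro j _ hj
    rw [Derivation.leibniz_pow, MvPolynomial.pderiv_X_of_ne hj]
    simp
  · intro h
    exact absurd (Finset.mem_univ i) h

theorem totalDegree_fd (ι : Type) [Fintype ι] [DecidableEq ι] [Nonempty ι] (hd : 2 ≤ d) :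
    (fd ι K d).totalDegree = d := by
  classical
  apply le_antisymm
  · rw [fd]
    refine MvPolynomial.totalDegree_finsetSum_le fun i _ => ?_
    refine (MvPolynomial.totalDegree_add _ _).trans (max_le ?_ ?_)
    · exact (MvPolynomial.totalDegree_X_pow i d).le
    · rw [MvPolynomial.totalDegree_X]
      omega
  · obtain ⟨i⟩ := ‹Nonempty ι›
    have h1 : MvPolynomial.coeff (Finsupp.single i d) (fd ι K d) = 1 := by
      rw [fd, MvPolynomial.coeff_sum, Finset.sum_eq_single i]
      · rw [MvPolynomial.coeff_add, MvPolynomial.coeff_X_pow, if_pos rfl, MvPolynomial.coeff_X',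
          if_neg, add_zero]
        intro h
        have := Finsupp.single_injective _ h
        omega
      · intro j _ hj
        rw [MvPolynomial.coeff_add, MvPolynomial.coeff_X_pow, if_neg, MvPolynomial.coeff_X',
          if_neg, add_zero]
        · intro h
          have := DFunLike.congr_fun h j
          rw [Finsupp.single_eq_same, Finsupp.single_eq_of_ne hj] at this
          omega
        · intro h
          have := DFunLike.congr_fun h j
          rw [Finsupp.single_eq_same, Finsupp.single_eq_of_ne hj] at this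
          omega
      · intro h
        exact absurd (Finset.mem_univ i) h
    have h2 := MvPolynomial.le_totalDegree (p := fd ι K d) (s := Finsupp.single i d)
      (MvPolynomial.mem_support_iff.2 (by rw [h1]; exact one_ne_zero))
    rwa [Finsupp.sum_single_index rfl] at h2

end Setup

end Pool.Agent.H425
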