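import Pool.Agent.H425.CoreB

set_option autoImplicit false
set_option linter.unusedSectionVars false
set_option linter.unusedVariables false

namespace Pool.Agent.H425

open Polynomial

namespace Setup

variable {p d : ℕ} [hp : Fact p.Prime] {K R : Type} [Field K] [CommRing R] [IsDomain R]
  {S : Setup p d K R} {N : ℕ}

/-- the scalar data of the one variable matrix -/
theorem scalar_data [CharP K p] (hd : 2 ≤ d) (hpd : 2 * d * (d + 1) ≤ p)
    {b : (Fin 1 → Fin (d - 1)) → (Fin 1 →₀ ℕ)} (D : S.BD N (fd (Fin 1) K d) (d - 1) b) :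
    ∃ (a : Fin (d - 1) → S.Q N) (c : Fin (d - 1) → Fin (d - 1) → S.Q N),
      (∀ i, S.rho N D.hN (a i) ≠ 0) ∧
      (∀ i j : Fin (d - 1), S.rho N D.hN (c i j) =
        (((p * ((i : ℕ) + 1) % d).descFactorial ((j : ℕ) + 1) : ℕ) : K)) ∧
      (∀ i j : Fin (d - 1), a i * ((S.rd N S.lam) ^ ((d - 1) * ((j : ℕ) + 1)) * sc (Bt D 0) i j) =
        (S.rd N S.lam) ^ ((p - 1) * ((i : ℕ) + 1) + (d - 1) * (p * ((i : ℕ) + 1) % d)) * c i j) := by
  have h := fun i j : Fin (d - 1) => Bt_one hd hpd D 0 (fun _ => i) (fun _ => j)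
  choose hh hhh using h
  refine ⟨fun i => ((p * ((i : ℕ) + 1) / d).factorial : S.Q N) *
    ((p * ((i : ℕ) + 1) % d).factorial : S.Q N),
    fun i j => (((p * ((i : ℕ) + 1) % d).descFactorial ((j : ℕ) + 1) : ℕ) : S.Q N) +
      (S.rd N S.lam) * hh i j, ?_, ?_, ?_⟩
  · intro i
    have hi := i.2
    have hdp : d ≤ p := by nlinarith
    have h1 : p * ((i : ℕ) + 1) / d < p := by
      rw [Nat.div_lt_iff_lt_mul (by omega)]
      exact Nat.mul_lt_mul_of_pos_left (by omega) hp.out.pos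
    have h2 : p * ((i : ℕ) + 1) % d < p := lt_of_lt_of_le (Nat.mod_lt _ (by omega)) hdp
    have h3 : ∀ m < p, ((m.factorial : ℕ) : K) ≠ 0 := by
      intro m hm h0
      have := (CharP.cast_eq_zero_iff K p _).1 h0
      rw [hp.out.dvd_factorial] at this
      omega
    rw [map_mul, map_natCast, map_natCast]
    exact mul_ne_zero (h3 _ h1) (h3 _ h2)
  · intro i j
    rw [map_add, map_mul, map_natCast, rho_rd, S.res_lam, zero_mul, add_zero]
  · intro i j
    exact hhh i j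

theorem res_facts [CharP K p] (hd : 2 ≤ d) (hdp : d ≤ p) (hnd : ¬ p ∣ d) :
    (∀ i < d - 1, ((p * (i + 1) % d : ℕ) : K) ≠ 0) ∧
    (∀ i < d - 1, ∀ j < d - 1, i ≠ j → ((p * (i + 1) % d : ℕ) : K) ≠ ((p * (j + 1) % d : ℕ) : K)) := by
  have hcop : Nat.Coprime p d := (Nat.Prime.coprime_iff_not_dvd hp.out).2 hnd
  have hlt : ∀ i, p * (i + 1) % d < p := fun i => lt_of_lt_of_le (Nat.mod_lt _ (by omega)) hdp
  constructor
  · intro i hi
    refine natK_ne (p := p) ?_ (hlt i)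
    intro h
    have h1 : d ∣ p * (i + 1) := Nat.dvd_of_mod_eq_zero h
    have h2 : d ∣ i + 1 := (Nat.Coprime.symm hcop).dvd_of_dvd_mul_left h1
    have := Nat.le_of_dvd (by omega) h2
    omega
  · intro i hi j hj hij h
    have h1 := (CharP.natCast_eq_natCast K p).1 h
    rw [Nat.ModEq, Nat.mod_eq_of_lt (hlt i), Nat.mod_eq_of_lt (hlt j)] at h1
    have h2 : p * (i + 1) ≡ p * (j + 1) [MOD d] := h1
    have h3 : i + 1 ≡ j + 1 [MOD d] :=
      Nat.ModEq.cancel_left_of_coprime (by rw [Nat.gcd_comm]; exact hcop) h2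
    rw [Nat.ModEq, Nat.mod_eq_of_lt (by omega), Nat.mod_eq_of_lt (by omega)] at h3
    omega

theorem sum_le_all {n e : ℕ} (s : Finset (Fin n → Fin e)) (g : (Fin n → Fin e) → ℕ) (B : ℕ)
    (h : ∀ u, g u ≤ B) : ∑ u ∈ s, g u ≤ e ^ n * B := by
  have h1 := Finset.sum_le_card_nsmul s g B (fun u _ => h u)
  rw [smul_eq_mul] at h1
  refine h1.trans (Nat.mul_le_mul_right _ ?_)
  have := Finset.card_le_univ s
  simpa using this

/-- the key equation for the coefficients of the diagonal polynomial -/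
theorem cs_below [CharP K p] (hd : 2 ≤ d) (hpd : 2 * d * (d + 1) ≤ p) (hnd : ¬ p ∣ d)
    {b : (Fin 1 → Fin (d - 1)) → (Fin 1 →₀ ℕ)} (D : S.BD N (fd (Fin 1) K d) (d - 1) b)
    (n : ℕ) (hbig : 2 * ((d - 1) ^ n * (n * (d * d))) + 2 ≤ p) (j X Y : ℕ)
    (hX : X = ∑ u : Fin n → Fin (d - 1), ∑ i, (d - 1) * ((u i : ℕ) + 1))
    (hY : Y = X + ∑ u ∈ below n (d - 1) j, ∑ i, ((p - 1) * ((u i : ℕ) + 1) +
      (d - 1) * (p * ((u i : ℕ) + 1) % d)) - ∑ u ∈ below n (d - 1) j, ∑ i, (d - 1) * ((u i : ℕ) + 1)) :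
    ∃ A y : S.Q N, S.rho N D.hN A ≠ 0 ∧ S.rho N D.hN y ≠ 0 ∧
      A * ((S.rd N S.lam) ^ X * (cs (ten n (sc (Bt D 0)))).coeff (below n (d - 1) j).card) =
        (S.rd N S.lam) ^ Y * y := by
  obtain ⟨a, c, ha, hc, hac⟩ := scalar_data hd hpd D
  have hdle : d ≤ p := by nlinarith
  obtain ⟨hr0, hrinj⟩ := res_facts (K := K) hd hdle hnd
  have hall : ∀ s : Finset (Fin n → Fin (d - 1)), ∑ u ∈ s, ∑ i, (d - 1) * ((u i : ℕ) + 1) ≤ X := by
    intro s
    rw [hX]
    exact Finset.sum_le_sum_of_subset (Finset.subset_univ s)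
  refine dom (S.rho N D.hN) (S.rd N S.lam) (by rw [rho_rd, S.res_lam]) (ten n (sc (Bt D 0)))
    (fun v u => ∏ i, c (v i) (u i)) (fun v => ∏ i, a (v i))
    (fun u => ∑ i, (d - 1) * ((u i : ℕ) + 1))
    (fun v => ∑ i, ((p - 1) * ((v i : ℕ) + 1) + (d - 1) * (p * ((v i : ℕ) + 1) % d)))
    (fun v u => prod_scale (S.rd N S.lam) (sc (Bt D 0)) c a
      (fun j => (d - 1) * ((j : ℕ) + 1))
      (fun i => (p - 1) * ((i : ℕ) + 1) + (d - 1) * (p * ((i : ℕ) + 1) % d)) hac v u)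
    (below n (d - 1) j) X Y (fun s _ => hall s) ?_ ?_ ?_ ?_
  · have := hall (below n (d - 1) j)
    omega
  · intro s hs hne
    have h1 := hall (below n (d - 1) j)
    have h2 := below_strict n (d - 1) j s hs hne
    have hw : ∀ t : Finset (Fin n → Fin (d - 1)),
        ∑ u ∈ t, ∑ i, ((p - 1) * ((u i : ℕ) + 1) + (d - 1) * (p * ((u i : ℕ) + 1) % d)) =
        (p - 1) * ∑ u ∈ t, wt u + ∑ u ∈ t, ∑ i, (d - 1) * (p * ((u i : ℕ) + 1) % d) := by
      intro t
      rw [Finset.mul_sum, ← Finset.sum_add_distrib]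
      refine Finset.sum_congr rfl fun u _ => ?_
      rw [Finset.sum_add_distrib, wt, Finset.mul_sum]
    have hsb : ∀ g : ℕ → ℕ, (∀ i < d - 1, g i ≤ d) → ∀ t : Finset (Fin n → Fin (d - 1)),
        ∑ u ∈ t, ∑ i, (d - 1) * g (u i) ≤ (d - 1) ^ n * (n * (d * d)) := by
      intro g hg t
      apply sum_le_all
      intro u
      have h3 : ∀ i ∈ (Finset.univ : Finset (Fin n)), (d - 1) * g (u i) ≤ d * d := by
        intro i _
        exact Nat.mul_le_mul (by omega) (hg _ (u i).2)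
      have := Finset.sum_le_card_nsmul _ _ _ h3
      rw [Finset.card_univ, Fintype.card_fin, smul_eq_mul] at this
      exact this
    have h3 := hsb (fun i => i + 1) (fun i hi => by omega) s
    have h4 := hsb (fun i => p * (i + 1) % d) (fun i _ => (Nat.mod_lt _ (by omega)).le)
      (below n (d - 1) j)
    rw [hw] at hY ⊢
    obtain ⟨p', hp'⟩ : ∃ p', p = p' + 1 := ⟨p - 1, by omega⟩
    have e1 : p - 1 = p' := by omega
    rw [e1] at hY ⊢
    have h5 : p' * (∑ u ∈ below n (d - 1) j, wt u + 1) ≤ p' * ∑ u ∈ s, wt u :=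
      Nat.mul_le_mul_left _ h2
    rw [mul_add, mul_one] at h5
    omega
  · intro v
    rw [map_prod]
    exact Finset.prod_ne_zero_iff.2 fun i _ => ha _
  · have h := det_lower_ne (K := K) n (d - 1) (fun i => p * (i + 1) % d) hr0 hrinj
      (below n (d - 1) j) (below_lower n (d - 1) j)
    convert h using 2
    ext v u
    rw [Matrix.map_apply, Matrix.submatrix_apply, Matrix.of_apply, map_prod]
    exact Finset.prod_congr rfl fun i _ => hc _ _

end Setup

end Pool.Agent.H425
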