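import Pool.Agent.H425.CoreB2

set_option autoImplicit false
set_option linter.unusedSectionVars false
set_option linter.unusedVariables false

namespace Pool.Agent.H425

open Polynomial

namespace Setup

variable {p d : ℕ} [hp : Fact p.Prime] {K R : Type} [Field K] [CommRing R] [IsDomain R]
  {F : Type} [Field F] [Algebra ℚ F] [IsCyclotomicExtension {p} ℚ F]

/-- lifting elements with nonzero residue -/
theorem exists_lift_rho (S : Setup p d K R) {N : ℕ} (hN : 1 ≤ N) (y : S.Q N) (hy : S.rho N hN y ≠ 0) :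
    ∃ y' : R, S.rd N y' = y ∧ S.res y' ≠ 0 := by
  obtain ⟨y', rfl⟩ := Ideal.Quotient.mk_surjective y
  exact ⟨y', rfl, hy⟩

/-- **exact valuations for the diagonal polynomial** -/
theorem coreB [CharP K p] [IsAlgClosed K] (S : Setup p d K R) (hp5 : 5 ≤ p) (hd : 2 ≤ d)
    (hpd : 2 * d * (d + 1) ≤ p) (hnd : ¬ p ∣ d) (n : ℕ) (hn : 1 ≤ n)
    (hbig : 2 * ((d - 1) ^ n * (n * (d * d))) + 2 ≤ p)
    (ζ : F) (hζ : IsPrimitiveRoot ζ p) (c : ℕ → F) (hc0 : c 0 = 1)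
    (hc : ∀ r, ((r + 1 : ℕ) : F) * c (r + 1) =
      (((-1) ^ (n - 1) : ℤ) : F) * ∑ j ∈ Finset.range (r + 1),
        expSum p (fd (Fin n) K d) (j + 1) ζ * c (r - j))
    (j : ℕ) (hr : (below n (d - 1) j).card < p) :
    c (below n (d - 1) j).card ≠ 0 ∧
    ∃ v : ℕ, padicValRat p (Algebra.norm ℚ (c (below n (d - 1) j).card)) = v ∧
      d * v + ∑ u ∈ below n (d - 1) j, ∑ i, (d - 1) * ((u i : ℕ) + 1) =
        ∑ u ∈ below n (d - 1) j, ∑ i, ((p - 1) * ((u i : ℕ) + 1) +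
          (d - 1) * (p * ((u i : ℕ) + 1) % d)) := by
  obtain ⟨b, hb⟩ := S.exists_BD hp5 hd (fd (Fin 1) K d) (totalDegree_fd (Fin 1) hd)
    (smooth_fd (Fin 1) hd hnd)
  have hch : CharZero F := charZero_of_injective_algebraMap (algebraMap ℚ F).injective
  set r := (below n (d - 1) j).card with hrdef
  obtain ⟨X0, hX⟩ : ∃ X0 : ℕ, X0 = ∑ u : Fin n → Fin (d - 1), ∑ i, (d - 1) * ((u i : ℕ) + 1) :=
    ⟨_, rfl⟩
  obtain ⟨Y, hY⟩ : ∃ Y : ℕ, Y = X0 + ∑ u ∈ below n (d - 1) j, ∑ i, ((p - 1) * ((u i : ℕ) + 1) +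
      (d - 1) * (p * ((u i : ℕ) + 1) % d)) -
      ∑ u ∈ below n (d - 1) j, ∑ i, (d - 1) * ((u i : ℕ) + 1) := ⟨_, rfl⟩
  have hXle : ∑ u ∈ below n (d - 1) j, ∑ i, (d - 1) * ((u i : ℕ) + 1) ≤ X0 := by
    rw [hX]
    exact Finset.sum_le_sum_of_subset (Finset.subset_univ _)
  have hN1 : 1 ≤ Y + 1 := by omega
  have D := hb (Y + 1) hN1
  obtain ⟨A, y, hA, hy, hAy⟩ := cs_below hd hpd hnd D n hbig j X0 Y hX hY
  rw [← hrdef] at hAy
  obtain ⟨P, hP1, hP2⟩ := exists_common (fun j => Epoly p (fd (Fin n) K d) j) ((-1) ^ (n - 1)) ζ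
    (S.zet (Y + 1)) c (fun r => (cs (ten n (sc (Bt D 0)))).coeff r) hc0 (cs_zero _)
    (by
      intro r
      simp only [aeval_Epoly]
      exact hc r)
    (fun r => rec_ten (by omega) D n hn r) r
  beta_reduce at hP2
  have hfK : ((r.factorial : ℕ) : K) ≠ 0 := by
    intro h0
    have := (CharP.cast_eq_zero_iff K p _).1 h0
    rw [hp.out.dvd_factorial] at this
    omega
  obtain ⟨A', hA', hA'2⟩ := S.exists_lift_rho hN1 A hA
  obtain ⟨y', hy', hy'2⟩ := S.exists_lift_rho hN1 y hy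
  -- the main identity
  have hmain : S.rd (Y + 1) S.lam ^ X0 * (A * aeval (S.zet (Y + 1)) P) =
      S.rd (Y + 1) (S.lam ^ Y * (((r.factorial : ℕ) : R) * y')) := by
    rw [hP2, map_mul, map_mul, map_pow, map_natCast, hy']
    calc _ = ((r.factorial : ℕ) : S.Q (Y + 1)) * (A * (S.rd (Y + 1) S.lam ^ X0 *
          (cs (ten n (sc (Bt D 0)))).coeff r)) := by ring
      _ = _ := by rw [hAy]; ring
  have hres : S.res (((r.factorial : ℕ) : R) * y') ≠ 0 := by
    rw [map_mul, map_natCast]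
    exact mul_ne_zero hfK hy'2
  have hcyc := S.zet_cyclo hp5 (by omega) (Y + 1)
  have hcr : c r ≠ 0 := by
    intro h0
    have h1 : aeval ζ P = 0 := by rw [hP1, h0, mul_zero]
    have h2 := zet_of_zeta hζ (S.zet (Y + 1)) hcyc P h1
    rw [h2, mul_zero, mul_zero] at hmain
    exact S.ord_ne_zero hres (by omega : Y < Y + 1) hmain.symm
  refine ⟨hcr, ?_⟩
  have hfr : (r.factorial : F) * c r ≠ 0 :=
    mul_ne_zero (Nat.cast_ne_zero.2 (Nat.factorial_ne_zero r)) hcr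
  obtain ⟨a, ha, U, W, h1, h2⟩ := factor p (by omega) hζ
      (padicValRat p (Algebra.norm ℚ (aeval ζ P))).toNat P (by rw [hP1]; exact hfr)
      (Int.self_le_toNat _)
  rw [hP1, val_factorial_mul r hr (c r) hcr] at ha
  refine ⟨a, ha, ?_⟩
  obtain ⟨u, hu, hu2⟩ := S.eval_zet hp5 (by omega) (Y + 1) hN1 P U W a h1 h2
  have h3 : S.rd (Y + 1) (S.lam ^ (X0 + d * a) * (A' * u)) =
      S.rd (Y + 1) (S.lam ^ Y * (((r.factorial : ℕ) : R) * y')) := by
    rw [← hmain, hu2, ← hA', ← map_pow, ← map_mul, ← map_mul]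
    congr 1
    rw [pow_add]
    ring
  have hres2 : S.res (A' * u) ≠ 0 := by
    rw [map_mul]
    exact mul_ne_zero hA'2 hu
  have h4 : X0 + d * a ≤ Y := S.ord_lt hres (by omega) h3.symm
  have h5 : Y ≤ X0 + d * a := S.ord_lt hres2 (by omega) h3
  omega

end Setup

end Pool.Agent.H425
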