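import Pool.Agent.H425.DD

set_option autoImplicit false
set_option linter.unusedSectionVars false
set_option linter.unusedVariables false

namespace Pool.Agent.H425

variable {ι : Type} [Fintype ι] [DecidableEq ι] {L : Type} [CommRing L]

/-- embedding of the box -/
noncomputable def emb {e : ℕ} (u : ι → Fin e) : ι →₀ ℕ :=
  Finsupp.equivFunOnFinite.symm (fun i => (u i : ℕ))

theorem emb_apply {e : ℕ} (u : ι → Fin e) (i : ι) : emb u i = (u i : ℕ) := rfl

theorem emb_injective {e : ℕ} : Function.Injective (emb : (ι → Fin e) → (ι →₀ ℕ)) := by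
  intro u v h
  ext i
  have := DFunLike.congr_fun h i
  exact this

/-- restricted sums -/
noncomputable def tauS (M e : ℕ) (dl : Finset ι → (ι →₀ ℕ) → L) (A T : Finset ι) : L :=
  ∑ w ∈ (DD ι M).filter (fun w => ∀ i ∈ T, w i < e), dl A w

theorem tauS_step (M e : ℕ) (he : 0 < e) (Q : L) (dl : Finset ι → (ι →₀ ℕ) → L)
    (hM : ∀ A w, M < w.degree → dl A w = 0)
    (hrel : ∀ (A : Finset ι) (i : ι), i ∉ A → ∀ w, dl (insert i A) (Finsupp.single i e + w) = Q * dl A w)
    (A T : Finset ι) (i : ι) (hiT : i ∉ T) (hiA : i ∈ A) :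
    tauS M e dl A (insert i T) = tauS M e dl A T - Q * tauS M e dl (A.erase i) T := by
  have h1 : tauS M e dl A T = tauS M e dl A (insert i T) +
      ∑ w ∈ ((DD ι M).filter (fun w => ∀ i ∈ T, w i < e)).filter (fun w => ¬ w i < e), dl A w := by
    rw [tauS, ← Finset.sum_filter_add_sum_filter_not _ (fun w => w i < e), tauS]
    congr 1
    refine Finset.sum_congr ?_ fun _ _ => rfl
    ext w
    simp only [Finset.mem_filter, Finset.mem_insert, forall_eq_or_imp]
    tauto
  have h2 : ∑ w ∈ ((DD ι M).filter (fun w => ∀ i ∈ T, w i < e)).filter (fun w => ¬ w i < e), dl A w =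
      Q * tauS M e dl (A.erase i) T := by
    have h3 : Q * tauS M e dl (A.erase i) T =
        ∑ w ∈ (DD ι M).filter (fun w => ∀ i ∈ T, w i < e), dl A (Finsupp.single i e + w) := by
      rw [tauS, Finset.mul_sum]
      refine Finset.sum_congr rfl fun w _ => ?_
      rw [← hrel (A.erase i) i (Finset.notMem_erase i A) w, Finset.insert_erase hiA]
    rw [h3]
    symm
    -- restrict to the terms of small degree
    rw [← Finset.sum_filter_add_sum_filter_not _ (fun w : ι →₀ ℕ => w.degree + e ≤ M)]
    have h4 : ∑ x ∈ Finset.filter (fun w : ι →₀ ℕ => ¬ w.degree + e ≤ M)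
        ((DD ι M).filter (fun w => ∀ i ∈ T, w i < e)), dl A (Finsupp.single i e + x) = 0 := by
      refine Finset.sum_eq_zero fun w hw => ?_
      rw [Finset.mem_filter] at hw
      apply hM
      rw [map_add, Finsupp.degree_single]
      omega
    rw [h4, add_zero]
    refine Finset.sum_bij (fun w _ => Finsupp.single i e + w) ?_ ?_ ?_ ?_
    · intro w hw
      simp only [Finset.mem_filter, mem_DD] at hw ⊢
      refine ⟨⟨?_, ?_⟩, ?_⟩
      · rw [map_add, Finsupp.degree_single]
        omega
      · intro j hj
        rw [Finsupp.add_apply, Finsupp.single_eq_of_ne (by rintro rfl; exact hiT hj), zero_add]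
        exact hw.1.2 j hj
      · rw [Finsupp.add_apply, Finsupp.single_eq_same]
        omega
    · intro w _ w' _ h
      exact add_left_cancel h
    · intro w hw
      simp only [Finset.mem_filter, mem_DD] at hw
      have hle : Finsupp.single i e ≤ w := by
        rw [Finsupp.single_le_iff]
        omega
      refine ⟨w - Finsupp.single i e, ?_, ?_⟩
      · simp only [Finset.mem_filter, mem_DD]
        have hdeg : (w - Finsupp.single i e).degree + e = w.degree := by
          have := congrArg Finsupp.degree (tsub_add_cancel_of_le hle)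
          rwa [map_add, Finsupp.degree_single] at this
        refine ⟨⟨by omega, ?_⟩, by omega⟩
        intro j hj
        rw [Finsupp.tsub_apply]
        exact lt_of_le_of_lt (Nat.sub_le _ _) (hw.1.2 j hj)
      · exact add_tsub_cancel_of_le hle
    · intro w _
      rfl
  rw [h1, h2]
  ring

theorem tauS_formula (M e : ℕ) (he : 0 < e) (Q : L) (dl : Finset ι → (ι →₀ ℕ) → L)
    (hM : ∀ A w, M < w.degree → dl A w = 0)
    (hrel : ∀ (A : Finset ι) (i : ι), i ∉ A → ∀ w, dl (insert i A) (Finsupp.single i e + w) = Q * dl A w)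
    (T : Finset ι) : ∀ A : Finset ι, T ⊆ A →
    tauS M e dl A T = ∑ B ∈ T.powerset, (-Q) ^ B.card * tauS M e dl (A \ B) ∅ := by
  induction T using Finset.induction_on with
  | empty => intro A _; simp
  | insert i T hi ih =>
    intro A hA
    have hiA : i ∈ A := hA (Finset.mem_insert_self i T)
    have hTA : T ⊆ A := (Finset.subset_insert i T).trans hA
    rw [tauS_step M e he Q dl hM hrel A T i hi hiA, ih A hTA, ih (A.erase i) (by
      intro j hj
      rw [Finset.mem_erase]
      exact ⟨by rintro rfl; exact hi hj, hTA hj⟩), Finset.sum_powerset_insert hi, sub_eq_add_neg]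
    congr 1
    rw [Finset.mul_sum, ← Finset.sum_neg_distrib]
    refine Finset.sum_congr rfl fun B hB => ?_
    rw [Finset.mem_powerset] at hB
    have hiB : i ∉ B := fun h => hi (hB h)
    rw [Finset.card_insert_of_notMem hiB]
    have : A.erase i \ B = A \ insert i B := by
      ext j
      simp only [Finset.mem_sdiff, Finset.mem_erase, Finset.mem_insert]
      tauto
    rw [this]
    ring

/-- **the cube formula** -/
theorem cube_formula (M e : ℕ) (he : 0 < e) (Q : L) (dl : Finset ι → (ι →₀ ℕ) → L)
    (hM : ∀ A w, M < w.degree → dl A w = 0)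
    (hrel : ∀ (A : Finset ι) (i : ι), i ∉ A → ∀ w, dl (insert i A) (Finsupp.single i e + w) = Q * dl A w) :
    ∑ u : ι → Fin e, dl Finset.univ (emb u) =
      ∑ B : Finset ι, (-Q) ^ B.card * ∑ w ∈ DD ι M, dl (Finset.univ \ B) w := by
  have h1 := tauS_formula M e he Q dl hM hrel Finset.univ Finset.univ subset_rfl
  rw [Finset.powerset_univ] at h1
  have h2 : tauS M e dl Finset.univ Finset.univ = ∑ u : ι → Fin e, dl Finset.univ (emb u) := by
    rw [tauS, ← Finset.sum_filter_of_ne (s := (Finset.univ : Finset (ι → Fin e)))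
      (p := fun u => (emb u).degree ≤ M)]
    · symm
      refine Finset.sum_bij (fun u _ => emb u) ?_ ?_ ?_ ?_
      · intro u hu
        simp only [Finset.mem_filter, mem_DD] at hu ⊢
        exact ⟨hu.2, fun i _ => (u i).2⟩
      · intro u _ v _ h
        exact emb_injective h
      · intro w hw
        simp only [Finset.mem_filter, mem_DD] at hw
        refine ⟨fun i => ⟨w i, hw.2 i (Finset.mem_univ i)⟩, ?_, ?_⟩
        · simp only [Finset.mem_filter, Finset.mem_univ, true_and]
          have : emb (fun i => (⟨w i, hw.2 i (Finset.mem_univ i)⟩ : Fin e)) = w := by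
            ext i; rfl
          rw [this]
          exact hw.1
        · ext i; rfl
      · intro u _
        rfl
    · intro u _ hne
      by_contra h
      exact hne (hM _ _ (by omega))
  rw [← h2, h1]
  refine Finset.sum_congr rfl fun B _ => ?_
  congr 1
  rw [tauS]
  refine Finset.sum_congr ?_ fun _ _ => rfl
  simp

end Pool.Agent.H425
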