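import Mathlib

set_option autoImplicit false
set_option linter.unusedSectionVars false
set_option linter.unusedVariables false

namespace Pool.Agent.H425

open Polynomial

section cyc

variable (p : ℕ) [hp : Fact p.Prime] {F : Type} [Field F] [Algebra ℚ F] [IsCyclotomicExtension {p} ℚ F]
  {ζ : F}

theorem aeval_integral {F : Type} [Field F] (P : ℤ[X]) {x : F} (hx : IsIntegral ℤ x) :
    IsIntegral ℤ (aeval x P) := by
  rw [aeval_eq_sum_range]
  refine IsIntegral.sum _ fun i _ => ?_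
  exact (hx.pow i).smul _

theorem exists_int_norm {F : Type} [Field F] [Algebra ℚ F] [FiniteDimensional ℚ F] {x : F}
    (hx : IsIntegral ℤ x) : ∃ n : ℤ, Algebra.norm ℚ x = n := by
  have h1 : IsIntegral ℤ (Algebra.norm ℚ x) := Algebra.isIntegral_norm ℚ hx
  obtain ⟨n, hn⟩ := IsIntegrallyClosed.isIntegral_iff.1 h1
  exact ⟨n, by rw [← hn]; rfl⟩

/-- divided difference at `1` -/
theorem exists_quot (P : ℤ[X]) : ∃ Q : ℤ[X], P = C (P.eval 1) + (X - 1) * Q := by
  have h : (X - C (1 : ℤ)) ∣ P - C (P.eval 1) := by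
    rw [dvd_iff_isRoot]
    simp
  obtain ⟨Q, hQ⟩ := h
  refine ⟨Q, ?_⟩
  rw [C_1] at hQ
  rw [← hQ]; ring

include hp in
theorem not_dvd_norm (hp3 : 3 ≤ p) (hζ : IsPrimitiveRoot ζ p) (P : ℤ[X]) (hP : ¬ (p : ℤ) ∣ P.eval 1)
    (n : ℤ) (hn : Algebra.norm ℚ (aeval ζ P) = n) : ¬ (p : ℤ) ∣ n := by
  classical
  have hfd : FiniteDimensional ℚ F := IsCyclotomicExtension.finiteDimensional {p} ℚ F
  have hgal : IsGalois ℚ F := IsCyclotomicExtension.isGalois {p} ℚ F
  have hζi : IsIntegral ℤ ζ := hζ.isIntegral hp.out.pos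
  have hch : CharZero F := charZero_of_injective_algebraMap (algebraMap ℚ F).injective
  rintro ⟨k, hk⟩
  set c : ℤ := P.eval 1 with hc
  -- conjugates
  have hconj : ∀ σ : F ≃ₐ[ℚ] F, ∃ w, IsIntegral ℤ w ∧ σ (aeval ζ P) = c + (ζ - 1) * w := by
    intro σ
    obtain ⟨Q, hQ⟩ := exists_quot P
    have hσ : (σ ζ) ^ p = 1 := by rw [← map_pow, hζ.pow_eq_one, map_one]
    have : NeZero p := ⟨hp.out.ne_zero⟩
    obtain ⟨i, _, hi⟩ := hζ.eq_pow_of_pow_eq_one hσ
    have h1 : σ (aeval ζ P) = aeval (σ ζ) P := by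
      rw [aeval_eq_sum_range, aeval_eq_sum_range, map_sum]
      refine Finset.sum_congr rfl fun j _ => ?_
      rw [map_zsmul, map_pow]
    refine ⟨(∑ j ∈ Finset.range i, ζ ^ j) * aeval (ζ ^ i) Q, ?_, ?_⟩
    · exact (IsIntegral.sum _ fun j _ => hζi.pow j).mul (aeval_integral Q (hζi.pow i))
    · rw [h1, ← hi]
      conv_lhs => rw [hQ]
      rw [map_add, map_mul, map_sub, map_one, aeval_X, aeval_C]
      have h2 := (Commute.all ζ 1).mul_geom_sum₂ i
      simp only [one_pow, mul_one] at h2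
      rw [← h2, ← hc]
      simp only [eq_intCast]
      ring
  -- the norm
  have hnorm := Algebra.norm_eq_prod_automorphisms ℚ (aeval ζ P)
  have hprod : ∀ s : Finset (F ≃ₐ[ℚ] F), ∃ w, IsIntegral ℤ w ∧
      ∏ σ ∈ s, σ (aeval ζ P) = (c : F) ^ s.card + (ζ - 1) * w := by
    classical
    intro s
    induction s using Finset.induction_on with
    | empty => exact ⟨0, isIntegral_zero, by simp⟩
    | insert σ s hs ih =>
      obtain ⟨w, hw, hw2⟩ := ih
      obtain ⟨v, hv, hv2⟩ := hconj σ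
      have hci : IsIntegral ℤ (c : F) := by
        have := isIntegral_algebraMap (R := ℤ) (A := F) (x := c)
        simpa using this
      refine ⟨c * w + v * ((c : F) ^ s.card + (ζ - 1) * w), ?_, ?_⟩
      · exact (hci.mul hw).add (hv.mul ((hci.pow _).add ((hζi.sub isIntegral_one).mul hw)))
      · rw [Finset.prod_insert hs, hv2, hw2, Finset.card_insert_of_notMem hs, pow_succ]
        ring
  obtain ⟨w, hw, hw2⟩ := hprod Finset.univ
  -- `p` is a multiple of `ζ - 1`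
  have hirr : Irreducible (cyclotomic p ℚ) := cyclotomic.irreducible_rat hp.out.pos
  have hn1 : Algebra.norm ℚ (ζ - 1) = (p : ℚ) := by
    have := hζ.norm_sub_one_of_prime_ne_two' (K := ℚ) hirr (by omega)
    exact_mod_cast this
  have hpw : ∃ v, IsIntegral ℤ v ∧ (p : F) = (ζ - 1) * v := by
    have h1 := Algebra.norm_eq_prod_automorphisms ℚ (ζ - 1)
    rw [hn1] at h1
    refine ⟨∏ σ ∈ Finset.univ.erase (1 : F ≃ₐ[ℚ] F), σ (ζ - 1), ?_, ?_⟩
    · refine IsIntegral.prod _ fun σ _ => ?_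
      exact (hζi.sub isIntegral_one).map (σ.restrictScalars ℤ)
    · rw [← Finset.mul_prod_erase _ _ (Finset.mem_univ (1 : F ≃ₐ[ℚ] F))] at h1
      rw [AlgEquiv.one_apply] at h1
      rw [← h1]
      simp
  obtain ⟨v, hv, hv2⟩ := hpw
  -- hence a power of `c` is a multiple of `ζ - 1`
  have hcw : (c : F) ^ (Finset.univ : Finset (F ≃ₐ[ℚ] F)).card = (ζ - 1) * (v * k - w) := by
    have h1 : algebraMap ℚ F (Algebra.norm ℚ (aeval ζ P)) = (p : F) * (k : F) := by
      rw [hn, hk]; push_cast; simp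
    rw [hnorm, hw2, hv2] at h1
    linear_combination h1
  have hki : IsIntegral ℤ (k : F) := by
    have := isIntegral_algebraMap (R := ℤ) (A := F) (x := k)
    simpa using this
  have hvi : IsIntegral ℤ (v * k - w) := (hv.mul hki).sub hw
  obtain ⟨M, hM⟩ := exists_int_norm hvi
  have h3 := congrArg (Algebra.norm ℚ) hcw
  rw [map_mul, hn1, hM, map_pow] at h3
  have h4 : Algebra.norm ℚ (c : F) = (c : ℚ) ^ Module.finrank ℚ F := by
    have := Algebra.norm_algebraMap (R := ℚ) (S := F) (c : ℚ)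
    simpa using this
  rw [h4] at h3
  have h5 : (c ^ Module.finrank ℚ F) ^ (Finset.univ : Finset (F ≃ₐ[ℚ] F)).card = (p : ℤ) * M := by
    exact_mod_cast h3
  have hpp : Prime (p : ℤ) := Nat.prime_iff_prime_int.1 hp.out
  have h6 : (p : ℤ) ∣ (c ^ Module.finrank ℚ F) ^ (Finset.univ : Finset (F ≃ₐ[ℚ] F)).card := ⟨M, h5⟩
  exact hP (hpp.dvd_of_dvd_pow (hpp.dvd_of_dvd_pow h6))

include hp in
/-- factorization of elements of `ℤ[ζ]` -/
theorem factor (hp3 : 3 ≤ p) (hζ : IsPrimitiveRoot ζ p) (n : ℕ) : ∀ P : ℤ[X], aeval ζ P ≠ 0 →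
    padicValRat p (Algebra.norm ℚ (aeval ζ P)) ≤ n →
    ∃ a : ℕ, padicValRat p (Algebra.norm ℚ (aeval ζ P)) = a ∧
    ∃ U W : ℤ[X], P = (X - 1) ^ a * U + (∑ i ∈ Finset.range p, X ^ i) * W ∧
      ¬ (p : ℤ) ∣ U.eval 1 := by
  have hfd : FiniteDimensional ℚ F := IsCyclotomicExtension.finiteDimensional {p} ℚ F
  have hζi : IsIntegral ℤ ζ := hζ.isIntegral hp.out.pos
  have hirr : Irreducible (cyclotomic p ℚ) := cyclotomic.irreducible_rat hp.out.pos
  have hn1 : Algebra.norm ℚ (ζ - 1) = (p : ℚ) := by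
    have := hζ.norm_sub_one_of_prime_ne_two' (K := ℚ) hirr (by omega)
    exact_mod_cast this
  have hnonneg : ∀ P : ℤ[X], 0 ≤ padicValRat p (Algebra.norm ℚ (aeval ζ P)) := by
    intro P
    obtain ⟨M, hM⟩ := exists_int_norm (aeval_integral P hζi)
    rw [hM, padicValRat.of_int]
    exact Int.natCast_nonneg _
  have hphi : ∑ i ∈ Finset.range p, ζ ^ i = 0 := hζ.geom_sum_eq_zero hp.out.one_lt
  have hzero : ∀ P : ℤ[X], aeval ζ P ≠ 0 → ¬ (p : ℤ) ∣ P.eval 1 →
      padicValRat p (Algebra.norm ℚ (aeval ζ P)) = 0 := by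
    intro P hP0 hP
    obtain ⟨M, hM⟩ := exists_int_norm (aeval_integral P hζi)
    have h1 := not_dvd_norm p hp3 hζ P hP M hM
    rw [hM, padicValRat.of_int, padicValInt.eq_zero_of_not_dvd h1]
    rfl
  have hstep : ∀ P : ℤ[X], (p : ℤ) ∣ P.eval 1 → ∃ P' k : ℤ[X], P = (X - 1) * P' +
      (∑ i ∈ Finset.range p, X ^ i) * k ∧ aeval ζ P = (ζ - 1) * aeval ζ P' := by
    intro P hP
    obtain ⟨Q, hQ⟩ := exists_quot P
    obtain ⟨k, hk⟩ := hP
    obtain ⟨Ψ, hΨ⟩ := exists_quot (∑ i ∈ Finset.range p, (X : ℤ[X]) ^ i)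
    have h1 : (∑ i ∈ Finset.range p, (X : ℤ[X]) ^ i).eval 1 = p := by
      rw [eval_finsetSum]; simp
    rw [h1] at hΨ
    have h2 : P = (X - 1) * (Q - C k * Ψ) + (∑ i ∈ Finset.range p, X ^ i) * C k := by
      conv_lhs => rw [hQ, hk]
      conv_rhs => rw [hΨ]
      rw [C_mul]
      ring
    refine ⟨Q - C k * Ψ, C k, h2, ?_⟩
    conv_lhs => rw [h2]
    rw [map_add, map_mul, map_mul, map_sub, aeval_X, map_one, map_sum]
    simp only [map_pow, aeval_X]
    rw [hphi, zero_mul, add_zero]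
  have hvalstep : ∀ P P' : ℤ[X], aeval ζ P ≠ 0 → aeval ζ P = (ζ - 1) * aeval ζ P' →
      padicValRat p (Algebra.norm ℚ (aeval ζ P)) =
        1 + padicValRat p (Algebra.norm ℚ (aeval ζ P')) := by
    intro P P' h0 h
    have h0' : aeval ζ P' ≠ 0 := by
      intro h'
      rw [h', mul_zero] at h
      exact h0 h
    rw [h, map_mul, hn1, padicValRat.mul (by exact_mod_cast hp.out.ne_zero)
      (Algebra.norm_ne_zero_iff.2 h0'), padicValRat.self hp.out.one_lt]
  induction n with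
  | zero =>
    intro P hP0 hle
    have h0 : padicValRat p (Algebra.norm ℚ (aeval ζ P)) = 0 := le_antisymm hle (hnonneg P)
    refine ⟨0, h0, P, 0, by ring, ?_⟩
    intro hd
    obtain ⟨P', k, _, h2⟩ := hstep P hd
    have h3 := hvalstep P P' hP0 h2
    have h4 := hnonneg P'
    omega
  | succ n ih =>
    intro P hP0 hle
    by_cases hd : (p : ℤ) ∣ P.eval 1
    · obtain ⟨P', k, h1, h2⟩ := hstep P hd
      have h3 := hvalstep P P' hP0 h2
      have h0' : aeval ζ P' ≠ 0 := by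
        intro h'
        rw [h', mul_zero] at h2
        exact hP0 h2
      obtain ⟨a, ha, U, W, hUW, hU⟩ := ih P' h0' (by push_cast at hle; omega)
      refine ⟨a + 1, by rw [h3, ha]; push_cast; ring, U, (X - 1) * W + k, ?_, hU⟩
      conv_lhs => rw [h1, hUW]
      ring
    · exact ⟨0, hzero P hP0 hd, P, 0, by ring, hd⟩

end cyc

end Pool.Agent.H425
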