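import Mathlib

set_option autoImplicit false
set_option linter.unusedSectionVars false
set_option linter.unusedVariables false

namespace Pool.Agent.H425

open MvPolynomial

variable {ι : Type} [Fintype ι] [DecidableEq ι]

/-- exponents of degree at most `M` -/
noncomputable def DD (ι : Type) [Fintype ι] [DecidableEq ι] (M : ℕ) : Finset (ι →₀ ℕ) :=
  (Finset.Iic (Finsupp.equivFunOnFinite.symm (fun _ : ι => M))).filter (fun m => m.degree ≤ M)

theorem coord_le_degree (m : ι →₀ ℕ) (i : ι) : m i ≤ m.degree := by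
  rw [Finsupp.degree_apply]
  by_cases h : i ∈ m.support
  · exact Finset.single_le_sum (f := fun i => m i) (fun _ _ => Nat.zero_le _) h
  · rw [Finsupp.notMem_support_iff] at h
    rw [h]; exact Nat.zero_le _

theorem mem_DD (M : ℕ) (m : ι →₀ ℕ) : m ∈ DD ι M ↔ m.degree ≤ M := by
  rw [DD, Finset.mem_filter, Finset.mem_Iic]
  constructor
  · exact fun h => h.2
  · intro h
    refine ⟨fun i => ?_, h⟩
    simp only [Finsupp.equivFunOnFinite_symm_apply_apply]
    exact (coord_le_degree m i).trans h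

variable {L : Type} [CommRing L]

/-- polynomials of degree at most `M` -/
def VV (ι L : Type) [CommRing L] (M : ℕ) : Submodule L (MvPolynomial ι L) where
  carrier := {P | ∀ m : ι →₀ ℕ, M < m.degree → coeff m P = 0}
  add_mem' := by
    intro a b ha hb m hm
    rw [coeff_add, ha m hm, hb m hm, add_zero]
  zero_mem' := by
    intro m _
    exact coeff_zero m
  smul_mem' := by
    intro c a ha m hm
    rw [coeff_smul, ha m hm, smul_zero]

theorem mem_VV {M : ℕ} {P : MvPolynomial ι L} : P ∈ VV ι L M ↔ ∀ m : ι →₀ ℕ, M < m.degree → coeff m P = 0 :=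
  Iff.rfl

theorem VV_mono {M M' : ℕ} (h : M ≤ M') : VV ι L M ≤ VV ι L M' :=
  fun _ hP m hm => hP m (lt_of_le_of_lt h hm)

theorem monomial_mem_VV {M : ℕ} {m : ι →₀ ℕ} (hm : m.degree ≤ M) (r : L) : monomial m r ∈ VV ι L M := by
  intro m' hm'
  rw [coeff_monomial, if_neg]
  rintro rfl
  omega

theorem eq_sum_DD {M : ℕ} {P : MvPolynomial ι L} (hP : P ∈ VV ι L M) :
    P = ∑ m ∈ DD ι M, monomial m (coeff m P) := by
  ext m
  rw [coeff_sum]
  simp only [coeff_monomial]
  rw [Finset.sum_ite_eq']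
  split_ifs with h
  · rfl
  · rw [mem_DD, not_le] at h
    exact hP m h

theorem mul_mem_VV {M M' : ℕ} {P P' : MvPolynomial ι L} (hP : P ∈ VV ι L M) (hP' : P' ∈ VV ι L M') :
    P * P' ∈ VV ι L (M + M') := by
  intro m hm
  rw [coeff_mul]
  refine Finset.sum_eq_zero fun x hx => ?_
  rw [Finset.HasAntidiagonal.mem_antidiagonal] at hx
  have h1 : x.1.degree + x.2.degree = m.degree := by rw [← map_add, hx]
  by_cases h2 : M < x.1.degree
  · rw [hP x.1 h2, zero_mul]
  · rw [hP' x.2 (by omega), mul_zero]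

theorem pderiv_mem_VV {M : ℕ} {P : MvPolynomial ι L} (hP : P ∈ VV ι L M) (i : ι) :
    pderiv i P ∈ VV ι L (M - 1) := by
  intro m hm
  rw [coeff_pderiv, hP, zero_mul]
  rw [map_add, Finsupp.degree_single]
  omega

theorem VV_fg (M : ℕ) : (VV ι L M).FG := by
  classical
  refine ⟨(DD ι M).image (fun m => monomial m (1 : L)), ?_⟩
  apply le_antisymm
  · rw [Submodule.span_le]
    intro x hx
    rw [Finset.mem_coe, Finset.mem_image] at hx
    obtain ⟨m, hm, rfl⟩ := hx
    exact monomial_mem_VV ((mem_DD M m).1 hm) 1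
  · intro P hP
    rw [eq_sum_DD hP]
    refine Submodule.sum_mem _ fun m hm => ?_
    have : monomial m (coeff m P) = coeff m P • monomial m (1 : L) := by
      rw [smul_monomial, smul_eq_mul, mul_one]
    rw [this]
    exact Submodule.smul_mem _ _ (Submodule.subset_span (by
      rw [Finset.mem_coe, Finset.mem_image]; exact ⟨m, hm, rfl⟩))

theorem exists_VV (P : MvPolynomial ι L) : ∃ M, P ∈ VV ι L M := by
  refine ⟨P.support.sup (fun m => m.degree), fun m hm => ?_⟩
  by_contra h
  have := Finset.le_sup (f := fun m : ι →₀ ℕ => m.degree) (mem_support_iff.2 h)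
  omega

/-- two linear maps agreeing on monomials -/
theorem linmap_ext {N : Type} [AddCommGroup N] [Module L N] {f g : MvPolynomial ι L →ₗ[L] N}
    (h : ∀ m : ι →₀ ℕ, f (monomial m 1) = g (monomial m 1)) : f = g := by
  refine (basisMonomials ι L).ext fun m => ?_
  rw [coe_basisMonomials]
  exact h m

/-- matrices of endomorphisms on the box -/
noncomputable def mat (M : ℕ) (T : MvPolynomial ι L →ₗ[L] MvPolynomial ι L) :
    Matrix (DD ι M) (DD ι M) L :=
  fun v u => coeff v.1 (T (monomial u.1 1))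

theorem map_monomial_expand {M : ℕ} (T' : MvPolynomial ι L →ₗ[L] MvPolynomial ι L)
    (P : MvPolynomial ι L) (hP : P ∈ VV ι L M) (v : ι →₀ ℕ) :
    coeff v (T' P) = ∑ w : DD ι M, coeff v (T' (monomial w.1 1)) * coeff w.1 P := by
  conv_lhs => rw [eq_sum_DD hP]
  rw [map_sum, coeff_sum, ← Finset.sum_coe_sort (DD ι M)
    (fun m => coeff v (T' (monomial m (coeff m P))))]
  refine Finset.sum_congr rfl fun m _ => ?_
  have : monomial m.1 (coeff m.1 P) = coeff m.1 P • monomial m.1 (1 : L) := by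
    rw [smul_monomial, smul_eq_mul, mul_one]
  rw [this, map_smul, coeff_smul, smul_eq_mul, mul_comm]

theorem mat_comp {M : ℕ} (T T' : MvPolynomial ι L →ₗ[L] MvPolynomial ι L)
    (h : ∀ P ∈ VV ι L M, T' P ∈ VV ι L M) : mat M (T ∘ₗ T') = mat M T * mat M T' := by
  ext v u
  rw [Matrix.mul_apply]
  exact map_monomial_expand T (T' (monomial u.1 1)) (h _ (monomial_mem_VV ((mem_DD M _).1 u.2) 1)) v.1

theorem mat_id (M : ℕ) : mat M (LinearMap.id : MvPolynomial ι L →ₗ[L] MvPolynomial ι L) = 1 := by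
  ext v u
  rw [mat, LinearMap.id_apply, coeff_monomial, Matrix.one_apply]
  by_cases h : v = u
  · rw [if_pos h, if_pos (by rw [h])]
  · rw [if_neg h, if_neg (fun h' => h (Subtype.ext h'.symm))]

end Pool.Agent.H425
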