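import Mathlib

set_option autoImplicit false
set_option linter.unusedSectionVars false
set_option linter.unusedVariables false

namespace Pool.Agent.H425

theorem det_ne_zero_of_tri {J K : Type} [Fintype J] [DecidableEq J] [Field K] (M : Matrix J J K)
    (w : J → ℕ) (h : ∀ v s, v ≠ s → M v s ≠ 0 → w s < w v) (hd : ∀ v, M v v ≠ 0) : M.det ≠ 0 := by
  classical
  intro hdet
  obtain ⟨a, ha, hMa⟩ := Matrix.exists_mulVec_eq_zero_iff.2 hdet
  obtain ⟨v0, hv0⟩ := Function.ne_iff.1 ha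
  obtain ⟨v, hv, hmin⟩ := Finset.exists_min_image (Finset.univ.filter (fun v => a v ≠ 0)) w
    ⟨v0, by rw [Finset.mem_filter]; exact ⟨Finset.mem_univ _, hv0⟩⟩
  rw [Finset.mem_filter] at hv
  have h1 := congrFun hMa v
  rw [Matrix.mulVec, dotProduct, Pi.zero_apply] at h1
  rw [Finset.sum_eq_single v] at h1
  · exact mul_ne_zero (hd v) hv.2 h1
  · intro s _ hs
    by_contra hne
    have h2 := left_ne_zero_of_mul hne
    have h3 := right_ne_zero_of_mul hne
    have h4 := h v s (Ne.symm hs) h2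
    have h5 := hmin s (by rw [Finset.mem_filter]; exact ⟨Finset.mem_univ _, h3⟩)
    omega
  · intro h2
    exact absurd (Finset.mem_univ v) h2

section

variable {A : Type} [CommRing A]

/-- Newton basis -/
def Nb (ρ : ℕ → A) (x : A) : ℕ → A
  | 0 => x
  | s + 1 => Nb ρ x s * (x - ρ s)

/-- coefficients in the Newton basis -/
def Uc (ρ : ℕ → A) : ℕ → ℕ → A
  | 0, s => if s = 0 then 1 else 0
  | u + 1, s => (if s = 0 then 0 else Uc ρ u (s - 1)) + (ρ s - ((u + 1 : ℕ) : A)) * Uc ρ u s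

theorem Nb_eq (ρ : ℕ → A) (x : A) (s : ℕ) : Nb ρ x s = x * ∏ t ∈ Finset.range s, (x - ρ t) := by
  induction s with
  | zero => simp [Nb]
  | succ s ih => rw [Nb, ih, Finset.prod_range_succ, mul_assoc]

theorem Uc_zero (ρ : ℕ → A) (u s : ℕ) (h : u < s) : Uc ρ u s = 0 := by
  induction u generalizing s with
  | zero => rw [Uc, if_neg (by omega)]
  | succ u ih => rw [Uc, if_neg (by omega), ih (s - 1) (by omega), ih s (by omega)]; ring

theorem Uc_diag (ρ : ℕ → A) (u : ℕ) : Uc ρ u u = 1 := by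
  induction u with
  | zero => rw [Uc, if_pos rfl]
  | succ u ih => rw [Uc, if_neg (by omega), Nat.add_sub_cancel, ih, Uc_zero ρ u (u + 1) (by omega)]; ring

theorem cast_desc (n k : ℕ) : ((n.descFactorial (k + 1) : ℕ) : A) =
    ((n : A) - (k : A)) * ((n.descFactorial k : ℕ) : A) := by
  rw [Nat.descFactorial_succ]
  by_cases h : k ≤ n
  · rw [Nat.cast_mul, Nat.cast_sub h]
  · rw [Nat.descFactorial_of_lt (by omega : n < k)]
    simp

theorem desc_eq (ρ : ℕ → A) (n u : ℕ) : ((n.descFactorial (u + 1) : ℕ) : A) =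
    ∑ s ∈ Finset.range (u + 1), Uc ρ u s * Nb ρ n s := by
  induction u with
  | zero => simp [Uc, Nb]
  | succ u ih =>
    rw [cast_desc, ih]
    have h1 : ∀ s, Uc ρ (u + 1) s * Nb ρ n s = (if s = 0 then 0 else Uc ρ u (s - 1)) * Nb ρ n s +
        (ρ s - ((u + 1 : ℕ) : A)) * Uc ρ u s * Nb ρ n s := by
      intro s
      rw [Uc]
      ring
    simp only [h1]
    rw [Finset.sum_add_distrib]
    have h2 : ∑ s ∈ Finset.range (u + 1 + 1), (if s = 0 then 0 else Uc ρ u (s - 1)) * Nb ρ n s =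
        ∑ s ∈ Finset.range (u + 1), Uc ρ u s * Nb ρ n (s + 1) := by
      rw [Finset.sum_range_succ']
      simp
    have h3 : ∑ s ∈ Finset.range (u + 1 + 1), (ρ s - ((u + 1 : ℕ) : A)) * Uc ρ u s * Nb ρ n s =
        ∑ s ∈ Finset.range (u + 1), (ρ s - ((u + 1 : ℕ) : A)) * Uc ρ u s * Nb ρ n s := by
      rw [Finset.sum_range_succ, Uc_zero ρ u (u + 1) (by omega)]
      ring
    rw [h2, h3, ← Finset.sum_add_distrib, Finset.mul_sum]
    refine Finset.sum_congr rfl fun s _ => ?_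
    rw [Nb]
    ring

end

theorem det_lower_ne {K : Type} [Field K] (n e : ℕ) (r : ℕ → ℕ)
    (hr0 : ∀ i < e, (r i : K) ≠ 0) (hinj : ∀ i < e, ∀ j < e, i ≠ j → (r i : K) ≠ (r j : K))
    (J : Finset (Fin n → Fin e)) (hJ : ∀ v ∈ J, ∀ s, s ≤ v → s ∈ J) :
    (Matrix.of (fun (v u : J) => ∏ i, (((r (v.1 i)).descFactorial ((u.1 i : ℕ) + 1) : ℕ) : K))).det
      ≠ 0 := by
  classical
  set ρ : ℕ → K := fun i => (r i : K) with hρ
  set L : Matrix J J K := Matrix.of (fun v s => ∏ i, Nb ρ (ρ (v.1 i)) (s.1 i)) with hL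
  set U : Matrix J J K := Matrix.of (fun s u => ∏ i, Uc ρ (u.1 i) (s.1 i)) with hU
  have hNb0 : ∀ a b : ℕ, a < b → Nb ρ (ρ a) b = 0 := by
    intro a b hab
    rw [Nb_eq, Finset.prod_eq_zero (Finset.mem_range.2 hab) (sub_self _), mul_zero]
  have hmul : Matrix.of (fun (v u : J) => ∏ i, (((r (v.1 i)).descFactorial ((u.1 i : ℕ) + 1) : ℕ) : K)) =
      L * U := by
    ext v u
    rw [Matrix.mul_apply, Matrix.of_apply]
    have h1 : ∀ i, (((r (v.1 i)).descFactorial ((u.1 i : ℕ) + 1) : ℕ) : K) =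
        ∑ j : Fin e, Nb ρ (ρ (v.1 i)) j * Uc ρ (u.1 i) j := by
      intro i
      rw [desc_eq ρ, Fin.sum_univ_eq_sum_range (fun j => Nb ρ (ρ (v.1 i)) j * Uc ρ (u.1 i) j) e]
      have h2 : Finset.range ((u.1 i : ℕ) + 1) ⊆ Finset.range e := by
        rw [Finset.range_subset_range]
        exact (u.1 i).2
      rw [← Finset.sum_subset h2]
      · refine Finset.sum_congr rfl fun s _ => ?_
        rw [mul_comm]
      · intro s _ hs
        rw [Finset.mem_range, not_lt] at hs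
        rw [Uc_zero ρ _ _ (by omega), mul_zero]
    simp only [h1]
    rw [Finset.prod_univ_sum, Fintype.piFinset_univ]
    have h3 : ∑ j : J, L v j * U j u = ∑ s ∈ J, (∏ i, Nb ρ (ρ (v.1 i)) (s i)) * ∏ i, Uc ρ (u.1 i) (s i) := by
      rw [← Finset.sum_coe_sort J]
      rfl
    rw [h3]
    have h4 : ∑ s ∈ J, (∏ i, Nb ρ (ρ (v.1 i)) (s i)) * ∏ i, Uc ρ (u.1 i) (s i) =
        ∑ s : Fin n → Fin e, (∏ i, Nb ρ (ρ (v.1 i)) (s i)) * ∏ i, Uc ρ (u.1 i) (s i) := by
      apply Finset.sum_subset (Finset.subset_univ J)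
      intro s _ hs
      have h5 : ¬ s ≤ v.1 := fun h => hs (hJ v.1 v.2 s h)
      rw [Pi.le_def] at h5
      push Not at h5
      obtain ⟨i, hi⟩ := h5
      rw [Finset.prod_eq_zero (Finset.mem_univ i) (hNb0 _ _ hi), zero_mul]
    rw [h4]
    refine Finset.sum_congr rfl fun s _ => ?_
    rw [Finset.prod_mul_distrib]
  rw [hmul, Matrix.det_mul]
  apply mul_ne_zero
  · apply det_ne_zero_of_tri L (fun v => ∑ i, (v.1 i : ℕ))
    · intro v s hvs hne
      rw [hL, Matrix.of_apply] at hne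
      have h1 : s.1 ≤ v.1 := by
        intro i
        by_contra hcon
        push Not at hcon
        exact hne (Finset.prod_eq_zero (Finset.mem_univ i) (hNb0 _ _ hcon))
      have h2 : s.1 < v.1 := lt_of_le_of_ne h1 (fun h => hvs (Subtype.ext h.symm))
      obtain ⟨_, i, hi⟩ := Pi.lt_def.1 h2
      exact Finset.sum_lt_sum (fun j _ => h1 j) ⟨i, Finset.mem_univ i, hi⟩
    · intro v
      rw [hL, Matrix.of_apply]
      refine Finset.prod_ne_zero_iff.2 fun i _ => ?_
      rw [Nb_eq]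
      refine mul_ne_zero (hr0 _ (v.1 i).2) (Finset.prod_ne_zero_iff.2 fun t ht => ?_)
      rw [Finset.mem_range] at ht
      rw [sub_ne_zero]
      exact hinj _ (v.1 i).2 _ (ht.trans (v.1 i).2) (by omega)
  · rw [← Matrix.det_transpose]
    apply det_ne_zero_of_tri U.transpose (fun v => ∑ i, (v.1 i : ℕ))
    · intro v s hvs hne
      rw [hU, Matrix.transpose_apply, Matrix.of_apply] at hne
      have h1 : s.1 ≤ v.1 := by
        intro i
        by_contra hcon
        push Not at hcon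
        exact hne (Finset.prod_eq_zero (Finset.mem_univ i) (Uc_zero _ _ _ hcon))
      have h2 : s.1 < v.1 := lt_of_le_of_ne h1 (fun h => hvs (Subtype.ext h.symm))
      obtain ⟨_, i, hi⟩ := Pi.lt_def.1 h2
      exact Finset.sum_lt_sum (fun j _ => h1 j) ⟨i, Finset.mem_univ i, hi⟩
    · intro v
      rw [hU, Matrix.transpose_apply, Matrix.of_apply]
      refine Finset.prod_ne_zero_iff.2 fun i _ => ?_
      rw [Uc_diag]
      exact one_ne_zero

end Pool.Agent.H425
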