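import Pool.Agent.H425.Ten
import Pool.Agent.H425.LU

set_option autoImplicit false
set_option linter.unusedSectionVars false
set_option linter.unusedVariables false

namespace Pool.Agent.H425

theorem minor_scale {J Q : Type} [Fintype J] [DecidableEq J] [CommRing Q] (l : Q)
    (M c : Matrix J J Q) (a : J → Q) (x R : J → ℕ)
    (h : ∀ v u, a v * (l ^ x u * M v u) = l ^ R v * c v u) (s : Finset J) :
    (∏ v ∈ s, a v) * (l ^ (∑ u ∈ s, x u) *
      (M.submatrix (Subtype.val : {y // y ∈ s} → J) (Subtype.val : {y // y ∈ s} → J)).det) =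
    l ^ (∑ v ∈ s, R v) *
      (c.submatrix (Subtype.val : {y // y ∈ s} → J) (Subtype.val : {y // y ∈ s} → J)).det := by
  have h1 : Matrix.of (fun (v u : {y // y ∈ s}) => a v.1 * (Matrix.of (fun (v u : {y // y ∈ s}) =>
      l ^ x u.1 * (M.submatrix (Subtype.val : {y // y ∈ s} → J) Subtype.val) v u)) v u) =
      Matrix.of (fun (v u : {y // y ∈ s}) => l ^ R v.1 *
        (c.submatrix (Subtype.val : {y // y ∈ s} → J) Subtype.val) v u) := by
    ext v u
    simp only [Matrix.of_apply, Matrix.submatrix_apply]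
    exact h v.1 u.1
  have h2 := congrArg Matrix.det h1
  rw [Matrix.det_mul_column, Matrix.det_mul_row, Matrix.det_mul_column] at h2
  have e1 : ∏ i : {y // y ∈ s}, a i.1 = ∏ v ∈ s, a v := Finset.prod_coe_sort s a
  have e2 : ∏ i : {y // y ∈ s}, l ^ x i.1 = l ^ (∑ u ∈ s, x u) := by
    rw [Finset.prod_coe_sort s (fun u => l ^ x u), Finset.prod_pow_eq_pow_sum]
  have e3 : ∏ i : {y // y ∈ s}, l ^ R i.1 = l ^ (∑ u ∈ s, R u) := by
    rw [Finset.prod_coe_sort s (fun u => l ^ R u), Finset.prod_pow_eq_pow_sum]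
  rw [e1, e2, e3] at h2
  exact h2

theorem dom {J Q K : Type} [Fintype J] [DecidableEq J] [CommRing Q] [Field K] (ρ : Q →+* K)
    (l : Q) (hl : ρ l = 0) (M c : Matrix J J Q) (a : J → Q) (x R : J → ℕ)
    (h : ∀ v u, a v * (l ^ x u * M v u) = l ^ R v * c v u) (s0 : Finset J) (X Y : ℕ)
    (hX : ∀ s : Finset J, s.card = s0.card → ∑ u ∈ s, x u ≤ X)
    (hY : X + ∑ v ∈ s0, R v = Y + ∑ u ∈ s0, x u)
    (hdom : ∀ s : Finset J, s.card = s0.card → s ≠ s0 →
      Y + 1 + ∑ u ∈ s, x u ≤ X + ∑ v ∈ s, R v)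
    (ha : ∀ v, ρ (a v) ≠ 0)
    (hdet : ((c.submatrix (Subtype.val : {y // y ∈ s0} → J)
      (Subtype.val : {y // y ∈ s0} → J)).map ρ).det ≠ 0) :
    ∃ A y : Q, ρ A ≠ 0 ∧ ρ y ≠ 0 ∧ A * (l ^ X * (cs M).coeff s0.card) = l ^ Y * y := by
  have key : ∀ s : Finset J, s.card = s0.card → ∀ Z : ℕ, Z + ∑ u ∈ s, x u ≤ X + ∑ v ∈ s, R v →
      (∏ v, a v) * (l ^ X *
      (M.submatrix (Subtype.val : {y // y ∈ s} → J) (Subtype.val : {y // y ∈ s} → J)).det) =
      l ^ Z * (l ^ (X + ∑ v ∈ s, R v - (Z + ∑ u ∈ s, x u)) * ((∏ v ∈ sᶜ, a v) *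
        (c.submatrix (Subtype.val : {y // y ∈ s} → J) (Subtype.val : {y // y ∈ s} → J)).det)) := by
    intro s hs Z hZ
    have h1 := minor_scale l M c a x R h s
    have h2 := hX s hs
    have h3 : l ^ X = l ^ (X - ∑ u ∈ s, x u) * l ^ (∑ u ∈ s, x u) := by
      rw [← pow_add]
      congr 1
      omega
    rw [h3, ← Finset.prod_mul_prod_compl s a]
    calc _ = l ^ (X - ∑ u ∈ s, x u) * (∏ v ∈ sᶜ, a v) * ((∏ v ∈ s, a v) * (l ^ (∑ u ∈ s, x u) *
      (M.submatrix (Subtype.val : {y // y ∈ s} → J) (Subtype.val : {y // y ∈ s} → J)).det)) := by ring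
      _ = (l ^ (X - ∑ u ∈ s, x u) * l ^ (∑ v ∈ s, R v)) * ((∏ v ∈ sᶜ, a v) *
      (c.submatrix (Subtype.val : {y // y ∈ s} → J) (Subtype.val : {y // y ∈ s} → J)).det) := by
        rw [h1]; ring
      _ = (l ^ Z * l ^ (X + ∑ v ∈ s, R v - (Z + ∑ u ∈ s, x u))) * ((∏ v ∈ sᶜ, a v) *
      (c.submatrix (Subtype.val : {y // y ∈ s} → J) (Subtype.val : {y // y ∈ s} → J)).det) := by
        rw [← pow_add, ← pow_add]
        congr 2
        omega
      _ = _ := by ring
  set y0 := (∏ v ∈ s0ᶜ, a v) *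
      (c.submatrix (Subtype.val : {y // y ∈ s0} → J) (Subtype.val : {y // y ∈ s0} → J)).det with hy0
  have h0 := key s0 rfl Y (by omega)
  have e0 : X + ∑ v ∈ s0, R v - (Y + ∑ u ∈ s0, x u) = 0 := by omega
  rw [e0, pow_zero, one_mul, ← hy0] at h0
  have hρ0 : ρ y0 ≠ 0 := by
    rw [hy0, map_mul, map_prod, RingHom.map_det]
    exact mul_ne_zero (Finset.prod_ne_zero_iff.2 fun v _ => ha v) hdet
  have hoth : ∀ s ∈ (Finset.univ.powersetCard s0.card).erase s0, ∃ q : Q,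
      (∏ v, a v) * (l ^ X *
      (M.submatrix (Subtype.val : {y // y ∈ s} → J) (Subtype.val : {y // y ∈ s} → J)).det) =
      l ^ Y * (l * q) := by
    intro s hs
    rw [Finset.mem_erase, Finset.mem_powersetCard] at hs
    have h1 := key s hs.2.2 (Y + 1) (hdom s hs.2.2 hs.1)
    exact ⟨_, h1.trans (by rw [pow_succ, mul_assoc])⟩
  choose! q hq using hoth
  refine ⟨∏ v, a v, (-1) ^ s0.card * (y0 + l *
    ∑ s ∈ (Finset.univ.powersetCard s0.card).erase s0, q s), ?_, ?_, ?_⟩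
  · rw [map_prod]
    exact Finset.prod_ne_zero_iff.2 fun v _ => ha v
  · rw [map_mul, map_add ρ y0, map_mul ρ l, hl, zero_mul, add_zero, map_pow, map_neg, map_one]
    exact mul_ne_zero (pow_ne_zero _ (neg_ne_zero.2 one_ne_zero)) hρ0
  · have hmem : s0 ∈ Finset.univ.powersetCard s0.card := by
      rw [Finset.mem_powersetCard]
      exact ⟨Finset.subset_univ _, rfl⟩
    rw [cs_coeff, ← Finset.add_sum_erase _ _ hmem]
    calc _ = (-1) ^ s0.card * ((∏ v, a v) * (l ^ X *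
      (M.submatrix (Subtype.val : {y // y ∈ s0} → J) (Subtype.val : {y // y ∈ s0} → J)).det) +
        ∑ s ∈ (Finset.univ.powersetCard s0.card).erase s0, (∏ v, a v) * (l ^ X *
      (M.submatrix (Subtype.val : {y // y ∈ s} → J) (Subtype.val : {y // y ∈ s} → J)).det)) := by
          rw [← Finset.mul_sum, ← Finset.mul_sum]
          ring
      _ = _ := by
        rw [h0, Finset.sum_congr rfl hq, ← Finset.mul_sum, ← Finset.mul_sum]
        ring

theorem prod_scale {Q : Type} [CommRing Q] {e n : ℕ} (l : Q) (β c : Fin e → Fin e → Q)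
    (a : Fin e → Q) (x R : Fin e → ℕ) (h : ∀ i j, a i * (l ^ x j * β i j) = l ^ R i * c i j)
    (v u : Fin n → Fin e) : (∏ i, a (v i)) * (l ^ (∑ i, x (u i)) * ∏ i, β (v i) (u i)) =
    l ^ (∑ i, R (v i)) * ∏ i, c (v i) (u i) := by
  rw [← Finset.prod_pow_eq_pow_sum, ← Finset.prod_pow_eq_pow_sum, ← Finset.prod_mul_distrib,
    ← Finset.prod_mul_distrib, ← Finset.prod_mul_distrib]
  exact Finset.prod_congr rfl fun i _ => h _ _

namespace Setup

variable {p d : ℕ} [hp : Fact p.Prime] {K R : Type} [Field K] [CommRing R] [IsDomain R]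
  (S : Setup p d K R)

theorem ord_lt {N a b : ℕ} {u v : R} (hu : S.res u ≠ 0) (ha : a < N)
    (h : S.rd N (S.lam ^ a * u) = S.rd N (S.lam ^ b * v)) : b ≤ a := by
  by_contra hcon
  push Not at hcon
  rw [rd_eq] at h
  obtain ⟨q, hq⟩ := h
  obtain ⟨k, hk⟩ := Nat.exists_eq_add_of_lt ha
  obtain ⟨j, hj⟩ := Nat.exists_eq_add_of_lt hcon
  rw [hk, hj] at hq
  have h1 : S.lam ^ a * u = S.lam ^ a * (S.lam * (S.lam ^ k * q + S.lam ^ j * v)) := by
    linear_combination hq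
  have h2 := mul_left_cancel₀ (pow_ne_zero a S.lam_ne) h1
  apply hu
  rw [h2, map_mul, S.res_lam, zero_mul]

theorem ord_ne_zero {N a : ℕ} {u : R} (hu : S.res u ≠ 0) (ha : a < N) :
    S.rd N (S.lam ^ a * u) ≠ 0 := by
  intro h
  have h1 : S.rd N (S.lam ^ a * u) = S.rd N (S.lam ^ (a + 1) * 0) := by rw [h, mul_zero, map_zero]
  have := S.ord_lt hu ha h1
  omega

end Setup

end Pool.Agent.H425
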