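import Pool.Agent.H425.Trace

set_option autoImplicit false
set_option linter.unusedSectionVars false
set_option linter.unusedVariables false

namespace Pool.Agent.H425

open MvPolynomial

/-- the exponential sum with an arbitrary `p`-th root of unity -/
noncomputable def expSum (p : ℕ) {K : Type} [Field K] {ι : Type} {A : Type} [CommRing A]
    (f : MvPolynomial ι K) (a : ℕ) (z : A) : A :=
  ∑ a0 ∈ Finset.range p, z ^ a0 * ((Nat.card {x : ι → K // (∀ i, x i ^ (p ^ a) = x i) ∧
    ∑ t ∈ Finset.range a, (eval x f) ^ (p ^ t) = (a0 : K)} : ℕ) : A)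

theorem expSum_eq (p : ℕ) [hp : Fact p.Prime] {K : Type} [Field K] [CharP K p] {ι : Type} [Fintype ι]
    [DecidableEq ι] {A : Type} [CommRing A] (f : MvPolynomial ι K) (a : ℕ) (ha : 1 ≤ a)
    (hf : ∀ s, coeff s f ^ (p ^ a) = coeff s f) (z : A) (hz : z ^ p = 1) (g : (ι → K) → A)
    (hg : ∀ x : ι → K, (∀ i, x i ^ (p ^ a) = x i) → ∀ c : ℕ,
      ∑ t ∈ Finset.range a, (eval x f) ^ (p ^ t) = (c : K) → g x = z ^ c) :
    expSum p f a z = ∑ x ∈ Fintype.piFinset (fun _ : ι => FQ K (p ^ a)), g x := by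
  classical
  have hQ : 2 ≤ p ^ a := by
    calc 2 ≤ p := hp.out.two_le
      _ = p ^ 1 := (pow_one p).symm
      _ ≤ p ^ a := Nat.pow_le_pow_right hp.out.pos ha
  have hmem : ∀ x : ι → K, x ∈ Fintype.piFinset (fun _ : ι => FQ K (p ^ a)) ↔
      ∀ i, x i ^ (p ^ a) = x i := by
    intro x
    rw [Fintype.mem_piFinset]
    exact forall_congr' fun i => mem_FQ hQ (x i)
  have hcard : ∀ a0 : ℕ, Nat.card {x : ι → K // (∀ i, x i ^ (p ^ a) = x i) ∧
      ∑ t ∈ Finset.range a, (eval x f) ^ (p ^ t) = (a0 : K)} =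
      ((Fintype.piFinset (fun _ : ι => FQ K (p ^ a))).filter
        (fun x => ∑ t ∈ Finset.range a, (eval x f) ^ (p ^ t) = (a0 : K))).card := by
    intro a0
    refine Nat.subtype_card _ fun x => ?_
    rw [Finset.mem_filter, hmem]
  have htr : ∀ x ∈ Fintype.piFinset (fun _ : ι => FQ K (p ^ a)), ∃ c : ℕ,
      ∑ t ∈ Finset.range a, (eval x f) ^ (p ^ t) = (c : K) := by
    intro x hx
    rw [hmem] at hx
    apply exists_nat_trace p
    rw [eval_eq', sum_pow_char_pow p a]
    refine Finset.sum_congr rfl fun s _ => ?_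
    rw [mul_pow, hf, ← Finset.prod_pow]
    congr 1
    refine Finset.prod_congr rfl fun i _ => ?_
    rw [← pow_mul, mul_comm, pow_mul, hx]
  rw [expSum]
  simp only [hcard]
  have h1 : ∀ a0 ∈ Finset.range p, z ^ a0 * ((((Fintype.piFinset (fun _ : ι => FQ K (p ^ a))).filter
        (fun x => ∑ t ∈ Finset.range a, (eval x f) ^ (p ^ t) = (a0 : K))).card : ℕ) : A) =
      ∑ x ∈ Fintype.piFinset (fun _ : ι => FQ K (p ^ a)),
        if ∑ t ∈ Finset.range a, (eval x f) ^ (p ^ t) = (a0 : K) then g x else 0 := by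
    intro a0 _
    rw [← Finset.sum_filter, mul_comm, ← nsmul_eq_mul, ← Finset.sum_const]
    refine Finset.sum_congr rfl fun x hx => ?_
    rw [Finset.mem_filter, hmem] at hx
    exact (hg x hx.1 a0 hx.2).symm
  rw [Finset.sum_congr rfl h1, Finset.sum_comm]
  refine Finset.sum_congr rfl fun x hx => ?_
  obtain ⟨c, hc⟩ := htr x hx
  have hc' : ((c % p : ℕ) : K) = (c : K) := by
    rw [CharP.natCast_eq_natCast K p]
    exact Nat.mod_modEq c p
  rw [Finset.sum_eq_single (c % p)]
  · rw [if_pos (by rw [hc, hc'])]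
  · intro b hb hne
    rw [if_neg]
    intro h
    apply hne
    rw [hc, ← hc'] at h
    have h2 := (CharP.natCast_eq_natCast K p).1 h
    rw [Nat.ModEq, Nat.mod_mod, Nat.mod_eq_of_lt (Finset.mem_range.1 hb)] at h2
    exact h2.symm
  · intro h
    exact absurd (Finset.mem_range.2 (Nat.mod_lt _ hp.out.pos)) h

end Pool.Agent.H425
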