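import Mathlib

set_option autoImplicit false
set_option linter.unusedSectionVars false

namespace Pool.Agent.H425

/-- a domain with residue field `K`, in which a power of the uniformizer is `-p` -/
structure Setup (p d : ℕ) [Fact p.Prime] (K R : Type) [Field K] [CommRing R] [IsDomain R] where
  lam : R
  res : R →+* K
  tau : K →* R
  zp : ℤ_[p] →+* R
  lam_pow : lam ^ (d * (p - 1)) = -(p : R)
  lam_ne : lam ≠ 0
  dvd_of_res : ∀ x, res x = 0 → lam ∣ x
  res_lam : res lam = 0
  res_tau : ∀ a, res (tau a) = a
  tau_zero : tau 0 = 0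

namespace Constr

variable (p D : ℕ) [hp : Fact p.Prime] (K : Type) [Field K] [CharP K p] [PerfectRing K p]

open Polynomial

/-- the Eisenstein polynomial -/
noncomputable def eis : (WittVector p K)[X] := X ^ D + C (p : WittVector p K)

theorem p_ne : (p : WittVector p K) ≠ 0 := (WittVector.irreducible p (k := K)).ne_zero

theorem eis_prime (hD : 0 < D) : Prime (eis p D K) := by
  rw [← irreducible_iff_prime]
  have hm : (eis p D K).Monic := monic_X_pow_add_C _ hD.ne'
  have hdeg : (eis p D K).natDegree = D := natDegree_X_pow_add_C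
  have hpr : Prime (p : WittVector p K) := (WittVector.irreducible p (k := K)).prime
  refine IsEisensteinAt.irreducible (𝓟 := Ideal.span {(p : WittVector p K)}) ?_ ?_ hm.isPrimitive ?_
  · refine hm.isEisensteinAt_of_mem_of_notMem ?_ ?_ ?_
    · rw [Ideal.ne_top_iff_one, Ideal.mem_span_singleton]
      exact fun h => hpr.not_isUnit (isUnit_of_dvd_one h)
    · intro n hn
      rw [hdeg] at hn
      rw [eis, coeff_add, coeff_X_pow, if_neg (by omega), zero_add, coeff_C]
      split_ifs
      · exact Ideal.mem_span_singleton_self _
      · exact Ideal.zero_mem _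
    · rw [eis, coeff_add, coeff_X_pow, if_neg (by omega), zero_add, coeff_C_zero,
        Ideal.span_singleton_pow, Ideal.mem_span_singleton]
      rintro ⟨c, hc⟩
      have : (p : WittVector p K) * (1 - p * c) = 0 := by
        linear_combination hc
      rcases mul_eq_zero.1 this with h | h
      · exact p_ne p K h
      · exact hpr.not_isUnit (isUnit_of_dvd_one ⟨c, by linear_combination h⟩)
  · rwa [Ideal.span_singleton_prime hpr.ne_zero]
  · rw [hdeg]; exact hD

/-- the ring -/
abbrev RR : Type := AdjoinRoot (eis p D K)

theorem RR_domain (hD : 0 < D) : IsDomain (RR p D K) := AdjoinRoot.isDomain_of_prime (eis_prime p D K hD)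

/-- the residue map -/
noncomputable def resMap (hD : 0 < D) : RR p D K →+* K :=
  AdjoinRoot.lift (WittVector.constantCoeff (p := p) (R := K)) 0 (by
    rw [eis, eval₂_add, eval₂_X_pow, eval₂_C, zero_pow hD.ne', zero_add, map_natCast,
      CharP.cast_eq_zero])

theorem root_pow : (AdjoinRoot.root (eis p D K)) ^ D = -(p : RR p D K) := by
  have h : eval₂ (AdjoinRoot.of (eis p D K)) (AdjoinRoot.root (eis p D K)) (eis p D K) = 0 :=
    AdjoinRoot.eval₂_root _
  have h1 : eval₂ (AdjoinRoot.of (eis p D K)) (AdjoinRoot.root (eis p D K)) (eis p D K) =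
      (AdjoinRoot.root (eis p D K)) ^ D + (p : RR p D K) := by
    conv_lhs => enter [3]; rw [eis]
    rw [eval₂_add, eval₂_X_pow, eval₂_C, map_natCast]
  rw [h1] at h
  exact eq_neg_of_add_eq_zero_left h

/-- the setup exists -/
noncomputable def setup (d : ℕ) (hd : 0 < d) (h : IsDomain (RR p (d * (p - 1)) K)) :
    Setup p d K (RR p (d * (p - 1)) K) :=
  have hD : 0 < d * (p - 1) := Nat.mul_pos hd (Nat.sub_pos_of_lt hp.out.one_lt)
  { lam := AdjoinRoot.root _
    res := resMap p _ K hD
    tau := ((AdjoinRoot.of (eis p (d * (p - 1)) K)) : WittVector p K →* RR p (d * (p - 1)) K).comp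
      (WittVector.teichmuller p)
    zp := (AdjoinRoot.of (eis p (d * (p - 1)) K)).comp
      ((WittVector.map (ZMod.castHom (dvd_refl p) K)).comp (WittVector.equiv p).symm.toRingHom)
    lam_pow := root_pow p _ K
    lam_ne := by
      intro h0
      have h1 := root_pow p (d * (p - 1)) K
      rw [h0, zero_pow hD.ne'] at h1
      have h2 : (p : RR p (d * (p - 1)) K) = 0 := by
        rw [← neg_eq_zero]; exact h1.symm
      have h3 : AdjoinRoot.of (eis p (d * (p - 1)) K) (p : WittVector p K) = 0 := by
        rw [map_natCast, h2]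
      have hinj := AdjoinRoot.of.injective_of_degree_ne_zero (f := eis p (d * (p - 1)) K) (by
        rw [eis, degree_X_pow_add_C hD]
        exact_mod_cast hD.ne')
      exact p_ne p K (hinj (by rw [h3, map_zero]))
    dvd_of_res := by
      intro x
      induction x using AdjoinRoot.induction_on with
      | ih g =>
        intro hg
        rw [resMap, AdjoinRoot.lift_mk] at hg
        rw [eval₂_at_zero] at hg
        have h1 : (p : WittVector p K) ∣ g.coeff 0 := by
          rw [← Ideal.mem_span_singleton, ← WittVector.ker_constantCoeff]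
          exact hg
        obtain ⟨c, hc⟩ := h1
        have h2 : AdjoinRoot.mk (eis p (d * (p - 1)) K) g =
            AdjoinRoot.root _ * AdjoinRoot.mk _ g.divX + AdjoinRoot.of _ (g.coeff 0) := by
          conv_lhs => rw [← divX_mul_X_add g]
          rw [map_add, map_mul, AdjoinRoot.mk_X, AdjoinRoot.mk_C, mul_comm (AdjoinRoot.mk _ _)]
        rw [h2]
        refine dvd_add (dvd_mul_right _ _) ?_
        rw [hc, map_mul, map_natCast]
        refine Dvd.dvd.mul_right ?_ _
        rw [← dvd_neg, ← root_pow]
        exact dvd_pow_self _ hD.ne'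
    res_lam := by rw [resMap, AdjoinRoot.lift_root]
    res_tau := by
      intro a
      change resMap p _ K hD (AdjoinRoot.of _ (WittVector.teichmuller p a)) = a
      rw [resMap, AdjoinRoot.lift_of]
      exact WittVector.teichmuller_coeff_zero p a
    tau_zero := by
      change AdjoinRoot.of _ (WittVector.teichmuller p 0) = 0
      rw [WittVector.teichmuller_zero, map_zero] }

end Constr

end Pool.Agent.H425
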