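import Pool.Agent.H425.CoreA
import Pool.Agent.H425.RR

set_option autoImplicit false
set_option linter.unusedSectionVars false
set_option linter.unusedVariables false

namespace Pool.Agent.H425

/-- conversion of the sum over residues -/
theorem expSum_zmod (p : ℕ) [Fact p.Prime] {K : Type} [Field K] [Algebra (ZMod p) K] {ι A : Type}
    [CommRing A] (f : MvPolynomial ι K) (a : ℕ) (z : A) :
    ∑ a0 : ZMod p, z ^ a0.val * ((Nat.card {x : ι → K // (∀ i, x i ^ (p ^ a) = x i) ∧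
      ∑ t ∈ Finset.range a, (MvPolynomial.eval x f) ^ (p ^ t) = algebraMap (ZMod p) K a0} : ℕ) : A)
    = expSum p f a z := by
  unfold expSum
  refine Finset.sum_nbij' (fun a0 => a0.val) (fun n => (n : ZMod p)) ?_ ?_ ?_ ?_ ?_
  · intro a0 _
    exact Finset.mem_range.2 (ZMod.val_lt a0)
  · intro a0 _
    exact Finset.mem_univ _
  · intro a0 _
    exact ZMod.natCast_zmod_val a0
  · intro n hn
    exact ZMod.val_cast_of_lt (Finset.mem_range.1 hn)
  · intro a0 _
    have : algebraMap (ZMod p) K a0 = ((a0.val : ℕ) : K) := by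
      conv_lhs => rw [← ZMod.natCast_zmod_val a0]
      rw [map_natCast]
    rw [this]

/-- conversion of the recursion -/
theorem rec_conv {A : Type} [CommRing A] (S : ℕ → A) (c : ℕ → A) (m n : ℕ)
    (h : ∀ r : ℕ, 1 ≤ r → (r : A) * c r =
      (-1) ^ (n - 1) * ∑ j ∈ Finset.Icc 1 r, S (m * j) * c (r - j)) (r : ℕ) :
    ((r + 1 : ℕ) : A) * c (r + 1) =
      (((-1) ^ (n - 1) : ℤ) : A) * ∑ j ∈ Finset.range (r + 1), S (m * (j + 1)) * c (r - j) := by
  rw [h (r + 1) (by omega)]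
  push_cast
  congr 1
  refine Finset.sum_nbij' (fun j => j - 1) (fun j => j + 1) ?_ ?_ ?_ ?_ ?_
  · intro j hj
    rw [Finset.mem_Icc] at hj
    rw [Finset.mem_range]
    omega
  · intro j hj
    rw [Finset.mem_range] at hj
    rw [Finset.mem_Icc]
    omega
  · intro j hj
    rw [Finset.mem_Icc] at hj
    omega
  · intro j hj
    omega
  · intro j hj
    rw [Finset.mem_Icc] at hj
    have h1 : j - 1 + 1 = j := by omega
    have h2 : r - (j - 1) = r + 1 - j := by omega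
    rw [h1, h2]

/-- lower estimate of a chord -/
theorem chord_low (W k i j j0 d m p vi vj : ℕ) (hik : i ≤ k) (hkj : k ≤ j) (hp : 3 < p) (hd : 0 < d)
    (hm : 0 < m) (hvi : (p - 3) * ((W + i * j0) - k * j0) * m ≤ d * vi)
    (hvj : (p - 3) * ((W + j * j0) - k * j0) * m ≤ d * vj) (ε : ℝ) (hε : 0 < ε)
    (hP : 2 * (W : ℝ) < ε * ((p : ℝ) - 1) * d) :
    (((j : ℝ) - i) * ((W : ℝ) / d - ε) < ((j : ℝ) - k) * ((vi : ℝ) / (((p : ℝ) - 1) * m)) +
      ((k : ℝ) - i) * ((vj : ℝ) / (((p : ℝ) - 1) * m))) ∨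
    (i = j ∧ (W : ℝ) / d - ε < (vi : ℝ) / (((p : ℝ) - 1) * m)) := by
  have hp' : (3 : ℝ) < p := by exact_mod_cast hp
  have hp1 : (0 : ℝ) < (p : ℝ) - 1 := by linarith
  have hd' : (0 : ℝ) < d := by exact_mod_cast hd
  have hm' : (0 : ℝ) < m := by exact_mod_cast hm
  have key : ∀ a v : ℕ, (p - 3) * ((W + a * j0) - k * j0) * m ≤ d * v →
      ((p : ℝ) - 3) * ((W : ℝ) + a * j0 - k * j0) / (((p : ℝ) - 1) * d) ≤
        (v : ℝ) / (((p : ℝ) - 1) * m) := by
    intro a v h
    rw [div_le_div_iff₀ (by positivity) (by positivity)]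
    have h1 : ((W : ℝ) + a * j0 - k * j0) ≤ (((W + a * j0) - k * j0 : ℕ) : ℝ) := by
      have : W + a * j0 ≤ ((W + a * j0) - k * j0) + k * j0 := by omega
      have h2 : ((W + a * j0 : ℕ) : ℝ) ≤ ((((W + a * j0) - k * j0) + k * j0 : ℕ) : ℝ) := by
        exact_mod_cast this
      push_cast at h2 ⊢
      linarith
    have h3 : ((p : ℝ) - 3) * (((W + a * j0) - k * j0 : ℕ) : ℝ) * m ≤ d * v := by
      have h4 : (((p - 3) * ((W + a * j0) - k * j0) * m : ℕ) : ℝ) ≤ ((d * v : ℕ) : ℝ) := by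
        exact_mod_cast h
      rw [Nat.cast_mul, Nat.cast_mul, Nat.cast_sub hp.le] at h4
      push_cast at h4 ⊢
      exact h4
    have h5 : ((p : ℝ) - 3) * ((W : ℝ) + a * j0 - k * j0) * m ≤ d * v := by
      refine le_trans ?_ h3
      have : 0 ≤ (p : ℝ) - 3 := by linarith
      gcongr
    calc ((p : ℝ) - 3) * ((W : ℝ) + a * j0 - k * j0) * (((p : ℝ) - 1) * m)
        = (((p : ℝ) - 3) * ((W : ℝ) + a * j0 - k * j0) * m) * ((p : ℝ) - 1) := by ring
      _ ≤ (d * v) * ((p : ℝ) - 1) := by gcongr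
      _ = (v : ℝ) * (((p : ℝ) - 1) * d) := by ring
  have hi := key i vi hvi
  have hj := key j vj hvj
  set νi := (vi : ℝ) / (((p : ℝ) - 1) * m) with hνi
  set νj := (vj : ℝ) / (((p : ℝ) - 1) * m) with hνj
  have hW : (W : ℝ) / d - ε < ((p : ℝ) - 3) * W / (((p : ℝ) - 1) * d) := by
    rw [lt_div_iff₀ (by positivity)]
    have : ((W : ℝ) / d - ε) * (((p : ℝ) - 1) * d) = (p - 1) * W - ε * (p - 1) * d := by
      field_simp
    rw [this]
    linarith
  rcases Nat.eq_or_lt_of_le (hik.trans hkj) with hij | hij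
  · right
    refine ⟨hij, ?_⟩
    have h1 : i = k := by omega
    rw [h1] at hi
    refine lt_of_lt_of_le hW ?_
    refine le_trans (le_of_eq ?_) hi
    congr 1
    ring
  · left
    have hij' : (0 : ℝ) < (j : ℝ) - i := by
      have : (i : ℝ) < j := by exact_mod_cast hij
      linarith
    have hjk' : (0 : ℝ) ≤ (j : ℝ) - k := by
      have : (k : ℝ) ≤ j := by exact_mod_cast hkj
      linarith
    have hki' : (0 : ℝ) ≤ (k : ℝ) - i := by
      have : (i : ℝ) ≤ k := by exact_mod_cast hik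
      linarith
    calc ((j : ℝ) - i) * ((W : ℝ) / d - ε)
        < ((j : ℝ) - i) * (((p : ℝ) - 3) * W / (((p : ℝ) - 1) * d)) := by
          exact mul_lt_mul_of_pos_left hW hij'
      _ = ((j : ℝ) - k) * (((p : ℝ) - 3) * ((W : ℝ) + i * j0 - k * j0) / (((p : ℝ) - 1) * d)) +
          ((k : ℝ) - i) * (((p : ℝ) - 3) * ((W : ℝ) + j * j0 - k * j0) / (((p : ℝ) - 1) * d)) := by
          field_simp
          ring
      _ ≤ ((j : ℝ) - k) * νi + ((k : ℝ) - i) * νj := by
          gcongr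

end Pool.Agent.H425
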