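import Pool.Agent.H425.CoreB3

set_option autoImplicit false
set_option linter.unusedSectionVars false
set_option linter.unusedVariables false

namespace Pool.Agent.H425

/-- upper estimate of a chord -/
theorem chord_up (W Wi Wj k i j j0 d p vi vj B : ℕ) (hik : i ≤ k) (hkj : k ≤ j) (hp : 3 < p)
    (hd : 0 < d) (hvi : d * vi ≤ (p - 1) * Wi + B) (hvj : d * vj ≤ (p - 1) * Wj + B)
    (hWi : W = Wi + (k - i) * j0) (hWj : Wj = W + (j - k) * j0) (ε : ℝ)
    (hP : (B : ℝ) < ε * ((p : ℝ) - 1) * d) :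
    (i < j ∧ ((j : ℝ) - k) * ((vi : ℝ) / (((p : ℝ) - 1) * (1 : ℕ))) +
      ((k : ℝ) - i) * ((vj : ℝ) / (((p : ℝ) - 1) * (1 : ℕ))) < ((j : ℝ) - i) * ((W : ℝ) / d + ε)) ∨
    (i = j ∧ (vi : ℝ) / (((p : ℝ) - 1) * (1 : ℕ)) < (W : ℝ) / d + ε) := by
  have hp' : (3 : ℝ) < p := by exact_mod_cast hp
  have hp1 : (0 : ℝ) < (p : ℝ) - 1 := by linarith
  have hd' : (0 : ℝ) < d := by exact_mod_cast hd
  rw [Nat.cast_one, mul_one]
  have key : ∀ w v : ℕ, d * v ≤ (p - 1) * w + B →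
      (v : ℝ) / ((p : ℝ) - 1) < (w : ℝ) / d + ε := by
    intro w v h
    have h1 : ((d * v : ℕ) : ℝ) ≤ (((p - 1) * w + B : ℕ) : ℝ) := by exact_mod_cast h
    push_cast at h1
    rw [Nat.cast_sub (by omega)] at h1
    push_cast at h1
    rw [div_lt_iff₀ hp1]
    have h2 : ((w : ℝ) / d + ε) * ((p : ℝ) - 1) * d = (p - 1) * w + ε * (p - 1) * d := by
      field_simp
    have h3 : (v : ℝ) * d < ((w : ℝ) / d + ε) * ((p : ℝ) - 1) * d := by
      rw [h2]
      linarith
    exact lt_of_mul_lt_mul_right h3 hd'.le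
  have hi := key Wi vi hvi
  have hj := key Wj vj hvj
  set νi := (vi : ℝ) / ((p : ℝ) - 1) with hνi
  set νj := (vj : ℝ) / ((p : ℝ) - 1) with hνj
  rcases Nat.eq_or_lt_of_le (hik.trans hkj) with hij | hij
  · right
    refine ⟨hij, ?_⟩
    have h1 : i = k := by omega
    have h2 : W = Wi := by
      rw [hWi, h1, Nat.sub_self, zero_mul, add_zero]
    rw [h2]
    exact hi
  · left
    refine ⟨hij, ?_⟩
    have hWi' : (Wi : ℝ) = W - ((k : ℝ) - i) * j0 := by
      have := congrArg (fun x : ℕ => (x : ℝ)) hWi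
      push_cast at this
      rw [Nat.cast_sub hik] at this
      linarith
    have hWj' : (Wj : ℝ) = W + ((j : ℝ) - k) * j0 := by
      have := congrArg (fun x : ℕ => (x : ℝ)) hWj
      push_cast at this
      rw [Nat.cast_sub hkj] at this
      linarith
    have hjk' : (0 : ℝ) ≤ (j : ℝ) - k := by
      have : (k : ℝ) ≤ j := by exact_mod_cast hkj
      linarith
    have hki' : (0 : ℝ) ≤ (k : ℝ) - i := by
      have : (i : ℝ) ≤ k := by exact_mod_cast hik
      linarith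
    have hij' : (0 : ℝ) < ((j : ℝ) - k) + ((k : ℝ) - i) := by
      have : (i : ℝ) < j := by exact_mod_cast hij
      linarith
    have h5 : ((j : ℝ) - i) * ((W : ℝ) / d + ε) =
        ((j : ℝ) - k) * ((Wi : ℝ) / d + ε) + ((k : ℝ) - i) * ((Wj : ℝ) / d + ε) := by
      rw [hWi', hWj']
      field_simp
      ring
    rw [h5]
    rcases hjk'.lt_or_eq with h6 | h6
    · have h7 := mul_lt_mul_of_pos_left hi h6
      have h8 := mul_le_mul_of_nonneg_left hj.le hki'
      linarith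
    · have h7 : 0 < (k : ℝ) - i := by linarith
      have h8 := mul_lt_mul_of_pos_left hj h7
      rw [← h6]
      linarith

/-- **the upper bound half** -/
theorem partB (n d : ℕ) (hn : 1 ≤ n) (hd : 2 ≤ d) (ε : ℝ) (p : ℕ) [hp : Fact p.Prime]
    (hp5 : 5 ≤ p) (hpd : (d - 1) ^ n < p) (hpd2 : 2 * d * (d + 1) ≤ p) (hnd : ¬ p ∣ d)
    (hbig : 2 * ((d - 1) ^ n * (n * (d * d))) + 2 ≤ p)
    (hP : (((d - 1) ^ n * (n * (d * d)) : ℕ) : ℝ) < ε * ((p : ℝ) - 1) * d)
    (F : Type) [Field F] [Algebra ℚ F] [IsCyclotomicExtension {p} ℚ F]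
    (ζ : F) (hζ : IsPrimitiveRoot ζ p) (k : ℕ)
    (T : Finset (Fin n → Fin (d - 1))) (hT : T.card = k)
    (hmin : ∀ T' : Finset (Fin n → Fin (d - 1)), T'.card = k →
       ∑ u ∈ T, ((∑ i, ((u i : ℕ) + 1) : ℕ) : ℝ) / (d : ℝ) ≤
         ∑ u ∈ T', ((∑ i, ((u i : ℕ) + 1) : ℕ) : ℝ) / (d : ℝ)) :
    ∃ (m : ℕ) (f : MvPolynomial (Fin n) (AlgebraicClosure (ZMod p))), 1 ≤ m ∧
      (∀ s, MvPolynomial.coeff s f ^ (p ^ m) = MvPolynomial.coeff s f) ∧
      f.totalDegree = d ∧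
      (∀ x : Fin n → AlgebraicClosure (ZMod p),
          (∀ i, x i * MvPolynomial.eval x
              (MvPolynomial.pderiv i (MvPolynomial.homogeneousComponent d f)) = 0) → x = 0) ∧
      ∀ c : ℕ → F, c 0 = 1 →
      (∀ r : ℕ, 1 ≤ r → (r : F) * c r =
           (-1) ^ (n - 1) * ∑ j ∈ Finset.Icc 1 r, expSum p f (m * j) ζ * c (r - j)) →
      ∃ i j : ℕ, i ≤ k ∧ k ≤ j ∧ j ≤ (d - 1) ^ n ∧ c i ≠ 0 ∧ c j ≠ 0 ∧
        ((i < j ∧
            ((j : ℝ) - k) * ((padicValRat p (Algebra.norm ℚ (c i)) : ℝ) / (((p : ℝ) - 1) * m))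
            + ((k : ℝ) - i) * ((padicValRat p (Algebra.norm ℚ (c j)) : ℝ) / (((p : ℝ) - 1) * m))
              < ((j : ℝ) - i) * (∑ u ∈ T, ((∑ i, ((u i : ℕ) + 1) : ℕ) : ℝ) / (d : ℝ) + ε))
          ∨ (i = j ∧ (padicValRat p (Algebra.norm ℚ (c i)) : ℝ) / (((p : ℝ) - 1) * m) <
               ∑ u ∈ T, ((∑ i, ((u i : ℕ) + 1) : ℕ) : ℝ) / (d : ℝ) + ε)) := by
  have hcharK : CharP (AlgebraicClosure (ZMod p)) p :=
    charP_of_injective_algebraMap (algebraMap (ZMod p) (AlgebraicClosure (ZMod p))).injective p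
  have hdom := Constr.RR_domain p (d * (p - 1)) (AlgebraicClosure (ZMod p))
    (Nat.mul_pos (by omega) (by omega))
  let S := Constr.setup p (AlgebraicClosure (ZMod p)) d (by omega) hdom
  have hne : Nonempty (Fin n) := ⟨⟨0, hn⟩⟩
  refine ⟨1, fd (Fin n) (AlgebraicClosure (ZMod p)) d, le_rfl, coeff_fd_pow _ _ p d 1,
    Setup.totalDegree_fd (Fin n) hd, fun x hx => Setup.smooth_fd (p := p) (Fin n) hd hnd x hx, ?_⟩
  intro c hc0 hc
  have hmin' := min_nat hd T hT hmin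
  obtain ⟨j0, h1, h2⟩ := exists_threshold wt T hmin'
  have hcB := fun j hj => S.coreB hp5 hd hpd2 hnd n hn hbig ζ hζ c hc0 (by
    intro r
    have := rec_conv (fun a => expSum p (fd (Fin n) (AlgebraicClosure (ZMod p)) d) a ζ) c 1 n hc r
    simpa only [one_mul] using this) j hj
  have hcard : ∀ s : Finset (Fin n → Fin (d - 1)), s.card ≤ (d - 1) ^ n := by
    intro s
    have := Finset.card_le_univ s
    simpa using this
  have hcB' : ∀ j, c (below n (d - 1) j).card ≠ 0 ∧ ∃ v : ℕ,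
      padicValRat p (Algebra.norm ℚ (c (below n (d - 1) j).card)) = v ∧
      d * v ≤ (p - 1) * (∑ u ∈ below n (d - 1) j, wt u) + (d - 1) ^ n * (n * (d * d)) := by
    intro j
    obtain ⟨g1, v, g2, g3⟩ := hcB j (by
      have := hcard (below n (d - 1) j)
      omega)
    refine ⟨g1, v, g2, ?_⟩
    have e1 : ∑ u ∈ below n (d - 1) j, ∑ i, ((p - 1) * ((u i : ℕ) + 1) +
          (d - 1) * (p * ((u i : ℕ) + 1) % d)) = (p - 1) * (∑ u ∈ below n (d - 1) j, wt u) +
        ∑ u ∈ below n (d - 1) j, ∑ i, (d - 1) * (p * ((u i : ℕ) + 1) % d) := by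
      rw [Finset.mul_sum, ← Finset.sum_add_distrib]
      refine Finset.sum_congr rfl fun u _ => ?_
      rw [Finset.sum_add_distrib, wt, Finset.mul_sum]
    have e2 : ∑ u ∈ below n (d - 1) j, ∑ i, (d - 1) * (p * ((u i : ℕ) + 1) % d) ≤
        (d - 1) ^ n * (n * (d * d)) := by
      apply Setup.sum_le_all
      intro u
      have h3 : ∀ i ∈ (Finset.univ : Finset (Fin n)), (d - 1) * (p * ((u i : ℕ) + 1) % d) ≤ d * d := by
        intro i _
        exact Nat.mul_le_mul (by omega) (Nat.mod_lt _ (by omega)).le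
      have := Finset.sum_le_card_nsmul _ _ _ h3
      rw [Finset.card_univ, Fintype.card_fin, smul_eq_mul] at this
      exact this
    omega
  obtain ⟨hci, vi, hvi, hvi2⟩ := hcB' j0
  obtain ⟨hcj, vj, hvj, hvj2⟩ := hcB' (j0 + 1)
  have hsub1 : below n (d - 1) j0 ⊆ T := by
    intro u hu
    rw [mem_below] at hu
    by_contra hcon
    have := h2 u hcon
    omega
  have hsub2 : T ⊆ below n (d - 1) (j0 + 1) := by
    intro u hu
    rw [mem_below]
    have := h1 u hu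
    omega
  have hik := Finset.card_le_card hsub1
  have hkj := Finset.card_le_card hsub2
  rw [hT] at hik hkj
  have hW1 : ∑ u ∈ T, wt u = ∑ u ∈ below n (d - 1) j0, wt u +
      (k - (below n (d - 1) j0).card) * j0 := by
    rw [← Finset.sum_sdiff hsub1, add_comm, ← hT, ← Finset.card_sdiff_of_subset hsub1,
      ← smul_eq_mul, ← Finset.sum_const]
    congr 1
    refine Finset.sum_congr rfl fun u hu => ?_
    rw [Finset.mem_sdiff, mem_below] at hu
    have := h1 u hu.1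
    omega
  have hW2 : ∑ u ∈ below n (d - 1) (j0 + 1), wt u = ∑ u ∈ T, wt u +
      ((below n (d - 1) (j0 + 1)).card - k) * j0 := by
    rw [← Finset.sum_sdiff hsub2, add_comm, ← hT, ← Finset.card_sdiff_of_subset hsub2,
      ← smul_eq_mul, ← Finset.sum_const]
    congr 1
    refine Finset.sum_congr rfl fun u hu => ?_
    rw [Finset.mem_sdiff, mem_below] at hu
    have := h2 u hu.2
    omega
  refine ⟨(below n (d - 1) j0).card, (below n (d - 1) (j0 + 1)).card, hik, hkj, hcard _, hci, hcj, ?_⟩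
  rw [sum_div, hvi, hvj]
  have := chord_up (∑ u ∈ T, wt u) _ _ k _ _ j0 d p vi vj _ hik hkj (by omega) (by omega)
    hvi2 hvj2 hW1 hW2 ε hP
  simpa using this

end Pool.Agent.H425
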