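import Pool.Agent.H425.Ker
import Pool.Agent.H425.YB2

set_option autoImplicit false
set_option linter.unusedSectionVars false
set_option linter.unusedVariables false

namespace Pool.Agent.H425

open MvPolynomial

namespace Setup

variable {p d : ℕ} [hp : Fact p.Prime] {K R : Type} [Field K] [CommRing R] [IsDomain R]
  (S : Setup p d K R) {ι : Type} [Fintype ι] [DecidableEq ι]

/-- kernel modulo `λ ^ N` -/
noncomputable def kb (N : ℕ) (supp : Finset (ι →₀ ℕ)) (c : (ι →₀ ℕ) → R) (V U : ι →₀ ℕ) : S.Q N :=
  S.rd N (S.ker supp c V U)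

/-- Dwork operator in the weighted lattice, with shift -/
noncomputable def al (N : ℕ) (supp : Finset (ι →₀ ℕ)) (c : (ι →₀ ℕ) → R) (κ : S.Q N)
    (δ : ι →₀ ℕ) : MvPolynomial ι (S.Q N) →ₗ[S.Q N] MvPolynomial ι (S.Q N) :=
  (basisMonomials ι (S.Q N)).constr (S.Q N)
    (fun u => ∑ v ∈ DD ι N, monomial v (κ * S.kb N supp c (v + δ) (u + δ)))

theorem coeff_al (hp4 : 4 ≤ p) (N : ℕ) (supp : Finset (ι →₀ ℕ)) (c : (ι →₀ ℕ) → R)
    (h0 : 0 ∉ supp) (hd : ∀ s ∈ supp, s.degree ≤ d) (κ : S.Q N)
    (δ u v : ι →₀ ℕ) (r : S.Q N) : coeff v (S.al N supp c κ δ (monomial u r)) =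
      κ * S.kb N supp c (v + δ) (u + δ) * r := by
  have h1 : S.al N supp c κ δ (monomial u 1) =
      ∑ v ∈ DD ι N, monomial v (κ * S.kb N supp c (v + δ) (u + δ)) := by
    have := (basisMonomials ι (S.Q N)).constr_basis (S.Q N)
      (fun u => ∑ v ∈ DD ι N, monomial v (κ * S.kb N supp c (v + δ) (u + δ))) u
    rw [coe_basisMonomials] at this
    exact this
  have h2 : (monomial u r : MvPolynomial ι (S.Q N)) = r • monomial u (1 : S.Q N) := by
    rw [smul_monomial, smul_eq_mul, mul_one]
  rw [h2, map_smul, coeff_smul, h1, coeff_sum, smul_eq_mul, mul_comm r]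
  congr 1
  simp only [coeff_monomial]
  rw [Finset.sum_ite_eq']
  split_ifs with h
  · rfl
  · rw [mem_DD, not_le] at h
    have h3 : S.kb N supp c (v + δ) (u + δ) = 0 := by
      rw [kb, rd_eq_zero]
      refine (pow_dvd_pow _ ?_).trans (S.ker_spec (by omega) supp c h0 hd (v + δ) (u + δ)).1
      rw [map_add]
      have : 1 ≤ p - 3 := by omega
      calc N ≤ 1 * (v.degree + δ.degree) := by omega
        _ ≤ _ := Nat.mul_le_mul_right _ this
    rw [h3, mul_zero]

/-- the polynomial `H` -/
noncomputable def Hh (N : ℕ) (supp : Finset (ι →₀ ℕ)) (c : (ι →₀ ℕ) → R) :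
    MvPolynomial ι (S.Q N) :=
  ∑ s ∈ supp, monomial s (S.rd N (c s * S.lam ^ (d - s.degree)))

theorem single_add_sub {ι : Type} (i : ι) (u δ : ι →₀ ℕ) (h : u i ≠ 0) :
    u - Finsupp.single i 1 + (δ + Finsupp.single i 1) = u + δ := by
  classical
  have h1 : Finsupp.single i 1 ≤ u := by
    rw [Finsupp.single_le_iff]
    omega
  rw [add_comm δ, ← add_assoc, tsub_add_cancel_of_le h1]

theorem kb_core (hp4 : 4 ≤ p) (N : ℕ) (supp : Finset (ι →₀ ℕ)) (c : (ι →₀ ℕ) → R)
    (h0 : 0 ∉ supp) (hd : ∀ s ∈ supp, s.degree ≤ d) (i : ι) (V U : ι →₀ ℕ) :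
    (U i : S.Q N) * S.kb N supp c V U +
      ∑ s ∈ supp, (s i : S.Q N) * S.rd N (c s * S.lam ^ (d - s.degree)) * S.kb N supp c V (U + s) =
    (p : S.Q N) * ((V i : S.Q N) * S.kb N supp c V U) +
      (p : S.Q N) * ∑ s ∈ supp, (s i : S.Q N) * S.rd N (c s ^ p * S.lam ^ (d - s.degree)) *
        (if s ≤ V then S.kb N supp c (V - s) U else 0) := by
  have h := congrArg (S.rd N) (S.ker_core (by omega) supp c h0 hd i V U)
  simp only [map_add, map_mul, map_sum, map_natCast] at h
  unfold kb
  simp only [map_mul]
  rw [h]
  congr 2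
  refine Finset.sum_congr rfl fun s _ => ?_
  split_ifs <;> simp

/-- the commutation relation -/
theorem al_comm (hp4 : 4 ≤ p) (N : ℕ) (supp : Finset (ι →₀ ℕ)) (c : (ι →₀ ℕ) → R)
    (h0 : 0 ∉ supp) (hd : ∀ s ∈ supp, s.degree ≤ d) (κ : S.Q N)
    (δ : ι →₀ ℕ) (i : ι) (hδ : ∀ j, δ j ≤ 1) (hi : δ i = 0) (P : MvPolynomial ι (S.Q N)) :
    S.al N supp c κ (δ + Finsupp.single i 1) (yop (S.Hh N supp c) i P) =
      (p : S.Q N) • yop (S.Hh N supp (fun s => c s ^ p)) i (S.al N supp c κ δ P) := by
  have hlin : (S.al N supp c κ (δ + Finsupp.single i 1)) ∘ₗ (yop (S.Hh N supp c) i) =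
      (p : S.Q N) • ((yop (S.Hh N supp (fun s => c s ^ p)) i) ∘ₗ (S.al N supp c κ δ)) := by
    refine linmap_ext fun u => ?_
    rw [LinearMap.comp_apply, LinearMap.smul_apply, LinearMap.comp_apply]
    ext v
    set V := v + (δ + Finsupp.single i 1) with hV
    set U := u + δ with hU
    have hUi : U i = u i := by rw [hU, Finsupp.add_apply, hi, add_zero]
    have hVi : V i = v i + 1 := by
      rw [hV, Finsupp.add_apply, Finsupp.add_apply, hi, Finsupp.single_eq_same]
    have hcore := S.kb_core hp4 N supp c h0 hd i V U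
    rw [hUi, hVi] at hcore
    -- left hand side
    have hL : coeff v (S.al N supp c κ (δ + Finsupp.single i 1) (yop (S.Hh N supp c) i (monomial u 1))) =
        κ * ((u i : S.Q N) * S.kb N supp c V U) + κ * ∑ s ∈ supp, (s i : S.Q N) *
          S.rd N (c s * S.lam ^ (d - s.degree)) * S.kb N supp c V (U + s) := by
      rw [yop_apply, map_add, coeff_add, pderiv_monomial, S.coeff_al hp4 N supp c h0 hd]
      congr 1
      · by_cases h : u i = 0
        · rw [h]; simp
        · rw [single_add_sub i u δ h]
          ring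
      · rw [Hh, map_sum, Finset.sum_mul, map_sum, coeff_sum, Finset.mul_sum]
        refine Finset.sum_congr rfl fun s _ => ?_
        rw [pderiv_monomial, monomial_mul, S.coeff_al hp4 N supp c h0 hd]
        by_cases h : s i = 0
        · rw [h]; simp
        · have e1 : s - Finsupp.single i 1 + u + (δ + Finsupp.single i 1) = U + s := by
            have h1 : Finsupp.single i 1 ≤ s := by
              rw [Finsupp.single_le_iff]; omega
            have h2 : ∀ y x u δ : ι →₀ ℕ, y + u + (δ + x) = (y + x) + u + δ := by
              intros; abel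
            rw [hU, h2, tsub_add_cancel_of_le h1]
            abel
          rw [e1]
          ring
    -- right hand side
    have hR : coeff v ((p : S.Q N) • yop (S.Hh N supp (fun s => c s ^ p)) i
          (S.al N supp c κ δ (monomial u 1))) =
        κ * ((p : S.Q N) * (((v i + 1 : ℕ) : S.Q N) * S.kb N supp c V U)) +
        κ * ((p : S.Q N) * ∑ s ∈ supp, (s i : S.Q N) * S.rd N (c s ^ p * S.lam ^ (d - s.degree)) *
        (if s ≤ V then S.kb N supp c (V - s) U else 0)) := by
      rw [coeff_smul, smul_eq_mul, yop_apply, coeff_add, mul_add]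
      congr 1
      · rw [coeff_pderiv, S.coeff_al hp4 N supp c h0 hd]
        have e1 : v + Finsupp.single i 1 + δ = V := by rw [hV]; abel
        rw [e1]
        push_cast
        ring
      · rw [Hh, map_sum, Finset.sum_mul, coeff_sum, ← mul_assoc, mul_comm κ, mul_assoc]
        congr 1
        rw [Finset.mul_sum]
        refine Finset.sum_congr rfl fun s _ => ?_
        rw [pderiv_monomial, coeff_monomial_mul']
        by_cases h : s i = 0
        · rw [h]; simp
        · have h1 : Finsupp.single i 1 ≤ s := by
            rw [Finsupp.single_le_iff]; omega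
          have e2 : s - Finsupp.single i 1 ≤ v ↔ s ≤ v + Finsupp.single i 1 := tsub_le_iff_right
          have e3 : s ≤ v + Finsupp.single i 1 → v - (s - Finsupp.single i 1) + δ = V - s := by
            intro hs
            ext j
            have h2 := hs j
            have h3 := h1 j
            simp only [hV, Finsupp.add_apply, Finsupp.tsub_apply] at h2 h3 ⊢
            omega
          by_cases h2 : s ≤ v + Finsupp.single i 1
          · have h3 : s ≤ V := h2.trans (by
              rw [hV]
              intro j
              simp only [Finsupp.add_apply]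
              omega)
            rw [if_pos (e2.2 h2), if_pos h3, S.coeff_al hp4 N supp c h0 hd, e3 h2]
            ring
          · rw [if_neg (fun h => h2 (e2.1 h))]
            split_ifs with h3
            · have h4 : S.kb N supp c (V - s) U = 0 := by
                rw [kb, S.ker_eq_zero (by omega) supp c h0 hd, map_zero]
                intro hle
                apply h2
                intro j
                have g1 := hle j
                have g2 := h3 j
                have g3 := hδ j
                by_contra hj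
                simp only [hV, hU, Finsupp.add_apply, Finsupp.tsub_apply, Finsupp.smul_apply,
                  smul_eq_mul] at g1 g2 hj
                have g4 : v j + (δ j + (Finsupp.single i 1) j) - s j = 0 := by omega
                rw [g4, mul_zero] at g1
                omega
              rw [h4]; ring
            · ring
    rw [hL, hR, ← mul_add, hcore, mul_add]
  have := LinearMap.congr_fun hlin P
  rwa [LinearMap.comp_apply, LinearMap.smul_apply, LinearMap.comp_apply] at this

end Setup

end Pool.Agent.H425
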