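import Pool.Agent.H425.CharSum
import Pool.Agent.H425.Op

set_option autoImplicit false
set_option linter.unusedSectionVars false
set_option linter.unusedVariables false

namespace Pool.Agent.H425

open MvPolynomial

/-- elements fixed by Frobenius are integers modulo `p` -/
theorem exists_nat_of_fixed (p : ℕ) [hp : Fact p.Prime] {K : Type} [Field K] [CharP K p] (x : K)
    (hx : x ^ p = x) : ∃ c : ℕ, x = (c : K) := by
  classical
  let P : Polynomial K := Polynomial.X ^ p - Polynomial.X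
  have hdeg : P.natDegree = p := FiniteField.X_pow_card_sub_X_natDegree_eq K hp.out.one_lt
  have hP0 : P ≠ 0 := FiniteField.X_pow_card_sub_X_ne_zero K hp.out.one_lt
  let T : Finset K := (Finset.range p).image (fun c : ℕ => (c : K))
  have hTcard : T.card = p := by
    rw [Finset.card_image_of_injOn, Finset.card_range]
    intro a ha b hb h
    simp only [Finset.coe_range, Set.mem_Iio] at ha hb
    have h1 := (CharP.natCast_eq_natCast K p).1 h
    rwa [Nat.ModEq, Nat.mod_eq_of_lt ha, Nat.mod_eq_of_lt hb] at h1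
  have hTsub : T ⊆ P.roots.toFinset := by
    intro y hy
    rw [Finset.mem_image] at hy
    obtain ⟨c, _, rfl⟩ := hy
    rw [Multiset.mem_toFinset, Polynomial.mem_roots hP0, Polynomial.IsRoot, Polynomial.eval_sub,
      Polynomial.eval_pow, Polynomial.eval_X, sub_eq_zero]
    have := (map_natCast (frobenius K p) c)
    rwa [frobenius_def] at this
  have hEq : T = P.roots.toFinset := by
    refine Finset.eq_of_subset_of_card_le hTsub ?_
    rw [hTcard]
    refine (Multiset.toFinset_card_le _).trans ?_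
    rw [← hdeg]
    exact P.card_roots'
  have hxm : x ∈ P.roots.toFinset := by
    rw [Multiset.mem_toFinset, Polynomial.mem_roots hP0, Polynomial.IsRoot, Polynomial.eval_sub,
      Polynomial.eval_pow, Polynomial.eval_X, hx, sub_self]
  rw [← hEq, Finset.mem_image] at hxm
  obtain ⟨c, _, hc⟩ := hxm
  exact ⟨c, hc.symm⟩

/-- the trace of an element of the field with `p ^ a` elements is an integer modulo `p` -/
theorem exists_nat_trace (p : ℕ) [hp : Fact p.Prime] {K : Type} [Field K] [CharP K p] (y : K) (a : ℕ)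
    (hy : y ^ (p ^ a) = y) : ∃ c : ℕ, ∑ t ∈ Finset.range a, y ^ (p ^ t) = (c : K) := by
  apply exists_nat_of_fixed p
  have h1 := sum_pow_char p (Finset.range a) (fun t => y ^ (p ^ t))
  rw [h1]
  have h2 : ∀ t, (y ^ (p ^ t)) ^ p = y ^ (p ^ (t + 1)) := by
    intro t; rw [← pow_mul, ← pow_succ]
  simp only [h2]
  have h3 := Finset.sum_range_succ (fun t => y ^ (p ^ t)) a
  rw [Finset.sum_range_succ', hy, pow_zero, pow_one] at h3
  exact add_right_cancel h3

namespace Setup

variable {p d : ℕ} [hp : Fact p.Prime] {K R : Type} [Field K] [CommRing R] [IsDomain R]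
  (S : Setup p d K R) {ι : Type} [Fintype ι] [DecidableEq ι]

/-- the polynomial `θ (c x ^ s)` modulo `λ ^ N` -/
noncomputable def fs (N : ℕ) (s : ι →₀ ℕ) (c : R) : MvPolynomial ι (S.Q N) :=
  Polynomial.aeval (monomial s (S.rd N c)) (S.thp N)

theorem coe_fs (hp3 : 3 ≤ p) (hd : 1 ≤ d) (N : ℕ) (s : ι →₀ ℕ) (hs : s ≠ 0) (c : R) :
    ((S.fs N s c : MvPolynomial ι (S.Q N)) : MvPowerSeries ι (S.Q N)) =
      MvPowerSeries.map (S.rd N) (S.Fs s c) := by
  ext w
  rw [MvPolynomial.coeff_coe, MvPowerSeries.coeff_map, fs, thp, map_sum, coeff_sum]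
  have h1 : ∀ j, coeff w (Polynomial.aeval (monomial s (S.rd N c))
      (Polynomial.monomial j (S.rd N (S.th j)))) =
      if j • s = w then S.rd N (S.th j * c ^ j) else 0 := by
    intro j
    rw [Polynomial.aeval_monomial, monomial_pow, algebraMap_eq, coeff_C_mul, coeff_monomial, mul_ite,
      mul_zero, map_mul, map_pow]
  simp only [h1]
  by_cases hw : ∃ j : ℕ, j • s = w
  · obtain ⟨j, rfl⟩ := hw
    rw [S.coeff_Fs s hs]
    by_cases hj : j < 3 * N + 3
    · rw [Finset.sum_eq_single j]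
      · rw [if_pos rfl]
      · intro b _ hb
        rw [if_neg]
        intro h
        exact hb (smul_inj hs h)
      · intro h
        exact absurd (Finset.mem_range.2 hj) h
    · rw [Finset.sum_eq_zero]
      · rw [map_mul, S.th_vanish hp3 hd N j (by omega), zero_mul]
      · intro b hb
        rw [Finset.mem_range] at hb
        rw [if_neg]
        intro h
        have := smul_inj hs h
        omega
  · push Not at hw
    rw [S.coeff_Fs_ne s c w hw, map_zero]
    refine Finset.sum_eq_zero fun j _ => ?_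
    rw [if_neg (hw j)]

/-- the polynomial version of the product -/
noncomputable def Fpoly (N : ℕ) (supp : Finset (ι →₀ ℕ)) (c : (ι →₀ ℕ) → R) (c0 : R) :
    MvPolynomial ι (S.Q N) :=
  C ((S.thp N).eval (S.rd N c0)) * ∏ s ∈ supp, S.fs N s (c s)

theorem coeff_Fpoly (hp3 : 3 ≤ p) (hd : 1 ≤ d) (N : ℕ) (supp : Finset (ι →₀ ℕ))
    (c : (ι →₀ ℕ) → R) (c0 : R) (h0 : 0 ∉ supp) (w : ι →₀ ℕ) :
    coeff w (S.Fpoly N supp c c0) =
      (S.thp N).eval (S.rd N c0) * S.rd N (MvPowerSeries.coeff w (S.FF supp c)) := by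
  rw [Fpoly, coeff_C_mul]
  congr 1
  have h1 : ((∏ s ∈ supp, S.fs N s (c s) : MvPolynomial ι (S.Q N)) : MvPowerSeries ι (S.Q N)) =
      MvPowerSeries.map (S.rd N) (S.FF supp c) := by
    rw [← coeToMvPowerSeries.ringHom_apply, map_prod, FF, map_prod]
    refine Finset.prod_congr rfl fun s hs => ?_
    rw [coeToMvPowerSeries.ringHom_apply]
    exact S.coe_fs hp3 hd N s (fun h => h0 (h ▸ hs)) (c s)
  rw [← MvPolynomial.coeff_coe, h1, MvPowerSeries.coeff_map]

theorem Fpoly_mem (hp3 : 3 ≤ p) (hd : 1 ≤ d) (N : ℕ) (supp : Finset (ι →₀ ℕ))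
    (c : (ι →₀ ℕ) → R) (c0 : R) (h0 : 0 ∉ supp) (hsd : ∀ s ∈ supp, s.degree ≤ d) :
    S.Fpoly N supp c c0 ∈ VV ι (S.Q N) (3 * N) := by
  intro w hw
  rw [S.coeff_Fpoly hp3 hd N supp c c0 h0]
  have h1 : S.rd N (MvPowerSeries.coeff w (S.FF supp c)) = 0 := by
    rw [rd_eq_zero]
    refine (pow_dvd_pow _ ?_).trans (S.Grw_FF supp c h0 hsd w)
    have := ce_ge hp3 w.degree
    omega
  rw [h1, mul_zero]

theorem eval_fs (N : ℕ) (s : ι →₀ ℕ) (c : R) (x : ι → S.Q N) :
    eval x (S.fs N s c) = (S.thp N).eval (S.rd N c * ∏ i, x i ^ s i) := by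
  rw [fs, Polynomial.aeval_def, Polynomial.hom_eval₂, eval_monomial,
    Finsupp.prod_fintype _ _ (fun _ => pow_zero _)]
  have : (eval x).comp (algebraMap (S.Q N) (MvPolynomial ι (S.Q N))) = RingHom.id _ := by
    ext; simp
  rw [this]
  rfl

theorem eval_Fpoly (N : ℕ) (supp : Finset (ι →₀ ℕ)) (c : (ι →₀ ℕ) → R) (c0 : R) (x : ι → S.Q N) :
    eval x (S.Fpoly N supp c c0) = (S.thp N).eval (S.rd N c0) *
      ∏ s ∈ supp, (S.thp N).eval (S.rd N (c s) * ∏ i, x i ^ s i) := by
  rw [Fpoly, map_mul, eval_C, map_prod]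
  simp only [eval_fs]

/-- Teichmüller coefficients -/
noncomputable def tc (f : MvPolynomial ι K) (t : ℕ) (s : ι →₀ ℕ) : R := S.tau (coeff s f) ^ (p ^ t)

/-- the support without the origin -/
noncomputable def su (f : MvPolynomial ι K) : Finset (ι →₀ ℕ) := f.support.erase 0

theorem char_poly_identity [CharP K p] (hp5 : 5 ≤ p) (hd : 1 ≤ d) (N a : ℕ) (f : MvPolynomial ι K)
    (hf : ∀ s, coeff s f ^ (p ^ a) = coeff s f) (x : ι → K) (hx : ∀ i, x i ^ (p ^ a) = x i)
    (c : ℕ) (hc : ∑ t ∈ Finset.range a, (eval x f) ^ (p ^ t) = (c : K)) :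
    ∏ t ∈ Finset.range a, eval (fun i => S.rd N (S.tau (x i)) ^ (p ^ t))
      (S.Fpoly N (su f) (S.tc f t) (S.tc f t 0)) = S.zet N ^ c := by
  classical
  have hp3 : 3 ≤ p := by omega
  let y : (ι →₀ ℕ) → K := fun s => coeff s f * ∏ i, x i ^ s i
  have hy : ∀ s, y s ^ (p ^ a) = y s := by
    intro s
    simp only [y]
    rw [mul_pow, hf, ← Finset.prod_pow]
    congr 1
    refine Finset.prod_congr rfl fun i _ => ?_
    rw [← pow_mul, mul_comm, pow_mul, hx]
  have h0 : (0 : ι →₀ ℕ) ∉ su f := Finset.notMem_erase _ _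
  have h1 : ∀ t, eval (fun i => S.rd N (S.tau (x i)) ^ (p ^ t))
      (S.Fpoly N (su f) (S.tc f t) (S.tc f t 0)) =
      ∏ s ∈ insert 0 (su f), (S.thp N).eval (S.rd N (S.tau (y s)) ^ (p ^ t)) := by
    intro t
    rw [eval_Fpoly, Finset.prod_insert h0]
    congr 1
    · simp only [y, tc]
      congr 1
      rw [map_pow]
      simp
    · refine Finset.prod_congr rfl fun s _ => ?_
      congr 1
      simp only [y, tc]
      rw [map_pow, map_mul, map_mul, map_prod, map_prod, mul_pow, ← Finset.prod_pow]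
      congr 1
      refine Finset.prod_congr rfl fun i _ => ?_
      rw [map_pow, map_pow, ← pow_mul, ← pow_mul, mul_comm]
  simp only [h1]
  rw [Finset.prod_comm]
  choose cs hcs using fun s => exists_nat_trace p (y s) a (hy s)
  have h2 : ∀ s ∈ insert 0 (su f), ∏ t ∈ Finset.range a, (S.thp N).eval (S.rd N (S.tau (y s)) ^ (p ^ t)) =
      S.zet N ^ cs s := fun s _ => S.char_identity hp5 hd N a (y s) (hy s) (cs s) (hcs s)
  rw [Finset.prod_congr rfl h2, Finset.prod_pow_eq_pow_sum]
  -- compare exponents modulo `p`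
  have h3 : eval x f = ∑ s ∈ insert 0 (su f), y s := by
    rw [eval_eq']
    refine Finset.sum_subset ?_ ?_
    · intro s hs
      rw [Finset.mem_insert, su, Finset.mem_erase]
      by_cases h : s = 0
      · exact Or.inl h
      · exact Or.inr ⟨h, hs⟩
    · intro s _ hs
      rw [notMem_support_iff] at hs
      simp only [hs, zero_mul]
  have h4 : ((∑ s ∈ insert 0 (su f), cs s : ℕ) : K) = (c : K) := by
    rw [← hc, h3, Nat.cast_sum]
    have h5 : ∀ t, (∑ s ∈ insert 0 (su f), y s) ^ (p ^ t) = ∑ s ∈ insert 0 (su f), y s ^ (p ^ t) :=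
      fun t => sum_pow_char_pow p t _ _
    simp only [h5]
    rw [Finset.sum_comm]
    exact Finset.sum_congr rfl fun s _ => (hcs s).symm
  have h5 := (CharP.natCast_eq_natCast K p).1 h4
  have h6 : ∀ n m : ℕ, n ≡ m [MOD p] → S.zet N ^ n = S.zet N ^ m := by
    intro n m h
    have hz := S.zet_pow hp3 hd N
    rw [← Nat.div_add_mod n p, ← Nat.div_add_mod m p, pow_add, pow_add, pow_mul, pow_mul, hz,
      one_pow, one_pow]
    rw [show n % p = m % p from h]
  exact h6 _ _ h5

end Setup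

end Pool.Agent.H425
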