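import Pool.Agent.H425.Frob

set_option autoImplicit false
set_option linter.unusedSectionVars false
set_option linter.unusedVariables false

namespace Pool.Agent.H425

open AH

namespace Setup

variable {p d : ℕ} [hp : Fact p.Prime] {K R : Type} [Field K] [CommRing R] [IsDomain R]
  (S : Setup p d K R) {ι : Type}

/-- raw kernel -/
noncomputable def Gk (supp : Finset (ι →₀ ℕ)) (c : (ι →₀ ℕ) → R) (V U : ι →₀ ℕ) : R :=
  open Classical in if U ≤ p • V then MvPowerSeries.coeff (p • V - U) (S.FF supp c) else 0

/-- rescaled kernel -/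
noncomputable def ker (supp : Finset (ι →₀ ℕ)) (c : (ι →₀ ℕ) → R) (V U : ι →₀ ℕ) : R :=
  open Classical in if h : ∃ a : R, S.lam ^ ((p - 3) * V.degree) ∣ a ∧
    S.lam ^ V.degree * a = S.lam ^ U.degree * S.Gk supp c V U then h.choose else 0

theorem ker_spec (hp3 : 3 ≤ p) (supp : Finset (ι →₀ ℕ)) (c : (ι →₀ ℕ) → R)
    (h0 : 0 ∉ supp) (hd : ∀ s ∈ supp, s.degree ≤ d) (V U : ι →₀ ℕ) :
    S.lam ^ ((p - 3) * V.degree) ∣ S.ker supp c V U ∧
    S.lam ^ V.degree * S.ker supp c V U = S.lam ^ U.degree * S.Gk supp c V U := by
  classical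
  have h : ∃ a : R, S.lam ^ ((p - 3) * V.degree) ∣ a ∧
      S.lam ^ V.degree * a = S.lam ^ U.degree * S.Gk supp c V U := by
    unfold Gk
    split_ifs with hU
    · obtain ⟨q, hq⟩ := S.Grw_FF supp c h0 hd (p • V - U)
      set w := p • V - U with hw
      have hdeg : w.degree + U.degree = p * V.degree := by
        rw [hw, ← map_add, tsub_add_cancel_of_le hU, map_nsmul, smul_eq_mul]
      have h1 : 2 * w.degree / p ≤ 2 * V.degree := by
        refine Nat.div_le_of_le_mul ?_
        nlinarith
      have h3 : (p - 3) * V.degree + 3 * V.degree = p * V.degree := by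
        rw [← add_mul, Nat.sub_add_cancel hp3]
      have h2 : (p - 3) * V.degree + V.degree ≤ U.degree + ce p w.degree := by
        unfold ce
        have h4 : 2 * w.degree / p ≤ w.degree := by
          refine Nat.div_le_of_le_mul ?_
          nlinarith
        omega
      refine ⟨S.lam ^ (U.degree + ce p w.degree - V.degree) * q, ?_, ?_⟩
      · exact Dvd.dvd.mul_right (pow_dvd_pow _ (by omega)) _
      · rw [hq, ← mul_assoc, ← mul_assoc, ← pow_add, ← pow_add]
        congr 2
        omega
    · exact ⟨0, dvd_zero _, by simp⟩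
  rw [ker, dif_pos h]
  exact h.choose_spec

theorem ker_eq_zero (hp3 : 3 ≤ p) (supp : Finset (ι →₀ ℕ)) (c : (ι →₀ ℕ) → R)
    (h0 : 0 ∉ supp) (hd : ∀ s ∈ supp, s.degree ≤ d) (V U : ι →₀ ℕ) (h : ¬ U ≤ p • V) :
    S.ker supp c V U = 0 := by
  have h1 := (S.ker_spec hp3 supp c h0 hd V U).2
  rw [Gk, if_neg h, mul_zero] at h1
  rcases mul_eq_zero.1 h1 with h2 | h2
  · exact absurd h2 (pow_ne_zero _ S.lam_ne)
  · exact h2

/-- the core commutation identity -/
theorem ker_core [DecidableEq ι] (hp3 : 3 ≤ p) (supp : Finset (ι →₀ ℕ)) (c : (ι →₀ ℕ) → R)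
    (h0 : 0 ∉ supp) (hd : ∀ s ∈ supp, s.degree ≤ d) (i : ι) (V U : ι →₀ ℕ) :
    (U i : R) * S.ker supp c V U +
      ∑ s ∈ supp, (s i : R) * (c s * S.lam ^ (d - s.degree)) * S.ker supp c V (U + s) =
    (p : R) * ((V i : R) * S.ker supp c V U) +
      (p : R) * ∑ s ∈ supp, (s i : R) * (c s ^ p * S.lam ^ (d - s.degree)) *
        (if s ≤ V then S.ker supp c (V - s) U else 0) := by
  classical
  apply mul_left_cancel₀ (pow_ne_zero V.degree S.lam_ne)
  have hk := fun V U => (S.ker_spec hp3 supp c h0 hd V U).2
  set G := S.Gk supp c with hG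
  have hA : S.lam ^ V.degree * ∑ s ∈ supp, (s i : R) * (c s * S.lam ^ (d - s.degree)) *
      S.ker supp c V (U + s) = S.lam ^ U.degree * ∑ s ∈ supp, (s i : R) * S.pi * c s * G V (U + s) := by
    rw [Finset.mul_sum, Finset.mul_sum]
    refine Finset.sum_congr rfl fun s hs => ?_
    have h1 := hk V (U + s)
    have h2 : S.lam ^ (d - s.degree) * S.lam ^ (U + s).degree = S.lam ^ U.degree * S.pi := by
      rw [pi, ← pow_add, ← pow_add, map_add]
      congr 1
      have := hd s hs
      omega
    calc S.lam ^ V.degree * ((s i : R) * (c s * S.lam ^ (d - s.degree)) * S.ker supp c V (U + s)) =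
          (s i : R) * (c s * S.lam ^ (d - s.degree)) * (S.lam ^ V.degree * S.ker supp c V (U + s)) := by
          ring
      _ = (s i : R) * c s * (S.lam ^ (d - s.degree) * S.lam ^ (U + s).degree) * G V (U + s) := by
          rw [h1]; ring
      _ = _ := by rw [h2]; ring
  have hB : S.lam ^ V.degree * ∑ s ∈ supp, (s i : R) * (c s ^ p * S.lam ^ (d - s.degree)) *
        (if s ≤ V then S.ker supp c (V - s) U else 0) =
      S.lam ^ U.degree * ∑ s ∈ supp, (s i : R) * S.pi * c s ^ p * (if s ≤ V then G (V - s) U else 0) := by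
    rw [Finset.mul_sum, Finset.mul_sum]
    refine Finset.sum_congr rfl fun s hs => ?_
    split_ifs with hsV
    · have h1 := hk (V - s) U
      have h2 : S.lam ^ V.degree * S.lam ^ (d - s.degree) = S.pi * S.lam ^ (V - s).degree := by
        have h3 : (V - s).degree + s.degree = V.degree := by rw [← map_add, tsub_add_cancel_of_le hsV]
        rw [pi, ← pow_add, ← pow_add]
        congr 1
        have := hd s hs
        omega
      calc S.lam ^ V.degree * ((s i : R) * (c s ^ p * S.lam ^ (d - s.degree)) * S.ker supp c (V - s) U) =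
          (s i : R) * c s ^ p * (S.lam ^ V.degree * S.lam ^ (d - s.degree)) * S.ker supp c (V - s) U := by ring
        _ = (s i : R) * c s ^ p * S.pi * (S.lam ^ (V - s).degree * S.ker supp c (V - s) U) := by
          rw [h2]; ring
        _ = _ := by rw [h1]; ring
    · simp
  have hbr : (U i : R) * G V U + ∑ s ∈ supp, (s i : R) * S.pi * c s * G V (U + s) =
      (p : R) * ((V i : R) * G V U) +
        (p : R) * ∑ s ∈ supp, (s i : R) * S.pi * c s ^ p * (if s ≤ V then G (V - s) U else 0) := by
    by_cases hU : U ≤ p • V
    · have he := S.euler_FF supp c h0 i (p • V - U)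
      have hGU : G V U = MvPowerSeries.coeff (p • V - U) (S.FF supp c) := by
        rw [hG, Gk, if_pos hU]
      have hG1 : ∀ s, G V (U + s) = if s ≤ p • V - U then
          MvPowerSeries.coeff (p • V - U - s) (S.FF supp c) else 0 := by
        intro s
        rw [hG, Gk]
        have e1 : U + s ≤ p • V ↔ s ≤ p • V - U := by
          rw [add_comm]; exact (le_tsub_iff_right hU).symm
        simp only [e1, tsub_add_eq_tsub_tsub]
      have hG2 : ∀ s, (if s ≤ V then G (V - s) U else 0) = if p • s ≤ p • V - U then
          MvPowerSeries.coeff (p • V - U - p • s) (S.FF supp c) else 0 := by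
        intro s
        have e3 : s ≤ V → p • (V - s) = p • V - p • s := by
          intro _
          ext j
          simp [Nat.mul_sub]
        have e0 : p • s ≤ p • V → s ≤ V := by
          intro h j
          have := h j
          simp only [Finsupp.smul_apply, smul_eq_mul] at this
          exact Nat.le_of_mul_le_mul_left this hp.out.pos
        have e4 : s ≤ V → p • s ≤ p • V := by
          intro h j
          simp only [Finsupp.smul_apply, smul_eq_mul]
          exact Nat.mul_le_mul_left _ (h j)
        have e2 : (p • s ≤ p • V - U) ↔ (s ≤ V ∧ U ≤ p • (V - s)) := by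
          constructor
          · intro h
            have h1 : p • s + U ≤ p • V := (le_tsub_iff_right hU).1 h
            have h2 : s ≤ V := e0 ((le_add_of_nonneg_right (zero_le)).trans h1)
            refine ⟨h2, ?_⟩
            rw [e3 h2]
            exact le_tsub_of_add_le_left h1
          · rintro ⟨h1, h2⟩
            rw [e3 h1] at h2
            have h3 : U + p • s ≤ p • V := (le_tsub_iff_right (e4 h1)).1 h2
            exact le_tsub_of_add_le_left h3
        rw [hG]
        by_cases h1 : s ≤ V
        · rw [if_pos h1, Gk]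
          by_cases h2 : U ≤ p • (V - s)
          · rw [if_pos h2, if_pos (e2.2 ⟨h1, h2⟩), e3 h1, tsub_right_comm]
          · rw [if_neg h2, if_neg (fun h => h2 (e2.1 h).2)]
        · rw [if_neg h1, if_neg (fun h => h1 (e2.1 h).1)]
      have hwi : ((p • V - U) i : R) = (p : R) * V i - U i := by
        have h1 : U i ≤ p * V i := by simpa using hU i
        rw [Finsupp.tsub_apply, Finsupp.smul_apply, smul_eq_mul, Nat.cast_sub h1]
        push_cast
        ring
      rw [hwi] at he
      rw [hGU]
      simp only [hG1, hG2]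
      have e5 : (p : R) * ∑ s ∈ supp, (s i : R) * S.pi * c s ^ p *
          (if p • s ≤ p • V - U then MvPowerSeries.coeff (p • V - U - p • s) (S.FF supp c) else 0) =
          ∑ s ∈ supp, (s i : R) * p * S.pi * c s ^ p *
          (if p • s ≤ p • V - U then MvPowerSeries.coeff (p • V - U - p • s) (S.FF supp c) else 0) := by
        rw [Finset.mul_sum]
        refine Finset.sum_congr rfl fun s _ => ?_
        ring
      rw [e5]
      linear_combination -he
    · have hGU : G V U = 0 := by rw [hG, Gk, if_neg hU]
      rw [hGU, Finset.sum_eq_zero, Finset.sum_eq_zero]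
      · simp
      · intro s _
        split_ifs with h1
        · have : ¬ U ≤ p • (V - s) := by
            intro h
            apply hU
            refine h.trans ?_
            intro j
            simp only [Finsupp.smul_apply, Finsupp.tsub_apply, smul_eq_mul]
            exact Nat.mul_le_mul_left _ (Nat.sub_le _ _)
          rw [hG, Gk, if_neg this, mul_zero]
        · simp
      · intro s _
        have : ¬ (U + s) ≤ p • V := fun h => hU ((le_add_of_nonneg_right (zero_le)).trans h)
        rw [hG, Gk, if_neg this, mul_zero]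
  have h1 := hk V U
  linear_combination hA - (p : R) * hB + S.lam ^ U.degree * hbr + ((U i : R) - p * V i) * h1

end Setup

end Pool.Agent.H425
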