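import Pool.Agent.H425.Lin
import Pool.Agent.H425.Psi

set_option autoImplicit false
set_option linter.unusedSectionVars false
set_option linter.unusedVariables false

namespace Pool.Agent.H425

open Polynomial

variable {m A : Type} [Fintype m] [DecidableEq m] [CommRing A]

theorem det_noninj {n : Type} [Fintype n] [DecidableEq n] (M : Matrix m m A) (α γ : n → m)
    (hα : ¬ Function.Injective α) : (M.submatrix α γ).det = 0 := by
  simp only [Function.Injective] at hα
  push Not at hα
  obtain ⟨i, j, h, hij⟩ := hα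
  refine Matrix.det_zero_of_row_eq hij ?_
  funext k
  rw [Matrix.submatrix_apply, Matrix.submatrix_apply, h]

/-- divisibility of minors of products with weighted rows -/
theorem minor_dvd (lam : A) (cst : ℕ) (w : m → ℕ) (B : ℕ → Matrix m m A)
    (hB : ∀ t i j, lam ^ (cst * w i) ∣ B t i j) (r E : ℕ)
    (hE : ∀ s : Finset m, s.card = r → E ≤ ∑ i ∈ s, w i) (a : ℕ) {n : Type} [Fintype n]
    [DecidableEq n] (hn : Fintype.card n = r) : ∀ α γ : n → m,
    lam ^ (cst * E * a) ∣ ((prodn B a).submatrix α γ).det := by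
  have hinj : ∀ α : n → m, Function.Injective α → E ≤ ∑ i, w (α i) := by
    intro α hα
    have h1 := hE (Finset.univ.image α) (by rw [Finset.card_image_of_injective _ hα, Finset.card_univ, hn])
    rwa [Finset.sum_image (fun x _ y _ h => hα h)] at h1
  induction a with
  | zero =>
    intro α γ
    rw [mul_zero, pow_zero]
    exact one_dvd _
  | succ a ih =>
    intro α γ
    by_cases hα : Function.Injective α
    · rw [prodn, det_mul_submatrix]
      refine Finset.dvd_sum fun h _ => ?_
      have h1 : lam ^ (cst * E) ∣ ∏ i, B a (α i) (h i) := by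
        have h2 : (∏ i, lam ^ (cst * w (α i))) ∣ ∏ i, B a (α i) (h i) :=
          Finset.prod_dvd_prod_of_dvd _ _ fun i _ => hB a _ _
        refine dvd_trans ?_ h2
        rw [Finset.prod_pow_eq_pow_sum, ← Finset.mul_sum]
        exact pow_dvd_pow _ (Nat.mul_le_mul_left _ (hinj α hα))
      have h3 := mul_dvd_mul h1 (ih h γ)
      rw [← pow_add] at h3
      have h4 : cst * E * (a + 1) = cst * E + cst * E * a := by ring
      rw [h4]
      exact h3
    · rw [det_noninj _ α γ hα]
      exact dvd_zero _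

theorem cs_coeff_dvd (lam : A) (cst : ℕ) (w : m → ℕ) (B : ℕ → Matrix m m A)
    (hB : ∀ t i j, lam ^ (cst * w i) ∣ B t i j) (r E : ℕ)
    (hE : ∀ s : Finset m, s.card = r → E ≤ ∑ i ∈ s, w i) (a : ℕ) :
    lam ^ (cst * E * a) ∣ (cs (prodn B a)).coeff r := by
  rw [cs_coeff]
  refine Dvd.dvd.mul_left (Finset.dvd_sum fun s hs => ?_) _
  rw [Finset.mem_powersetCard] at hs
  exact minor_dvd lam cst w B hB r E hE a (by rw [Fintype.card_coe, hs.2]) _ _

/-- threshold for a minimizing subset -/
theorem exists_threshold (w : m → ℕ) (T : Finset m)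
    (hT : ∀ T' : Finset m, T'.card = T.card → ∑ u ∈ T, w u ≤ ∑ u ∈ T', w u) :
    ∃ j0 : ℕ, (∀ u ∈ T, w u ≤ j0) ∧ (∀ u, u ∉ T → j0 ≤ w u) := by
  rcases T.eq_empty_or_nonempty with rfl | hne
  · exact ⟨0, by simp, fun _ _ => Nat.zero_le _⟩
  · obtain ⟨y, hy, hmax⟩ := T.exists_max_image w hne
    refine ⟨w y, hmax, fun x hx => ?_⟩
    have h1 := hT (insert x (T.erase y)) (by
      rw [Finset.card_insert_of_notMem (fun h => hx (Finset.mem_of_mem_erase h)),
        Finset.card_erase_of_mem hy]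
      have := Finset.card_pos.2 hne
      omega)
    rw [Finset.sum_insert (fun h => hx (Finset.mem_of_mem_erase h))] at h1
    have h2 := Finset.add_sum_erase T w hy
    omega

/-- supporting line at the minimizer -/
theorem support_line (w : m → ℕ) (T : Finset m) (j0 : ℕ) (h1 : ∀ u ∈ T, w u ≤ j0)
    (h2 : ∀ u, u ∉ T → j0 ≤ w u) (s : Finset m) :
    ∑ u ∈ T, w u + s.card * j0 ≤ ∑ u ∈ s, w u + T.card * j0 := by
  have e1 : ∑ u ∈ T, w u = ∑ u ∈ T ∩ s, w u + ∑ u ∈ T \ s, w u := by
    rw [Finset.sum_inter_add_sum_sdiff]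
  have e2 : ∑ u ∈ s, w u = ∑ u ∈ T ∩ s, w u + ∑ u ∈ s \ T, w u := by
    rw [Finset.inter_comm, Finset.sum_inter_add_sum_sdiff]
  have e3 : ∑ u ∈ T \ s, w u ≤ (T \ s).card * j0 := by
    rw [← smul_eq_mul]
    exact Finset.sum_le_card_nsmul _ _ _ fun u hu => h1 u (Finset.mem_sdiff.1 hu).1
  have e4 : (s \ T).card * j0 ≤ ∑ u ∈ s \ T, w u := by
    rw [← smul_eq_mul]
    exact Finset.card_nsmul_le_sum _ _ _ fun u hu => h2 u (Finset.mem_sdiff.1 hu).2
  have e5 : T.card = (T ∩ s).card + (T \ s).card := (Finset.card_inter_add_card_sdiff T s).symm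
  have e6 : s.card = (T ∩ s).card + (s \ T).card := by
    rw [Finset.inter_comm, Finset.card_inter_add_card_sdiff]
  rw [e1, e2, e5, e6]
  nlinarith

end Pool.Agent.H425
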