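import Pool.Agent.H425.Reg

set_option autoImplicit false

namespace Pool.Agent.H425.Reg

open Pool.Agent.H425.CI RingTheory.Sequence IsLocalRing Pointwise MvPolynomial Module

variable {ι : Type} {k : Type} [Field k]

/-- the Hilbert function of a complete intersection of forms of degree `e` -/
theorem hJ_eq [Fintype ι] [DecidableEq ι] (g : ι → MvPolynomial ι k) (e : ℕ) (he : 0 < e)
    (hg : ∀ i, (g i).IsHomogeneous e)
    (hnil : ∀ i, ∃ m : ℕ, (X i : MvPolynomial ι k) ^ m ∈ Ideal.span (Set.range g)) (j : ℕ) :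
    hJ (1 : ι → ℕ) (Ideal.span (Set.range g)) j =
      ((Finset.univ.filter (fun u : ι → Fin e => ∑ i, (u i : ℕ) = j)).card : ℤ) := by
  classical
  set l : List ι := (Finset.univ : Finset ι).toList with hl
  have hw : ∀ i, 0 < (1 : ι → ℕ) i := fun i => by simp
  have hofg : Ideal.ofList (l.map g) = Ideal.span (Set.range g) := by
    rw [Ideal.ofList]
    congr 1
    ext x
    simp [hl]
  have h0 : ∀ f ∈ l.map g, constantCoeff f = 0 := by
    intro f hf
    obtain ⟨i, _, rfl⟩ := List.mem_map.1 hf
    by_contra hne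
    have := hg i hne
    simp at this
    omega
  have hreg := weakly_regular (l.map g) (by simp [hl]) h0 (by
    intro i
    rw [hofg]
    exact hnil i)
  have hG : GReg (1 : ι → ℕ) (l.map (fun _ => e)) (l.map g) := by
    refine greg_of hw _ _ ?_ hreg h0
    rw [List.forall₂_map_left_iff, List.forall₂_map_right_iff]
    exact List.forall₂_same.2 (fun i _ => hg i)
  have hH := Hs_of_GReg hw _ _ hG
  have hGX : GReg (1 : ι → ℕ) (l.map (fun _ => 1)) (l.map (X : ι → MvPolynomial ι k)) := by
    refine greg_of hw _ _ ?_ ?_ ?_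
    · rw [List.forall₂_map_left_iff, List.forall₂_map_right_iff]
      exact List.forall₂_same.2 (fun i _ => isHomogeneous_X k i)
    · exact (isWeaklyRegular_X _ (Finset.nodup_toList _)).of_isLocalization (Loc ι k)
        (orig ι k).primeCompl
    · intro f hf
      obtain ⟨i, _, rfl⟩ := List.mem_map.1 hf
      simp
  have hHX := Hs_of_GReg hw _ _ hGX
  have hofX : Ideal.ofList (l.map (X : ι → MvPolynomial ι k)) = orig ι k := by
    rw [orig_eq, Ideal.ofList]
    congr 1
    ext x
    simp [hl]
  rw [hofX, Hs_orig hw] at hHX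
  rw [hofg] at hH
  have hc : ∀ b : ℕ, ((l.map (fun _ => b)).map (fun b => (1 : PowerSeries ℤ) - PowerSeries.X ^ b)).prod =
      ((1 : PowerSeries ℤ) - PowerSeries.X ^ b) ^ Fintype.card ι := by
    intro b
    rw [List.map_map, hl]
    simp
  rw [hc] at hH hHX
  rw [pow_one] at hHX
  set n := Fintype.card ι with hn
  have hgeom : (1 : PowerSeries ℤ) - PowerSeries.X ^ e =
      (1 - PowerSeries.X) * ∑ a : Fin e, PowerSeries.X ^ (a : ℕ) := by
    rw [Fin.sum_univ_eq_sum_range (fun a => (PowerSeries.X : PowerSeries ℤ) ^ a) e]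
    rw [mul_comm, geom_sum_mul_neg]
  have hne : ((1 : PowerSeries ℤ) - PowerSeries.X) ^ n ≠ 0 := by
    apply pow_ne_zero
    intro h
    have := congrArg (PowerSeries.coeff 0) h
    simp at this
  have hfin : Hs (1 : ι → ℕ) (Ideal.span (Set.range g)) =
      (∑ a : Fin e, (PowerSeries.X : PowerSeries ℤ) ^ (a : ℕ)) ^ n := by
    apply mul_left_cancel₀ hne
    rw [hH, ← mul_pow, ← hgeom]
    calc (1 - PowerSeries.X) ^ n * ((1 - PowerSeries.X ^ e) ^ n * Hs (1 : ι → ℕ) ⊥)
        = (1 - PowerSeries.X ^ e) ^ n * ((1 - PowerSeries.X) ^ n * Hs (1 : ι → ℕ) (⊥ : Ideal (MvPolynomial ι k))) := by ring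
      _ = _ := by rw [← hHX, mul_one]
  have h1 := congrArg (PowerSeries.coeff j) hfin
  rw [Hs, PowerSeries.coeff_mk] at h1
  rw [h1]
  have h2 : (∑ a : Fin e, (PowerSeries.X : PowerSeries ℤ) ^ (a : ℕ)) ^ n =
      ∑ u : ι → Fin e, PowerSeries.X ^ (∑ i, (u i : ℕ)) := by
    have := Finset.prod_univ_sum (fun _ : ι => (Finset.univ : Finset (Fin e)))
      (fun _ a => (PowerSeries.X : PowerSeries ℤ) ^ (a : ℕ))
    rw [Finset.prod_const, Finset.card_univ] at this
    rw [this, Fintype.piFinset_univ]
    refine Finset.sum_congr rfl fun u _ => ?_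
    rw [Finset.prod_pow_eq_pow_sum]
  rw [h2, map_sum]
  simp only [PowerSeries.coeff_X_pow]
  rw [Finset.sum_ite]
  simp only [Finset.sum_const_zero, add_zero, Finset.sum_const, nsmul_eq_mul, mul_one]
  congr 2
  ext u
  simp [eq_comm]

theorem exists_bj [Fintype ι] [DecidableEq ι] (g : ι → MvPolynomial ι k) (e : ℕ) (he : 0 < e)
    (hg : ∀ i, (g i).IsHomogeneous e)
    (hnil : ∀ i, ∃ m : ℕ, (X i : MvPolynomial ι k) ^ m ∈ Ideal.span (Set.range g)) (j : ℕ) :
    ∃ b : (ι → Fin e) → (ι →₀ ℕ), (∀ u, ∑ i, (u i : ℕ) = j → (b u).degree = j) ∧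
      ∀ P : MvPolynomial ι k, P.IsHomogeneous j → ∃ c : (ι → Fin e) → k,
        P - ∑ u with ∑ i, (u i : ℕ) = j, monomial (b u) (c u) ∈ Ideal.span (Set.range g) := by
  classical
  set J := Ideal.span (Set.range g) with hJdef
  have hw : ∀ i, 0 < (1 : ι → ℕ) i := fun i => by simp
  have hjj := hJ_eq g e he hg hnil j
  rw [← hJdef] at hjj
  let π := (J.restrictScalars k).mkQ
  let s : Set (MvPolynomial ι k ⧸ J.restrictScalars k) :=
    π '' ((fun d : ι →₀ ℕ => monomial d (1 : k)) '' {d | d.degree = j})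
  have hspan : Submodule.span k s = (homogeneousSubmodule ι k j).map π := by
    have : homogeneousSubmodule ι k j =
        Submodule.span k ((fun d : ι →₀ ℕ => monomial d (1 : k)) '' {d | d.degree = j}) := by
      rw [homogeneousSubmodule_eq_finsupp_supported, AddMonoidAlgebra.supported_eq_span_single]
      rfl
    rw [this, Submodule.map_span]
  obtain ⟨t, hts, htspan, htli⟩ := exists_linearIndependent k s
  have hfinW : FiniteDimensional k (homogeneousSubmodule ι k j) := fin_whs (k := k) hw j
  have hfin : FiniteDimensional k ((homogeneousSubmodule ι k j).map π) := inferInstance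
  have htfin : Finite t := by
    have h1 : LinearIndependent k (fun x : t => (⟨x.1, Submodule.subset_span x.2⟩ : Submodule.span k t)) := by
      refine LinearIndependent.of_comp (Submodule.span k t).subtype ?_
      exact htli
    have : FiniteDimensional k (Submodule.span k t) := by rw [htspan, hspan]; exact hfin
    exact h1.finite
  have hcard : Nat.card t = (Finset.univ.filter (fun u : ι → Fin e => ∑ i, (u i : ℕ) = j)).card := by
    have h1 : finrank k (Submodule.span k t) = Nat.card t := by
      have := Fintype.ofFinite t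
      rw [finrank_span_set_eq_card htli, Nat.card_eq_fintype_card, Set.toFinset_card]
    rw [htspan, hspan] at h1
    rw [← h1]
    let f := π.domRestrict (homogeneousSubmodule ι k j)
    have h2 := LinearMap.finrank_range_add_finrank_ker f
    have h3 : LinearMap.range f = (homogeneousSubmodule ι k j).map π := LinearMap.range_domRestrict _ _
    have h4 : finrank k (LinearMap.ker f) = finrank k (Jd (1 : ι → ℕ) J j) := by
      have h5 : (LinearMap.ker f).map (homogeneousSubmodule ι k j).subtype = Jd (1 : ι → ℕ) J j := by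
        ext x
        simp only [Submodule.mem_map, LinearMap.mem_ker, Submodule.subtype_apply, Subtype.exists, Jd,
          Submodule.mem_inf]
        constructor
        · rintro ⟨y, hy, hy1, rfl⟩
          exact ⟨(Submodule.Quotient.mk_eq_zero _).1 hy1, hy⟩
        · rintro ⟨h1, h2⟩
          exact ⟨x, h2, (Submodule.Quotient.mk_eq_zero _).2 h1, rfl⟩
      rw [← h5]
      exact (Submodule.equivMapOfInjective _ (Submodule.subtype_injective _) _).finrank_eq
    rw [h3, h4] at h2
    have h6 : hJ (1 : ι → ℕ) J j = (finrank k (homogeneousSubmodule ι k j) : ℤ) - finrank k (Jd (1 : ι → ℕ) J j) := rfl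
    rw [h6] at hjj
    omega
  -- an equivalence
  let U := {u : ι → Fin e // ∑ i, (u i : ℕ) = j}
  have hU : Nat.card U = Nat.card t := by
    rw [hcard, Nat.card_eq_fintype_card, Fintype.card_subtype]
  obtain ⟨φ⟩ : Nonempty (U ≃ t) := by
    have := Finite.equivFin t
    have h2 := Finite.equivFin U
    exact ⟨(Finite.equivFin U).trans ((finCongr hU).trans (Finite.equivFin t).symm)⟩
  have hch : ∀ x : t, ∃ d : ι →₀ ℕ, d.degree = j ∧ π (monomial d (1 : k)) = x.1 := by
    intro x
    obtain ⟨y, ⟨d, hd, rfl⟩, hy⟩ := hts x.2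
    exact ⟨d, hd, hy⟩
  choose dd hdd1 hdd2 using hch
  let b : (ι → Fin e) → (ι →₀ ℕ) := fun u =>
    if h : ∑ i, (u i : ℕ) = j then dd (φ ⟨u, h⟩) else 0
  refine ⟨b, ?_, ?_⟩
  · intro u hu
    simp only [b, dif_pos hu]
    exact hdd1 _
  · intro P hP
    have h1 : π P ∈ Submodule.span k (Set.range (fun u : U => π (monomial (b u.1) (1 : k)))) := by
      have h2 : Set.range (fun u : U => π (monomial (b u.1) (1 : k))) = t := by
        ext x
        constructor
        · rintro ⟨u, rfl⟩
          have : b u.1 = dd (φ u) := by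
            simp only [b, dif_pos u.2]
            rfl
          simp only [this, hdd2]
          exact (φ u).2
        · intro hx
          refine ⟨φ.symm ⟨x, hx⟩, ?_⟩
          have : b (φ.symm ⟨x, hx⟩).1 = dd ⟨x, hx⟩ := by
            simp only [b, dif_pos (φ.symm ⟨x, hx⟩).2, Subtype.coe_eta, Equiv.apply_symm_apply]
          simp only [this, hdd2]
      rw [h2, htspan, hspan]
      exact ⟨P, hP, rfl⟩
    rw [Submodule.mem_span_range_iff_exists_fun] at h1
    obtain ⟨c, hc⟩ := h1
    refine ⟨fun u => if h : ∑ i, (u i : ℕ) = j then c ⟨u, h⟩ else 0, ?_⟩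
    have h3 : (∑ u with ∑ i, (u i : ℕ) = j, monomial (b u)
        (if h : ∑ i, (u i : ℕ) = j then c ⟨u, h⟩ else 0)) = ∑ u : U, monomial (b u.1) (c u) := by
      rw [Finset.sum_subtype (p := fun u : ι → Fin e => ∑ i, (u i : ℕ) = j) _ (by intro u; simp)]
      refine Finset.sum_congr rfl fun u _ => ?_
      rw [dif_pos u.2]
    rw [h3]
    change P - _ ∈ J.restrictScalars k
    rw [← Submodule.Quotient.mk_eq_zero, ← Submodule.mkQ_apply, map_sub, sub_eq_zero]
    change π P = π _
    rw [← hc, map_sum]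
    refine Finset.sum_congr rfl fun u _ => ?_
    rw [← map_smul]
    congr 1
    rw [smul_monomial, smul_eq_mul, mul_one]

theorem exists_b [Fintype ι] [DecidableEq ι] (g : ι → MvPolynomial ι k) (e : ℕ) (he : 0 < e)
    (hg : ∀ i, (g i).IsHomogeneous e)
    (hnil : ∀ i, ∃ m : ℕ, (X i : MvPolynomial ι k) ^ m ∈ Ideal.span (Set.range g)) :
    ∃ b : (ι → Fin e) → (ι →₀ ℕ), (∀ u, (b u).degree = ∑ i, (u i : ℕ)) ∧
      ∀ (j : ℕ) (P : MvPolynomial ι k), P.IsHomogeneous j →
        ∃ (a : ι → MvPolynomial ι k) (c : (ι → Fin e) → k),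
        (∀ i, e ≤ j → (a i).IsHomogeneous (j - e)) ∧ (∀ i, j < e → a i = 0) ∧
        P = ∑ i, a i * g i + ∑ u with ∑ i, (u i : ℕ) = j, monomial (b u) (c u) := by
  classical
  choose bb hbb1 hbb2 using exists_bj g e he hg hnil
  refine ⟨fun u => bb (∑ i, (u i : ℕ)) u, fun u => hbb1 _ u rfl, ?_⟩
  intro j P hP
  obtain ⟨c, hc⟩ := hbb2 j P hP
  have hc' : ∑ u with ∑ i, (u i : ℕ) = j, monomial (bb (∑ i, (u i : ℕ)) u) (c u) =
      ∑ u with ∑ i, (u i : ℕ) = j, monomial (bb j u) (c u) := by
    refine Finset.sum_congr rfl fun u hu => ?_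
    rw [Finset.mem_filter] at hu
    rw [hu.2]
  set D := P - ∑ u with ∑ i, (u i : ℕ) = j, monomial (bb j u) (c u) with hD
  have hDh : D.IsHomogeneous j := by
    refine (homogeneousSubmodule ι k j).sub_mem hP ?_
    refine Submodule.sum_mem _ fun u hu => ?_
    rw [Finset.mem_filter] at hu
    exact isHomogeneous_monomial _ (hbb1 j u hu.2)
  rw [Ideal.mem_span_range_iff_exists_fun] at hc
  obtain ⟨a, ha⟩ := hc
  refine ⟨fun i => if e ≤ j then weightedHomogeneousComponent (1 : ι → ℕ) (j - e) (a i) else 0, c, ?_, ?_, ?_⟩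
  · intro i hi
    simp only [if_pos hi]
    exact weightedHomogeneousComponent_isWeightedHomogeneous _ _
  · intro i hi
    simp only [if_neg (not_le.2 hi)]
  · rw [hc']
    have h1 : weightedHomogeneousComponent (1 : ι → ℕ) j D = D :=
      IsWeightedHomogeneous.weightedHomogeneousComponent_same hDh
    have h2 : D = ∑ i, (if e ≤ j then weightedHomogeneousComponent (1 : ι → ℕ) (j - e) (a i) else 0) * g i := by
      rw [← h1, ← ha, map_sum]
      refine Finset.sum_congr rfl fun i _ => ?_
      rw [whc_mul (hg i)]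
      split_ifs
      · rfl
      · rw [zero_mul]
    rw [← h2, hD]
    ring

/-- Nullstellensatz: forms with only the trivial zero generate an ideal containing powers of
the variables -/
theorem nilp_of_zero [Fintype ι] [IsAlgClosed k] (g : ι → MvPolynomial ι k)
    (h : ∀ x : ι → k, (∀ i, eval x (g i) = 0) → x = 0) (i : ι) :
    ∃ m : ℕ, (X i : MvPolynomial ι k) ^ m ∈ Ideal.span (Set.range g) := by
  have h1 := vanishingIdeal_zeroLocus_eq_radical (K := k) (Ideal.span (Set.range g))
  have h2 : (X i : MvPolynomial ι k) ∈ (Ideal.span (Set.range g)).radical := by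
    rw [← h1, mem_vanishingIdeal_iff]
    intro x hx
    rw [mem_zeroLocus_iff] at hx
    have : x = 0 := h x (fun j => by
      have := hx (g j) (Ideal.subset_span ⟨j, rfl⟩)
      simpa [aeval_eq_eval] using this)
    rw [this]
    simp
  exact h2

end Pool.Agent.H425.Reg
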