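import Pool.Agent.H425.Block
import Pool.Agent.H425.Reg2
import Pool.Agent.H425.Cyc
import Pool.Agent.H425.Lin2

set_option autoImplicit false
set_option linter.unusedSectionVars false
set_option linter.unusedVariables false

namespace Pool.Agent.H425

open MvPolynomial

namespace Setup

variable {p d : ℕ} [hp : Fact p.Prime] {K R : Type} [Field K] [CommRing R] [IsDomain R]
  (S : Setup p d K R) {ι : Type} [Fintype ι] [DecidableEq ι]

theorem map_Hh [CharP K p] (N : ℕ) (hN : 1 ≤ N) (f : MvPolynomial ι K) (hd : 1 ≤ d)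
    (hf : f.totalDegree ≤ d) (t : ℕ) :
    MvPolynomial.map (S.rho N hN) (S.Hh N (su f) (S.tc f t)) =
      MvPolynomial.map (iterateFrobenius K p t) (homogeneousComponent d f) := by
  ext m
  rw [Hh, map_sum, coeff_sum, coeff_map, coeff_homogeneousComponent]
  simp only [map_monomial, coeff_monomial]
  rw [Finset.sum_ite_eq']
  by_cases hm : m ∈ su f
  · rw [if_pos hm, rho_rd, map_mul, map_pow, S.res_lam, tc, map_pow, S.res_tau]
    by_cases hmd : m.degree = d
    · rw [if_pos hmd, hmd, Nat.sub_self, pow_zero, mul_one, iterateFrobenius_def]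
    · have := su_degree f hf m hm
      rw [if_neg hmd, zero_pow (by omega), mul_zero, map_zero]
  · rw [if_neg hm]
    rw [su, Finset.mem_erase, not_and_or, not_ne_iff] at hm
    rcases hm with rfl | hm
    · rw [map_zero, if_neg (by omega), map_zero]
    · rw [notMem_support_iff] at hm
      rw [hm]
      simp

theorem exists_BD [CharP K p] [IsAlgClosed K] (hp5 : 5 ≤ p) (hd : 2 ≤ d) (f : MvPolynomial ι K)
    (hf : f.totalDegree = d)
    (hsm : ∀ x : ι → K, (∀ i, x i * eval x (pderiv i (homogeneousComponent d f)) = 0) → x = 0) :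
    ∃ b : (ι → Fin (d - 1)) → (ι →₀ ℕ), ∀ N, 1 ≤ N → S.BD N f (d - 1) b := by
  set g : ι → MvPolynomial ι K := fun i => pderiv i (homogeneousComponent d f) with hg
  have hghom : ∀ i, (g i).IsHomogeneous (d - 1) := fun i =>
    (homogeneousComponent_isHomogeneous d f).pderiv
  have hnil : ∀ i, ∃ m : ℕ, (X i : MvPolynomial ι K) ^ m ∈ Ideal.span (Set.range g) :=
    Reg.nilp_of_zero g (fun x hx => hsm x (fun i => by rw [hx i, mul_zero]))
  obtain ⟨b, hb, hspan⟩ := Reg.exists_b g (d - 1) (by omega) hghom hnil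
  refine ⟨b, fun N hN => ⟨hN, hp5, by omega, by omega, hf.le, fun t => ?_⟩⟩
  have hmap : ∀ i, MvPolynomial.map (S.rho N hN) (pderiv i (S.Hh N (su f) (S.tc f t))) =
      MvPolynomial.map (iterateFrobenius K p t) (g i) := by
    intro i
    rw [← pderiv_map, S.map_Hh N hN f (by omega) hf.le t, pderiv_map]
  refine ⟨?_, hb, ?_, ?_⟩
  · rw [Hh]
    refine Submodule.sum_mem _ fun s hs => monomial_mem_VV ?_ _
    have := su_degree f hf.le s hs
    omega
  · intro i
    rw [hmap]
    exact (hghom i).map _
  · intro j P hP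
    have hbij : Function.Bijective (iterateFrobenius K p t) := by
      have : PerfectRing K p := inferInstance
      exact bijective_iterateFrobenius K p t
    let φ : K ≃+* K := RingEquiv.ofBijective (iterateFrobenius K p t) hbij
    have hφ : ∀ Z : MvPolynomial ι K, MvPolynomial.map (iterateFrobenius K p t)
        (MvPolynomial.map (φ.symm : K →+* K) Z) = Z := by
      intro Z
      ext m
      rw [coeff_map, coeff_map]
      exact φ.apply_symm_apply _
    have hP' : (MvPolynomial.map (φ.symm : K →+* K) P).IsHomogeneous j := hP.map _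
    obtain ⟨a, c, h1, h2, h3⟩ := hspan j _ hP'
    refine ⟨fun i => MvPolynomial.map (iterateFrobenius K p t) (a i),
      fun u => iterateFrobenius K p t (c u), ?_, ?_, ?_⟩
    · intro i hi
      exact (h1 i hi).map _
    · intro i hi
      simp only [h2 i hi, map_zero]
    · have h4 := congrArg (MvPolynomial.map (iterateFrobenius K p t)) h3
      rw [hφ] at h4
      rw [h4, map_add, map_sum, map_sum]
      congr 1
      · refine Finset.sum_congr rfl fun i _ => ?_
        rw [map_mul, hmap]
      · refine Finset.sum_congr rfl fun u _ => ?_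
        rw [map_monomial]

/-- value of integer polynomials at the root of unity of the truncated ring -/
theorem eval_zet [CharP K p] (hp5 : 5 ≤ p) (hd : 1 ≤ d) (N : ℕ) (hN : 1 ≤ N)
    (P U W : Polynomial ℤ) (a : ℕ)
    (hP : P = (Polynomial.X - 1) ^ a * U + (∑ i ∈ Finset.range p, Polynomial.X ^ i) * W)
    (hU : ¬ (p : ℤ) ∣ U.eval 1) :
    ∃ u : R, S.res u ≠ 0 ∧ Polynomial.aeval (S.zet N) P = S.rd N (S.lam ^ (d * a) * u) := by
  obtain ⟨u0, hu0, hz⟩ := S.zet_sub_one hp5 hd N
  obtain ⟨u1, hu1⟩ := Ideal.Quotient.mk_surjective (Polynomial.aeval (S.zet N) U)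
  have hcyc := S.zet_cyclo hp5 hd N
  have hrz : S.rho N hN (S.zet N) = 1 := by
    have h1 := congrArg (S.rho N hN) hz
    rw [map_sub, map_one, rho_rd, map_mul, map_pow, S.res_lam, zero_pow (by omega), zero_mul,
      sub_eq_zero] at h1
    exact h1
  refine ⟨u0 ^ a * u1, ?_, ?_⟩
  · rw [map_mul, map_pow, hu0, one_pow, one_mul]
    have h1 : S.res u1 = S.rho N hN (Polynomial.aeval (S.zet N) U) := by
      rw [← hu1]; rfl
    rw [h1, Polynomial.aeval_def, Polynomial.hom_eval₂, hrz]
    have h2 : (S.rho N hN).comp (algebraMap ℤ (S.Q N)) = Int.castRingHom K := RingHom.ext_int _ _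
    rw [h2]
    have h3 : Polynomial.eval₂ (Int.castRingHom K) 1 U = ((U.eval 1 : ℤ) : K) := by
      rw [Polynomial.eval₂_at_one]
      rfl
    rw [h3]
    intro h4
    exact hU ((CharP.intCast_eq_zero_iff K p _).1 h4)
  · conv_lhs => rw [hP]
    rw [map_add, map_mul, map_mul, map_pow, map_sub, map_one, Polynomial.aeval_X, map_sum]
    simp only [map_pow, Polynomial.aeval_X]
    rw [hcyc, zero_mul, add_zero, hz, ← hu1, ← map_pow, ← map_mul]
    congr 1
    rw [mul_pow, ← pow_mul]
    ring

end Setup

end Pool.Agent.H425
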