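import Pool.Agent.H425.Lead

set_option autoImplicit false
set_option linter.unusedSectionVars false
set_option linter.unusedVariables false

namespace Pool.Agent.H425

namespace Setup

variable {p d : ℕ} [hp : Fact p.Prime] {K R : Type} [Field K] [CommRing R] [IsDomain R]
  (S : Setup p d K R)

theorem th_dvd_small (j : ℕ) (hj : j < p) : S.lam ^ (d * j) ∣ S.th j := by
  have h1 := S.th_small j hj
  have h2 : IsUnit (j.factorial : R) := S.isUnit_nat (by
    rw [hp.out.dvd_factorial]
    omega)
  rw [pow_mul]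
  change S.pi ^ j ∣ _
  exact (h2.dvd_mul_left).1 (dvd_of_eq h1.symm)

/-- one variable product -/
noncomputable def F1 : MvPowerSeries (Fin 1) R :=
  S.Fs (Finsupp.single 0 d) 1 * S.Fs (Finsupp.single 0 1) 1

theorem coeff_F1 (k : ℕ) : MvPowerSeries.coeff (Finsupp.single (0 : Fin 1) k) S.F1 =
    ∑ a ∈ Finset.range (k + 1), MvPowerSeries.coeff (Finsupp.single (0 : Fin 1) a)
      (S.Fs (Finsupp.single (0 : Fin 1) d) 1) * S.th (k - a) := by
  classical
  rw [F1, MvPowerSeries.coeff_mul, Finsupp.antidiagonal_single, Finset.sum_map,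
    Finset.Nat.sum_antidiagonal_eq_sum_range_succ_mk]
  refine Finset.sum_congr rfl fun a _ => ?_
  have h1 : (Finsupp.single (0 : Fin 1) (k - a)) = (k - a) • Finsupp.single (0 : Fin 1) 1 := by
    rw [Finsupp.smul_single, smul_eq_mul, mul_one]
  have h2 := S.coeff_Fs (Finsupp.single (0 : Fin 1) 1) (by simp) (1 : R) (k - a)
  rw [← h1, one_pow, mul_one] at h2
  simp only [Function.Embedding.prodMap, Function.Embedding.coeFn_mk, Prod.map]
  rw [h2]

theorem coeff_Fd (hd : 1 ≤ d) (j : ℕ) : MvPowerSeries.coeff (Finsupp.single (0 : Fin 1) (d * j))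
      (S.Fs (Finsupp.single (0 : Fin 1) d) 1) = S.th j := by
  have h1 : (Finsupp.single (0 : Fin 1) (d * j)) = j • Finsupp.single (0 : Fin 1) d := by
    rw [Finsupp.smul_single, smul_eq_mul, mul_comm]
  rw [h1, S.coeff_Fs _ (by simp; omega), one_pow, mul_one]

theorem coeff_Fd_ne (a : ℕ) (h : ¬ d ∣ a) : MvPowerSeries.coeff (Finsupp.single (0 : Fin 1) a)
      (S.Fs (Finsupp.single (0 : Fin 1) d) 1) = 0 := by
  refine S.coeff_Fs_ne _ _ _ ?_
  intro j hj
  apply h
  have h1 := DFunLike.congr_fun hj 0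
  rw [Finsupp.smul_apply, Finsupp.single_eq_same, Finsupp.single_eq_same, smul_eq_mul] at h1
  exact ⟨j, by rw [← h1, mul_comm]⟩

/-- error terms -/
theorem one_err (hd : 2 ≤ d) (hpd : 2 * d * (d + 1) ≤ p) (V U a : ℕ) (hV : V < d)
    (hUV : U ≤ p * V)
    (ha : a ≤ p * V - U) (hne : a ≠ d * (p * V / d)) :
    S.lam ^ (d * (p * V / d + p * V % d) + 1) ∣ S.lam ^ (d * U) *
      (MvPowerSeries.coeff (Finsupp.single (0 : Fin 1) a) (S.Fs (Finsupp.single (0 : Fin 1) d) 1) *
        S.th (p * V - U - a)) := by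
  by_cases hda : d ∣ a
  swap
  · rw [S.coeff_Fd_ne a hda]
    simp
  obtain ⟨j, rfl⟩ := hda
  rw [S.coeff_Fd (by omega)]
  set I := p * V / d with hI
  set ρ := p * V % d with hρ
  have hIρ : d * I + ρ = p * V := Nat.div_add_mod _ _
  have hρd : ρ < d := Nat.mod_lt _ (by omega)
  have hjI : j < I := by
    have h1 : j ≤ I := by
      rw [hI, Nat.le_div_iff_mul_le (by omega), mul_comm]
      omega
    have h2 : j ≠ I := fun h => hne (by rw [h])
    omega
  have hIp : I < p := by
    rw [hI, Nat.div_lt_iff_lt_mul (by omega)]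
    exact Nat.mul_lt_mul_of_pos_left hV hp.out.pos
  obtain ⟨k, hk⟩ := Nat.exists_eq_add_of_lt hjI
  have h1 : S.lam ^ (d * j) ∣ S.th j := S.th_dvd_small j (by omega)
  set i := p * V - U - d * j with hi
  have hi2 : i + U = d * (k + 1) + ρ := by
    have : d * I = d * j + d * (k + 1) := by rw [hk]; ring
    omega
  have h2 : ∃ q, S.lam ^ (d * q) ∣ S.th i ∧ I + ρ + 1 ≤ U + j + q := by
    by_cases hip : i < p
    · refine ⟨i, S.th_dvd_small i hip, ?_⟩
      have h5 : d * (k + 1) = (k + 1) + (d - 1) * (k + 1) := by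
        obtain ⟨d', rfl⟩ := Nat.exists_eq_add_of_le hd
        have : 2 + d' - 1 = 1 + d' := by omega
        rw [this]
        ring
      have h6 : 1 ≤ (d - 1) * (k + 1) := Nat.mul_pos (by omega) (by omega)
      omega
    · refine ⟨ce p i, S.th_dvd i, ?_⟩
      push Not at hip
      unfold ce
      have hile : i ≤ p * d := by
        have : p * V ≤ p * d := Nat.mul_le_mul_left _ hV.le
        omega
      have h3 : 2 * i / p ≤ 2 * d := by
        refine Nat.div_le_of_le_mul ?_
        nlinarith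
      have h4 : 2 * d + 1 ≤ k + 1 := by
        by_contra hcon
        push Not at hcon
        have : d * (k + 1) ≤ d * (2 * d) := Nat.mul_le_mul_left _ (by omega)
        nlinarith
      have h5 : d * (k + 1) = (k + 1) + (d - 1) * (k + 1) := by
        obtain ⟨d', rfl⟩ := Nat.exists_eq_add_of_le hd
        have : 2 + d' - 1 = 1 + d' := by omega
        rw [this]
        ring
      have h6 : k + 1 ≤ (d - 1) * (k + 1) := Nat.le_mul_of_pos_left _ (by omega)
      omega
  obtain ⟨q, hq1, hq2⟩ := h2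
  have h3 := mul_dvd_mul (dvd_refl (S.lam ^ (d * U))) (mul_dvd_mul h1 hq1)
  rw [← pow_add, ← pow_add] at h3
  refine (pow_dvd_pow _ ?_).trans h3
  have h4 : d * (I + ρ + 1) ≤ d * (U + j + q) := Nat.mul_le_mul_left _ hq2
  have h5 : d * (I + ρ + 1) = d * (I + ρ) + d := by ring
  have h6 : d * (U + j + q) = d * U + (d * j + d * q) := by ring
  omega

theorem one_key (hd : 2 ≤ d) (hpd : 2 * d * (d + 1) ≤ p) (V U : ℕ) (hV : V < d)
    (hUV : U ≤ p * V) : ∃ h : R,
    ((p * V / d).factorial : R) * ((p * V % d).factorial : R) *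
      (S.lam ^ (d * U) * MvPowerSeries.coeff (Finsupp.single (0 : Fin 1) (p * V - U)) S.F1) =
    S.lam ^ (d * (p * V / d + p * V % d)) * (((p * V % d).descFactorial U : ℕ) + S.lam * h) := by
  have herr := S.one_err hd hpd V U
  set I := p * V / d with hI
  set ρ := p * V % d with hρ
  have hIρ : d * I + ρ = p * V := Nat.div_add_mod _ _
  have hρd : ρ < d := Nat.mod_lt _ (by omega)
  have hIp : I < p := by
    rw [hI, Nat.div_lt_iff_lt_mul (by omega)]
    exact Nat.mul_lt_mul_of_pos_left hV hp.out.pos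
  rw [coeff_F1, Finset.mul_sum]
  by_cases hρU : U ≤ ρ
  · have hmem : d * I ∈ Finset.range (p * V - U + 1) := by
      rw [Finset.mem_range]
      omega
    rw [← Finset.add_sum_erase _ _ hmem]
    have h1 : S.lam ^ (d * (I + ρ) + 1) ∣ ∑ x ∈ (Finset.range (p * V - U + 1)).erase (d * I),
        S.lam ^ (d * U) * (MvPowerSeries.coeff (Finsupp.single (0 : Fin 1) x)
          (S.Fs (Finsupp.single (0 : Fin 1) d) 1) * S.th (p * V - U - x)) := by
      refine Finset.dvd_sum fun a ha => ?_
      rw [Finset.mem_erase, Finset.mem_range] at ha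
      exact herr a hV hUV (by omega) ha.1
    obtain ⟨q, hq⟩ := h1
    rw [hq, S.coeff_Fd (by omega)]
    have h2 : p * V - U - d * I = ρ - U := by omega
    rw [h2]
    refine ⟨(I.factorial : R) * (ρ.factorial : R) * q, ?_⟩
    have h3 := S.th_small I hIp
    have hdp : d ≤ p := by nlinarith
    have h4 := S.th_small (ρ - U) (by omega)
    have h5 : ρ.factorial = (ρ - U).factorial * ρ.descFactorial U :=
      (Nat.factorial_mul_descFactorial hρU).symm
    have h6 : S.lam ^ (d * (I + ρ)) = S.lam ^ (d * U) * S.pi ^ I * S.pi ^ (ρ - U) := by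
      rw [pi, ← pow_mul, ← pow_mul, ← pow_add, ← pow_add, ← mul_add, ← mul_add]
      congr 2
      omega
    rw [mul_add]
    have h7 : (I.factorial : R) * (ρ.factorial : R) *
        (S.lam ^ (d * U) * (S.th I * S.th (ρ - U))) =
        S.lam ^ (d * (I + ρ)) * (ρ.descFactorial U : ℕ) := by
      rw [h6, h5]
      push_cast
      calc _ = (ρ.descFactorial U : R) * S.lam ^ (d * U) * ((I.factorial : R) * S.th I) *
            (((ρ - U).factorial : R) * S.th (ρ - U)) := by ring
        _ = _ := by rw [h3, h4]; ring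
    rw [h7]
    ring
  · push Not at hρU
    have h1 : S.lam ^ (d * (I + ρ) + 1) ∣ ∑ x ∈ (Finset.range (p * V - U + 1)),
        S.lam ^ (d * U) * (MvPowerSeries.coeff (Finsupp.single (0 : Fin 1) x)
          (S.Fs (Finsupp.single (0 : Fin 1) d) 1) * S.th (p * V - U - x)) := by
      refine Finset.dvd_sum fun a ha => ?_
      rw [Finset.mem_range] at ha
      exact herr a hV hUV (by omega) (by omega)
    obtain ⟨q, hq⟩ := h1
    rw [hq, Nat.descFactorial_of_lt hρU]
    refine ⟨(I.factorial : R) * (ρ.factorial : R) * q, ?_⟩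
    push_cast
    ring

end Setup

end Pool.Agent.H425
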