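import Pool.Agent.H425.One

set_option autoImplicit false
set_option linter.unusedSectionVars false
set_option linter.unusedVariables false

namespace Pool.Agent.H425

open MvPolynomial

/-- the diagonal polynomial -/
noncomputable def fd (ι K : Type) [Fintype ι] [Field K] (d : ℕ) : MvPolynomial ι K :=
  ∑ i : ι, (X i ^ d + X i)

theorem coeff_fd_one (K : Type) [Field K] (d : ℕ) (hd : 2 ≤ d) (s : Fin 1 →₀ ℕ) :
    coeff s (fd (Fin 1) K d) = if s = Finsupp.single 0 d ∨ s = Finsupp.single 0 1 then 1 else 0 := by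
  classical
  rw [fd, Fin.sum_univ_one, coeff_add, coeff_X_pow, coeff_X']
  by_cases h1 : s = Finsupp.single 0 d
  · have h2 : s ≠ Finsupp.single 0 1 := by
      rintro rfl
      have := Finsupp.single_injective _ h1
      omega
    rw [if_pos h1.symm, if_neg h2.symm, if_pos (Or.inl h1), add_zero]
  · by_cases h2 : s = Finsupp.single 0 1
    · rw [if_neg (fun h => h1 h.symm), if_pos h2.symm, if_pos (Or.inr h2), zero_add]
    · rw [if_neg (fun h => h1 h.symm), if_neg (fun h => h2 h.symm), if_neg (by tauto), add_zero]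

theorem single_ne (d : ℕ) (hd : 2 ≤ d) : Finsupp.single (0 : Fin 1) d ≠ Finsupp.single 0 1 := by
  intro h
  have := Finsupp.single_injective _ h
  omega

theorem su_fd_one (K : Type) [Field K] (d : ℕ) (hd : 2 ≤ d) :
    Setup.su (fd (Fin 1) K d) = {Finsupp.single 0 d, Finsupp.single 0 1} := by
  classical
  refine Finset.ext fun s => ?_
  rw [Setup.su, Finset.mem_erase, mem_support_iff, coeff_fd_one K d hd, Finset.mem_insert,
    Finset.mem_singleton]
  constructor
  · rintro ⟨_, h⟩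
    by_contra hcon
    exact h (if_neg hcon)
  · intro h
    rw [if_pos h]
    refine ⟨?_, one_ne_zero⟩
    rintro rfl
    rcases h with h | h
    · have := DFunLike.congr_fun h 0
      rw [Finsupp.single_eq_same] at this
      simp at this
      omega
    · have := DFunLike.congr_fun h 0
      rw [Finsupp.single_eq_same] at this
      simp at this

namespace Setup

variable {p d : ℕ} [hp : Fact p.Prime] {K R : Type} [Field K] [CommRing R] [IsDomain R]
  (S : Setup p d K R)

theorem FF_fd_one (hd : 2 ≤ d) (t : ℕ) :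
    S.FF (su (fd (Fin 1) K d)) (S.tc (fd (Fin 1) K d) t) = S.F1 := by
  classical
  have h1 : S.tc (fd (Fin 1) K d) t (Finsupp.single 0 d) = 1 := by
    rw [tc, coeff_fd_one K d hd, if_pos (Or.inl rfl), map_one, one_pow]
  have h2 : S.tc (fd (Fin 1) K d) t (Finsupp.single 0 1) = 1 := by
    rw [tc, coeff_fd_one K d hd, if_pos (Or.inr rfl), map_one, one_pow]
  rw [FF, su_fd_one K d hd, Finset.prod_pair (single_ne d hd), h1, h2, F1]

theorem kap_fd_one (hp3 : 3 ≤ p) (hd : 2 ≤ d) (N t : ℕ) : S.kap N (fd (Fin 1) K d) t = 1 := by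
  classical
  have h1 : S.tc (fd (Fin 1) K d) t 0 = 0 := by
    rw [tc, coeff_fd_one K d hd, if_neg, S.tau_zero, zero_pow (pow_ne_zero _ hp.out.ne_zero)]
    rintro (h | h)
    · have := DFunLike.congr_fun h 0
      rw [Finsupp.single_eq_same] at this
      simp at this
      omega
    · have := DFunLike.congr_fun h 0
      rw [Finsupp.single_eq_same] at this
      simp at this
  rw [kap, h1, map_zero, ← Polynomial.coeff_zero_eq_eval_zero, S.coeff_thp hp3 (by omega), S.th_zero,
    map_one]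

theorem fin1_eq (w : Fin 1 →₀ ℕ) : w = Finsupp.single 0 (w 0) := by
  refine Finsupp.ext fun i => ?_
  rw [Subsingleton.elim i 0, Finsupp.single_eq_same]

theorem degree_fin1 (w : Fin 1 →₀ ℕ) : w.degree = w 0 := by
  rw [Finsupp.degree_eq_sum, Fin.sum_univ_one]

theorem ker_one (hp3 : 3 ≤ p) (hd : 2 ≤ d) (hpd : 2 * d * (d + 1) ≤ p)
    (hf : (fd (Fin 1) K d).totalDegree ≤ d) (t V U : ℕ)
    (hV1 : 1 ≤ V) (hV : V < d) (hU : U < d) : ∃ h : R,
    ((p * V / d).factorial : R) * ((p * V % d).factorial : R) *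
      (S.lam ^ ((d - 1) * U) * S.ker (su (fd (Fin 1) K d)) (S.tc (fd (Fin 1) K d) t)
        (Finsupp.single 0 V) (Finsupp.single 0 U)) =
    S.lam ^ ((p - 1) * V + (d - 1) * (p * V % d)) *
      (((p * V % d).descFactorial U : ℕ) + S.lam * h) := by
  classical
  have hUV : U ≤ p * V := by nlinarith
  obtain ⟨h, hh⟩ := S.one_key hd hpd V U hV hUV
  refine ⟨h, ?_⟩
  have hspec := (S.ker_spec hp3 (su (fd (Fin 1) K d)) (S.tc (fd (Fin 1) K d) t) (su_zero _)
    (su_degree _ hf) (Finsupp.single 0 V) (Finsupp.single 0 U)).2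
  have hle : Finsupp.single (0 : Fin 1) U ≤ p • Finsupp.single (0 : Fin 1) V := by
    rw [Finsupp.smul_single, smul_eq_mul]
    exact Finsupp.single_le_single.2 hUV
  have hsub : p • Finsupp.single (0 : Fin 1) V - Finsupp.single (0 : Fin 1) U =
      Finsupp.single 0 (p * V - U) := by
    rw [Finsupp.smul_single, smul_eq_mul]
    refine Finsupp.ext fun i => ?_
    rw [Subsingleton.elim i 0, Finsupp.tsub_apply]
    simp
  rw [Gk, if_pos hle, S.FF_fd_one hd, hsub, Finsupp.degree_single, Finsupp.degree_single] at hspec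
  have hexp : d * (p * V / d + p * V % d) = V + ((p - 1) * V + (d - 1) * (p * V % d)) := by
    have h1 : d * (p * V / d) + p * V % d = p * V := Nat.div_add_mod _ _
    obtain ⟨p', hp'⟩ := Nat.exists_eq_add_of_le hp.out.one_lt.le
    obtain ⟨d', hd'⟩ := Nat.exists_eq_add_of_le (show 1 ≤ d by omega)
    have e1 : p - 1 = p' := by omega
    have e2 : d - 1 = d' := by omega
    rw [e1, e2, mul_add]
    have h2 : p * V = V + p' * V := by rw [hp']; ring
    have h30 : ∀ x, d * x = x + d' * x := by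
      intro x
      rw [hd']
      ring
    have h3 := h30 (p * V % d)
    omega
  rw [hexp, pow_add S.lam V] at hh
  apply mul_left_cancel₀ (pow_ne_zero V S.lam_ne)
  have h4 : d * U = (d - 1) * U + U := by
    obtain ⟨d', hd'⟩ := Nat.exists_eq_add_of_le (show 1 ≤ d by omega)
    have e2 : d - 1 = d' := by omega
    rw [e2, hd']
    ring
  rw [h4, pow_add] at hh
  calc S.lam ^ V * (((p * V / d).factorial : R) * ((p * V % d).factorial : R) *
      (S.lam ^ ((d - 1) * U) * S.ker (su (fd (Fin 1) K d)) (S.tc (fd (Fin 1) K d) t)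
        (Finsupp.single 0 V) (Finsupp.single 0 U))) =
      ((p * V / d).factorial : R) * ((p * V % d).factorial : R) * (S.lam ^ ((d - 1) * U) *
        (S.lam ^ V * S.ker (su (fd (Fin 1) K d)) (S.tc (fd (Fin 1) K d) t)
        (Finsupp.single 0 V) (Finsupp.single 0 U))) := by ring
    _ = ((p * V / d).factorial : R) * ((p * V % d).factorial : R) *
        (S.lam ^ ((d - 1) * U) * S.lam ^ U * MvPowerSeries.coeff (Finsupp.single 0 (p * V - U)) S.F1) := by
        rw [hspec]; ring
    _ = _ := by rw [hh]; ring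

variable {S} {N e : ℕ} {b : (Fin 1 → Fin e) → (Fin 1 →₀ ℕ)}

theorem b_eq (hb : ∀ u, (b u).degree = ∑ i, (u i : ℕ)) (u : Fin 1 → Fin e) : b u = emb u := by
  have h1 := hb u
  rw [degree_fin1, Fin.sum_univ_one] at h1
  rw [fin1_eq (b u), fin1_eq (emb u), h1]
  rfl

theorem EE_small (D : S.BD N (fd (Fin 1) K d) e b) (t : ℕ) (u : Fin 1 → Fin e) (r : S.Q N) :
    EE D t (monomial (emb u) r) = monomial (emb u) r := by
  have h1 := Phi_small (S.Hh N (su (fd (Fin 1) K d)) (S.tc (fd (Fin 1) K d) t)) e D.he b u r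
  rw [b_eq (D.hY t).hb u] at h1
  exact h1

theorem Bt_one_aux (hd : 2 ≤ d) (D : S.BD N (fd (Fin 1) K d) e b) (t : ℕ) (u' u : Fin 1 → Fin e) :
    ∃ q : S.Q N, Bt D t u' u = S.kb N (su (fd (Fin 1) K d)) (S.tc (fd (Fin 1) K d) t)
      (emb u' + oneA Finset.univ) (emb u + oneA Finset.univ) +
      (S.rd N S.lam) ^ ((p - 3) * d) * q := by
  classical
  have hp5 := D.hp5
  rw [Bt, gop_apply, EE_small]
  set Z := S.alt N (fd (Fin 1) K d) Finset.univ t (monomial (emb u) 1) with hZ
  have hcoef : ∀ v, coeff v Z = S.kb N (su (fd (Fin 1) K d)) (S.tc (fd (Fin 1) K d) t)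
      (v + oneA Finset.univ) (emb u + oneA Finset.univ) := by
    intro v
    rw [hZ, S.coeff_alt (by omega) N _ D.hf, S.kap_fd_one (by omega) hd]
    ring
  obtain ⟨M, hM⟩ := exists_VV Z
  have hM' := VV_mono (Nat.le_max_left M (Fintype.card (Fin 1) * e)) hM
  rw [eq_sum_DD hM', map_sum, coeff_sum]
  have hmem : emb u' ∈ DD (Fin 1) (max M (Fintype.card (Fin 1) * e)) := by
    rw [mem_DD, degree_fin1, Fintype.card_fin, one_mul]
    exact (u' 0).2.le.trans (le_max_right _ _)
  rw [← Finset.add_sum_erase _ _ hmem]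
  have h1 : coeff (emb u') ((EE D (t + 1)).symm (monomial (emb u') (coeff (emb u') Z))) =
      coeff (emb u') Z := by
    have h2 : (EE D (t + 1)).symm (monomial (emb u') (coeff (emb u') Z)) =
        monomial (emb u') (coeff (emb u') Z) := by
      rw [LinearEquiv.symm_apply_eq, EE_small]
    rw [h2, coeff_monomial, if_pos rfl]
  rw [h1, hcoef]
  have h3 : (S.rd N S.lam) ^ ((p - 3) * d) ∣
      ∑ x ∈ (DD (Fin 1) (max M (Fintype.card (Fin 1) * e))).erase (emb u'),
      coeff (emb u') ((EE D (t + 1)).symm (monomial x (coeff x Z))) := by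
    refine Finset.dvd_sum fun v hv => ?_
    rw [Finset.mem_erase] at hv
    by_cases hve : v 0 < e
    · have h4 : v = emb (fun _ => ⟨v 0, hve⟩ : Fin 1 → Fin e) := by
        refine Finsupp.ext fun i => ?_
        rw [Subsingleton.elim i 0]
        rfl
      rw [h4]
      have h2 : (EE D (t + 1)).symm (monomial (emb (fun _ => ⟨v 0, hve⟩ : Fin 1 → Fin e))
          (coeff (emb (fun _ => ⟨v 0, hve⟩ : Fin 1 → Fin e)) Z)) =
          monomial (emb (fun _ => ⟨v 0, hve⟩ : Fin 1 → Fin e))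
          (coeff (emb (fun _ => ⟨v 0, hve⟩ : Fin 1 → Fin e)) Z) := by
        rw [LinearEquiv.symm_apply_eq, EE_small]
      rw [h2, coeff_monomial, if_neg]
      · exact dvd_zero _
      · rw [← h4]
        exact hv.1
    · have : monomial v (coeff v Z) = coeff v Z • monomial v (1 : S.Q N) := by
        rw [smul_monomial, smul_eq_mul, mul_one]
      rw [this, map_smul, coeff_smul, smul_eq_mul]
      refine Dvd.dvd.mul_right ?_ _
      have h5 := Dv_alt D Finset.univ t (monomial (emb u) 1) v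
      rw [← hZ, Finset.card_univ, Fintype.card_fin, degree_fin1] at h5
      refine (pow_dvd_pow _ ?_).trans h5
      refine Nat.mul_le_mul_left _ ?_
      have := D.hde
      omega
  obtain ⟨q, hq⟩ := h3
  exact ⟨q, by rw [hq]⟩

theorem emb_add_one (u : Fin 1 → Fin e) :
    emb u + oneA Finset.univ = Finsupp.single 0 ((u 0 : ℕ) + 1) := by
  rw [fin1_eq (emb u + oneA Finset.univ), Finsupp.add_apply, oneA_apply, if_pos (Finset.mem_univ _)]
  rfl

theorem Bt_one (hd : 2 ≤ d) (hpd : 2 * d * (d + 1) ≤ p) (D : S.BD N (fd (Fin 1) K d) e b) (t : ℕ)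
    (u' u : Fin 1 → Fin e) : ∃ h : S.Q N,
    ((p * ((u' 0 : ℕ) + 1) / d).factorial : S.Q N) * ((p * ((u' 0 : ℕ) + 1) % d).factorial : S.Q N) *
      ((S.rd N S.lam) ^ ((d - 1) * ((u 0 : ℕ) + 1)) * Bt D t u' u) =
    (S.rd N S.lam) ^ ((p - 1) * ((u' 0 : ℕ) + 1) + (d - 1) * (p * ((u' 0 : ℕ) + 1) % d)) *
      (((p * ((u' 0 : ℕ) + 1) % d).descFactorial ((u 0 : ℕ) + 1) : ℕ) + (S.rd N S.lam) * h) := by
  have hp5 := D.hp5
  have hde := D.hde
  have hu' := (u' 0).2
  have hu := (u 0).2
  obtain ⟨q, hq⟩ := Bt_one_aux hd D t u' u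
  obtain ⟨h, hh⟩ := S.ker_one (by omega) hd hpd D.hf t ((u' 0 : ℕ) + 1) ((u 0 : ℕ) + 1)
    (by omega) (by omega) (by omega)
  have hh2 := congrArg (S.rd N) hh
  simp only [map_mul, map_add, map_pow, map_natCast] at hh2
  rw [hq, emb_add_one, emb_add_one, kb]
  set V := (u' 0 : ℕ) + 1 with hV
  set U := (u 0 : ℕ) + 1 with hU
  set ρ := p * V % d with hρ
  set l := S.rd N S.lam with hl
  have hρd : ρ < d := Nat.mod_lt _ (by omega)
  obtain ⟨k, hk⟩ : ∃ k, (d - 1) * U + (p - 3) * d = ((p - 1) * V + (d - 1) * ρ) + 1 + k := by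
    have h1 : ((p - 1) * V + (d - 1) * ρ) + 1 ≤ (p - 3) * d := by
      have hVe : V ≤ d - 1 := by omega
      have hρe : ρ ≤ d - 1 := by omega
      obtain ⟨d', rfl⟩ := Nat.exists_eq_add_of_le hd
      obtain ⟨p', hp'⟩ := Nat.exists_eq_add_of_le hpd
      have e1 : p - 1 = 2 * (2 + d') * (2 + d' + 1) + p' - 1 := by omega
      have e2 : p - 3 = 2 * (2 + d') * (2 + d' + 1) + p' - 3 := by omega
      have e3 : 2 + d' - 1 = 1 + d' := by omega
      rw [e3] at hVe hρe ⊢
      have h2 : (p - 1) * V ≤ (p - 1) * (1 + d') := Nat.mul_le_mul_left _ hVe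
      have h3 : (1 + d') * ρ ≤ (1 + d') * (1 + d') := Nat.mul_le_mul_left _ hρe
      obtain ⟨p'', hp''⟩ : ∃ p'', p = p'' + 3 := ⟨p - 3, by omega⟩
      have e4 : p - 3 = p'' := by omega
      have e5 : p - 1 = p'' + 2 := by omega
      rw [e4]
      rw [e5] at h2 ⊢
      have h4 : (2 * (2 + d') * (2 + d' + 1)) ≤ p'' + 3 := by omega
      nlinarith
    exact ⟨(d - 1) * U + (p - 3) * d - (((p - 1) * V + (d - 1) * ρ) + 1), by omega⟩
  refine ⟨h + ((p * V / d).factorial : S.Q N) * (ρ.factorial : S.Q N) * (l ^ k * q), ?_⟩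
  have h5 : l ^ ((d - 1) * U) * l ^ ((p - 3) * d) =
      l ^ ((p - 1) * V + (d - 1) * ρ) * l * l ^ k := by
    rw [← pow_add, hk, pow_add, pow_succ]
  calc _ = ((p * V / d).factorial : S.Q N) * (ρ.factorial : S.Q N) * (l ^ ((d - 1) * U) *
        S.rd N (S.ker (su (fd (Fin 1) K d)) (S.tc (fd (Fin 1) K d) t)
        (Finsupp.single 0 V) (Finsupp.single 0 U))) +
        ((p * V / d).factorial : S.Q N) * (ρ.factorial : S.Q N) *
          ((l ^ ((d - 1) * U) * l ^ ((p - 3) * d)) * q) := by ring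
    _ = _ := by
      rw [hh2, h5]
      ring

end Setup

end Pool.Agent.H425
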