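import Pool.Agent.H425.CI

set_option autoImplicit false

namespace Pool.Agent.H425.Reg

open Pool.Agent.H425.CI RingTheory.Sequence IsLocalRing Pointwise MvPolynomial Module

variable {ι : Type} {k : Type} [Field k]

theorem abs_dim {B : Type*} [CommRing B] [IsLocalRing B] [IsNoetherianRing B] (l : List B)
    (hm : ∀ x ∈ l, x ∈ maximalIdeal B)
    (h : ∀ P : Ideal B, P.IsPrime → (∀ x ∈ l, x ∈ P) → maximalIdeal B ≤ P) :
    ringKrullDim B ≤ ((l.length : ℕ) : WithBot ℕ∞) := by
  classical
  have hmin : maximalIdeal B ∈ (Ideal.span (l.toFinset : Set B)).minimalPrimes := by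
    refine ⟨⟨inferInstance, ?_⟩, ?_⟩
    · rw [Ideal.span_le]
      intro x hx
      exact hm x (by simpa using hx)
    · rintro P ⟨hP, hsP⟩ hPm
      refine h P hP fun x hx => hsP (Ideal.subset_span (by simpa using hx))
  have h4 := Ideal.height_le_card_of_mem_minimalPrimes_span_finset hmin
  rw [← IsLocalRing.maximalIdeal_height_eq_ringKrullDim]
  have h5 : l.toFinset.card ≤ l.length := List.toFinset_card_le _
  calc ((maximalIdeal B).height : WithBot ℕ∞) ≤ ((l.toFinset.card : ℕ∞) : WithBot ℕ∞) := by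
        exact_mod_cast h4
    _ ≤ _ := by exact_mod_cast h5

theorem abs_dim_quot {A : Type*} [CommRing A] [IsLocalRing A] [IsNoetherianRing A] (Q : Ideal A)
    (hQ : Q.IsPrime) (l : List A) (hm : ∀ x ∈ l, x ∈ maximalIdeal A)
    (h : ∀ P : Ideal A, P.IsPrime → Q ≤ P → (∀ x ∈ l, x ∈ P) → maximalIdeal A ≤ P) :
    ringKrullDim (A ⧸ Q) ≤ ((l.length : ℕ) : WithBot ℕ∞) := by
  classical
  have hnt : Nontrivial (A ⧸ Q) := Ideal.Quotient.nontrivial_iff.2 hQ.ne_top
  have hloc : IsLocalRing (A ⧸ Q) :=
    IsLocalRing.of_surjective' (Ideal.Quotient.mk Q) Ideal.Quotient.mk_surjective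
  have hmx : maximalIdeal (A ⧸ Q) = (maximalIdeal A).map (Ideal.Quotient.mk Q) :=
    (map_maximalIdeal_of_surjective _ Ideal.Quotient.mk_surjective).symm
  have := abs_dim (B := A ⧸ Q) (l.map (Ideal.Quotient.mk Q)) (by
      intro x hx
      rw [List.mem_map] at hx
      obtain ⟨y, hy, rfl⟩ := hx
      rw [hmx]
      exact Ideal.mem_map_of_mem _ (hm y hy)) (by
      intro P hP hl
      rw [hmx, Ideal.map_le_iff_le_comap]
      refine h _ (Ideal.comap_isPrime _ _) ?_ ?_
      · intro x hx
        rw [Ideal.mem_comap, Ideal.Quotient.eq_zero_iff_mem.2 hx]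
        exact P.zero_mem
      · intro x hx
        exact hl _ (List.mem_map.2 ⟨x, hx, rfl⟩))
  rwa [List.length_map] at this

theorem dim_bound [Fintype ι] (gs hs : List (MvPolynomial ι k))
    (hnil : ∀ i, ∃ m : ℕ, (X i : MvPolynomial ι k) ^ m ∈ Ideal.ofList (gs ++ hs))
    (h0 : ∀ f ∈ gs ++ hs, constantCoeff f = 0)
    (Q : Ideal (Loc ι k)) (hQ : Q.IsPrime) (hgs : ∀ f ∈ gs, toLoc f ∈ Q) :
    ringKrullDim (Loc ι k ⧸ Q) ≤ ((hs.length : ℕ) : WithBot ℕ∞) := by
  classical
  have := abs_dim_quot (A := Loc ι k) Q hQ (hs.map toLoc) (by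
    intro x hx
    rw [List.mem_map] at hx
    obtain ⟨f, hf, rfl⟩ := hx
    exact toLoc_mem.2 (h0 f (by simp [hf]))) (by
    intro P hP hQP hl
    rw [maximalIdeal_eq, Ideal.span_le]
    rintro _ ⟨i, rfl⟩
    have hall : Ideal.map (toLoc (ι := ι) (k := k)) (Ideal.ofList (gs ++ hs)) ≤ P := by
      rw [Ideal.map_le_iff_le_comap, Ideal.ofList, Ideal.span_le]
      intro f hf
      rcases List.mem_append.1 hf with hf | hf
      · exact hQP (hgs f hf)
      · exact hl _ (List.mem_map.2 ⟨f, hf, rfl⟩)
    obtain ⟨m, hm⟩ := hnil i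
    have h3 := hall (Ideal.mem_map_of_mem _ hm)
    rw [map_pow] at h3
    exact hP.mem_of_pow_mem _ h3)
  rwa [List.length_map] at this

theorem weakly_regular [Fintype ι] (fs : List (MvPolynomial ι k))
    (hlen : fs.length = Fintype.card ι)
    (h0 : ∀ f ∈ fs, constantCoeff f = 0)
    (hnil : ∀ i, ∃ m : ℕ, (X i : MvPolynomial ι k) ^ m ∈ Ideal.ofList fs) :
    IsWeaklyRegular (Loc ι k) (fs.map toLoc) := by
  classical
  have key : ∀ j ≤ fs.length, IsWeaklyRegular (Loc ι k) ((fs.take j).map toLoc) := by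
    intro j
    induction j with
    | zero => intro _; simp
    | succ j ih =>
      intro hj
      have hj' : j < fs.length := by omega
      have ihj := ih (by omega)
      rw [← List.take_append_getElem hj', List.map_append, isWeaklyRegular_append_iff]
      refine ⟨ihj, ?_⟩
      rw [List.map_cons, List.map_nil, isWeaklyRegular_cons_iff]
      refine ⟨?_, IsWeaklyRegular.nil _ _⟩
      have hcompl := biUnion_associatedPrimes_eq_compl_regular (Loc ι k)
        (Loc ι k ⧸ (Ideal.ofList ((fs.take j).map toLoc) • (⊤ : Submodule (Loc ι k) (Loc ι k))))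
      by_contra hnot
      have hmem : toLoc fs[j] ∈ {r : Loc ι k | IsSMulRegular
        (Loc ι k ⧸ (Ideal.ofList ((fs.take j).map toLoc) • (⊤ : Submodule (Loc ι k) (Loc ι k)))) r}ᶜ := hnot
      rw [← hcompl] at hmem
      simp only [Set.mem_iUnion] at hmem
      obtain ⟨Q, hQ, hfQ⟩ := hmem
      have hQp : Q.IsPrime := IsAssociatedPrime.isPrime hQ
      have hdim := ass_dim_after ((fs.take j).map toLoc) (by
          intro g hg
          simp only [List.mem_map] at hg
          obtain ⟨g', hg', rfl⟩ := hg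
          exact toLoc_mem.2 (h0 g' (List.mem_of_mem_take hg'))) (Loc ι k) (fs.length - j) (by
            obtain ⟨rs, h1, h2, h3⟩ := exists_rs (ι := ι) (k := k)
            refine ⟨rs, ?_, h2, h3⟩
            rw [h1, List.length_map, List.length_take]
            omega) ihj Q hQ
      have hfsQ : ∀ g ∈ fs.take j, toLoc g ∈ Q := by
        intro g hg
        exact ofList_le_of_ass ((fs.take j).map toLoc) Q hQ _ (List.mem_map.2 ⟨g, hg, rfl⟩)
      have h5 := dim_bound (fs.take (j+1)) (fs.drop (j+1)) (by rwa [List.take_append_drop])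
        (by rwa [List.take_append_drop]) Q hQp (by
          intro f hf
          rw [← List.take_append_getElem hj', List.mem_append] at hf
          rcases hf with hf | hf
          · exact hfsQ f hf
          · rw [List.mem_singleton] at hf
            rw [hf]
            exact hfQ)
      have h6 := hdim.trans h5
      rw [List.length_drop] at h6
      have h7 : fs.length - j ≤ fs.length - (j + 1) := by exact_mod_cast h6
      omega
  have := key fs.length le_rfl
  rwa [List.take_length] at this

end Pool.Agent.H425.Reg
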