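import Pool.Agent.H425.One2
import Pool.Agent.H425.CoreA

set_option autoImplicit false
set_option linter.unusedSectionVars false
set_option linter.unusedVariables false

namespace Pool.Agent.H425

open MvPolynomial

theorem coeff_fd_nat (ι K : Type) [Fintype ι] [Field K] (d : ℕ) (s : ι →₀ ℕ) :
    ∃ n : ℕ, coeff s (fd ι K d) = n := by
  classical
  refine ⟨∑ i : ι, ((if Finsupp.single i d = s then 1 else 0) +
    (if Finsupp.single i 1 = s then 1 else 0)), ?_⟩
  rw [fd, coeff_sum]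
  push_cast
  refine Finset.sum_congr rfl fun i _ => ?_
  rw [coeff_add, coeff_X_pow, coeff_X']

theorem coeff_fd_pow (ι K : Type) [Fintype ι] [Field K] (p : ℕ) [hp : Fact p.Prime] [CharP K p]
    (d a : ℕ) (s : ι →₀ ℕ) : coeff s (fd ι K d) ^ (p ^ a) = coeff s (fd ι K d) := by
  obtain ⟨n, hn⟩ := coeff_fd_nat ι K d s
  rw [hn]
  have := map_natCast (iterateFrobenius K p a) n
  rwa [iterateFrobenius_def] at this

theorem eval_fd (ι K : Type) [Fintype ι] [Field K] (d : ℕ) (x : ι → K) :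
    eval x (fd ι K d) = ∑ i, (x i ^ d + x i) := by
  rw [fd, map_sum]
  refine Finset.sum_congr rfl fun i _ => ?_
  rw [map_add, map_pow, eval_X]

/-- exponent of the additive character -/
noncomputable def chn (p a d : ℕ) {K : Type} [Field K] (y : K) : ℕ :=
  open Classical in if h : ∃ c : ℕ, ∑ t ∈ Finset.range a, (y ^ d + y) ^ (p ^ t) = (c : K) then
    h.choose else 0

theorem chn_spec (p : ℕ) [hp : Fact p.Prime] (a d : ℕ) {K : Type} [Field K] [CharP K p] (y : K)
    (hy : y ^ (p ^ a) = y) : ∑ t ∈ Finset.range a, (y ^ d + y) ^ (p ^ t) = (chn p a d y : K) := by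
  have h : ∃ c : ℕ, ∑ t ∈ Finset.range a, (y ^ d + y) ^ (p ^ t) = (c : K) := by
    apply exists_nat_trace p
    rw [add_pow_char_pow, ← pow_mul, mul_comm d, pow_mul, hy]
  rw [chn, dif_pos h]
  exact h.choose_spec

theorem pow_congr_char (p : ℕ) [hp : Fact p.Prime] {K : Type} [Field K] [CharP K p] {A : Type}
    [CommRing A] (z : A) (hz : z ^ p = 1) (c c' : ℕ) (h : (c : K) = (c' : K)) : z ^ c = z ^ c' := by
  have h1 := (CharP.natCast_eq_natCast K p).1 h
  rw [pow_eq_pow_mod c hz, pow_eq_pow_mod c' hz]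
  congr 1

theorem expSum_fd (p : ℕ) [hp : Fact p.Prime] {K : Type} [Field K] [CharP K p] (ι : Type) [Fintype ι]
    [DecidableEq ι] {A : Type} [CommRing A] (d a : ℕ) (ha : 1 ≤ a) (z : A) (hz : z ^ p = 1) :
    expSum p (fd ι K d) a z = (∑ y ∈ FQ K (p ^ a), z ^ chn p a d y) ^ Fintype.card ι := by
  rw [expSum_eq p (fd ι K d) a ha (coeff_fd_pow ι K p d a) z hz (fun x => ∏ i, z ^ chn p a d (x i))]
  · rw [← Finset.prod_univ_sum (fun _ : ι => FQ K (p ^ a)) (fun _ y => z ^ chn p a d y),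
      Finset.prod_const, Finset.card_univ]
  · intro x hx c hc
    rw [Finset.prod_pow_eq_pow_sum]
    apply pow_congr_char p z hz (K := K)
    rw [← hc, eval_fd]
    push_cast
    have h1 : ∀ t, (∑ i, (x i ^ d + x i)) ^ (p ^ t) = ∑ i, (x i ^ d + x i) ^ (p ^ t) :=
      fun t => sum_pow_char_pow p t _ _
    simp only [h1]
    rw [Finset.sum_comm]
    refine Finset.sum_congr rfl fun i _ => ?_
    exact (chn_spec p a d (x i) (hx i)).symm

theorem expSum_fd_pow (p : ℕ) [hp : Fact p.Prime] {K : Type} [Field K] [CharP K p] (n : ℕ)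
    {A : Type} [CommRing A] (d a : ℕ) (ha : 1 ≤ a) (z : A) (hz : z ^ p = 1) :
    expSum p (fd (Fin n) K d) a z = (expSum p (fd (Fin 1) K d) a z) ^ n := by
  rw [expSum_fd p (Fin n) d a ha z hz, expSum_fd p (Fin 1) d a ha z hz, Fintype.card_fin,
    Fintype.card_fin, pow_one]

section

variable {A : Type} [CommRing A] {e : ℕ}

/-- tensor powers of a matrix -/
def ten (n : ℕ) (β : Matrix (Fin e) (Fin e) A) : Matrix (Fin n → Fin e) (Fin n → Fin e) A :=
  fun v u => ∏ i, β (v i) (u i)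

theorem ten_mul (n : ℕ) (β γ : Matrix (Fin e) (Fin e) A) : ten n (β * γ) = ten n β * ten n γ := by
  ext v w
  rw [Matrix.mul_apply, ten]
  have h1 : ∀ i, (β * γ) (v i) (w i) = ∑ j, β (v i) j * γ j (w i) := fun i => Matrix.mul_apply
  simp only [h1]
  rw [Finset.prod_univ_sum, Fintype.piFinset_univ]
  refine Finset.sum_congr rfl fun u _ => ?_
  rw [ten, ten, Finset.prod_mul_distrib]

theorem ten_one (n : ℕ) : ten n (1 : Matrix (Fin e) (Fin e) A) = 1 := by
  ext v w
  rw [ten, Matrix.one_apply]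
  split_ifs with h
  · rw [h]
    exact Finset.prod_eq_one fun i _ => by rw [Matrix.one_apply_eq]
  · obtain ⟨i, hi⟩ := Function.ne_iff.1 h
    exact Finset.prod_eq_zero (Finset.mem_univ i) (by rw [Matrix.one_apply_ne hi])

theorem ten_pow (n : ℕ) (β : Matrix (Fin e) (Fin e) A) (a : ℕ) : ten n (β ^ a) = ten n β ^ a := by
  induction a with
  | zero => rw [pow_zero, pow_zero, ten_one]
  | succ a ih => rw [pow_succ, pow_succ, ten_mul, ih]

theorem trace_ten (n : ℕ) (β : Matrix (Fin e) (Fin e) A) : (ten n β).trace = β.trace ^ n := by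
  rw [Matrix.trace, Matrix.trace]
  have h1 : ∀ v : Fin n → Fin e, (ten n β).diag v = ∏ i, β (v i) (v i) := fun v => rfl
  simp only [h1]
  have h2 := Finset.prod_univ_sum (fun _ : Fin n => (Finset.univ : Finset (Fin e)))
    (fun _ j => β j j)
  rw [Fintype.piFinset_univ, Finset.prod_const, Finset.card_univ, Fintype.card_fin] at h2
  rw [← h2]
  rfl

/-- passage to scalar indices -/
def sc (β : Matrix (Fin 1 → Fin e) (Fin 1 → Fin e) A) : Matrix (Fin e) (Fin e) A :=
  fun i j => β (fun _ => i) (fun _ => j)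

theorem ten_sc (β : Matrix (Fin 1 → Fin e) (Fin 1 → Fin e) A) : ten 1 (sc β) = β := by
  ext v u
  rw [ten, Fin.prod_univ_one, sc]
  congr 1
  · congr 1
    funext i
    rw [Subsingleton.elim i 0]
  · funext i
    rw [Subsingleton.elim i 0]

theorem trace_ten_sc (n : ℕ) (β : Matrix (Fin 1 → Fin e) (Fin 1 → Fin e) A) (a : ℕ) :
    (ten n (sc β) ^ a).trace = ((β ^ a).trace) ^ n := by
  rw [← ten_pow, trace_ten]
  congr 1
  have h1 : (β ^ a).trace = (ten 1 (sc β) ^ a).trace := by rw [ten_sc]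
  rw [h1, ← ten_pow, trace_ten, pow_one]

end

namespace Setup

variable {p d : ℕ} [hp : Fact p.Prime] {K R : Type} [Field K] [CommRing R] [IsDomain R]
  {S : Setup p d K R} {N e : ℕ} {b : (Fin 1 → Fin e) → (Fin 1 →₀ ℕ)}

theorem prodn_Bt_fd [CharP K p] (D : S.BD N (fd (Fin 1) K d) e b) (a : ℕ) :
    prodn (Bt D) a = (Bt D 0) ^ a := by
  have h1 := prodn_mul (Bt D) 1 (Bt_periodic D 1 (coeff_fd_pow (Fin 1) K p d 1)) a
  rw [one_mul] at h1
  rw [h1]
  congr 1
  rw [prodn, prodn, Matrix.mul_one]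

theorem rec_ten [CharP K p] [IsAlgClosed K] (hd : 1 ≤ d) (D : S.BD N (fd (Fin 1) K d) e b)
    (n : ℕ) (hn : 1 ≤ n) (r : ℕ) :
    ((r + 1 : ℕ) : S.Q N) * (cs (ten n (sc (Bt D 0)))).coeff (r + 1) =
      (((-1) ^ (n - 1) : ℤ) : S.Q N) * ∑ j ∈ Finset.range (r + 1),
        Polynomial.aeval (S.zet N) (Epoly p (fd (Fin n) K d) (j + 1)) *
          (cs (ten n (sc (Bt D 0)))).coeff (r - j) := by
  have hp5 := D.hp5
  have hnew := newton (ten n (sc (Bt D 0))) r
  rw [hnew, Finset.mul_sum, ← Finset.sum_neg_distrib]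
  refine Finset.sum_congr rfl fun j _ => ?_
  have ha : 1 ≤ j + 1 := Nat.succ_pos j
  obtain ⟨ζ, hζ⟩ := exists_prim (K := K) (p := p) (j + 1) ha
  have e1 : Polynomial.aeval (S.zet N) (Epoly p (fd (Fin n) K d) (j + 1)) =
      (-1) ^ n * (ten n (sc (Bt D 0)) ^ (j + 1)).trace := by
    rw [aeval_Epoly, expSum_fd_pow p n d (j + 1) ha (S.zet N) (S.zet_pow (by omega) hd N),
      expSum_block D (j + 1) ha (coeff_fd_pow (Fin 1) K p d (j + 1)) ζ hζ, prodn_Bt_fd,
      trace_ten_sc, Fintype.card_fin, pow_one, mul_pow]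
  rw [e1]
  generalize (ten n (sc (Bt D 0)) ^ (j + 1)).trace = T
  generalize (cs (ten n (sc (Bt D 0)))).coeff (r - j) = C0
  obtain ⟨k, rfl⟩ := Nat.exists_eq_add_of_le hn
  rw [Nat.add_sub_cancel_left, pow_add, pow_one]
  push_cast
  have h1 : ((-1 : S.Q N) ^ k) * (-1) ^ k = 1 := by rw [← mul_pow]; simp
  linear_combination (T * C0) * h1

end Setup

end Pool.Agent.H425
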