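import Pool.Agent.H425.Fp
import Pool.Agent.H425.Cube

set_option autoImplicit false
set_option linter.unusedSectionVars false
set_option linter.unusedVariables false

namespace Pool.Agent.H425

open MvPolynomial

theorem prodn_smul_map {m A B : Type} [Fintype m] [DecidableEq m] [CommRing A] [CommRing B]
    (φ : A →+* B) (T : ℕ → Matrix m m A) (κ : ℕ → B) (a : ℕ) :
    prodn (fun t => κ t • (T t).map φ) a = (∏ t ∈ Finset.range a, κ t) • (prodn T a).map φ := by
  induction a with
  | zero =>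
    rw [prodn, prodn, Finset.prod_range_zero, one_smul]
    exact (Matrix.map_one φ (map_zero φ) (map_one φ)).symm
  | succ a ih =>
    have h1 : (T a * prodn T a).map φ = (T a).map φ * (prodn T a).map φ := Matrix.map_mul
    rw [prodn, ih, Finset.prod_range_succ, prodn, h1, Matrix.smul_mul, Matrix.mul_smul, smul_smul,
      mul_comm (κ a)]

theorem trace_prodn_conj {m A : Type} [Fintype m] [DecidableEq m] [CommRing A] [IsDomain A]
    (S T : ℕ → Matrix m m A) (D : m → A) (hD : ∀ i, D i ≠ 0)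
    (h : ∀ t, Matrix.diagonal D * S t = T t * Matrix.diagonal D) (a : ℕ) :
    (prodn S a).trace = (prodn T a).trace := by
  have h1 : Matrix.diagonal D * prodn S a = prodn T a * Matrix.diagonal D := by
    induction a with
    | zero => rw [prodn, prodn, Matrix.mul_one, Matrix.one_mul]
    | succ a ih => rw [prodn, prodn, ← Matrix.mul_assoc, h a, Matrix.mul_assoc, ih, Matrix.mul_assoc]
  rw [Matrix.trace, Matrix.trace]
  refine Finset.sum_congr rfl fun i _ => ?_
  have h2 := congrFun (congrFun h1 i) i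
  rw [Matrix.diagonal_mul, Matrix.mul_diagonal] at h2
  rw [Matrix.diag_apply, Matrix.diag_apply]
  exact mul_left_cancel₀ (hD i) (h2.trans (mul_comm _ _))

theorem expand_mem_VV {ι L : Type} [Fintype ι] [DecidableEq ι] [CommRing L] {q M : ℕ} (hq : 0 < q)
    {F : MvPolynomial ι L} (hF : F ∈ VV ι L M) : expand q F ∈ VV ι L (q * M) := by
  rw [eq_sum_DD hF, map_sum]
  refine Submodule.sum_mem _ fun m hm => ?_
  rw [mem_DD] at hm
  rw [expand_monomial]
  exact monomial_mem_VV (by rw [map_nsmul, smul_eq_mul]; exact Nat.mul_le_mul_left _ hm) _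

theorem prod_expand_mem {ι L : Type} [Fintype ι] [DecidableEq ι] [CommRing L] {p M : ℕ} (hp : 0 < p)
    (F : ℕ → MvPolynomial ι L) (hF : ∀ t, F t ∈ VV ι L ((p - 1) * M)) (a : ℕ) :
    (∏ t ∈ Finset.range a, expand (p ^ t) (F t)) ∈ VV ι L ((p ^ a - 1) * M) := by
  induction a with
  | zero =>
    rw [Finset.prod_range_zero]
    simp only [pow_zero, Nat.sub_self, zero_mul]
    rw [← C_1, ← monomial_zero']
    exact monomial_mem_VV (by simp) _
  | succ a ih =>
    rw [Finset.prod_range_succ]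
    have h1 := mul_mem_VV ih (expand_mem_VV (pow_pos hp a) (hF a))
    have h2 : (p ^ a - 1) * M + p ^ a * ((p - 1) * M) = (p ^ (a + 1) - 1) * M := by
      have h3 : 1 ≤ p ^ a := Nat.one_le_pow _ _ hp
      have h4 : p ^ a * (p - 1) + p ^ a = p ^ (a + 1) := by
        calc p ^ a * (p - 1) + p ^ a = p ^ a * (p - 1 + 1) := by ring
          _ = _ := by rw [Nat.sub_add_cancel hp, pow_succ]
      rw [← mul_assoc, ← add_mul]
      congr 1
      omega
    rwa [h2] at h1

theorem eval_expand' {ι L : Type} [CommRing L] (q : ℕ) (F : MvPolynomial ι L) (x : ι → L) :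
    eval x (expand q F) = eval (fun i => x i ^ q) F := by
  induction F using MvPolynomial.induction_on with
  | C a => simp
  | add p q hp hq => rw [map_add, map_add, hp, hq, map_add]
  | mul_X p i hp => rw [map_mul, map_mul, hp, map_mul, expand_X, map_pow, eval_X, eval_X]

namespace Setup

variable {p d : ℕ} [hp : Fact p.Prime] {K R : Type} [Field K] [CommRing R] [IsDomain R]
  (S : Setup p d K R) {ι : Type} [Fintype ι] [DecidableEq ι]

/-- the scalar of the constant term -/
noncomputable def kap (N : ℕ) (f : MvPolynomial ι K) (t : ℕ) : S.Q N :=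
  (S.thp N).eval (S.rd N (S.tc f t 0))

/-- Dwork operators in the weighted lattice -/
noncomputable def alt (N : ℕ) (f : MvPolynomial ι K) (A : Finset ι) (t : ℕ) :
    MvPolynomial ι (S.Q N) →ₗ[S.Q N] MvPolynomial ι (S.Q N) :=
  S.al N (su f) (S.tc f t) (S.kap N f t) (oneA A)

/-- Dwork operators in the standard lattice -/
noncomputable def xot (N : ℕ) (f : MvPolynomial ι K) (A : Finset ι) (t : ℕ) :
    MvPolynomial ι (S.Q N) →ₗ[S.Q N] MvPolynomial ι (S.Q N) :=
  (psi A p) ∘ₗ (LinearMap.mulLeft (S.Q N) (S.Fpoly N (su f) (S.tc f t) (S.tc f t 0)))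

theorem su_zero (f : MvPolynomial ι K) : (0 : ι →₀ ℕ) ∉ su f := Finset.notMem_erase _ _

theorem su_degree (f : MvPolynomial ι K) {d : ℕ} (hf : f.totalDegree ≤ d) :
    ∀ s ∈ su f, s.degree ≤ d := by
  intro s hs
  rw [su, Finset.mem_erase] at hs
  refine le_trans ?_ hf
  rw [totalDegree]
  exact Finset.le_sup (f := fun s : ι →₀ ℕ => s.sum fun _ e => e) hs.2

theorem coeff_alt (hp4 : 4 ≤ p) (N : ℕ) (f : MvPolynomial ι K) (hf : f.totalDegree ≤ d)
    (A : Finset ι) (t : ℕ) (u v : ι →₀ ℕ) (r : S.Q N) :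
    coeff v (S.alt N f A t (monomial u r)) =
      S.kap N f t * S.kb N (su f) (S.tc f t) (v + oneA A) (u + oneA A) * r :=
  S.coeff_al hp4 N (su f) (S.tc f t) (su_zero f) (su_degree f hf) _ _ _ _ _

theorem kb_vanish (hp4 : 4 ≤ p) (N : ℕ) (f : MvPolynomial ι K) (hf : f.totalDegree ≤ d)
    (t : ℕ) (V U : ι →₀ ℕ) (hV : N ≤ V.degree) : S.kb N (su f) (S.tc f t) V U = 0 := by
  rw [kb, rd_eq_zero]
  refine (pow_dvd_pow _ ?_).trans (S.ker_spec (by omega) (su f) (S.tc f t) (su_zero f)
    (su_degree f hf) V U).1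
  have : 1 ≤ p - 3 := by omega
  calc N ≤ 1 * V.degree := by omega
    _ ≤ _ := Nat.mul_le_mul_right _ this

theorem alt_mem (hp4 : 4 ≤ p) (N : ℕ) (f : MvPolynomial ι K) (hf : f.totalDegree ≤ d)
    (A : Finset ι) (t : ℕ) (P : MvPolynomial ι (S.Q N)) : S.alt N f A t P ∈ VV ι (S.Q N) N := by
  obtain ⟨M, hM⟩ := exists_VV P
  rw [eq_sum_DD hM, map_sum]
  refine Submodule.sum_mem _ fun u _ => ?_
  intro v hv
  rw [S.coeff_alt hp4 N f hf, S.kb_vanish hp4 N f hf, mul_zero, zero_mul]
  rw [map_add]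
  omega

theorem trace_alt_xot (hp4 : 4 ≤ p) (hd : 1 ≤ d) (N : ℕ) (f : MvPolynomial ι K)
    (hf : f.totalDegree ≤ d) (A : Finset ι) (a M : ℕ) (hM : 3 * N ≤ M) :
    (mat M (compn (S.alt N f A) a)).trace = (mat M (compn (S.xot N f A) a)).trace := by
  have hFm : ∀ t, S.Fpoly N (su f) (S.tc f t) (S.tc f t 0) ∈ VV ι (S.Q N) ((p - 1) * M) := by
    intro t
    refine VV_mono ?_ (S.Fpoly_mem (by omega) hd N (su f) (S.tc f t) (S.tc f t 0) (su_zero f)
      (su_degree f hf))
    have : 1 ≤ p - 1 := by omega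
    calc 3 * N ≤ 1 * M := by omega
      _ ≤ _ := Nat.mul_le_mul_right _ this
  rw [mat_compn, mat_compn]
  · set A₁ : ℕ → Matrix (DD ι M) (DD ι M) R := fun t v u =>
      S.ker (su f) (S.tc f t) (v.1 + oneA A) (u.1 + oneA A) with hA₁
    set B₁ : ℕ → Matrix (DD ι M) (DD ι M) R := fun t v u =>
      S.Gk (su f) (S.tc f t) (v.1 + oneA A) (u.1 + oneA A) with hB₁
    have h1 : (fun t => mat M (S.alt N f A t)) = fun t => S.kap N f t • (A₁ t).map (S.rd N) := by
      funext t
      ext v u
      rw [mat, S.coeff_alt hp4 N f hf, mul_one]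
      rfl
    have h2 : (fun t => mat M (S.xot N f A t)) = fun t => S.kap N f t • (B₁ t).map (S.rd N) := by
      funext t
      ext v u
      rw [mat, xot, LinearMap.comp_apply, LinearMap.mulLeft_apply, coeff_psi A hp.out.pos,
        coeff_mul_monomial', mul_one]
      rw [Matrix.smul_apply, Matrix.map_apply, smul_eq_mul, hB₁]
      simp only [Gk]
      have e1 : u.1 ≤ ix A p v.1 ↔ u.1 + oneA A ≤ p • (v.1 + oneA A) := by
        refine forall_congr' fun i => ?_
        rw [ix_apply, Finsupp.smul_apply, Finsupp.add_apply, Finsupp.add_apply, smul_eq_mul]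
        have : oneA A i ≤ p * (v.1 i + oneA A i) := by
          have := hp.out.pos
          nlinarith [Nat.zero_le (v.1 i)]
        omega
      by_cases h : u.1 ≤ ix A p v.1
      · have e2 : ix A p v.1 - u.1 = p • (v.1 + oneA A) - (u.1 + oneA A) := by
          ext i
          rw [Finsupp.tsub_apply, Finsupp.tsub_apply, ix_apply, Finsupp.smul_apply, Finsupp.add_apply,
            Finsupp.add_apply, smul_eq_mul]
          omega
        rw [if_pos h, if_pos (e1.1 h), S.coeff_Fpoly (by omega) hd N _ _ _ (su_zero f), kap, e2]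
      · rw [if_neg h, if_neg (fun h' => h (e1.2 h')), map_zero, mul_zero]
    rw [h1, h2, prodn_smul_map, prodn_smul_map, Matrix.trace_smul, Matrix.trace_smul]
    congr 1
    have h3 : ∀ T : Matrix (DD ι M) (DD ι M) R, (T.map (S.rd N)).trace = S.rd N T.trace := by
      intro T
      rw [Matrix.trace, Matrix.trace, map_sum]
      rfl
    rw [h3, h3]
    congr 1
    refine trace_prodn_conj A₁ B₁ (fun v => S.lam ^ v.1.degree)
      (fun v => pow_ne_zero _ S.lam_ne) ?_ a
    intro t
    ext v u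
    rw [Matrix.diagonal_mul, Matrix.mul_diagonal]
    have h4 := (S.ker_spec (by omega) (su f) (S.tc f t) (su_zero f) (su_degree f hf)
      (v.1 + oneA A) (u.1 + oneA A)).2
    rw [map_add, map_add, pow_add, pow_add] at h4
    apply mul_left_cancel₀ (pow_ne_zero (oneA A).degree S.lam_ne)
    simp only [hA₁, hB₁]
    linear_combination h4
  · intro t P hP
    exact psi_mem_VV A hp.out.pos (hFm t) hP
  · intro t P hP
    exact VV_mono (by omega) (S.alt_mem hp4 N f hf A t P)

/-- **the trace formula on the chain level** -/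
theorem trace_formula [CharP K p] (hp5 : 5 ≤ p) (hd : 1 ≤ d) (N : ℕ) (f : MvPolynomial ι K)
    (hf : f.totalDegree ≤ d) (a M : ℕ) (ha : 1 ≤ a) (hM : 3 * N ≤ M) (ζ : K)
    (hζ : IsPrimitiveRoot ζ (p ^ a - 1)) :
    ∑ x ∈ Fintype.piFinset (fun _ : ι => FQ K (p ^ a)),
      ∏ t ∈ Finset.range a, eval (fun i => S.rd N (S.tau (x i)) ^ (p ^ t))
        (S.Fpoly N (su f) (S.tc f t) (S.tc f t 0)) =
      ∑ A : Finset ι, (-1) ^ A.card * ((p ^ a : ℕ) : S.Q N) ^ (Aᶜ).card *
        (mat M (compn (S.alt N f A) a)).trace := by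
  have hQ : 2 ≤ p ^ a := by
    calc 2 ≤ p := hp.out.two_le
      _ = p ^ 1 := (pow_one p).symm
      _ ≤ p ^ a := Nat.pow_le_pow_right hp.out.pos ha
  have hFm : ∀ t, S.Fpoly N (su f) (S.tc f t) (S.tc f t 0) ∈ VV ι (S.Q N) ((p - 1) * M) := by
    intro t
    refine VV_mono ?_ (S.Fpoly_mem (by omega) hd N (su f) (S.tc f t) (S.tc f t 0) (su_zero f)
      (su_degree f hf))
    have : 1 ≤ p - 1 := by omega
    calc 3 * N ≤ 1 * M := by omega
      _ ≤ _ := Nat.mul_le_mul_right _ this
  set G := ∏ t ∈ Finset.range a, expand (p ^ t) (S.Fpoly N (su f) (S.tc f t) (S.tc f t 0)) with hG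
  have hGm : G ∈ VV ι (S.Q N) ((p ^ a - 1) * M) := prod_expand_mem hp.out.pos _ hFm a
  have h1 : ∀ x : ι → K, ∏ t ∈ Finset.range a, eval (fun i => S.rd N (S.tau (x i)) ^ (p ^ t))
        (S.Fpoly N (su f) (S.tc f t) (S.tc f t 0)) = eval (fun i => S.rd N (S.tau (x i))) G := by
    intro x
    rw [hG, map_prod]
    refine Finset.prod_congr rfl fun t _ => ?_
    rw [eval_expand']
  simp only [h1]
  rw [S.sum_eval N (p ^ a) hQ ζ hζ M G hGm]
  refine Finset.sum_congr rfl fun A _ => ?_
  congr 1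
  rw [S.trace_alt_xot (by omega) hd N f hf A a M hM, ← trace_mat_psi A (by omega) G M]
  congr 2
  refine LinearMap.ext fun P => ?_
  rw [LinearMap.comp_apply, LinearMap.mulLeft_apply]
  exact (compn_psi A hp.out.pos _ a P).symm

end Setup

end Pool.Agent.H425
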