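import Pool.Agent.H425.DD

set_option autoImplicit false
set_option linter.unusedSectionVars false
set_option linter.unusedVariables false

/-!
# The basis adapted to the operators `∂_i + ∂_i H`
-/

namespace Pool.Agent.H425

open MvPolynomial

variable {ι : Type} [Fintype ι] [DecidableEq ι] {L : Type} [CommRing L]

theorem pderiv_comm' (i j : ι) (P : MvPolynomial ι L) :
    pderiv i (pderiv j P) = pderiv j (pderiv i P) := by
  by_cases hij : i = j
  · rw [hij]
  · ext m
    rw [coeff_pderiv, coeff_pderiv, coeff_pderiv, coeff_pderiv, add_right_comm]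
    rw [Finsupp.add_apply, Finsupp.add_apply, Finsupp.single_eq_of_ne (Ne.symm hij),
      Finsupp.single_eq_of_ne hij]
    push_cast
    ring

/-- the operators `∂_i + ∂_i H` -/
noncomputable def yop (H : MvPolynomial ι L) (i : ι) : Module.End L (MvPolynomial ι L) :=
  (pderiv i).toLinearMap + LinearMap.mulLeft L (pderiv i H)

theorem yop_apply (H : MvPolynomial ι L) (i : ι) (P : MvPolynomial ι L) :
    yop H i P = pderiv i P + pderiv i H * P := rfl

theorem yop_comm (H : MvPolynomial ι L) (i j : ι) : yop H i * yop H j = yop H j * yop H i := by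
  refine LinearMap.ext fun P => ?_
  rw [Module.End.mul_apply, Module.End.mul_apply, yop_apply, yop_apply, yop_apply, yop_apply,
    map_add, map_add, Derivation.leibniz, Derivation.leibniz, pderiv_comm' i j P, pderiv_comm' i j H]
  simp only [smul_eq_mul]
  ring

/-- powers of the operators -/
noncomputable def ypow (H : MvPolynomial ι L) : (∀ _ : ι, Multiplicative ℕ) →* Module.End L (MvPolynomial ι L) :=
  MonoidHom.noncommPiCoprod (fun i => powersHom _ (yop H i)) (by
    intro i j _ x y
    have h : Commute (yop H i) (yop H j) := yop_comm H i j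
    exact h.pow_pow _ _)

theorem ypow_single (H : MvPolynomial ι L) (i : ι) (a : ℕ) :
    ypow H (Pi.mulSingle i (Multiplicative.ofAdd a)) = yop H i ^ a := by
  rw [ypow, MonoidHom.noncommPiCoprod_mulSingle]
  rfl

/-- `y ^ γ` for an exponent `γ` -/
noncomputable def yp (H : MvPolynomial ι L) (γ : ι →₀ ℕ) : Module.End L (MvPolynomial ι L) :=
  ypow H (fun i => Multiplicative.ofAdd (γ i))

theorem yp_add (H : MvPolynomial ι L) (γ γ' : ι →₀ ℕ) : yp H (γ + γ') = yp H γ * yp H γ' := by
  rw [yp, yp, yp, ← map_mul]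
  rfl

theorem yp_zero (H : MvPolynomial ι L) : yp H 0 = 1 := by
  rw [yp, ← map_one (ypow H)]
  rfl

theorem yp_single (H : MvPolynomial ι L) (i : ι) (a : ℕ) :
    yp H (Finsupp.single i a) = yop H i ^ a := by
  rw [← ypow_single, yp]
  congr 1
  ext j
  by_cases h : j = i
  · subst h
    simp
  · rw [Finsupp.single_eq_of_ne h, Pi.mulSingle_eq_of_ne h]
    rfl

theorem yop_mem_VV {H : MvPolynomial ι L} {e : ℕ} (hH : H ∈ VV ι L (e + 1)) (i : ι) {M : ℕ}
    {P : MvPolynomial ι L} (hP : P ∈ VV ι L M) : yop H i P ∈ VV ι L (M + e) := by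
  rw [yop_apply]
  refine Submodule.add_mem _ ?_ ?_
  · exact VV_mono (by omega) (pderiv_mem_VV hP i)
  · have := mul_mem_VV (pderiv_mem_VV hH i) hP
    rwa [Nat.add_sub_cancel, add_comm] at this

theorem yp_mem_VV {H : MvPolynomial ι L} {e : ℕ} (hH : H ∈ VV ι L (e + 1)) (γ : ι →₀ ℕ) :
    ∀ {M : ℕ} {P : MvPolynomial ι L}, P ∈ VV ι L M → yp H γ P ∈ VV ι L (M + e * γ.degree) := by
  induction γ using Finsupp.induction_linear with
  | zero =>
    intro M P hP
    rw [yp_zero]
    simpa using hP
  | add f g hf hg =>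
    intro M P hP
    rw [yp_add, Module.End.mul_apply, map_add, mul_add, add_comm (e * f.degree), ← add_assoc]
    exact hf (hg hP)
  | single i a =>
    rw [yp_single, Finsupp.degree_single]
    induction a with
    | zero =>
      intro M P hP
      simpa using hP
    | succ a ih =>
      intro M P hP
      rw [pow_succ', Module.End.mul_apply, mul_add, mul_one, ← add_assoc]
      exact yop_mem_VV hH i (ih hP)

/-- quotient and remainder of exponents -/
noncomputable def qt (e : ℕ) (w : ι →₀ ℕ) : ι →₀ ℕ := Finsupp.equivFunOnFinite.symm (fun i => w i / e)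

/-- remainders -/
def rm (e : ℕ) (he : 0 < e) (w : ι →₀ ℕ) : ι → Fin e := fun i => ⟨w i % e, Nat.mod_lt _ he⟩

theorem degree_qt_rm (e : ℕ) (he : 0 < e) (w : ι →₀ ℕ) :
    ∑ i, ((rm e he w i : Fin e) : ℕ) + e * (qt e w).degree = w.degree := by
  have h1 : (qt e w).degree = ∑ i, w i / e := by
    rw [Finsupp.degree_eq_sum]
    rfl
  rw [h1, Finsupp.degree_eq_sum, Finset.mul_sum, ← Finset.sum_add_distrib]
  refine Finset.sum_congr rfl fun i _ => ?_
  exact Nat.mod_add_div (w i) e

/-- the adapted basis -/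
noncomputable def Phi (H : MvPolynomial ι L) (e : ℕ) (he : 0 < e) (b : (ι → Fin e) → (ι →₀ ℕ)) :
    MvPolynomial ι L →ₗ[L] MvPolynomial ι L :=
  (basisMonomials ι L).constr L (fun w => yp H (qt e w) (monomial (b (rm e he w)) 1))

theorem Phi_monomial (H : MvPolynomial ι L) (e : ℕ) (he : 0 < e) (b : (ι → Fin e) → (ι →₀ ℕ))
    (w : ι →₀ ℕ) : Phi H e he b (monomial w 1) = yp H (qt e w) (monomial (b (rm e he w)) 1) := by
  have := (basisMonomials ι L).constr_basis L (fun w => yp H (qt e w) (monomial (b (rm e he w)) (1 : L))) w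
  rw [coe_basisMonomials] at this
  exact this

theorem qt_add (e : ℕ) (he : 0 < e) (w : ι →₀ ℕ) (i : ι) :
    qt e (Finsupp.single i e + w) = Finsupp.single i 1 + qt e w := by
  ext j
  simp only [qt, Finsupp.equivFunOnFinite_symm_apply_apply, Finsupp.add_apply]
  by_cases h : j = i
  · subst h
    rw [Finsupp.single_eq_same, Finsupp.single_eq_same, Nat.add_div_left _ he]
    omega
  · rw [Finsupp.single_eq_of_ne h, Finsupp.single_eq_of_ne h, zero_add, zero_add]

theorem rm_add (e : ℕ) (he : 0 < e) (w : ι →₀ ℕ) (i : ι) :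
    rm e he (Finsupp.single i e + w) = rm e he w := by
  ext j
  simp only [rm, Finsupp.add_apply]
  by_cases h : j = i
  · subst h
    rw [Finsupp.single_eq_same, Nat.add_mod_left]
  · rw [Finsupp.single_eq_of_ne h, zero_add]

/-- the basis intertwines `y_i` and multiplication by `X_i ^ e` -/
theorem Phi_X (H : MvPolynomial ι L) (e : ℕ) (he : 0 < e) (b : (ι → Fin e) → (ι →₀ ℕ)) (i : ι)
    (P : MvPolynomial ι L) : Phi H e he b (X i ^ e * P) = yop H i (Phi H e he b P) := by
  have h : (Phi H e he b) ∘ₗ (LinearMap.mulLeft L (X i ^ e)) = (yop H i) ∘ₗ (Phi H e he b) := by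
    refine linmap_ext fun w => ?_
    rw [LinearMap.comp_apply, LinearMap.comp_apply, LinearMap.mulLeft_apply, X_pow_eq_monomial,
      monomial_mul, one_mul, Phi_monomial, Phi_monomial, qt_add e he, rm_add e he, yp_add, yp_single,
      pow_one, Module.End.mul_apply]
  exact LinearMap.congr_fun h P

theorem Phi_mem_VV {H : MvPolynomial ι L} {e : ℕ} (he : 0 < e) (hH : H ∈ VV ι L (e + 1))
    {b : (ι → Fin e) → (ι →₀ ℕ)} (hb : ∀ u, (b u).degree = ∑ i, (u i : ℕ)) {M : ℕ}
    {P : MvPolynomial ι L} (hP : P ∈ VV ι L M) : Phi H e he b P ∈ VV ι L M := by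
  rw [eq_sum_DD hP, map_sum]
  refine Submodule.sum_mem _ fun m hm => ?_
  rw [mem_DD] at hm
  have : monomial m (coeff m P) = coeff m P • monomial m (1 : L) := by
    rw [smul_monomial, smul_eq_mul, mul_one]
  rw [this, map_smul]
  refine Submodule.smul_mem _ _ ?_
  rw [Phi_monomial]
  have h1 := yp_mem_VV hH (qt e m) (M := (b (rm e he m)).degree)
    (P := monomial (b (rm e he m)) (1 : L)) (monomial_mem_VV le_rfl 1)
  rw [hb, degree_qt_rm] at h1
  exact VV_mono hm h1

end Pool.Agent.H425
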